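import Mathlib

namespace Pool.Agent.Lib.MP_30f764_gt
open Filter Topology Metric MeasureTheory

/-- `C` is a configuration (finitely many points in every bounded set) of density `ρ`. -/
def IsConfig {n : ℕ} (C : Set (EuclideanSpace ℝ (Fin n))) (ρ : ℝ) : Prop :=
  (∀ s, Bornology.IsBounded s → (C ∩ s).Finite) ∧
  Tendsto (fun r : ℝ => ((C ∩ closedBall 0 r).ncard : ℝ) /
    volume.real (closedBall (0 : EuclideanSpace ℝ (Fin n)) r)) atTop (𝓝 ρ)

/-- Lower Gaussian energy of `C`, a sum over ordered pairs of distinct points. -/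
noncomputable def energy {n : ℕ} (α : ℝ) (C : Set (EuclideanSpace ℝ (Fin n))) : ENNReal :=
  liminf (fun r : ℝ => ENNReal.ofReal
    ((∑ᶠ p ∈ (C ∩ closedBall 0 r).offDiag, Real.exp (-α * dist p.1 p.2 ^ 2)) /
      ((C ∩ closedBall 0 r).ncard : ℝ))) atTop

/-- Minimal energy among configurations of density `ρ` in dimension `n`. -/
noncomputable def minEnergy (n : ℕ) (α ρ : ℝ) : ENNReal :=
  ⨅ C ∈ {C : Set (EuclideanSpace ℝ (Fin n)) | IsConfig C ρ}, energy α C

end Pool.Agent.Lib.MP_30f764_gt
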