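import Pool.Agent.Lib.MP_30f764_gt.Kernel
import Pool.Agent.Lib.MP_30f764_gt.Defs

/-! Averaging the kernel inequality over translations. -/

namespace Pool.Agent.Lib.MP_30f764_gt
open Finset Filter Topology Metric MeasureTheory

variable {n K : ℕ}

lemma gauss_int {b : ℝ} (hb : 0 < b) :
    ∫ x : EuclideanSpace ℝ (Fin n), Real.exp (-b * ‖x‖ ^ 2) = (Real.pi / b) ^ ((n : ℝ) / 2) := by
  rw [GaussianFourier.integral_rexp_neg_mul_sq_norm hb]; simp

lemma gauss_integrable {b : ℝ} (hb : 0 < b) :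
    Integrable fun x : EuclideanSpace ℝ (Fin n) => Real.exp (-b * ‖x‖ ^ 2) := by
  refine Integrable.of_integral_ne_zero ?_
  rw [gauss_int hb]
  have := Real.pi_pos
  positivity

lemma ind_integrable (z : EuclideanSpace ℝ (Fin n)) (L a : ℝ) :
    Integrable ((closedBall z L).indicator fun _ => a) :=
  (integrable_indicator_iff measurableSet_closedBall).2
    (integrableOn_const measure_closedBall_lt_top.ne)

lemma vol_ball (r : ℝ) (hr : 0 ≤ r) : volume.real (closedBall (0 : EuclideanSpace ℝ (Fin n)) r)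
    = r ^ n * volume.real (closedBall (0 : EuclideanSpace ℝ (Fin n)) 1) := by
  rw [Measure.real, Measure.addHaar_closedBall' _ _ hr, ENNReal.toReal_mul,
    ENNReal.toReal_ofReal (by positivity)]
  simp [Measure.real]

lemma vol_one_pos : 0 < volume.real (closedBall (0 : EuclideanSpace ℝ (Fin n)) 1) :=
  ENNReal.toReal_pos (measure_closedBall_pos _ _ one_pos).ne' measure_closedBall_lt_top.ne

lemma vol_ratio (L : ℝ) : Tendsto (fun r : ℝ =>
    volume.real (closedBall (0 : EuclideanSpace ℝ (Fin n)) (r + L)) /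
      volume.real (closedBall (0 : EuclideanSpace ℝ (Fin n)) r)) atTop (𝓝 1) := by
  have h : Tendsto (fun r : ℝ => (1 + L / r) ^ n) atTop (𝓝 ((1 + 0) ^ n)) :=
    ((tendsto_const_nhds.div_atTop tendsto_id).const_add 1).pow n
  simp only [add_zero, one_pow] at h
  refine h.congr' ?_
  filter_upwards [eventually_gt_atTop 0, eventually_ge_atTop (-L)] with r hr hr'
  have := (vol_one_pos (n := n)).ne'
  rw [vol_ball _ hr.le, vol_ball (r + L) (by linarith), mul_div_mul_right _ _ this, ← div_pow]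
  congr 1; field_simp

theorem avg_bound (hn : 3 ≤ n) (hK : 1 ≤ K) {α β γ c L D W0 r : ℝ} (hβ : 0 < β)
    (hγ : γ = α + β / 2) (hc : c = 2 * α - β) (hc0 : 0 ≤ c) (hL : 0 ≤ L) (hD0 : 0 ≤ D)
    (W : EuclideanSpace ℝ (Fin n) → ℝ) (hWm : Measurable W) (hW : ∀ x, 0 ≤ W x)
    (hW1 : ∀ x, W x ≤ Real.exp (-γ * ‖x‖ ^ 2)) (hW2 : ∀ x, W x ≤ W0)
    (hW3 : ∀ x, W x ≠ 0 → x ≠ 0 ∧ ‖x‖ ≤ L)
    (hD : ∀ M, ∑ m ∈ range M, (c * L ^ 2) ^ m / (m.factorial : ℝ) * hh n K m 1 ≤ D)
    (I : Finset ℕ) (lam : ℕ → ℝ) (X : Finset (EuclideanSpace ℝ (Fin n)))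
    (hX : ∀ x ∈ X, ‖x‖ ≤ r) :
    ∑ m ∈ I, c ^ m / (m.factorial : ℝ) * qq n K m 0 *
      (2 * lam m * (X.card * ∫ x, W x * ‖x‖ ^ m) - lam m ^ 2 *
        volume.real (closedBall (0 : EuclideanSpace ℝ (Fin n)) (r + L)))
      ≤ (∑ p ∈ X.offDiag, Real.exp (-α * dist p.1 p.2 ^ 2)) * (Real.pi / (2 * β)) ^ ((n : ℝ) / 2)
        + X.card * (W0 ^ 2 * D * volume.real (closedBall (0 : EuclideanSpace ℝ (Fin n)) L)) := by
  classical
  have hφ : ∀ m : ℕ, Integrable fun x : EuclideanSpace ℝ (Fin n) => W x * ‖x‖ ^ m := by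
    intro m
    refine (ind_integrable 0 L (W0 * L ^ m)).mono' (by fun_prop) (Eventually.of_forall fun x => ?_)
    by_cases h : W x = 0
    · simp only [h, zero_mul, norm_zero]
      exact Set.indicator_nonneg (fun _ _ => mul_nonneg ((hW x).trans (hW2 x)) (by positivity)) _
    · have h1 := (hW3 x h).2
      have h2 := hW x
      rw [Set.indicator_of_mem (by simpa using h1), Real.norm_of_nonneg (by positivity)]
      exact mul_le_mul (hW2 x) (by gcongr) (by positivity) (h2.trans (hW2 x))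
  have hS : ∀ m : ℕ, Integrable fun z : EuclideanSpace ℝ (Fin n) =>
      ∑ x ∈ X, W (x - z) * ‖x - z‖ ^ m := fun m =>
    integrable_finsetSum _ fun x _ => (hφ m).comp_sub_left x
  have hg : ∀ p : EuclideanSpace ℝ (Fin n) × EuclideanSpace ℝ (Fin n), Integrable fun z =>
      Real.exp (-α * dist p.1 p.2 ^ 2) *
        Real.exp (-(2 * β) * ‖(1 / 2 : ℝ) • (p.1 + p.2) - z‖ ^ 2) := fun p =>
    ((gauss_integrable (by positivity)).comp_sub_left _).const_mul _
  have hpt : ∀ z : EuclideanSpace ℝ (Fin n),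
      ∑ m ∈ I, c ^ m / (m.factorial : ℝ) * qq n K m 0 *
        (2 * lam m * (∑ x ∈ X, W (x - z) * ‖x - z‖ ^ m) -
          (closedBall (0 : EuclideanSpace ℝ (Fin n)) (r + L)).indicator (fun _ => lam m ^ 2) z)
      ≤ ∑ p ∈ X.offDiag, Real.exp (-α * dist p.1 p.2 ^ 2) *
          Real.exp (-(2 * β) * ‖(1 / 2 : ℝ) • (p.1 + p.2) - z‖ ^ 2)
        + ∑ x ∈ X, (closedBall x L).indicator (fun _ => W0 ^ 2 * D) z := by
    intro z
    refine le_trans ?_ ((kernel_bound hn hK X (fun x => x - z) (fun x => W (x - z)) hc0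
      (fun _ => hW _) (fun _ => hW3 _) hD I).trans (add_le_add ?_ ?_))
    · refine Finset.sum_le_sum fun m _ => mul_le_mul_of_nonneg_left ?_ ?_
      · by_cases hz : z ∈ closedBall (0 : EuclideanSpace ℝ (Fin n)) (r + L)
        · rw [Set.indicator_of_mem hz]
          nlinarith [sq_nonneg (∑ x ∈ X, W (x - z) * ‖x - z‖ ^ m - lam m)]
        · rw [Set.indicator_of_notMem hz]
          have : ∑ x ∈ X, W (x - z) * ‖x - z‖ ^ m = 0 := Finset.sum_eq_zero fun x hx => by
            by_cases h : W (x - z) = 0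
            · simp [h]
            · exfalso
              apply hz
              have h1 := (hW3 _ h).2
              have h2 := hX x hx
              have h3 : ‖z‖ ≤ ‖x‖ + ‖x - z‖ := by
                simpa using norm_sub_le x (x - z)
              simp only [mem_closedBall, dist_zero_right]
              linarith
          simp [this]
      · have := qq_nonneg (K := K) hn m 0
        positivity
    · refine Finset.sum_le_sum fun p _ => ?_
      calc _ ≤ Real.exp (-γ * ‖p.1 - z‖ ^ 2) * Real.exp (-γ * ‖p.2 - z‖ ^ 2) *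
            Real.exp (c * inner ℝ (p.1 - z) (p.2 - z)) :=
            mul_le_mul_of_nonneg_right (mul_le_mul (hW1 _) (hW1 _) (hW _) (Real.exp_pos _).le)
              (Real.exp_pos _).le
        _ = _ := by
            rw [← Real.exp_add, ← Real.exp_add, ← Real.exp_add]
            congr 1
            have e1 : dist p.1 p.2 = ‖(p.1 - z) - (p.2 - z)‖ := by
              rw [dist_eq_norm]; congr 1; abel
            have e2 : (1 / 2 : ℝ) • (p.1 + p.2) - z = (1 / 2 : ℝ) • ((p.1 - z) + (p.2 - z)) := by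
              module
            rw [e1, e2, norm_smul, mul_pow, norm_sub_sq_real (p.1 - z) (p.2 - z),
              norm_add_sq_real, hγ, hc, Real.norm_of_nonneg (by norm_num : (0 : ℝ) ≤ 1 / 2)]
            ring
    · refine Finset.sum_le_sum fun x _ => ?_
      by_cases h : W (x - z) = 0
      · simp only [h]
        simpa using Set.indicator_nonneg (fun _ _ => by positivity) _
      · have h1 := (hW3 _ h).2
        rw [Set.indicator_of_mem (by rwa [mem_closedBall, dist_comm, dist_eq_norm])]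
        have := hW (x - z)
        have := hW2 (x - z)
        gcongr
  have hI := integral_mono
    (integrable_finsetSum I fun m _ =>
      (((hS m).const_mul (2 * lam m)).sub (ind_integrable 0 (r + L) (lam m ^ 2))).const_mul
        (c ^ m / (m.factorial : ℝ) * qq n K m 0))
    ((integrable_finsetSum X.offDiag fun p _ => hg p).add
      (integrable_finsetSum X fun x _ => ind_integrable x L (W0 ^ 2 * D))) hpt
  rw [integral_finsetSum _ fun m _ =>
      (((hS m).const_mul (2 * lam m)).sub (ind_integrable 0 (r + L) (lam m ^ 2))).const_mul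
        (c ^ m / (m.factorial : ℝ) * qq n K m 0)] at hI
  simp only [Pi.add_apply] at hI
  rw [integral_add (integrable_finsetSum X.offDiag fun p _ => hg p)
      (integrable_finsetSum X fun x _ => ind_integrable x L (W0 ^ 2 * D)),
    integral_finsetSum _ fun p _ => hg p,
    integral_finsetSum _ fun x _ => ind_integrable x L (W0 ^ 2 * D)] at hI
  refine le_trans (le_of_eq ?_) (hI.trans (le_of_eq ?_))
  · refine Finset.sum_congr rfl fun m _ => ?_
    simp only [Pi.sub_apply]
    rw [integral_const_mul, integral_sub ((hS m).const_mul _) (ind_integrable _ _ _),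
      integral_const_mul, integral_finsetSum _ fun x _ => (hφ m).comp_sub_left x,
      integral_indicator_const _ measurableSet_closedBall]
    have : ∀ x : EuclideanSpace ℝ (Fin n), ∫ z, W (x - z) * ‖x - z‖ ^ m = ∫ z, W z * ‖z‖ ^ m :=
      fun x => integral_sub_left_eq_self (fun z => W z * ‖z‖ ^ m) volume x
    simp only [this, Finset.sum_const, nsmul_eq_mul, smul_eq_mul]
    ring
  · congr 1
    · rw [Finset.sum_mul]
      refine Finset.sum_congr rfl fun p _ => ?_
      rw [integral_const_mul, integral_sub_left_eq_self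
        (fun z : EuclideanSpace ℝ (Fin n) => Real.exp (-(2 * β) * ‖z‖ ^ 2)) volume,
        gauss_int (by positivity)]
    · have : ∀ x : EuclideanSpace ℝ (Fin n), ∫ z, (closedBall x L).indicator
          (fun _ => W0 ^ 2 * D) z
          = W0 ^ 2 * D * volume.real (closedBall (0 : EuclideanSpace ℝ (Fin n)) L) := fun x => by
        rw [integral_indicator_const _ measurableSet_closedBall, smul_eq_mul, mul_comm,
          Measure.real, Measure.real, Measure.addHaar_closedBall_center]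
      simp only [this, Finset.sum_const, nsmul_eq_mul]

theorem energy_lower (hn : 3 ≤ n) (hK : 1 ≤ K) {α β γ c L D W0 ρ : ℝ} (hβ : 0 < β) (hρ : 0 < ρ)
    (hγ : γ = α + β / 2) (hc : c = 2 * α - β) (hc0 : 0 ≤ c) (hL : 0 ≤ L) (hD0 : 0 ≤ D)
    (W : EuclideanSpace ℝ (Fin n) → ℝ) (hWm : Measurable W) (hW : ∀ x, 0 ≤ W x)
    (hW1 : ∀ x, W x ≤ Real.exp (-γ * ‖x‖ ^ 2)) (hW2 : ∀ x, W x ≤ W0)
    (hW3 : ∀ x, W x ≠ 0 → x ≠ 0 ∧ ‖x‖ ≤ L)
    (hD : ∀ M, ∑ m ∈ range M, (c * L ^ 2) ^ m / (m.factorial : ℝ) * hh n K m 1 ≤ D)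
    (I : Finset ℕ) :
    ENNReal.ofReal ((ρ * ∑ m ∈ I, c ^ m / (m.factorial : ℝ) * qq n K m 0 *
      (∫ x, W x * ‖x‖ ^ m) ^ 2 - W0 ^ 2 * D *
        volume.real (closedBall (0 : EuclideanSpace ℝ (Fin n)) L)) /
        (Real.pi / (2 * β)) ^ ((n : ℝ) / 2)) ≤ minEnergy n α ρ := by
  classical
  refine le_iInf₂ fun C hC => ?_
  obtain ⟨hfin, hden⟩ := hC
  set J : ℕ → ℝ := fun m => ∫ x, W x * ‖x‖ ^ m with hJ
  set G : ℝ := (Real.pi / (2 * β)) ^ ((n : ℝ) / 2) with hG
  have hG0 : 0 < G := by have := Real.pi_pos; positivity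
  have hlim : Tendsto (fun r : ℝ => ENNReal.ofReal
      ((∑ m ∈ I, c ^ m / (m.factorial : ℝ) * qq n K m 0 * (2 * (ρ * J m) * J m - (ρ * J m) ^ 2 *
        ((volume.real (closedBall (0 : EuclideanSpace ℝ (Fin n)) (r + L)) /
          volume.real (closedBall (0 : EuclideanSpace ℝ (Fin n)) r)) /
          (((C ∩ closedBall 0 r).ncard : ℝ) /
            volume.real (closedBall (0 : EuclideanSpace ℝ (Fin n)) r)))) - W0 ^ 2 * D *
        volume.real (closedBall (0 : EuclideanSpace ℝ (Fin n)) L)) / G)) atTop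
      (𝓝 (ENNReal.ofReal ((∑ m ∈ I, c ^ m / (m.factorial : ℝ) * qq n K m 0 *
        (2 * (ρ * J m) * J m - (ρ * J m) ^ 2 * (1 / ρ)) - W0 ^ 2 * D *
        volume.real (closedBall (0 : EuclideanSpace ℝ (Fin n)) L)) / G))) := by
    refine ENNReal.tendsto_ofReal (Tendsto.div_const (Tendsto.sub_const
      (tendsto_finsetSum _ fun m _ => Tendsto.const_mul _ (Tendsto.const_sub _
        (Tendsto.const_mul _ ((vol_ratio L).div hden hρ.ne')))) _) _)
  have he : ρ * ∑ m ∈ I, c ^ m / (m.factorial : ℝ) * qq n K m 0 * J m ^ 2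
      = ∑ m ∈ I, c ^ m / (m.factorial : ℝ) * qq n K m 0 *
        (2 * (ρ * J m) * J m - (ρ * J m) ^ 2 * (1 / ρ)) := by
    rw [Finset.mul_sum]
    exact Finset.sum_congr rfl fun m _ => by field_simp; ring
  rw [he, ← hlim.liminf_eq]
  refine liminf_le_liminf ?_
  filter_upwards [eventually_gt_atTop 0, hden.eventually (lt_mem_nhds hρ)] with r hr hpos
  refine ENNReal.ofReal_le_ofReal ?_
  have hf := hfin (closedBall 0 r) isBounded_closedBall
  have hv : 0 < volume.real (closedBall (0 : EuclideanSpace ℝ (Fin n)) r) := by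
    rw [vol_ball _ hr.le]
    have := vol_one_pos (n := n)
    positivity
  have hN : (0 : ℝ) < ((C ∩ closedBall 0 r).ncard : ℝ) := by
    rcases (Nat.cast_nonneg (α := ℝ) (C ∩ closedBall 0 r).ncard).lt_or_eq with h | h
    · exact h
    · rw [← h] at hpos; simp at hpos
  have h := avg_bound hn hK (r := r) hβ hγ hc hc0 hL hD0 W hWm hW hW1 hW2 hW3 hD I
    (fun m => ρ * J m) hf.toFinset (fun x hx => by simpa using (hf.mem_toFinset.1 hx).2)
  have e1 : ∑ᶠ p ∈ (C ∩ closedBall 0 r).offDiag, Real.exp (-α * dist p.1 p.2 ^ 2)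
      = ∑ p ∈ hf.toFinset.offDiag, Real.exp (-α * dist p.1 p.2 ^ 2) := by
    rw [← finsum_mem_coe_finset, Finset.coe_offDiag, hf.coe_toFinset]
  rw [← Set.ncard_eq_toFinset_card _ hf, ← e1] at h
  rw [div_le_div_iff₀ hG0 hN, sub_mul, Finset.sum_mul]
  refine sub_le_iff_le_add.2 (le_trans (le_of_eq ?_) (h.trans (le_of_eq ?_)))
  · refine Finset.sum_congr rfl fun m _ => ?_
    simp only [hJ]
    field_simp
  · ring

end Pool.Agent.Lib.MP_30f764_gt
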