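import Pool.Agent.Lib.MP_30f764_gt.BarLap

/-! The cut `max (1 - X) 0` as a Mellin integral, and the bootstrap inequality. -/

namespace Pool.Agent.Lib.MP_30f764_gt.Bar
open Filter Topology Set MeasureTheory
open scoped Real

/-- The Mellin transform of the cut on the line `re s = a`. -/
noncomputable def kk (a y : ℝ) : ℂ :=
  1 / ((a : ℂ) + y * Complex.I) - 1 / ((a : ℂ) + y * Complex.I + 1)

lemma kk_cont {a : ℝ} (ha : 0 < a) : Continuous (kk a) := by
  unfold kk
  apply Continuous.sub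
  · apply Continuous.div continuous_const (by fun_prop)
    intro y h
    have := congrArg Complex.re h
    simp at this
    linarith
  · apply Continuous.div continuous_const (by fun_prop)
    intro y h
    have := congrArg Complex.re h
    simp at this
    linarith

lemma kk_int {a : ℝ} (ha : 0 < a) : Integrable (kk a) := by
  refine Integrable.mono' (integrable_inv_one_add_sq.const_mul (1 + (a ^ 2)⁻¹))
    (kk_cont ha).aestronglyMeasurable (Eventually.of_forall fun y => ?_)
  set s : ℂ := (a : ℂ) + y * Complex.I with hs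
  have hre : s.re = a := by simp [hs]
  have him : s.im = y := by simp [hs]
  have h0 : s ≠ 0 := by
    intro h
    rw [h] at hre
    simp at hre
    linarith
  have h1 : s + 1 ≠ 0 := by
    intro h
    have := congrArg Complex.re h
    simp [hre] at this
    linarith
  have e : kk a y = (s * (s + 1))⁻¹ := by
    rw [kk, ← hs]
    field_simp
    ring
  have n1 : ‖s‖ ^ 2 = a ^ 2 + y ^ 2 := by
    rw [Complex.sq_norm, Complex.normSq_apply, hre, him]
    ring
  have n2 : ‖s + 1‖ ^ 2 = (a + 1) ^ 2 + y ^ 2 := by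
    rw [Complex.sq_norm, Complex.normSq_apply, Complex.add_re, Complex.add_im, hre, him]
    simp
    ring
  have n3 : ‖s‖ ≤ ‖s + 1‖ := by
    apply le_of_sq_le_sq _ (norm_nonneg _) 
    rw [n1, n2]
    nlinarith
  have n4 : a ^ 2 + y ^ 2 ≤ ‖s‖ * ‖s + 1‖ := by
    rw [← n1, sq]
    exact mul_le_mul_of_nonneg_left n3 (norm_nonneg _)
  rw [e, norm_inv, norm_mul]
  calc (‖s‖ * ‖s + 1‖)⁻¹ ≤ (a ^ 2 + y ^ 2)⁻¹ := inv_anti₀ (by positivity) n4
    _ ≤ (1 + (a ^ 2)⁻¹) * (1 + y ^ 2)⁻¹ := by
      rw [← div_eq_mul_inv, inv_eq_one_div, div_le_div_iff₀ (by positivity) (by positivity)]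
      have : (1 + (a ^ 2)⁻¹) * (a ^ 2 + y ^ 2) = a ^ 2 + y ^ 2 + 1 + (a ^ 2)⁻¹ * y ^ 2 := by
        field_simp
        ring
      rw [this]
      have : 0 ≤ (a ^ 2)⁻¹ * y ^ 2 := by positivity
      nlinarith [sq_nonneg a]

lemma ker {a : ℝ} (ha : 0 < a) (u : ℝ) :
    ((max (1 - Real.exp u) 0 : ℝ) : ℂ) = ((1 / (2 * π) : ℝ) : ℂ) *
      ∫ y : ℝ, Complex.exp (-(((a : ℂ) + y * Complex.I) * u)) * kk a y := by
  set f : ℝ → ℂ := fun t => indicator (Ioc 0 1) (fun _ => 1 : ℝ → ℂ) t -
    indicator (Ioc 0 1) (fun t => (t : ℂ) ^ (1 : ℂ) : ℝ → ℂ) t with hf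
  have hM : ∀ s : ℂ, 0 < s.re → HasMellin f s (1 / s - 1 / (s + 1)) := by
    intro s hs
    have h1 := hasMellin_one_Ioc hs
    have h2 := hasMellin_cpow_Ioc (1 : ℂ) (s := s) (by simp; linarith)
    have h3 := hasMellin_sub h1.1 h2.1
    rw [h1.2, h2.2] at h3
    exact h3
  have hval : ∀ x : ℝ, 0 < x → f x = ((max (1 - x) 0 : ℝ) : ℂ) := by
    intro x hx
    rcases le_or_gt x 1 with h | h
    · have hm : x ∈ Ioc (0 : ℝ) 1 := ⟨hx, h⟩
      simp only [hf, indicator_of_mem hm, Complex.cpow_one]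
      rw [max_eq_left (by linarith)]
      push_cast
      rfl
    · have hm : x ∉ Ioc (0 : ℝ) 1 := fun hm => absurd hm.2 (not_le.2 h)
      simp only [hf, indicator_of_notMem hm]
      rw [max_eq_right (by linarith)]
      simp
  have hk : ∀ y : ℝ, mellin f ((a : ℂ) + y * Complex.I) = kk a y := fun y =>
    (hM _ (by simpa using ha)).2
  have hX := Real.exp_pos u
  have hcont : ContinuousAt f (Real.exp u) := by
    have h1 : ContinuousAt (fun x : ℝ => ((max (1 - x) 0 : ℝ) : ℂ)) (Real.exp u) := by fun_prop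
    refine h1.congr ?_
    filter_upwards [Ioi_mem_nhds hX] with x hx
    exact (hval x hx).symm
  have hV : Complex.VerticalIntegrable (mellin f) a := by
    unfold Complex.VerticalIntegrable
    simp_rw [hk]
    exact kk_int ha
  have key := mellinInv_mellin_eq a f hX (hM a (by simpa using ha)).1 hV hcont
  rw [← hval _ hX, ← key, mellinInv, Complex.real_smul]
  congr 2
  ext y
  rw [hk, smul_eq_mul, Complex.cpow_def_of_ne_zero (by exact_mod_cast hX.ne'),
    ← Complex.ofReal_log hX.le, Real.log_exp]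
  congr 2
  ring

variable {V : Type*} [NormedAddCommGroup V] [InnerProductSpace ℝ V] [FiniteDimensional ℝ V]
  [MeasurableSpace V] [BorelSpace V]

/-- The cut at radius `R` in the variable `π |x|²`. -/
noncomputable def cut (μ R : ℝ) (x : V) : ℝ := max (1 - Real.exp (μ * (π * ‖x‖ ^ 2 - R))) 0

lemma lap_cut {h : V → ℝ} (hc : Continuous h) (hi : Integrable h) {a μ R B : ℝ} (ha : 0 < a)
    (hμ : 0 < μ) (hB : ∀ z : ℂ, a * μ ≤ z.re → ‖lap h z‖ ≤ B) {t : ℂ} (ht : 0 ≤ t.re) :
    ‖lap (fun x => h x * cut μ R x) t‖ ≤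
      1 / (2 * π) * ((∫ y, ‖kk a y‖) * (Real.exp (a * μ * R) * B)) := by
  have hkc := kk_cont ha
  set F : V → ℝ → ℂ := fun x y => ((h x : ℂ) *
    Complex.exp (-((t + ((a : ℂ) + y * Complex.I) * μ) * ((π * ‖x‖ ^ 2 : ℝ) : ℂ)))) *
      (kk a y * Complex.exp (((a : ℂ) + y * Complex.I) * ((μ * R : ℝ) : ℂ))) with hF
  have hre : ∀ y : ℝ, (t + ((a : ℂ) + y * Complex.I) * μ).re = t.re + a * μ := by
    intro y
    simp
  have hne : ∀ y : ℝ, ‖Complex.exp (((a : ℂ) + y * Complex.I) * ((μ * R : ℝ) : ℂ))‖ =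
      Real.exp (a * μ * R) := by
    intro y
    rw [Complex.norm_exp, Complex.re_mul_ofReal]
    simp [mul_assoc]
  have hint : Integrable (Function.uncurry F) ((volume : Measure V).prod volume) := by
    refine Integrable.mono' (hi.norm.mul_prod
      ((kk_int ha).norm.mul_const (Real.exp (a * μ * R)))) ?_ ?_
    · apply Continuous.aestronglyMeasurable
      unfold Function.uncurry
      simp only [hF]
      fun_prop
    · refine Eventually.of_forall fun p => ?_
      simp only [Function.uncurry, hF]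
      rw [norm_mul, norm_mul, norm_mul, hne, Complex.norm_real]
      apply mul_le_mul_of_nonneg_right _ (by positivity)
      apply mul_le_of_le_one_right (norm_nonneg _)
      apply lapker_le _ (by positivity)
      rw [hre]
      positivity
  have hs := integral_integral_swap hint
  have h1 : lap (fun x => h x * cut μ R x) t = ((1 / (2 * π) : ℝ) : ℂ) * ∫ x, ∫ y, F x y := by
    rw [lap, ← integral_const_mul]
    congr 1
    ext x
    have e : ∀ y : ℝ, F x y = ((h x : ℂ) * Complex.exp (-(t * ((π * ‖x‖ ^ 2 : ℝ) : ℂ)))) *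
        (Complex.exp (-(((a : ℂ) + y * Complex.I) * ((μ * (π * ‖x‖ ^ 2 - R) : ℝ) : ℂ))) *
          kk a y) := by
      intro y
      have e1 : Complex.exp (-((t + ((a : ℂ) + y * Complex.I) * μ) * ((π * ‖x‖ ^ 2 : ℝ) : ℂ))) *
          Complex.exp (((a : ℂ) + y * Complex.I) * ((μ * R : ℝ) : ℂ)) =
          Complex.exp (-(t * ((π * ‖x‖ ^ 2 : ℝ) : ℂ))) *
          Complex.exp (-(((a : ℂ) + y * Complex.I) * ((μ * (π * ‖x‖ ^ 2 - R) : ℝ) : ℂ))) := by
        rw [← Complex.exp_add, ← Complex.exp_add]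
        congr 1
        push_cast
        ring
      simp only [hF]
      linear_combination ((h x : ℂ) * kk a y) * e1
    simp_rw [e]
    rw [integral_const_mul, Complex.ofReal_mul, cut, ker ha]
    ring
  have h2 : ∀ y : ℝ, ∫ x, F x y = lap h (t + ((a : ℂ) + y * Complex.I) * μ) *
      (kk a y * Complex.exp (((a : ℂ) + y * Complex.I) * ((μ * R : ℝ) : ℂ))) := by
    intro y
    simp only [hF]
    rw [integral_mul_const, lap]
  rw [h1, hs, norm_mul, Complex.norm_real, Real.norm_of_nonneg (by positivity)]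
  apply mul_le_mul_of_nonneg_left _ (by positivity)
  rw [← integral_mul_const]
  apply norm_integral_le_of_norm_le ((kk_int ha).norm.mul_const _)
  refine Eventually.of_forall fun y => ?_
  rw [h2, norm_mul, norm_mul, hne]
  have h3 := hB (t + ((a : ℂ) + y * Complex.I) * μ) (by rw [hre]; linarith)
  calc _ ≤ B * (‖kk a y‖ * Real.exp (a * μ * R)) :=
        mul_le_mul_of_nonneg_right h3 (by positivity)
    _ = _ := by ring

omit [InnerProductSpace ℝ V] [FiniteDimensional ℝ V] [MeasurableSpace V] [BorelSpace V] in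
lemma cut_nonneg (μ R : ℝ) (x : V) : 0 ≤ cut μ R x := le_max_right _ _

omit [InnerProductSpace ℝ V] [FiniteDimensional ℝ V] [MeasurableSpace V] [BorelSpace V] in
lemma cut_le (μ R : ℝ) (x : V) : cut μ R x ≤ 1 :=
  max_le (by linarith [Real.exp_pos (μ * (π * ‖x‖ ^ 2 - R))]) zero_le_one

omit [InnerProductSpace ℝ V] [FiniteDimensional ℝ V] [MeasurableSpace V] [BorelSpace V] in
lemma one_sub_cut (μ R : ℝ) (x : V) : 1 - cut μ R x ≤ Real.exp (μ * (π * ‖x‖ ^ 2 - R)) := by
  have : 1 - Real.exp (μ * (π * ‖x‖ ^ 2 - R)) ≤ cut μ R x := le_max_left _ _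
  linarith

omit [InnerProductSpace ℝ V] [FiniteDimensional ℝ V] [MeasurableSpace V] [BorelSpace V] in
lemma cut_cont (μ R : ℝ) : Continuous (cut μ R : V → ℝ) := by
  unfold cut
  fun_prop

/-- One step of the bootstrap. -/
lemma boot {h w : V → ℝ} (hi : Integrable h) (hw : Integrable w) {μ R B : ℝ}
    (h0 : 0 ≤ ∫ x, h x) (hw0 : ∀ x, 0 ≤ w x)
    (hle : ∀ᵐ x, h x * Real.exp (μ * (π * ‖x‖ ^ 2 - R)) ≤ w x)
    (hB : ∀ t : ℂ, 0 ≤ t.re → ‖lap (fun x => h x * cut μ R x) t‖ ≤ B) {t : ℂ} (ht : 0 ≤ t.re) :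
    ‖lap h t‖ ≤ 2 * (∫ x, w x) + 2 * B := by
  have hik : Integrable (fun x => h x * cut μ R x) :=
    hi.mul_bdd (c := 1) (cut_cont μ R).aestronglyMeasurable (Eventually.of_forall fun x => by
      rw [Real.norm_of_nonneg (cut_nonneg μ R x)]
      exact cut_le μ R x)
  have hi2 : Integrable (fun x => h x - h x * cut μ R x) := hi.sub hik
  have e : lap h t = lap (fun x => h x * cut μ R x) t + lap (fun x => h x - h x * cut μ R x) t := by
    unfold lap
    rw [← integral_add (lap_int hik ht) (lap_int hi2 ht)]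
    congr 1
    ext x
    push_cast
    ring
  have h1 := lap_le hi2 ht
  have h2 : ∫ x, ‖h x - h x * cut μ R x‖ ≤ ∫ x, (2 * w x - (h x - h x * cut μ R x)) := by
    apply integral_mono_ae hi2.norm ((hw.const_mul 2).sub hi2)
    filter_upwards [hle] with x hx
    have c0 := cut_nonneg μ R x
    have c1 := cut_le μ R x
    have c2 := one_sub_cut μ R x
    have w0 := hw0 x
    simp only [Pi.sub_apply]
    rw [Real.norm_eq_abs, abs_le]
    constructor
    · linarith
    · rcases le_total 0 (h x) with hh | hh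
      · nlinarith [mul_le_mul_of_nonneg_left c2 hh]
      · nlinarith [mul_nonneg (neg_nonneg.2 hh) (sub_nonneg.2 c1)]
  rw [integral_sub (hw.const_mul 2) hi2, integral_const_mul, integral_sub hi hik] at h2
  have h3 := hB 0 (by simp)
  rw [lap_zero, Complex.norm_real, Real.norm_eq_abs] at h3
  have h4 := le_abs_self (∫ x, h x * cut μ R x)
  have h5 := hB t ht
  have h6 := norm_add_le (lap (fun x => h x * cut μ R x) t)
    (lap (fun x => h x - h x * cut μ R x) t)
  rw [← e] at h6
  linarith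

end Pool.Agent.Lib.MP_30f764_gt.Bar
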