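import Mathlib

/-! The radial Laplace transform of a positive definite function. -/

namespace Pool.Agent.Lib.MP_30f764_gt.Bar
open Filter Topology Set MeasureTheory
open scoped Real

variable {V : Type*} [NormedAddCommGroup V] [InnerProductSpace ℝ V] [FiniteDimensional ℝ V]
  [MeasurableSpace V] [BorelSpace V]

/-- Cosine transform. -/
noncomputable def ct (h : V → ℝ) (ξ : V) : ℝ := ∫ x, h x * Real.cos (2 * π * inner ℝ x ξ)

/-- Radial Laplace transform. -/
noncomputable def lap (h : V → ℝ) (t : ℂ) : ℂ :=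
  ∫ x, (h x : ℂ) * Complex.exp (-(t * ((π * ‖x‖ ^ 2 : ℝ) : ℂ)))

lemma gauss_int {b : ℂ} (hb : 0 < b.re) :
    Integrable (fun v : V => Complex.exp (-b * (‖v‖ : ℂ) ^ 2)) := by
  simpa using GaussianFourier.integrable_cexp_neg_mul_sq_norm_add hb 0 (0 : V)

omit [InnerProductSpace ℝ V] [FiniteDimensional ℝ V] [MeasurableSpace V] [BorelSpace V] in
lemma norm_gauss (b : ℂ) (v : V) :
    ‖Complex.exp (-b * (‖v‖ : ℂ) ^ 2)‖ = Real.exp (-b.re * ‖v‖ ^ 2) := by
  rw [Complex.norm_exp, ← Complex.ofReal_pow, Complex.re_mul_ofReal, Complex.neg_re]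

lemma rgauss_int {b : ℝ} (hb : 0 < b) : Integrable (fun v : V => Real.exp (-b * ‖v‖ ^ 2)) := by
  have := (gauss_int (V := V) (b := b) (by simpa using hb)).norm
  simpa only [norm_gauss, Complex.ofReal_re] using this

lemma gauss_cos {b : ℂ} (hb : 0 < b.re) (x : V) :
    ∫ ξ : V, Complex.exp (-b * (‖ξ‖ : ℂ) ^ 2) * (Real.cos (2 * π * inner ℝ x ξ) : ℂ) =
      (π / b) ^ (Module.finrank ℝ V / 2 : ℂ) * Complex.exp (-π ^ 2 * (‖x‖ : ℂ) ^ 2 / b) := by
  have h1 := GaussianFourier.integral_cexp_neg_mul_sq_norm_add hb (2 * π * Complex.I) x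
  have h2 := GaussianFourier.integral_cexp_neg_mul_sq_norm_add hb (-(2 * π * Complex.I)) x
  have i1 := GaussianFourier.integrable_cexp_neg_mul_sq_norm_add hb (2 * π * Complex.I) x
  have i2 := GaussianFourier.integrable_cexp_neg_mul_sq_norm_add hb (-(2 * π * Complex.I)) x
  have hb0 : b ≠ 0 := by
    rintro rfl
    simp at hb
  have e1 : (2 * π * Complex.I) ^ 2 * (‖x‖ : ℂ) ^ 2 / (4 * b) = -π ^ 2 * (‖x‖ : ℂ) ^ 2 / b := by
    rw [mul_pow, Complex.I_sq]
    field_simp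
    ring
  rw [neg_sq, e1] at h2
  rw [e1] at h1
  have h3 : ∀ ξ : V, Complex.exp (-b * (‖ξ‖ : ℂ) ^ 2) * (Real.cos (2 * π * inner ℝ x ξ) : ℂ) =
      (1 / 2 : ℂ) * (Complex.exp (-b * (‖ξ‖ : ℂ) ^ 2 + 2 * π * Complex.I * (inner ℝ x ξ : ℝ)) +
        Complex.exp (-b * (‖ξ‖ : ℂ) ^ 2 + -(2 * π * Complex.I) * (inner ℝ x ξ : ℝ))) := by
    intro ξ
    rw [Complex.ofReal_cos, Complex.cos, Complex.exp_add, Complex.exp_add]
    push_cast
    have a1 : 2 * (π : ℂ) * (inner ℝ x ξ : ℝ) * Complex.I =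
        2 * π * Complex.I * (inner ℝ x ξ : ℝ) := by ring
    have a2 : -(2 * (π : ℂ) * (inner ℝ x ξ : ℝ)) * Complex.I =
        -(2 * π * Complex.I) * (inner ℝ x ξ : ℝ) := by ring
    rw [a1, a2]
    ring
  simp_rw [h3]
  rw [integral_const_mul, integral_add i1 i2, h1, h2]
  ring

lemma parseval {h : V → ℝ} (hc : Continuous h) (hi : Integrable h) {b : ℂ} (hb : 0 < b.re) :
    ∫ x : V, (h x : ℂ) * ((π / b) ^ (Module.finrank ℝ V / 2 : ℂ) *
        Complex.exp (-π ^ 2 * (‖x‖ : ℂ) ^ 2 / b)) =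
      ∫ ξ : V, Complex.exp (-b * (‖ξ‖ : ℂ) ^ 2) * (ct h ξ : ℂ) := by
  have hint : Integrable (Function.uncurry fun (x ξ : V) => (h x : ℂ) *
      (Complex.exp (-b * (‖ξ‖ : ℂ) ^ 2) * (Real.cos (2 * π * inner ℝ x ξ) : ℂ)))
      ((volume : Measure V).prod volume) := by
    refine Integrable.mono' (hi.norm.mul_prod (gauss_int (V := V) hb).norm) ?_ ?_
    · apply Continuous.aestronglyMeasurable
      unfold Function.uncurry
      fun_prop
    · refine Eventually.of_forall fun p => ?_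
      simp only [Function.uncurry, norm_mul, Complex.norm_real]
      apply mul_le_mul_of_nonneg_left _ (norm_nonneg _)
      apply mul_le_of_le_one_right (norm_nonneg _)
      exact Real.abs_cos_le_one _
  have hs := integral_integral_swap hint
  simp_rw [integral_const_mul, gauss_cos hb] at hs
  rw [hs]
  congr 1
  ext ξ
  rw [ct, ← integral_complex_ofReal, ← integral_const_mul]
  congr 1
  ext x
  push_cast
  ring

lemma ct_cont {h : V → ℝ} (hc : Continuous h) (hi : Integrable h) : Continuous (ct h) := by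
  unfold ct
  apply continuous_of_dominated (bound := fun x => ‖h x‖)
  · intro ξ
    apply Continuous.aestronglyMeasurable
    fun_prop
  · intro ξ
    refine Eventually.of_forall fun x => ?_
    rw [norm_mul]
    exact mul_le_of_le_one_right (norm_nonneg _) (Real.abs_cos_le_one _)
  · exact hi.norm
  · refine Eventually.of_forall fun x => ?_
    fun_prop

lemma ct_le {h : V → ℝ} (hi : Integrable h) (ξ : V) : ‖ct h ξ‖ ≤ ∫ x, ‖h x‖ := by
  apply norm_integral_le_of_norm_le hi.norm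
  refine Eventually.of_forall fun x => ?_
  rw [norm_mul]
  exact mul_le_of_le_one_right (norm_nonneg _) (Real.abs_cos_le_one _)

lemma gct_int {h : V → ℝ} (hc : Continuous h) (hi : Integrable h) {s : ℝ} (hs : 0 < s) :
    Integrable (fun ξ : V => Real.exp (-s * ‖ξ‖ ^ 2) * ct h ξ) :=
  (rgauss_int hs).mul_bdd (ct_cont hc hi).aestronglyMeasurable
    (Eventually.of_forall (ct_le hi))

lemma gct_le {h : V → ℝ} (hc : Continuous h) (hi : Integrable h) (hp : ∀ ξ, 0 ≤ ct h ξ)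
    {s : ℝ} (hs : 0 < s) : ∫ ξ : V, Real.exp (-s * ‖ξ‖ ^ 2) * ct h ξ ≤ h 0 := by
  have hlim := Real.tendsto_integral_gaussian_smul' (f := fun x => (h x : ℂ)) hi.ofReal (v := 0)
    (by fun_prop)
  have hre := (Complex.continuous_re.tendsto _).comp hlim
  simp only [Complex.ofReal_re] at hre
  refine ge_of_tendsto hre ?_
  filter_upwards [eventually_ge_atTop s⁻¹] with c hcs
  have hc0 : 0 < c := lt_of_lt_of_le (inv_pos.2 hs) hcs
  have hb : 0 < ((c⁻¹ : ℝ) : ℂ).re := by simpa using hc0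
  have h1 := parseval hc hi hb
  have hcc : (c : ℂ) ≠ 0 := by exact_mod_cast hc0.ne'
  have h2 : (∫ w : V, (((π : ℂ) * c) ^ (Module.finrank ℝ V / 2 : ℂ) *
      Complex.exp (-π ^ 2 * c * (‖(0 : V) - w‖ : ℂ) ^ 2)) • (h w : ℂ)) =
      ((∫ ξ : V, Real.exp (-c⁻¹ * ‖ξ‖ ^ 2) * ct h ξ : ℝ) : ℂ) := by
    rw [← integral_complex_ofReal]
    push_cast at h1 ⊢
    rw [← h1]
    congr 1
    ext x
    rw [zero_sub, norm_neg, smul_eq_mul, mul_comm, div_inv_eq_mul, div_inv_eq_mul]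
    congr 3
    ring
  simp only [Function.comp]
  rw [h2, Complex.ofReal_re]
  apply integral_mono (gct_int hc hi hs) (gct_int hc hi (inv_pos.2 hc0))
  intro ξ
  apply mul_le_mul_of_nonneg_right _ (hp ξ)
  apply Real.exp_le_exp.2
  have : c⁻¹ ≤ s := inv_le_of_inv_le₀ hs hcs
  nlinarith [sq_nonneg ‖ξ‖]

theorem lap_decay {h : V → ℝ} (hc : Continuous h) (hi : Integrable h) (hp : ∀ ξ, 0 ≤ ct h ξ)
    {t : ℂ} (ht : 0 < t.re) : ‖lap h t‖ * ‖t‖ ^ ((Module.finrank ℝ V : ℝ) / 2) ≤ h 0 := by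
  have ht0 : t ≠ 0 := by
    rintro rfl
    simp at ht
  have hpi : (π : ℂ) ≠ 0 := by exact_mod_cast Real.pi_pos.ne'
  have hb : 0 < ((π : ℂ) / t).re := by
    rw [div_eq_mul_inv, Complex.re_ofReal_mul, Complex.inv_re]
    have := Complex.normSq_pos.2 ht0
    have := Real.pi_pos
    positivity
  have h1 := parseval hc hi hb
  have e1 : (π : ℂ) / (π / t) = t := by field_simp
  have h2 : ∫ x : V, (h x : ℂ) * ((π / (π / t)) ^ (Module.finrank ℝ V / 2 : ℂ) *
        Complex.exp (-π ^ 2 * (‖x‖ : ℂ) ^ 2 / (π / t))) =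
      lap h t * t ^ (((Module.finrank ℝ V : ℝ) / 2 : ℝ) : ℂ) := by
    rw [lap, ← integral_mul_const, e1]
    congr 1
    ext x
    have e2 : -(π : ℂ) ^ 2 * (‖x‖ : ℂ) ^ 2 / (π / t) = -(t * ((π * ‖x‖ ^ 2 : ℝ) : ℂ)) := by
      push_cast
      field_simp
    rw [e2]
    push_cast
    ring
  rw [← Complex.norm_cpow_real, ← norm_mul, ← h2, h1]
  refine le_trans ?_ (gct_le hc hi hp hb)
  apply norm_integral_le_of_norm_le (gct_int hc hi hb)
  refine Eventually.of_forall fun ξ => ?_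
  rw [norm_mul, norm_gauss, Complex.norm_real, Real.norm_of_nonneg (hp ξ)]

lemma norm_lapker (t : ℂ) (r : ℝ) :
    ‖Complex.exp (-(t * (r : ℂ)))‖ = Real.exp (-(t.re * r)) := by
  rw [Complex.norm_exp, Complex.neg_re, Complex.re_mul_ofReal]

lemma lapker_le {t : ℂ} (ht : 0 ≤ t.re) {r : ℝ} (hr : 0 ≤ r) :
    ‖Complex.exp (-(t * (r : ℂ)))‖ ≤ 1 := by
  rw [norm_lapker, Real.exp_le_one_iff, neg_nonpos]
  positivity

lemma lap_int {h : V → ℝ} (hi : Integrable h) {t : ℂ} (ht : 0 ≤ t.re) :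
    Integrable (fun x : V => (h x : ℂ) * Complex.exp (-(t * ((π * ‖x‖ ^ 2 : ℝ) : ℂ)))) := by
  refine Integrable.mul_bdd (c := 1) hi.ofReal ?_ ?_
  · apply Continuous.aestronglyMeasurable
    fun_prop
  · exact Eventually.of_forall fun x => lapker_le ht (by positivity)

lemma lap_le {h : V → ℝ} (hi : Integrable h) {t : ℂ} (ht : 0 ≤ t.re) :
    ‖lap h t‖ ≤ ∫ x, ‖h x‖ := by
  apply norm_integral_le_of_norm_le hi.norm
  refine Eventually.of_forall fun x => ?_
  rw [norm_mul, Complex.norm_real]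
  exact mul_le_of_le_one_right (norm_nonneg _) (lapker_le ht (by positivity))

lemma lap_zero (h : V → ℝ) : lap h 0 = ((∫ x, h x : ℝ) : ℂ) := by
  simp [lap, integral_complex_ofReal]

theorem lap_diff {h : V → ℝ} (hc : Continuous h) (hi : Integrable h) {t : ℂ} (ht : 0 < t.re) :
    DifferentiableAt ℂ (lap h) t := by
  have hs : {z : ℂ | t.re / 2 < z.re} ∈ 𝓝 t :=
    (isOpen_lt continuous_const Complex.continuous_re).mem_nhds (by simp; linarith)
  have key := hasDerivAt_integral_of_dominated_loc_of_deriv_le (μ := (volume : Measure V))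
    (F := fun (z : ℂ) (x : V) => (h x : ℂ) * Complex.exp (-(z * ((π * ‖x‖ ^ 2 : ℝ) : ℂ))))
    (F' := fun (z : ℂ) (x : V) => (h x : ℂ) * (Complex.exp (-(z * ((π * ‖x‖ ^ 2 : ℝ) : ℂ))) *
      (-((π * ‖x‖ ^ 2 : ℝ) : ℂ))))
    (bound := fun x => ‖h x‖ * (2 / t.re)) hs ?_ (lap_int hi ht.le) ?_ ?_ (hi.norm.mul_const _) ?_
  · exact key.2.differentiableAt
  · refine Eventually.of_forall fun z => ?_
    apply Continuous.aestronglyMeasurable
    fun_prop
  · apply Continuous.aestronglyMeasurable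
    fun_prop
  · refine Eventually.of_forall fun x z hz => ?_
    have hz' : t.re / 2 < z.re := hz
    have hr : 0 ≤ π * ‖x‖ ^ 2 := by positivity
    set r := π * ‖x‖ ^ 2 with hrdef
    rw [norm_mul, norm_mul, norm_neg, Complex.norm_real, Complex.norm_real, norm_lapker,
      Real.norm_of_nonneg hr]
    apply mul_le_mul_of_nonneg_left _ (norm_nonneg _)
    have h1 : z.re * r + 1 ≤ Real.exp (z.re * r) := Real.add_one_le_exp _
    rw [Real.exp_neg, inv_mul_eq_div, div_le_div_iff₀ (Real.exp_pos _) ht]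
    nlinarith
  · refine Eventually.of_forall fun x z _ => ?_
    apply HasDerivAt.const_mul
    apply HasDerivAt.cexp
    have := ((hasDerivAt_id z).mul_const (((π * ‖x‖ ^ 2 : ℝ) : ℂ))).neg
    rw [one_mul] at this
    exact this

end Pool.Agent.Lib.MP_30f764_gt.Bar
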