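import Pool.Agent.Lib.MP_30f764_gt.BarPL
import Pool.Agent.Lib.MP_30f764_gt.BarKer

/-! The barrier for the linear programming bound. -/

namespace Pool.Agent.Lib.MP_30f764_gt.Bar
open Filter Topology Set MeasureTheory
open scoped Real

variable {V : Type*} [NormedAddCommGroup V] [InnerProductSpace ℝ V] [FiniteDimensional ℝ V]
  [MeasurableSpace V] [BorelSpace V]

lemma core {h w : V → ℝ} (hc : Continuous h) (hi : Integrable h) (hp : ∀ ξ, 0 ≤ ct h ξ)
    (hw : Integrable w) (hw0 : ∀ x, 0 ≤ w x) {ρ μ R σ κ : ℝ} (hμ : 0 < μ) (hσ : 0 < σ)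
    (hV : h 0 ≤ ρ * ∫ x, h x)
    (hle : ∀ᵐ x, h x * Real.exp (μ * (π * ‖x‖ ^ 2 - R)) ≤ w x)
    (hdec : ∀ A : ℝ, (∀ t : ℂ, 0 < t.re → ‖lap h t‖ ≤ A) →
      (∀ t : ℂ, 0 < t.re → ‖lap h t‖ * ‖t‖ ^ ((Module.finrank ℝ V : ℝ) / 2) ≤ A) →
      ∀ t : ℂ, σ ≤ t.re → ‖lap h t‖ ≤ A * κ)
    (hsmall : 1 / (2 * π) * ((∫ y, ‖kk (σ / μ) y‖) * (Real.exp (σ * R) * (max 1 ρ * κ))) ≤ 1 / 4) :
    ∫ x, h x ≤ 4 * ∫ x, w x := by
  set S : Set ℝ := (fun t => ‖lap h t‖) '' {t : ℂ | 0 ≤ t.re} with hS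
  have hbdd : BddAbove S := ⟨∫ x, ‖h x‖, by
    rintro _ ⟨t, ht, rfl⟩
    exact lap_le hi ht⟩
  have hne : S.Nonempty := ⟨_, 0, by simp, rfl⟩
  set N := sSup S with hN
  have hNle : ∀ t : ℂ, 0 ≤ t.re → ‖lap h t‖ ≤ N := fun t ht => le_csSup hbdd ⟨t, ht, rfl⟩
  have h0 : 0 ≤ ∫ x, h x := by simpa [ct] using hp 0
  have hN1 : ∫ x, h x ≤ N := by
    have := hNle 0 (by simp)
    rwa [lap_zero, Complex.norm_real, Real.norm_of_nonneg h0] at this
  have hN0 : 0 ≤ N := le_trans h0 hN1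
  have hm1 : 1 ≤ max 1 ρ := le_max_left _ _
  have hm2 : ρ ≤ max 1 ρ := le_max_right _ _
  have hB := hdec (max 1 ρ * N) (fun t ht => le_trans (hNle t ht.le) (by nlinarith))
    (fun t ht => le_trans (lap_decay hc hi hp ht) (le_trans hV (by nlinarith)))
  have ha : 0 < σ / μ := div_pos hσ hμ
  have haμ : σ / μ * μ = σ := div_mul_cancel₀ σ hμ.ne'
  have hcut : ∀ t : ℂ, 0 ≤ t.re → ‖lap (fun x => h x * cut μ R x) t‖ ≤ N / 4 := by
    intro t ht
    have := lap_cut hc hi (R := R) ha hμ (B := max 1 ρ * N * κ) (by rw [haμ]; exact hB) ht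
    rw [haμ] at this
    refine le_trans this ?_
    calc _ = 1 / (2 * π) * ((∫ y, ‖kk (σ / μ) y‖) * (Real.exp (σ * R) * (max 1 ρ * κ))) * N := by
          ring
      _ ≤ 1 / 4 * N := mul_le_mul_of_nonneg_right hsmall hN0
      _ = N / 4 := by ring
  have hfin : N ≤ 2 * (∫ x, w x) + 2 * (N / 4) := by
    apply csSup_le hne
    rintro _ ⟨t, ht, rfl⟩
    exact boot hi hw h0 hw0 hle hcut ht
  linarith

lemma ev_small {K b d : ℝ} (hb : 0 < b) (hd : 0 < d) :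
    ∀ᶠ n : ℕ in atTop, K * Real.exp (-(n * b)) ≤ d := by
  have h1 : Tendsto (fun n : ℕ => (n : ℝ) * b) atTop atTop :=
    tendsto_natCast_atTop_atTop.atTop_mul_const hb
  have h2 := (Real.tendsto_exp_neg_atTop_nhds_zero.comp h1).const_mul K
  rw [mul_zero] at h2
  exact h2.eventually (ge_mem_nhds hd)

lemma ev_pow {K c₁ c : ℝ} (h1 : 0 < c₁) (h2 : c₁ < c) :
    ∀ᶠ n : ℕ in atTop, K * c₁ ^ n ≤ c ^ n := by
  have hc : 0 < c := lt_trans h1 h2
  have h3 := (tendsto_pow_atTop_nhds_zero_of_lt_one (r := c₁ / c) (by positivity)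
    ((div_lt_one hc).2 h2)).const_mul K
  rw [mul_zero] at h3
  filter_upwards [h3.eventually (ge_mem_nhds one_pos)] with n hn
  rw [div_pow, ← mul_div_assoc, div_le_one (by positivity)] at hn
  exact hn

theorem barrier (α ρ c : ℝ) (hα : π ^ 2 / 2 < α) (hρ : 0 < ρ)
    (hc : √(2 * Real.exp 1 / π) * Real.exp (-α / π ^ 2) < c) :
    ∀ᶠ n : ℕ in atTop, ∀ h : EuclideanSpace ℝ (Fin n) → ℝ, Continuous h → Integrable h →
      (∀ ξ, 0 ≤ ∫ x, h x * Real.cos (2 * π * inner ℝ x ξ)) →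
      (∀ x, x ≠ 0 → h x ≤ Real.exp (-α * ‖x‖ ^ 2)) →
      ρ * (∫ x, h x) - h 0 ≤ c ^ n := by
  have hp := Real.pi_pos
  set μ : ℝ := α / π - π / 2 with hμ
  have hμπ : μ * π = α - π ^ 2 / 2 := by
    rw [hμ]
    field_simp
  have hμ0 : 0 < μ := by
    have : 0 < μ * π := by linarith
    exact (mul_pos_iff_of_pos_right hp).1 this
  set c₀ : ℝ := √(2 * Real.exp 1 / π) * Real.exp (-α / π ^ 2) with hc₀
  have hc₀0 : 0 < c₀ := by positivity
  obtain ⟨ε, hε, hεc⟩ : ∃ ε : ℝ, 0 < ε ∧ c₀ * Real.exp (μ * ε) < c := by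
    have h1 : ContinuousAt (fun ε : ℝ => c₀ * Real.exp (μ * ε)) 0 := by fun_prop
    have h2 : ∀ᶠ ε : ℝ in 𝓝 0, c₀ * Real.exp (μ * ε) < c :=
      h1.eventually (gt_mem_nhds (by simpa using hc))
    obtain ⟨ε, h3, h4⟩ := ((h2.filter_mono nhdsWithin_le_nhds).and
      (self_mem_nhdsWithin (a := (0 : ℝ)) (s := Ioi 0))).exists
    exact ⟨ε, h4, h3⟩
  obtain ⟨σ, hσ, hdec⟩ := decay hε
  have hc0 : 0 < c := lt_trans hc₀0 hc
  filter_upwards [ev_small (K := 1 / (2 * π) * ((∫ y, ‖kk (σ / μ) y‖) * max 1 ρ))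
      (b := ε * σ / 2) (d := 1 / 4) (by positivity) (by norm_num),
    ev_pow (K := 4 * ρ) (c₁ := c₀ * Real.exp (μ * ε)) (by positivity) hεc,
    eventually_ge_atTop 1] with n hn1 hn2 hn3 h hcont hi hpos hle
  have hfr : (Module.finrank ℝ (EuclideanSpace ℝ (Fin n)) : ℝ) = n := by simp
  by_cases hV : h 0 ≤ ρ * ∫ x, h x
  swap
  · push Not at hV
    have : 0 < c ^ n := by positivity
    linarith
  have hh0 : 0 ≤ h 0 :=
    le_trans (by positivity) (lap_decay hcont hi hpos (t := 1) (by simp))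
  have : Nonempty (Fin n) := ⟨⟨0, hn3⟩⟩
  set R : ℝ := n / 2 * (2 / π - 2 * ε) with hR
  have hb : 0 < π ^ 2 / 2 := by positivity
  have key := core (w := fun x : EuclideanSpace ℝ (Fin n) =>
      Real.exp (-(μ * R)) * Real.exp (-(π ^ 2 / 2) * ‖x‖ ^ 2)) (R := R)
    (κ := Real.exp (-((n : ℝ) / 2 * ((2 / π - ε) * σ)))) hcont hi hpos
    ((rgauss_int hb).const_mul _) (fun x => by positivity) hμ0 hσ hV ?_ ?_ ?_
  · rw [integral_const_mul, GaussianFourier.integral_rexp_neg_mul_sq_norm hb, hfr] at key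
    have e1 : π / (π ^ 2 / 2) = 2 / π := by field_simp
    have e2 : (2 / π) ^ ((n : ℝ) / 2) = √(2 / π) ^ n := by
      rw [Real.sqrt_eq_rpow, ← Real.rpow_natCast, ← Real.rpow_mul (by positivity)]
      congr 1
      ring
    have e3 : √(2 * Real.exp 1 / π) = √(2 / π) * Real.exp (1 / 2) := by
      rw [Real.exp_half, ← Real.sqrt_mul (by positivity)]
      congr 1
      ring
    have e4 : Real.exp (-(μ * R)) =
        (Real.exp (1 / 2) * Real.exp (-α / π ^ 2) * Real.exp (μ * ε)) ^ n := by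
      rw [← Real.exp_add, ← Real.exp_add, ← Real.exp_nat_mul]
      congr 1
      rw [hR, hμ]
      field_simp
      ring
    have e5 : Real.exp (-(μ * R)) * (π / (π ^ 2 / 2)) ^ ((n : ℝ) / 2) =
        (c₀ * Real.exp (μ * ε)) ^ n := by
      rw [e1, e2, e4, hc₀, e3, ← mul_pow]
      congr 1
      ring
    rw [e5] at key
    nlinarith [mul_le_mul_of_nonneg_left key hρ.le]
  · have hae : ∀ᵐ x : EuclideanSpace ℝ (Fin n), x ≠ 0 := by
      rw [ae_iff]
      simp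
    filter_upwards [hae] with x hx
    calc _ ≤ Real.exp (-α * ‖x‖ ^ 2) * Real.exp (μ * (π * ‖x‖ ^ 2 - R)) :=
          mul_le_mul_of_nonneg_right (hle x hx) (Real.exp_pos _).le
      _ = _ := by
          rw [← Real.exp_add, ← Real.exp_add]
          congr 1
          linear_combination ‖x‖ ^ 2 * hμπ
  · intro A h1 h2
    rw [hfr] at h2
    exact hdec _ A (lap h) (by positivity) (fun t ht => lap_diff hcont hi ht) h1 h2
  · refine le_trans (le_of_eq ?_) hn1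
    have : Real.exp (σ * R) * Real.exp (-((n : ℝ) / 2 * ((2 / π - ε) * σ))) =
        Real.exp (-(n * (ε * σ / 2))) := by
      rw [← Real.exp_add]
      congr 1
      rw [hR]
      ring
    rw [← this]
    ring

end Pool.Agent.Lib.MP_30f764_gt.Bar
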