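import Pool.Agent.Lib.MP_30f764_gt.BarPhi

/-! Decay in the right half plane from the bound `min 1 |t|^(-D)`. -/

namespace Pool.Agent.Lib.MP_30f764_gt.Bar
open Filter Topology Set
open scoped Real

lemma pl_shift {f : ℂ → ℂ} {η C B : ℝ} (hη : 0 < η)
    (hd : ∀ t : ℂ, 0 < t.re → DifferentiableAt ℂ f t)
    (hB : ∀ t : ℂ, 0 < t.re → ‖f t‖ ≤ B) (hC : ∀ t : ℂ, t.re = η → ‖f t‖ ≤ C)
    {t : ℂ} (ht : η ≤ t.re) : ‖f t‖ ≤ C := by
  have key := PhragmenLindelof.right_half_plane_of_bounded_on_real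
    (f := fun z => f (z + η)) (C := C) (z := t - η) ?_ ?_ ?_ ?_ ?_
  · simpa using key
  · apply DifferentiableOn.diffContOnCl
    rw [Complex.closure_setOfPred_lt_re]
    intro z hz
    have hz' : 0 ≤ z.re := hz
    have h1 : 0 < (z + η).re := by simp; linarith
    exact ((hd _ h1).comp z (by fun_prop)).differentiableWithinAt
  · refine ⟨0, by norm_num, 0, ?_⟩
    apply Asymptotics.IsBigO.of_bound B
    rw [eventually_inf_principal]
    refine Eventually.of_forall fun z hz => ?_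
    have hz' : 0 < z.re := hz
    have h1 : 0 < (z + η).re := by simp; linarith
    simpa using hB _ h1
  · refine ⟨B, ?_⟩
    rw [eventually_map]
    filter_upwards [eventually_ge_atTop (0 : ℝ)] with x hx
    exact hB _ (by simp; linarith)
  · intro x
    exact hC _ (by simp)
  · simp
    linarith

lemma exists_qJ {ε : ℝ} (hε : 0 < ε) :
    ∃ q : ℝ, 1 < q ∧ ∃ J : ℕ, 1 - ε ≤ q⁻¹ ^ 2 * (1 - q⁻¹ ^ J) := by
  have hq : (1 : ℝ) < 1 + ε / 4 := by linarith
  refine ⟨1 + ε / 4, hq, ?_⟩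
  have h0 : 0 < (1 + ε / 4)⁻¹ := by positivity
  have h1 : (1 + ε / 4)⁻¹ < 1 := inv_lt_one_of_one_lt₀ hq
  obtain ⟨J, hJ⟩ := exists_pow_lt_of_lt_one (by linarith : 0 < ε / 2) h1
  refine ⟨J, ?_⟩
  have h2 : 1 - ε / 4 ≤ (1 + ε / 4)⁻¹ := by
    rw [inv_eq_one_div, le_div_iff₀ (by linarith)]
    nlinarith
  have h3 : 1 - ε / 2 ≤ (1 + ε / 4)⁻¹ ^ 2 := by
    nlinarith [sq_nonneg ((1 + ε / 4)⁻¹ - 1)]
  have h4 : (1 + ε / 4)⁻¹ ^ 2 ≤ 1 := pow_le_one₀ h0.le h1.le
  have h5 : 0 ≤ (1 + ε / 4)⁻¹ ^ J := by positivity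
  nlinarith

theorem decay {ε : ℝ} (hε : 0 < ε) : ∃ σ : ℝ, 0 < σ ∧ ∀ (D A : ℝ) (G : ℂ → ℂ), 0 ≤ D →
    (∀ t : ℂ, 0 < t.re → DifferentiableAt ℂ G t) → (∀ t : ℂ, 0 < t.re → ‖G t‖ ≤ A) →
    (∀ t : ℂ, 0 < t.re → ‖G t‖ * ‖t‖ ^ D ≤ A) →
    ∀ t : ℂ, σ ≤ t.re → ‖G t‖ ≤ A * Real.exp (-(D * ((2 / π - ε) * σ))) := by
  obtain ⟨q, hq, J, hJ⟩ := exists_qJ (show 0 < ε / 3 by linarith)
  set σ : ℝ := min 1 (ε / 3) with hσ
  have hσ0 : 0 < σ := lt_min one_pos (by linarith)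
  have hσ1 : σ ≤ 1 := min_le_left _ _
  have hσ2 : σ ≤ ε / 3 := min_le_right _ _
  refine ⟨σ, hσ0, ?_⟩
  intro D A G hD hG hA1 hA2 t ht
  have hA : 0 ≤ A := le_trans (norm_nonneg _) (hA1 1 (by simp))
  set η : ℝ := σ * σ / (J + 1) with hη
  have hη0 : 0 < η := by positivity
  have hJη : (J : ℝ) * η ≤ σ * σ := by
    rw [hη, mul_div_assoc', div_le_iff₀ (by positivity)]
    nlinarith [mul_pos hσ0 hσ0]
  have hησ : η ≤ σ := by
    rw [hη, div_le_iff₀ (by positivity)]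
    have : (0 : ℝ) ≤ J := Nat.cast_nonneg J
    nlinarith [mul_nonneg hσ0.le this]
  have hn : ∀ z : ℂ, ‖G z * Complex.exp (D * Phi q J z)‖ =
      ‖G z‖ * Real.exp (D * (Phi q J z).re) := by
    intro z
    rw [norm_mul, Complex.norm_exp, Complex.re_ofReal_mul]
  have key := pl_shift (f := fun z => G z * Complex.exp (D * Phi q J z)) (η := η)
    (C := A * Real.exp (D * (σ * σ))) (B := A * Real.exp (D * (J * Real.log q))) hη0 ?_ ?_ ?_
    (le_trans hησ ht)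
  · rw [hn] at key
    have h1 := Phi_ge hq J hσ0 ht
    have hp := Real.pi_pos
    have h2 : 2 / π ≤ 1 := by
      rw [div_le_one hp]
      exact Real.two_le_pi
    have h3 : 0 < 2 / π := by positivity
    have h4 : σ * (1 - σ) ≤ σ / (1 + σ ^ 2) := by
      rw [le_div_iff₀ (by positivity)]
      have : (1 - σ) * (1 + σ ^ 2) ≤ 1 := by nlinarith [mul_pos hσ0 hσ0, pow_pos hσ0 3]
      nlinarith
    have h5 : (2 / π - ε) * σ + σ * σ ≤ (Phi q J t).re := by
      refine le_trans ?_ h1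
      set W := q⁻¹ ^ 2 * (1 - q⁻¹ ^ J) with hW
      have hq0 : 0 < q⁻¹ := by positivity
      have hq1 : q⁻¹ ≤ 1 := (inv_lt_one_of_one_lt₀ hq).le
      have hW0 : 0 ≤ W := mul_nonneg (by positivity) (sub_nonneg.2 (pow_le_one₀ hq0.le hq1))
      have h6 : 2 / π * (σ * (1 - σ)) * W ≤ 2 / π * (σ / (1 + σ ^ 2)) * W :=
        mul_le_mul_of_nonneg_right (mul_le_mul_of_nonneg_left h4 h3.le) hW0
      refine le_trans ?_ h6
      have h7 : (1 - σ) * (1 - ε / 3) ≤ (1 - σ) * W :=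
        mul_le_mul_of_nonneg_left hJ (by linarith)
      have h8 : 1 - 2 * (ε / 3) ≤ (1 - σ) * W := by nlinarith [mul_pos hσ0 hε]
      have h9 : 2 / π - 2 * (ε / 3) ≤ 2 / π * ((1 - σ) * W) := by nlinarith
      nlinarith
    have h6 : D * ((2 / π - ε) * σ + σ * σ) ≤ D * (Phi q J t).re :=
      mul_le_mul_of_nonneg_left h5 hD
    have h7 : ‖G t‖ = ‖G t‖ * Real.exp (D * (Phi q J t).re) *
        Real.exp (-(D * (Phi q J t).re)) := by
      rw [mul_assoc, ← Real.exp_add]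
      simp
    rw [h7]
    calc _ ≤ A * Real.exp (D * (σ * σ)) * Real.exp (-(D * (Phi q J t).re)) :=
          mul_le_mul_of_nonneg_right key (Real.exp_pos _).le
      _ = A * Real.exp (D * (σ * σ) + -(D * (Phi q J t).re)) := by
          rw [Real.exp_add, mul_assoc]
      _ ≤ _ := by
          apply mul_le_mul_of_nonneg_left _ hA
          apply Real.exp_le_exp.2
          nlinarith
  · intro z hz
    exact (hG z hz).mul (((Phi_diff q J hz).const_mul _).cexp)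
  · intro z hz
    rw [hn]
    apply mul_le_mul (hA1 z hz) _ (Real.exp_pos _).le hA
    exact Real.exp_le_exp.2 (mul_le_mul_of_nonneg_left (Phi_le_const hq J hz) hD)
  · intro z hz
    have hz0 : 0 < z.re := hz ▸ hη0
    rw [hn]
    have h1 := Phi_le_log hq J hz0
    rw [hz] at h1
    have hm : 0 < max 1 |z.im| := lt_of_lt_of_le one_pos (le_max_left _ _)
    have h2 : Real.exp (D * (Phi q J z).re) ≤ (max 1 |z.im|) ^ D * Real.exp (D * (σ * σ)) := by
      rw [Real.rpow_def_of_pos hm, ← Real.exp_add]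
      apply Real.exp_le_exp.2
      nlinarith
    have h3 : ‖G z‖ * (max 1 |z.im|) ^ D ≤ A := by
      rcases le_total 1 |z.im| with h | h
      · rw [max_eq_right h]
        refine le_trans ?_ (hA2 z hz0)
        apply mul_le_mul_of_nonneg_left _ (norm_nonneg _)
        exact Real.rpow_le_rpow (abs_nonneg _) (Complex.abs_im_le_norm z) hD
      · rw [max_eq_left h, Real.one_rpow, mul_one]
        exact hA1 z hz0
    calc _ ≤ ‖G z‖ * ((max 1 |z.im|) ^ D * Real.exp (D * (σ * σ))) :=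
          mul_le_mul_of_nonneg_left h2 (norm_nonneg _)
      _ = ‖G z‖ * (max 1 |z.im|) ^ D * Real.exp (D * (σ * σ)) := by ring
      _ ≤ _ := mul_le_mul_of_nonneg_right h3 (Real.exp_pos _).le

end Pool.Agent.Lib.MP_30f764_gt.Bar
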