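import Mathlib

/-! Harmonic measure multipliers in the right half plane. -/

namespace Pool.Agent.Lib.MP_30f764_gt.Bar
open Filter Topology Set
open scoped Real

lemma arg_eq {z : ℂ} (hz : 0 < z.re) : Complex.arg z = Real.arctan (z.im / z.re) := by
  have h := Complex.abs_arg_lt_pi_div_two_iff.2 (Or.inl hz)
  rw [abs_lt] at h
  rw [← Complex.tan_arg, Real.arctan_tan h.1 h.2]

lemma arctan_le {x : ℝ} (hx : 0 ≤ x) : Real.arctan x ≤ x := by
  have h0 : 0 ≤ Real.arctan x := by
    have := Real.arctan_mono hx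
    rwa [Real.arctan_zero] at this
  have := Real.le_tan h0 (Real.arctan_lt_pi_div_two x)
  rwa [Real.tan_arctan] at this

lemma le_arctan {x : ℝ} (hx : 0 ≤ x) : x / (1 + x ^ 2) ≤ Real.arctan x := by
  have h0 : 0 ≤ Real.arctan x := by
    have := Real.arctan_mono hx
    rwa [Real.arctan_zero] at this
  have h1 := Real.sin_le h0
  rw [Real.sin_arctan] at h1
  refine le_trans ?_ h1
  have h2 : 0 < √(1 + x ^ 2) := Real.sqrt_pos.2 (by positivity)
  apply div_le_div_of_nonneg_left hx h2
  rw [Real.sqrt_le_left (by positivity)]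
  nlinarith [sq_nonneg x, sq_nonneg (x ^ 2)]

lemma arctan_pair_nonneg {a b : ℝ} (ha : 0 ≤ a) (hb : 0 ≤ b) :
    Real.arctan (a + b) + Real.arctan (a - b) ≤ 2 * Real.arctan a := by
  have hd : ∀ x : ℝ, HasDerivAt (fun x => Real.arctan (a + x) + Real.arctan (a - x))
      (1 / (1 + (a + x) ^ 2) - 1 / (1 + (a - x) ^ 2)) x := by
    intro x
    have h1 : HasDerivAt (fun x => Real.arctan (a + x)) (1 / (1 + (a + x) ^ 2) * 1) x :=
      (Real.hasDerivAt_arctan (a + x)).comp x ((hasDerivAt_id x).const_add a)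
    have h2 : HasDerivAt (fun x => Real.arctan (a - x)) (1 / (1 + (a - x) ^ 2) * (-1)) x :=
      (Real.hasDerivAt_arctan (a - x)).comp x ((hasDerivAt_id x).const_sub a)
    have h3 := h1.add h2
    rw [mul_one, mul_neg, mul_one, ← sub_eq_add_neg] at h3
    exact h3
  have hanti : AntitoneOn (fun x => Real.arctan (a + x) + Real.arctan (a - x)) (Ici 0) := by
    apply antitoneOn_of_deriv_nonpos (convex_Ici 0)
    · exact fun x _ => (hd x).continuousAt.continuousWithinAt
    · exact fun x _ => (hd x).differentiableAt.differentiableWithinAt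
    · intro x hx
      rw [interior_Ici] at hx
      have hx' : 0 < x := hx
      rw [(hd x).deriv, sub_nonpos]
      apply one_div_le_one_div_of_le (by positivity)
      nlinarith [mul_nonneg ha hx'.le]
  have := hanti (mem_Ici.2 (le_refl (0 : ℝ))) (mem_Ici.2 hb) hb
  simp only [add_zero, sub_zero] at this
  linarith

lemma arctan_pair {a : ℝ} (ha : 0 ≤ a) (b : ℝ) :
    Real.arctan (a + b) + Real.arctan (a - b) ≤ 2 * Real.arctan a := by
  rcases le_total 0 b with hb | hb
  · exact arctan_pair_nonneg ha hb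
  · have := arctan_pair_nonneg ha (neg_nonneg.2 hb)
    rw [← sub_eq_add_neg, sub_neg_eq_add] at this
    linarith

/-- An analytic function whose real part is the harmonic measure of `|y| > r`. -/
noncomputable def phi (r : ℝ) (t : ℂ) : ℂ :=
  1 + (Complex.I / π) * (Complex.log (t + r * Complex.I) - Complex.log (t - r * Complex.I))

lemma phi_re (r : ℝ) {t : ℂ} (ht : 0 < t.re) :
    (phi r t).re = 1 - (Real.arctan ((r + t.im) / t.re) + Real.arctan ((r - t.im) / t.re)) / π := by
  have h1 : (Complex.log (t + r * Complex.I)).im = Real.arctan ((r + t.im) / t.re) := by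
    rw [Complex.log_im, arg_eq (by simpa using ht)]
    simp [add_comm]
  have h2 : (Complex.log (t - r * Complex.I)).im = -Real.arctan ((r - t.im) / t.re) := by
    rw [Complex.log_im, arg_eq (by simpa using ht), ← Real.arctan_neg]
    congr 1
    simp
    ring
  have h3 : Complex.I / (π : ℂ) = ((1 / π : ℝ) : ℂ) * Complex.I := by
    push_cast
    ring
  rw [phi, h3, mul_assoc, Complex.add_re, Complex.re_ofReal_mul, Complex.I_mul_re,
    Complex.sub_im, h1, h2, Complex.one_re]
  ring

lemma phi_diff (r : ℝ) {t : ℂ} (ht : 0 < t.re) : DifferentiableAt ℂ (phi r) t := by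
  have h1 : t + r * Complex.I ∈ Complex.slitPlane := Or.inl (by simpa using ht)
  have h2 : t - r * Complex.I ∈ Complex.slitPlane := Or.inl (by simpa using ht)
  unfold phi
  apply DifferentiableAt.const_add
  apply DifferentiableAt.const_mul
  apply DifferentiableAt.sub
  · exact DifferentiableAt.clog (by fun_prop) h1
  · exact DifferentiableAt.clog (by fun_prop) h2

lemma phi_le_one {r : ℝ} (hr : 0 ≤ r) {t : ℂ} (ht : 0 < t.re) : (phi r t).re ≤ 1 := by
  rw [phi_re r ht]
  have h : Real.arctan (-((r - t.im) / t.re)) ≤ Real.arctan ((r + t.im) / t.re) := by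
    apply Real.arctan_mono
    rw [← neg_div]
    apply div_le_div_of_nonneg_right _ ht.le
    linarith
  rw [Real.arctan_neg] at h
  have : 0 ≤ (Real.arctan ((r + t.im) / t.re) + Real.arctan ((r - t.im) / t.re)) / π :=
    div_nonneg (by linarith) Real.pi_pos.le
  linarith

lemma arctan_ge {u s k : ℝ} (hs : 0 < s) (hk : 0 < k) (hu : k ≤ u) :
    π / 2 - s / k ≤ Real.arctan (u / s) := by
  have hu0 : 0 < u := lt_of_lt_of_le hk hu
  have h1 := Real.arctan_inv_of_pos (div_pos hu0 hs)
  have h2 := arctan_le (x := (u / s)⁻¹) (by positivity)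
  have h3 : (u / s)⁻¹ ≤ s / k := by
    rw [inv_div]
    exact div_le_div_of_nonneg_left hs.le hk hu
  linarith

lemma phi_le_small {r k : ℝ} (hk : 0 < k) {t : ℂ} (ht : 0 < t.re) (h : |t.im| + k ≤ r) :
    (phi r t).re ≤ t.re / k := by
  rw [phi_re r ht]
  have h1 := arctan_ge (u := r + t.im) ht hk (by linarith [neg_abs_le t.im])
  have h2 := arctan_ge (u := r - t.im) ht hk (by linarith [le_abs_self t.im])
  have hp := Real.pi_pos
  have h3 : 0 ≤ t.re / k := by positivity
  have h4 : 1 - t.re / k ≤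
      (Real.arctan ((r + t.im) / t.re) + Real.arctan ((r - t.im) / t.re)) / π := by
    rw [le_div_iff₀ hp]
    nlinarith [Real.two_le_pi]
  linarith

lemma phi_ge {r s : ℝ} (hr : 1 ≤ r) (hs : 0 < s) {t : ℂ} (ht : s ≤ t.re) :
    2 / π * (s / (1 + s ^ 2)) * r⁻¹ ≤ (phi r t).re := by
  have ht0 : 0 < t.re := lt_of_lt_of_le hs ht
  have hr0 : 0 < r := by linarith
  rw [phi_re r ht0]
  have h1 := arctan_pair (a := r / t.re) (by positivity) (t.im / t.re)
  rw [← add_div, ← sub_div] at h1
  have h2 := Real.arctan_inv_of_pos (div_pos hr0 ht0)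
  have h3 : Real.arctan (s / r) ≤ Real.arctan (r / t.re)⁻¹ := by
    apply Real.arctan_mono
    rw [inv_div]
    exact div_le_div_of_nonneg_right ht hr0.le
  have h4 := le_arctan (x := s / r) (by positivity)
  have h5 : s / (1 + s ^ 2) * r⁻¹ ≤ s / r / (1 + (s / r) ^ 2) := by
    have h6 : s / r ≤ s := div_le_self hs.le hr
    have h7 : (s / r) ^ 2 ≤ s ^ 2 := pow_le_pow_left₀ (by positivity) h6 2
    calc s / (1 + s ^ 2) * r⁻¹ = s / r / (1 + s ^ 2) := by ring
      _ ≤ s / r / (1 + (s / r) ^ 2) :=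
        div_le_div_of_nonneg_left (by positivity) (by positivity) (by linarith)
  have hp := Real.pi_pos
  have h8 : (Real.arctan ((r + t.im) / t.re) + Real.arctan ((r - t.im) / t.re)) / π ≤
      1 - 2 / π * (s / (1 + s ^ 2)) * r⁻¹ := by
    rw [div_le_iff₀ hp]
    have : (1 - 2 / π * (s / (1 + s ^ 2)) * r⁻¹) * π = π - 2 * (s / (1 + s ^ 2) * r⁻¹) := by
      field_simp
    rw [this]
    linarith
  linarith

/-- The multiplier: a finite sum of harmonic measures, a minorant of `log₊ |y|`. -/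
noncomputable def Phi (q : ℝ) (J : ℕ) (t : ℂ) : ℂ :=
  ∑ j ∈ Finset.range J, (Real.log q : ℂ) * phi (q ^ (j + 2)) t

lemma Phi_diff (q : ℝ) (J : ℕ) {t : ℂ} (ht : 0 < t.re) : DifferentiableAt ℂ (Phi q J) t := by
  unfold Phi
  apply DifferentiableAt.fun_sum
  intro j _
  exact (phi_diff _ ht).const_mul _

lemma Phi_re (q : ℝ) (J : ℕ) (t : ℂ) :
    (Phi q J t).re = ∑ j ∈ Finset.range J, Real.log q * (phi (q ^ (j + 2)) t).re := by
  rw [Phi, Complex.re_sum]
  simp only [Complex.re_ofReal_mul]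

lemma Phi_le_const {q : ℝ} (hq : 1 < q) (J : ℕ) {t : ℂ} (ht : 0 < t.re) :
    (Phi q J t).re ≤ J * Real.log q := by
  rw [Phi_re]
  have hl := (Real.log_pos hq).le
  calc _ ≤ ∑ j ∈ Finset.range J, Real.log q := by
        apply Finset.sum_le_sum
        intro j _
        have := phi_le_one (r := q ^ (j + 2)) (by positivity) ht
        nlinarith
    _ = _ := by simp

lemma Phi_le_log {q : ℝ} (hq : 1 < q) (J : ℕ) {t : ℂ} (ht : 0 < t.re) :
    (Phi q J t).re ≤ Real.log (max 1 |t.im|) + J * t.re := by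
  have hl := Real.log_pos hq
  have hm : 0 ≤ Real.log (max 1 |t.im|) := Real.log_nonneg (le_max_left _ _)
  induction J with
  | zero => simpa [Phi] using hm
  | succ J ih =>
    by_cases h : q ^ (J + 1) ≤ |t.im|
    · have h1 := Phi_le_const hq (J + 1) ht
      have h2 : Real.log (q ^ (J + 1)) ≤ Real.log (max 1 |t.im|) :=
        Real.log_le_log (by positivity) (le_trans h (le_max_right _ _))
      rw [Real.log_pow] at h2
      have : 0 ≤ ((J + 1 : ℕ) : ℝ) * t.re := by positivity
      linarith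
    · push Not at h
      rw [Phi_re, Finset.sum_range_succ, ← Phi_re]
      have hq1 : 1 ≤ q ^ (J + 1) := one_le_pow₀ hq.le
      have h1 : |t.im| + (q - 1) ≤ q ^ (J + 2) := by
        rw [pow_succ q (J + 1)]
        nlinarith
      have h2 := phi_le_small (by linarith : 0 < q - 1) ht h1
      have h3 : Real.log q ≤ q - 1 := Real.log_le_sub_one_of_pos (by linarith)
      have h4 : Real.log q * (phi (q ^ (J + 2)) t).re ≤ t.re := by
        calc _ ≤ Real.log q * (t.re / (q - 1)) := mul_le_mul_of_nonneg_left h2 hl.le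
          _ ≤ (q - 1) * (t.re / (q - 1)) := by
            apply mul_le_mul_of_nonneg_right h3
            exact div_nonneg ht.le (by linarith)
          _ = t.re := by
            have : q - 1 ≠ 0 := by linarith
            field_simp
      push_cast
      linarith

lemma geom {q : ℝ} (hq : 1 < q) (J : ℕ) :
    (q - 1) * ∑ j ∈ Finset.range J, (q ^ (j + 2))⁻¹ = q⁻¹ * (1 - q⁻¹ ^ J) := by
  have hq0 : q ≠ 0 := by linarith
  induction J with
  | zero => simp
  | succ J ih =>
    rw [Finset.sum_range_succ, mul_add, ih]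
    simp only [inv_pow]
    field_simp
    ring

lemma Phi_ge {q s : ℝ} (hq : 1 < q) (J : ℕ) (hs : 0 < s) {t : ℂ} (ht : s ≤ t.re) :
    2 / π * (s / (1 + s ^ 2)) * (q⁻¹ ^ 2 * (1 - q⁻¹ ^ J)) ≤ (Phi q J t).re := by
  rw [Phi_re]
  have hl := Real.log_pos hq
  have hq0 : 0 < q := by linarith
  have h3 : 1 - q⁻¹ ≤ Real.log q := Real.one_sub_inv_le_log_of_pos hq0
  have hp := Real.pi_pos
  have hS : 0 ≤ ∑ j ∈ Finset.range J, (q ^ (j + 2))⁻¹ :=
    Finset.sum_nonneg fun j _ => by positivity
  have h4 : q⁻¹ ^ 2 * (1 - q⁻¹ ^ J) ≤ Real.log q * ∑ j ∈ Finset.range J, (q ^ (j + 2))⁻¹ := by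
    calc q⁻¹ ^ 2 * (1 - q⁻¹ ^ J) = q⁻¹ * (q⁻¹ * (1 - q⁻¹ ^ J)) := by ring
      _ = q⁻¹ * ((q - 1) * ∑ j ∈ Finset.range J, (q ^ (j + 2))⁻¹) := by rw [geom hq]
      _ = (1 - q⁻¹) * ∑ j ∈ Finset.range J, (q ^ (j + 2))⁻¹ := by
        field_simp
      _ ≤ _ := mul_le_mul_of_nonneg_right h3 hS
  calc _ ≤ 2 / π * (s / (1 + s ^ 2)) *
        (Real.log q * ∑ j ∈ Finset.range J, (q ^ (j + 2))⁻¹) :=
        mul_le_mul_of_nonneg_left h4 (by positivity)
    _ = ∑ j ∈ Finset.range J, Real.log q * (2 / π * (s / (1 + s ^ 2)) * (q ^ (j + 2))⁻¹) := by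
        rw [Finset.mul_sum, Finset.mul_sum]
        apply Finset.sum_congr rfl
        intro j _
        ring
    _ ≤ _ := by
        apply Finset.sum_le_sum
        intro j _
        exact mul_le_mul_of_nonneg_left (phi_ge (one_le_pow₀ hq.le) hs ht) hl.le

end Pool.Agent.Lib.MP_30f764_gt.Bar
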