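import Pool.Agent.Lib.MP_30f764_gt.Geg

/-! The birth and death chain of the Gegenbauer recursion, stopped at level `K`. -/

namespace Pool.Agent.Lib.MP_30f764_gt
open Finset

noncomputable def ca (n k : ℕ) : ℝ := (k + n - 2) / (2 * k + n - 2)
noncomputable def cb (n k : ℕ) : ℝ := k / (2 * k + n - 2)
noncomputable def tr (n : ℕ) (f : ℕ → ℝ) (k : ℕ) : ℝ := ca n k * f (k + 1) + cb n k * f (k - 1)
noncomputable def up (n : ℕ) (w : ℕ → ℝ) : ℕ → ℝ
  | 0 => 0
  | k + 1 => w k * ca n k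
noncomputable def step (n K : ℕ) (w : ℕ → ℝ) (k : ℕ) : ℝ :=
  up n w k + if k + 1 < K then w (k + 1) * cb n (k + 1) else 0
noncomputable def pair (K : ℕ) (w f : ℕ → ℝ) : ℝ := ∑ k ∈ range K, w k * f k
noncomputable def del (k : ℕ) : ℝ := if k = 0 then 1 else 0
noncomputable def qq (n K : ℕ) : ℕ → ℕ → ℝ
  | 0 => del
  | m + 1 => step n K (qq n K m)
noncomputable def nu (n K : ℕ) (m : ℕ) : ℝ := match m with
  | 0 => 0
  | m + 1 => up n (qq n K m) K
noncomputable def q2 (n K m k : ℕ) : ℝ := ∑ j ∈ range (m + 1), nu n K j * qq n K (m - j) k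
noncomputable def hh (n K m : ℕ) (t : ℝ) : ℝ :=
  pair K (qq n K m) (geg n t) + geg n t K * pair K (q2 n K m) (geg n t)
noncomputable def cc (n : ℕ) : ℕ → ℕ → ℝ
  | 0 => del
  | j + 1 => tr n (cc n j)
noncomputable def dm (n : ℕ) : ℕ → ℝ
  | 0 => 1
  | k + 1 => dm n k * ca n k / cb n (k + 1)

variable {n K : ℕ}

lemma den_pos (hn : 3 ≤ n) (k : ℕ) : 0 < (2 * k + n - 2 : ℝ) := by
  have h3 : (3 : ℝ) ≤ n := by exact_mod_cast hn
  have hk : (0 : ℝ) ≤ k := Nat.cast_nonneg k
  linarith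

lemma ca_pos (hn : 3 ≤ n) (k : ℕ) : 0 < ca n k := by
  have h3 : (3 : ℝ) ≤ n := by exact_mod_cast hn
  have hk : (0 : ℝ) ≤ k := Nat.cast_nonneg k
  exact div_pos (by linarith) (den_pos hn k)

lemma cb_nonneg (hn : 3 ≤ n) (k : ℕ) : 0 ≤ cb n k :=
  div_nonneg (Nat.cast_nonneg k) (den_pos hn k).le

lemma cb_pos (hn : 3 ≤ n) (k : ℕ) : 0 < cb n (k + 1) :=
  div_pos (by positivity) (den_pos hn _)

lemma cb_zero : cb n 0 = 0 := by simp [cb]

lemma ca_add_cb (hn : 3 ≤ n) (k : ℕ) : ca n k + cb n k = 1 := by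
  have := (den_pos hn k).ne'
  rw [ca, cb, ← add_div, div_eq_one_iff_eq this]; ring

lemma ca_zero (hn : 3 ≤ n) : ca n 0 = 1 := by
  have := ca_add_cb hn 0; rwa [cb_zero, add_zero] at this

lemma tr_geg (hn : 3 ≤ n) (t : ℝ) (k : ℕ) : tr n (geg n t) k = t * geg n t k := by
  cases k with
  | zero => simp [tr, cb_zero, ca_zero hn, geg]
  | succ k =>
    have h3 : (3 : ℝ) ≤ n := by exact_mod_cast hn
    have hk : (0 : ℝ) ≤ k := Nat.cast_nonneg k
    have e1 : (k : ℝ) + n - 1 ≠ 0 := by linarith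
    have e2 : 2 * (k : ℝ) + n ≠ 0 := by linarith
    have e3 : ca n (k + 1) = (k + n - 1) / (2 * k + n) := by
      rw [ca]; push_cast; congr 1 <;> ring
    have e4 : cb n (k + 1) = (k + 1) / (2 * k + n) := by
      rw [cb]; push_cast; congr 1; ring
    rw [tr, e3, e4, show k + 1 + 1 = k + 2 from rfl, geg, Nat.add_sub_cancel]
    field_simp; ring

lemma geg_one (hn : 3 ≤ n) : ∀ k, geg n 1 k = 1
  | 0 => rfl
  | 1 => rfl
  | k + 2 => by
    have h3 : (3 : ℝ) ≤ n := by exact_mod_cast hn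
    have hk : (0 : ℝ) ≤ k := Nat.cast_nonneg k
    have e1 : (k : ℝ) + n - 1 ≠ 0 := by linarith
    rw [geg, geg_one hn k, geg_one hn (k + 1)]; field_simp; ring

lemma pair_tr (hK : 1 ≤ K) (w f : ℕ → ℝ) :
    pair K w (tr n f) = pair K (step n K w) f + up n w K * f K := by
  obtain ⟨K, rfl⟩ : ∃ K', K = K' + 1 := ⟨K - 1, by omega⟩
  simp only [pair, tr, step, mul_add, add_mul, Finset.sum_add_distrib]
  have h1 : ∑ k ∈ range (K + 1), w k * (ca n k * f (k + 1))
      = ∑ k ∈ range (K + 1), up n w k * f k + up n w (K + 1) * f (K + 1) := by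
    rw [← Finset.sum_range_succ (fun k => up n w k * f k), Finset.sum_range_succ' _ (K + 1)]
    simp [up, mul_assoc]
  have h2 : ∑ k ∈ range (K + 1), w k * (cb n k * f (k - 1))
      = ∑ k ∈ range (K + 1), (if k + 1 < K + 1 then w (k + 1) * cb n (k + 1) else 0) * f k := by
    rw [Finset.sum_range_succ', Finset.sum_range_succ _ K]
    simp only [cb_zero, zero_mul, mul_zero, add_zero, lt_irrefl, if_false, Nat.add_sub_cancel]
    refine Finset.sum_congr rfl fun k hk => ?_
    rw [if_pos (by simpa using hk), mul_assoc]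
  rw [h1, h2]; ring

lemma pair_del (hK : 1 ≤ K) (f : ℕ → ℝ) : pair K del f = f 0 := by
  simp only [pair, del, ite_mul, one_mul, zero_mul]
  rw [Finset.sum_ite_eq', if_pos (by simp; omega)]

lemma pair_del' (hK : 1 ≤ K) (f : ℕ → ℝ) : pair K f del = f 0 := by
  rw [← pair_del hK f]; simp only [pair, mul_comm]

lemma del_nonneg (k : ℕ) : 0 ≤ del k := by unfold del; split_ifs <;> norm_num

lemma up_nonneg (hn : 3 ≤ n) {w : ℕ → ℝ} (hw : ∀ k, 0 ≤ w k) : ∀ k, 0 ≤ up n w k
  | 0 => le_rfl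
  | k + 1 => mul_nonneg (hw k) (ca_pos hn k).le

lemma qq_nonneg (hn : 3 ≤ n) : ∀ m k, 0 ≤ qq n K m k
  | 0, k => del_nonneg k
  | m + 1, k => by
    refine add_nonneg (up_nonneg hn (qq_nonneg hn m) k) ?_
    split_ifs
    · exact mul_nonneg (qq_nonneg hn m _) (cb_nonneg hn _)
    · exact le_rfl

lemma nu_nonneg (hn : 3 ≤ n) : ∀ m, 0 ≤ nu n K m
  | 0 => le_rfl
  | m + 1 => up_nonneg hn (qq_nonneg hn m) K

lemma q2_nonneg (hn : 3 ≤ n) (m k : ℕ) : 0 ≤ q2 n K m k :=
  Finset.sum_nonneg fun j _ => mul_nonneg (nu_nonneg hn j) (qq_nonneg hn _ _)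

lemma up_q2 (m k : ℕ) : up n (q2 n K m) k
    = ∑ j ∈ range (m + 1), nu n K j * up n (qq n K (m - j)) k := by
  cases k with
  | zero => simp [up]
  | succ k => simp [up, q2, Finset.sum_mul, mul_assoc]

lemma q2_succ (m k : ℕ) :
    q2 n K (m + 1) k = step n K (q2 n K m) k + nu n K (m + 1) * del k := by
  rw [q2, Finset.sum_range_succ, Nat.sub_self, step, up_q2]
  congr 1
  have : ∀ j ∈ range (m + 1), nu n K j * qq n K (m + 1 - j) k
      = nu n K j * up n (qq n K (m - j)) k + nu n K j *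
        (if k + 1 < K then qq n K (m - j) (k + 1) * cb n (k + 1) else 0) := by
    intro j hj
    rw [show m + 1 - j = (m - j) + 1 by have := Finset.mem_range.1 hj; omega, qq, step, mul_add]
  rw [Finset.sum_congr rfl this, Finset.sum_add_distrib]
  congr 1
  split_ifs
  · simp [q2, Finset.sum_mul, mul_assoc]
  · simp

lemma pair_q2_succ (hK : 1 ≤ K) (m : ℕ) (f : ℕ → ℝ) :
    pair K (q2 n K (m + 1)) f = pair K (step n K (q2 n K m)) f + nu n K (m + 1) * f 0 := by
  rw [← pair_del hK f]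
  simp only [pair, q2_succ, add_mul, Finset.sum_add_distrib, Finset.mul_sum, mul_assoc]

lemma q2_zero (k : ℕ) : q2 n K 0 k = 0 := by simp [q2, nu]

lemma hh_zero (hK : 1 ≤ K) (t : ℝ) : hh n K 0 t = 1 := by
  rw [hh, qq, pair_del hK]; simp [pair, q2_zero, geg]

lemma hh_succ (hn : 3 ≤ n) (hK : 1 ≤ K) (m : ℕ) (t : ℝ) :
    t * hh n K m t = hh n K (m + 1) t + up n (q2 n K m) K * geg n t K ^ 2 := by
  have h : ∀ w, t * pair K w (geg n t) = pair K w (tr n (geg n t)) := fun w => by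
    simp only [pair, Finset.mul_sum, tr_geg hn]
    exact Finset.sum_congr rfl fun k _ => by ring
  have h1 := h (qq n K m)
  have h2 := h (q2 n K m)
  rw [pair_tr hK] at h1 h2
  rw [hh, hh, pair_q2_succ hK, qq, nu, show geg n t 0 = 1 from rfl]
  linear_combination h1 + geg n t K * h2

lemma PSD.one {ι : Type} (s : Finset ι) : PSD s fun _ _ => 1 := fun c => by
  simp only [mul_one, ← Finset.mul_sum, ← Finset.sum_mul]
  exact mul_self_nonneg _

lemma PSD.sum {ι κ : Type} {s : Finset ι} (S : Finset κ) (a : κ → ℝ) (L : κ → ι → ι → ℝ)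
    (ha : ∀ k ∈ S, 0 ≤ a k) (hL : ∀ k ∈ S, PSD s (L k)) :
    PSD s fun i j => ∑ k ∈ S, a k * L k i j := fun c => by
  have : ∑ i ∈ s, ∑ j ∈ s, c i * c j * ∑ k ∈ S, a k * L k i j
      = ∑ k ∈ S, a k * ∑ i ∈ s, ∑ j ∈ s, c i * c j * L k i j := by
    simp_rw [Finset.mul_sum]
    rw [Finset.sum_comm (s := S)]
    refine Finset.sum_congr rfl fun i hi => ?_
    rw [Finset.sum_comm (s := S)]
    exact Finset.sum_congr rfl fun j hj => Finset.sum_congr rfl fun k _ => by ring
  rw [this]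
  exact Finset.sum_nonneg fun k hk => mul_nonneg (ha k hk) (hL k hk c)

lemma hh_psd (hn : 3 ≤ n) (hK : 1 ≤ K) (m : ℕ) {ι : Type} (s : Finset ι)
    (e : ι → EuclideanSpace ℝ (Fin n)) (he : ∀ i ∈ s, ‖e i‖ = 1) (c : ι → ℝ) :
    qq n K m 0 * (∑ i ∈ s, c i) ^ 2
      ≤ ∑ i ∈ s, ∑ j ∈ s, c i * c j * hh n K m (inner ℝ (e i) (e j)) := by
  have hg : ∀ k, PSD s fun i j => geg n (inner ℝ (e i) (e j)) k := fun k => by
    simpa using (PSD.one s).geg_mul hn e he k
  obtain ⟨K, rfl⟩ : ∃ K', K = K' + 1 := ⟨K - 1, by omega⟩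
  have h1 := PSD.sum (range K) (fun k => qq n (K + 1) m (k + 1)) _
    (fun k _ => qq_nonneg hn m _) (fun k _ => hg (k + 1)) c
  have h2 := (PSD.sum (range (K + 1)) (q2 n (K + 1) m) _
    (fun k _ => q2_nonneg hn m _) (fun k _ => hg k)).geg_mul hn e he (K + 1) c
  have h3 : qq n (K + 1) m 0 * (∑ i ∈ s, c i) ^ 2
      = ∑ i ∈ s, ∑ j ∈ s, c i * c j * qq n (K + 1) m 0 := by
    rw [sq, Finset.sum_mul_sum, Finset.mul_sum]
    exact Finset.sum_congr rfl fun i _ => by
      rw [Finset.mul_sum]; exact Finset.sum_congr rfl fun j _ => by ring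
  simp only [hh, pair, Finset.sum_range_succ' (fun k => qq n (K + 1) m k * _), mul_add,
    Finset.sum_add_distrib, show ∀ t, geg n t 0 = 1 from fun _ => rfl, mul_one]
  rw [h3]
  linarith

lemma cc_nonneg (hn : 3 ≤ n) : ∀ j k, 0 ≤ cc n j k
  | 0, k => del_nonneg k
  | j + 1, k => add_nonneg (mul_nonneg (ca_pos hn k).le (cc_nonneg hn j _))
      (mul_nonneg (cb_nonneg hn k) (cc_nonneg hn j _))

lemma cc_eq_zero : ∀ j k, j < k → cc n j k = 0
  | 0, k, h => by simp [cc, del, h.ne']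
  | j + 1, k, h => by
    rw [cc, tr, cc_eq_zero j _ (by omega), cc_eq_zero j _ (by omega)]; simp

lemma dm_pos (hn : 3 ≤ n) : ∀ k, 0 < dm n k
  | 0 => one_pos
  | k + 1 => div_pos (mul_pos (dm_pos hn k) (ca_pos hn k)) (cb_pos hn k)

lemma dm_cc_succ (hn : 3 ≤ n) (j k : ℕ) : dm n k * cc n (j + 1) k
    = up n (fun k => dm n k * cc n j k) k + dm n (k + 1) * cc n j (k + 1) * cb n (k + 1) := by
  have h : ∀ k, dm n (k + 1) * cb n (k + 1) = dm n k * ca n k := fun k => by
    rw [dm, div_mul_cancel₀ _ (cb_pos hn k).ne']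
  rw [cc, tr]
  cases k with
  | zero => simp only [up, cb_zero]; linear_combination -cc n j (0 + 1) * h 0
  | succ k =>
    simp only [up, Nat.add_sub_cancel]
    linear_combination -cc n j (k + 1 + 1) * h (k + 1) + cc n j k * h k

lemma up_mono (hn : 3 ≤ n) {w w' : ℕ → ℝ} (h : ∀ k, w k ≤ w' k) : ∀ k, up n w k ≤ up n w' k
  | 0 => le_rfl
  | k + 1 => mul_le_mul_of_nonneg_right (h k) (ca_pos hn k).le

lemma qq_le (hn : 3 ≤ n) : ∀ j k, qq n K j k ≤ dm n k * cc n j k
  | 0, k => by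
    cases k with
    | zero => simp [qq, cc, dm]
    | succ k => simp [qq, cc, del]
  | j + 1, k => by
    rw [dm_cc_succ hn, qq, step]
    refine add_le_add (up_mono hn (qq_le hn j) k) ?_
    split_ifs
    · exact mul_le_mul_of_nonneg_right (qq_le hn j _) (cb_nonneg hn _)
    · exact mul_nonneg (mul_nonneg (dm_pos hn _).le (cc_nonneg hn _ _)) (cb_nonneg hn _)

lemma qq_eq (hn : 3 ≤ n) : ∀ j, j ≤ K → qq n K j = fun k => dm n k * cc n j k
  | 0, _ => by
    funext k
    cases k with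
    | zero => simp [qq, cc, dm]
    | succ k => simp [qq, cc, del]
  | j + 1, h => by
    funext k
    rw [dm_cc_succ hn, qq, step, qq_eq hn j (by omega)]
    split_ifs with h1
    · rfl
    · rw [cc_eq_zero j _ (by omega)]; simp

lemma nu_le (hn : 3 ≤ n) : ∀ j, nu n K j ≤ dm n K * cc n j K
  | 0 => mul_nonneg (dm_pos hn _).le (cc_nonneg hn _ _)
  | j + 1 => by
    rw [dm_cc_succ hn, nu]
    have := mul_nonneg (mul_nonneg (dm_pos hn (K + 1)).le (cc_nonneg hn j (K + 1)))
      (cb_nonneg hn (K + 1))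
    have := up_mono hn (qq_le (K := K) hn j) K
    linarith

lemma pair_cc (hK : 1 ≤ K) : ∀ j r, pair K (qq n K j) (cc n r)
    + ∑ i ∈ range (j + 1), nu n K i * cc n (j - i + r) K = cc n (j + r) 0
  | 0, r => by simp [qq, pair_del hK, nu]
  | j + 1, r => by
    have h := pair_cc hK j (r + 1)
    rw [cc, pair_tr hK] at h
    rw [Finset.sum_range_succ, qq, nu, Nat.sub_self, zero_add, show j + 1 + r = j + (r + 1) by ring,
      ← h]
    have : ∀ i ∈ range (j + 1), nu n K i * cc n (j + 1 - i + r) K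
        = nu n K i * cc n (j - i + (r + 1)) K := fun i hi => by
      have := Finset.mem_range.1 hi
      rw [show j + 1 - i + r = j - i + (r + 1) by omega]
    rw [Finset.sum_congr rfl this]; ring

lemma qq_zero_eq (hK : 1 ≤ K) (m : ℕ) : qq n K m 0
    + ∑ i ∈ range (m + 1), nu n K i * cc n (m - i) K = cc n m 0 := by
  have := pair_cc (n := n) hK m 0
  rwa [cc, pair_del' hK] at this

lemma bridge_le (hn : 3 ≤ n) (j r k : ℕ) : dm n k * cc n j k * cc n r k ≤ cc n (j + r) 0 := by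
  have hK : 1 ≤ j + k + 1 := by omega
  rw [← pair_cc hK j r, qq_eq hn j (by omega)]
  refine le_add_of_le_of_nonneg ?_
    (Finset.sum_nonneg fun i _ => mul_nonneg (nu_nonneg hn _) (cc_nonneg hn _ _))
  exact Finset.single_le_sum (f := fun k => dm n k * cc n j k * cc n r k)
    (fun i _ => mul_nonneg (mul_nonneg (dm_pos hn _).le (cc_nonneg hn _ _)) (cc_nonneg hn _ _))
    (Finset.mem_range.2 (by omega))

lemma qq_zero_ge (hn : 3 ≤ n) (hK : 1 ≤ K) (m : ℕ) :
    cc n m 0 - ∑ i ∈ range (m + 1), dm n K * cc n i K * cc n (m - i) K ≤ qq n K m 0 := by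
  rw [← qq_zero_eq hK m, sub_le_iff_le_add]
  gcongr with i
  · exact cc_nonneg hn _ _
  · exact nu_le hn i

lemma up_q2_le (hn : 3 ≤ n) (hK : 1 ≤ K) (m : ℕ) :
    up n (q2 n K m) K ≤ dm n K * cc n (m + 1) 0 := by
  rw [up_q2, ← qq_zero_eq hK (m + 1), mul_add, Finset.sum_range_succ _ (m + 1), mul_add,
    Finset.mul_sum]
  have h1 := mul_nonneg (dm_pos hn K).le (qq_nonneg (K := K) hn (m + 1) 0)
  have h2 := mul_nonneg (dm_pos hn K).le
    (mul_nonneg (nu_nonneg (K := K) hn (m + 1)) (cc_nonneg hn (m + 1 - (m + 1)) K))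
  have h3 : ∑ j ∈ range (m + 1), nu n K j * up n (qq n K (m - j)) K
      ≤ ∑ j ∈ range (m + 1), dm n K * (nu n K j * cc n (m + 1 - j) K) := by
    refine Finset.sum_le_sum fun j hj => ?_
    have := Finset.mem_range.1 hj
    have h4 := nu_le (K := K) hn (m - j + 1)
    rw [nu] at h4
    rw [show m + 1 - j = m - j + 1 by omega, mul_left_comm]
    exact mul_le_mul_of_nonneg_left h4 (nu_nonneg hn j)
  linarith

lemma cc_rel (hn : 3 ≤ n) : ∀ j : ℕ,
    (∀ k : ℕ, ((j : ℝ) + k + n) * cc n j (k + 2) = (j - k) * cc n j k) ∧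
    (∀ k : ℕ, ((j : ℝ) + k + n) * cc n (j + 1) (k + 1) = (j + 1) * cc n j k) := by
  have h3 : (3 : ℝ) ≤ n := by exact_mod_cast hn
  have key : ∀ j : ℕ, (∀ k : ℕ, ((j : ℝ) + k + n) * cc n j (k + 2) = (j - k) * cc n j k) →
      ∀ k : ℕ, ((j : ℝ) + k + n) * cc n (j + 1) (k + 1) = (j + 1) * cc n j k := by
    intro j h k
    have hk : (0 : ℝ) ≤ k := Nat.cast_nonneg k
    have e2 : 2 * (k : ℝ) + n ≠ 0 := by linarith
    have e3 : ca n (k + 1) = (k + n - 1) / (2 * k + n) := by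
      rw [ca]; push_cast; congr 1 <;> ring
    have e4 : cb n (k + 1) = (k + 1) / (2 * k + n) := by
      rw [cb]; push_cast; congr 1; ring
    rw [cc, tr, e3, e4, Nat.add_sub_cancel]
    field_simp
    linear_combination ((k : ℝ) + n - 1) * h k
  intro j
  induction j with
  | zero =>
    have : ∀ k : ℕ, (((0 : ℕ) : ℝ) + k + n) * cc n 0 (k + 2) = ((0 : ℕ) - k) * cc n 0 k := by
      intro k
      cases k with
      | zero => simp [cc, del]
      | succ k => simp [cc, del]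
    exact ⟨this, key 0 this⟩
  | succ j ih =>
    have : ∀ k : ℕ, (((j + 1 : ℕ) : ℝ) + k + n) * cc n (j + 1) (k + 2)
        = ((j + 1 : ℕ) - k) * cc n (j + 1) k := by
      intro k
      cases k with
      | zero =>
        have h1 := ih.2 1
        have h2 : cc n (j + 1) 0 = cc n j 1 := by simp [cc, tr, cb_zero, ca_zero hn]
        rw [h2]; push_cast at h1 ⊢; linear_combination h1
      | succ k =>
        have h1 := ih.2 (k + 2)
        have h2 := ih.1 k
        have h4 := ih.2 k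
        have hk : (0 : ℝ) ≤ k := Nat.cast_nonneg k
        have hj : (0 : ℝ) ≤ j := Nat.cast_nonneg j
        have e : (j : ℝ) + k + n ≠ 0 := by linarith
        rw [← mul_right_inj' e]
        push_cast at h1 ⊢
        linear_combination ((j : ℝ) + k + n) * h1 + (j + 1) * h2 - (j - k) * h4
    exact ⟨this, key _ this⟩

lemma mu_succ (hn : 3 ≤ n) (j : ℕ) : ((j : ℝ) + n) * cc n (j + 2) 0 = (j + 1) * cc n j 0 := by
  have h1 := (cc_rel hn j).2 0
  have h2 : cc n (j + 2) 0 = cc n (j + 1) 1 := by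
    rw [cc]; simp [tr, cb_zero, ca_zero hn]
  rw [h2]; simpa using h1

lemma mu_odd (hn : 3 ≤ n) : ∀ i, cc n (2 * i + 1) 0 = 0
  | 0 => by simp [cc, tr, cb_zero, del]
  | i + 1 => by
    have h := mu_succ hn (2 * i + 1)
    rw [mu_odd hn i, mul_zero, mul_eq_zero] at h
    refine h.resolve_left ?_
    have h3 : (3 : ℝ) ≤ n := by exact_mod_cast hn
    positivity

lemma hh_one (hn : 3 ≤ n) (m : ℕ) :
    hh n K m 1 = pair K (qq n K m) (fun _ => 1) + pair K (q2 n K m) (fun _ => 1) := by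
  rw [hh, geg_one hn, one_mul, show geg n 1 = fun _ => 1 from funext (geg_one hn)]

lemma hh_one_nonneg (hn : 3 ≤ n) (m : ℕ) : 0 ≤ hh n K m 1 := by
  rw [hh_one hn]
  exact add_nonneg (Finset.sum_nonneg fun k _ => by simpa using qq_nonneg hn m k)
    (Finset.sum_nonneg fun k _ => by simpa using q2_nonneg hn m k)

lemma hh_one_le_one (hn : 3 ≤ n) (hK : 1 ≤ K) : ∀ m, hh n K m 1 ≤ 1
  | 0 => (hh_zero hK 1).le
  | m + 1 => by
    have h := hh_succ hn hK m 1
    have := hh_one_le_one hn hK m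
    have := mul_nonneg (up_nonneg hn (q2_nonneg (K := K) hn m) K) (sq_nonneg (geg n 1 K))
    linarith

lemma hh_one_summable (hn : 3 ≤ n) (hK : 1 ≤ K) : Summable fun m => hh n K m 1 := by
  set V : ℕ → ℝ := fun k => (K : ℝ) ^ 2 - (k : ℝ) ^ 2 with hV
  have h3 : (3 : ℝ) ≤ n := by exact_mod_cast hn
  have hT : ∀ (c : ℝ) (k : ℕ), tr n (fun k => V k + c) k ≤ V k + c - 1 := by
    intro c k
    have h1 := ca_add_cb hn k
    cases k with
    | zero => simp [tr, hV, cb_zero, ca_zero hn]; linarith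
    | succ k =>
      have h2 : cb n (k + 1) ≤ ca n (k + 1) := by
        rw [ca, cb]
        exact div_le_div_of_nonneg_right (by linarith) (den_pos hn _).le
      have hk : (0 : ℝ) ≤ k := Nat.cast_nonneg k
      simp only [tr, hV, Nat.add_sub_cancel]
      push_cast
      have h4 : cb n (k + 1) = 1 - ca n (k + 1) := by linarith
      rw [h4] at h2 ⊢
      nlinarith
  have hP : ∀ (c : ℝ) (w : ℕ → ℝ), (∀ k, 0 ≤ w k) →
      pair K (step n K w) (fun k => V k + c) + up n w K * c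
        ≤ pair K w (fun k => V k + c) - pair K w (fun _ => 1) := by
    intro c w hw
    have h := pair_tr (n := n) hK w (fun k => V k + c)
    simp only [hV, sub_self, zero_add] at h
    simp only [hV]
    rw [← h, pair, pair, pair, ← Finset.sum_sub_distrib]
    refine Finset.sum_le_sum fun k _ => ?_
    rw [← mul_sub]
    exact mul_le_mul_of_nonneg_left (hT c k) (hw k)
  set G : ℕ → ℝ := fun m => pair K (qq n K m) (fun k => V k + (K : ℝ) ^ 2)
    + pair K (q2 n K m) (fun k => V k + 0) with hG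
  have hstep : ∀ m, G (m + 1) + hh n K m 1 ≤ G m := by
    intro m
    have h1 := hP ((K : ℝ) ^ 2) _ (qq_nonneg (K := K) hn m)
    have h2 := hP 0 _ (q2_nonneg (K := K) hn m)
    simp only [hG]
    rw [pair_q2_succ hK, hh_one hn, qq, nu]
    have : V 0 + 0 = (K : ℝ) ^ 2 := by simp [hV]
    rw [this]
    linarith
  have hVn : ∀ k ∈ range K, 0 ≤ V k := fun k hk => by
    have : (k : ℝ) ≤ K := by exact_mod_cast (Finset.mem_range.1 hk).le
    have hk : (0 : ℝ) ≤ k := Nat.cast_nonneg k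
    simp only [hV]; nlinarith
  have hG0 : ∀ m, 0 ≤ G m := fun m =>
    add_nonneg (Finset.sum_nonneg fun k hk => mul_nonneg (qq_nonneg hn m k)
      (add_nonneg (hVn k hk) (sq_nonneg _)))
      (Finset.sum_nonneg fun k hk => mul_nonneg (q2_nonneg hn m k) (by simpa using hVn k hk))
  refine summable_of_sum_range_le (c := G 0) (hh_one_nonneg hn) fun M => ?_
  have : ∀ M, G M + ∑ m ∈ range M, hh n K m 1 ≤ G 0 := by
    intro M
    induction M with
    | zero => simp
    | succ M ih => rw [Finset.sum_range_succ]; linarith [hstep M]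
  linarith [this M, hG0 M]

lemma hh_one_le (hn : 4 ≤ n) (hK : 1 ≤ K) (m : ℕ) : hh n K m 1 ≤
    dm n K * ((cc n (m + 1) 0 * (m + n - 1) + cc n m 0 * (m + 1)) / (n - 3)) := by
  have hn3 : 3 ≤ n := by omega
  have h4 : (4 : ℝ) ≤ n := by exact_mod_cast hn
  set Ψ : ℕ → ℝ := fun m => (cc n (m + 1) 0 * (m + n - 1) + cc n m 0 * (m + 1)) / (n - 3) with hΨ
  have h1 : ∀ m, Ψ m = cc n (m + 1) 0 + Ψ (m + 1) := by
    intro m
    have := mu_succ hn3 m
    have e : (n : ℝ) - 3 ≠ 0 := by linarith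
    simp only [hΨ]
    push_cast
    field_simp
    linear_combination -this
  have h2 : ∀ m, 0 ≤ Ψ m := fun m => by
    have := cc_nonneg hn3 (m + 1) 0
    have := cc_nonneg hn3 m 0
    have hk : (0 : ℝ) ≤ m := Nat.cast_nonneg m
    have : (0 : ℝ) ≤ m + n - 1 := by linarith
    have : (0 : ℝ) ≤ n - 3 := by linarith
    simp only [hΨ]; positivity
  have h3 : ∀ r, hh n K m 1 - dm n K * Ψ m ≤ hh n K (m + r) 1 - dm n K * Ψ (m + r) := by
    intro r
    induction r with
    | zero => simp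
    | succ r ih =>
      have a1 := hh_succ hn3 hK (m + r) 1
      have a2 := up_q2_le hn3 hK (m + r)
      rw [geg_one hn3] at a1
      rw [h1 (m + r)] at ih
      rw [← add_assoc]
      linarith
  have h5 := ((hh_one_summable hn3 hK).tendsto_atTop_zero).comp (Filter.tendsto_add_atTop_nat m)
  have h6 : hh n K m 1 - dm n K * Ψ m ≤ 0 := by
    refine ge_of_tendsto' h5 fun r => ?_
    have := h3 r
    have := mul_nonneg (dm_pos hn3 K).le (h2 (m + r))
    simp only [Function.comp, add_comm r m]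
    linarith
  simp only [hΨ] at h6
  linarith

lemma dm_succ_le (hn : 3 ≤ n) (k : ℕ) : dm n (k + 1) * (k + 1) ≤ dm n k * (k + n) := by
  have h3 : (3 : ℝ) ≤ n := by exact_mod_cast hn
  have hk : (0 : ℝ) ≤ k := Nat.cast_nonneg k
  have e := den_pos hn k
  have e' := den_pos hn (k + 1)
  have : ca n k / cb n (k + 1) * (k + 1) ≤ k + n := by
    have e1 : ca n k / cb n (k + 1) * (k + 1)
        = (k + n - 2) * (2 * k + n) / (2 * k + n - 2) := by
      rw [ca, cb]; push_cast at e' ⊢; field_simp; ring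
    rw [e1, div_le_iff₀ e]; nlinarith
  rw [dm, mul_div_assoc, mul_assoc]
  exact mul_le_mul_of_nonneg_left this (dm_pos hn k).le

lemma dm_le_choose (hn : 3 ≤ n) : ∀ k, dm n k ≤ (k + n).choose k
  | 0 => by simp [dm]
  | k + 1 => by
    have h1 := dm_succ_le hn k
    have h2 := dm_le_choose hn k
    have h3 : (((k + 1 + n).choose (k + 1) : ℕ) : ℝ) * (k + 1)
        = (k + n).choose k * (k + n + 1) := by
      have := Nat.add_one_mul_choose_eq (k + n) k
      rw [show k + 1 + n = k + n + 1 by ring]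
      exact_mod_cast (by rw [← this]; ring)
    have hk : (0 : ℝ) < k + 1 := by positivity
    refine le_of_mul_le_mul_right ?_ hk
    rw [h3]
    calc _ ≤ dm n k * (k + n) := h1
      _ ≤ _ := mul_le_mul h2 (by linarith) (by positivity) (by positivity)

lemma dm_le (hn : 3 ≤ n) (k : ℕ) {y : ℝ} (h0 : 0 ≤ y) (h1 : y ≤ 1) :
    dm n k * (y ^ k * (1 - y) ^ n) ≤ 1 := by
  have h := add_pow y (1 - y) (k + n)
  rw [add_sub_cancel, one_pow] at h
  have h2 : 0 ≤ 1 - y := by linarith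
  calc _ ≤ y ^ k * (1 - y) ^ (k + n - k) * (k + n).choose k := by
        rw [Nat.add_sub_cancel_left, mul_comm]
        exact mul_le_mul_of_nonneg_left (dm_le_choose hn k) (by positivity)
    _ ≤ _ := by
        refine le_of_le_of_eq ?_ h.symm
        exact Finset.single_le_sum (f := fun m => y ^ m * (1 - y) ^ (k + n - m) * (k + n).choose m)
          (fun i _ => by positivity) (Finset.mem_range.2 (by omega))

/-- one double step of the bridge weights. -/
lemma bridge_ratio (hn : 3 ≤ n) (j r k : ℕ) {θ : ℝ} (hθ : 0 ≤ θ) (hk : 1 ≤ k)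
    (h : ((k : ℝ) + n) * ((j + r) / 2 - k) ≤ θ * (k * ((j + r) / 2 + k + n))) :
    dm n (k + 2) * cc n j (k + 2) * cc n r (k + 2) ≤ θ ^ 2 * (dm n k * cc n j k * cc n r k) := by
  have h3 : (3 : ℝ) ≤ n := by exact_mod_cast hn
  have hB := mul_nonneg (mul_nonneg (dm_pos hn k).le (cc_nonneg hn j k)) (cc_nonneg hn r k)
  by_cases hjr : j < k + 2 ∨ r < k + 2
  · rcases hjr with hj | hr
    · rw [cc_eq_zero j _ hj]; simp only [mul_zero, zero_mul]; positivity
    · rw [cc_eq_zero r _ hr]; simp only [mul_zero]; positivity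
  push Not at hjr
  have hj : (k : ℝ) + 2 ≤ j := by exact_mod_cast hjr.1
  have hr : (k : ℝ) + 2 ≤ r := by exact_mod_cast hjr.2
  have hk1 : (1 : ℝ) ≤ k := by exact_mod_cast hk
  have d1 := dm_succ_le hn k
  have d2 := dm_succ_le hn (k + 1)
  have p0 := dm_pos hn k
  have p1 := dm_pos hn (k + 1)
  have p2 := dm_pos hn (k + 2)
  push_cast at d2
  have d1' : dm n (k + 1) * k ≤ dm n k * (k + n) := by nlinarith
  have d2' : dm n (k + 2) * k ≤ dm n (k + 1) * (k + n) := by
    have : dm n (k + 2) * k * (k + 1 + 1) ≤ dm n (k + 1) * (k + n) * (k + 1 + 1) := by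
      calc dm n (k + 2) * k * (k + 1 + 1) = dm n (k + 1 + 1) * (k + 1 + 1) * k := by ring
        _ ≤ dm n (k + 1) * (k + 1 + n) * k := by gcongr
        _ ≤ _ := by
          rw [mul_assoc, mul_assoc]
          refine mul_le_mul_of_nonneg_left ?_ p1.le
          nlinarith
    exact le_of_mul_le_mul_right this (by positivity)
  have d3 : dm n (k + 2) * k ^ 2 ≤ dm n k * (k + n) ^ 2 := by
    calc dm n (k + 2) * k ^ 2 = dm n (k + 2) * k * k := by ring
      _ ≤ dm n (k + 1) * (k + n) * k := by gcongr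
      _ = dm n (k + 1) * k * (k + n) := by ring
      _ ≤ dm n k * (k + n) * (k + n) := by gcongr
      _ = _ := by ring
  have c1 := (cc_rel hn j).1 k
  have c2 := (cc_rel hn r).1 k
  set P : ℝ := (j + r) / 2 - k with hP
  set Q : ℝ := (j + r) / 2 + k + n with hQ
  have hP0 : 0 ≤ P := by simp only [hP]; linarith
  have hPQ : P ≤ Q := by simp only [hP, hQ]; linarith
  have hA : ((j : ℝ) - k) * (r - k) * Q ^ 2 ≤ P ^ 2 * ((j + k + n) * (r + k + n)) := by
    have e1 : ((j : ℝ) - k) * (r - k) = P ^ 2 - ((j - r) / 2) ^ 2 := by simp only [hP]; ring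
    have e2 : ((j : ℝ) + k + n) * (r + k + n) = Q ^ 2 - ((j - r) / 2) ^ 2 := by
      simp only [hQ]; ring
    rw [e1, e2]
    have : P ^ 2 ≤ Q ^ 2 := by gcongr
    nlinarith [sq_nonneg (((j : ℝ) - r) / 2)]
  have hC : ((k : ℝ) + n) ^ 2 * P ^ 2 ≤ θ ^ 2 * (k ^ 2 * Q ^ 2) := by
    rw [← mul_pow, ← mul_pow, ← mul_pow]
    gcongr
  have hpos : 0 < (k : ℝ) ^ 2 * Q ^ 2 * ((j + k + n) * (r + k + n)) := by
    have : 0 < Q := by simp only [hQ]; positivity
    positivity
  refine le_of_mul_le_mul_right ?_ hpos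
  have hcc := mul_nonneg (cc_nonneg hn j k) (cc_nonneg hn r k)
  have hjk : 0 ≤ ((j : ℝ) - k) * (r - k) * Q ^ 2 := by
    have : 0 ≤ (j : ℝ) - k := by linarith
    have : 0 ≤ (r : ℝ) - k := by linarith
    positivity
  calc _ = (dm n (k + 2) * k ^ 2) * (Q ^ 2 * (((j + k + n) * cc n j (k + 2))
        * ((r + k + n) * cc n r (k + 2)))) := by ring
    _ = (dm n (k + 2) * k ^ 2) * ((((j : ℝ) - k) * (r - k) * Q ^ 2) * (cc n j k * cc n r k)) := by
        rw [c1, c2]; ring
    _ ≤ (dm n k * (k + n) ^ 2) * ((P ^ 2 * ((j + k + n) * (r + k + n)))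
        * (cc n j k * cc n r k)) := by gcongr
    _ = ((k + n) ^ 2 * P ^ 2) * (((j + k + n) * (r + k + n)) * (dm n k * cc n j k * cc n r k)) := by
        ring
    _ ≤ (θ ^ 2 * (k ^ 2 * Q ^ 2)) * (((j + k + n) * (r + k + n))
        * (dm n k * cc n j k * cc n r k)) := by gcongr
    _ = _ := by ring

/-- the stopped chain keeps almost all of the mean. -/
lemma qq_zero_lower (hn : 3 ≤ n) (m k p : ℕ) {θ : ℝ} (hθ : 0 ≤ θ) (hk : 1 ≤ k)
    (h : ∀ l : ℕ, k ≤ l → l ≤ k + 2 * p →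
      ((l : ℝ) + n) * (m / 2 - l) ≤ θ * (l * (m / 2 + l + n))) :
    cc n m 0 * (1 - (m + 1) * θ ^ (2 * p)) ≤ qq n (k + 2 * p) m 0 := by
  refine le_trans ?_ (qq_zero_ge hn (by omega) m)
  have key : ∀ i ∈ range (m + 1), ∀ s ≤ p, dm n (k + 2 * s) * cc n i (k + 2 * s)
      * cc n (m - i) (k + 2 * s) ≤ θ ^ (2 * s) * cc n m 0 := by
    intro i hi s
    have hi' : i ≤ m := by have := Finset.mem_range.1 hi; omega
    induction s with
    | zero =>
      intro _
      have := bridge_le hn i (m - i) k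
      rw [Nat.add_sub_cancel' hi'] at this
      simpa using this
    | succ s ih =>
      intro hs
      have h1 := bridge_ratio hn i (m - i) (k + 2 * s) hθ (by omega) (by
        have := h (k + 2 * s) (by omega) (by omega)
        rw [Nat.cast_sub hi', add_sub_cancel]; exact this)
      calc _ ≤ _ := h1
        _ ≤ θ ^ 2 * (θ ^ (2 * s) * cc n m 0) :=
          mul_le_mul_of_nonneg_left (ih (by omega)) (sq_nonneg _)
        _ = _ := by ring
  have := Finset.sum_le_card_nsmul _ _ _ fun i hi => key i hi p le_rfl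
  rw [Finset.card_range, nsmul_eq_mul] at this
  push_cast at this
  linarith

end Pool.Agent.Lib.MP_30f764_gt
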