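import Mathlib

/-! Normalised Gegenbauer functions are positive semidefinite kernels on the sphere
(via the Fischer inner product on polynomials). -/

namespace Pool.Agent.Lib.MP_30f764_gt
open MvPolynomial Finset

/-- Gegenbauer function of degree `k` for the sphere in dimension `n`, with value `1` at `1`. -/
noncomputable def geg (n : ℕ) (t : ℝ) : ℕ → ℝ
  | 0 => 1
  | 1 => t
  | k + 2 => ((2 * k + n) * t * geg n t (k + 1) - (k + 1) * geg n t k) / (k + n - 1)

section Fischer
variable {n : ℕ}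

noncomputable def fw (a : Fin n →₀ ℕ) : ℝ := ∏ i, ((a i).factorial : ℝ)

lemma fw_pos (a : Fin n →₀ ℕ) : 0 < fw a :=
  Finset.prod_pos fun i _ => by exact_mod_cast Nat.factorial_pos _

lemma fw_add (a : Fin n →₀ ℕ) (i : Fin n) :
    fw (a + Finsupp.single i 1) = fw a * (a i + 1) := by
  unfold fw
  rw [← Finset.mul_prod_erase _ _ (Finset.mem_univ i),
    ← Finset.mul_prod_erase _ (fun j => ((a j).factorial : ℝ)) (Finset.mem_univ i)]
  have : ∏ j ∈ univ.erase i, (((a + Finsupp.single i 1 : Fin n →₀ ℕ) j).factorial : ℝ)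
      = ∏ j ∈ univ.erase i, ((a j).factorial : ℝ) := by
    refine Finset.prod_congr rfl fun j hj => ?_
    have : i ≠ j := (Finset.ne_of_mem_erase hj).symm
    simp [Finsupp.single_apply, this]
  rw [this]
  simp [Nat.factorial_succ]; ring

noncomputable def fi (q : MvPolynomial (Fin n) ℝ) : MvPolynomial (Fin n) ℝ →ₗ[ℝ] ℝ :=
  (basisMonomials (Fin n) ℝ).constr ℝ fun a => fw a * coeff a q

lemma fi_monomial (q : MvPolynomial (Fin n) ℝ) (a : Fin n →₀ ℕ) (c : ℝ) :
    fi q (monomial a c) = c * (fw a * coeff a q) := by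
  have h : (monomial a c : MvPolynomial (Fin n) ℝ) = c • basisMonomials (Fin n) ℝ a := by
    simp [smul_monomial]
  rw [h, map_smul, fi, Module.Basis.constr_basis, smul_eq_mul]

lemma fi_eq (q p : MvPolynomial (Fin n) ℝ) (S : Finset (Fin n →₀ ℕ)) (hS : p.support ⊆ S) :
    fi q p = ∑ a ∈ S, fw a * (coeff a p * coeff a q) := by
  conv_lhs => rw [p.as_sum, map_sum]
  rw [← Finset.sum_subset hS]
  · exact Finset.sum_congr rfl fun a _ => by rw [fi_monomial]; ring
  · intro a _ ha
    simp [notMem_support_iff.1 ha]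

lemma fi_X_mul (q p : MvPolynomial (Fin n) ℝ) (i : Fin n) :
    fi q (X i * p) = fi (pderiv i q) p := by
  induction p using MvPolynomial.induction_on' with
  | add p r hp hr => simp [mul_add, hp, hr]
  | monomial a c =>
    rw [X, monomial_mul, fi_monomial, fi_monomial, coeff_pderiv, add_comm _ a, fw_add]; ring

lemma fi_sum_right {ι : Type} (s : Finset ι) (c : ι → ℝ) (q : ι → MvPolynomial (Fin n) ℝ)
    (p : MvPolynomial (Fin n) ℝ) :
    fi (∑ i ∈ s, c i • q i) p = ∑ i ∈ s, c i * fi (q i) p := by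
  simp_rw [fi_eq _ p p.support subset_rfl, coeff_sum, coeff_smul, smul_eq_mul, Finset.mul_sum]
  rw [Finset.sum_comm]
  exact Finset.sum_congr rfl fun i _ => Finset.sum_congr rfl fun a _ => by ring

noncomputable def lin (x : Fin n → ℝ) : MvPolynomial (Fin n) ℝ := ∑ i, x i • X i
noncomputable def sq2 : MvPolynomial (Fin n) ℝ := ∑ i, X i * X i
noncomputable def dd (x : Fin n → ℝ) (p : MvPolynomial (Fin n) ℝ) : MvPolynomial (Fin n) ℝ :=
  ∑ i, x i • pderiv i p
noncomputable def lap (p : MvPolynomial (Fin n) ℝ) : MvPolynomial (Fin n) ℝ :=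
  ∑ i, pderiv i (pderiv i p)

lemma fi_lin (x : Fin n → ℝ) (q p : MvPolynomial (Fin n) ℝ) :
    fi q (lin x * p) = fi (dd x q) p := by
  rw [dd, fi_sum_right, lin, Finset.sum_mul, map_sum]
  exact Finset.sum_congr rfl fun i _ => by rw [smul_mul_assoc, map_smul, fi_X_mul, smul_eq_mul]

lemma fi_sq (q p : MvPolynomial (Fin n) ℝ) : fi q (sq2 * p) = fi (lap q) p := by
  have := fi_sum_right univ (fun _ => 1) (fun i => pderiv i (pderiv i q)) p
  simp only [one_smul, one_mul] at this
  rw [lap, this, sq2, Finset.sum_mul, map_sum]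
  exact Finset.sum_congr rfl fun i _ => by rw [mul_assoc, fi_X_mul, fi_X_mul]

lemma fi_zero (p : MvPolynomial (Fin n) ℝ) : fi 0 p = 0 := by
  simp [fi_eq _ p p.support subset_rfl]

lemma pderiv_lin (x : Fin n → ℝ) (i : Fin n) : pderiv i (lin x) = C (x i) := by
  simp [lin, pderiv_X, Pi.single_apply, smul_ite, C_eq_smul_one]

lemma pderiv_sq2 (i : Fin n) : pderiv i (sq2 : MvPolynomial (Fin n) ℝ) = 2 * X i := by
  simp only [sq2, map_sum, pderiv_mul, pderiv_X, Pi.single_apply]
  simp [Finset.sum_add_distrib, two_mul]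

lemma dd_lin_mul (x : Fin n → ℝ) (hx : ∑ i, x i * x i = 1) (p : MvPolynomial (Fin n) ℝ) :
    dd x (lin x * p) = p + lin x * dd x p := by
  simp only [dd, pderiv_mul, pderiv_lin, smul_add, Finset.sum_add_distrib, Finset.mul_sum,
    mul_smul_comm, C_mul', smul_smul]
  rw [← Finset.sum_smul, hx, one_smul]

lemma dd_sq_mul (x : Fin n → ℝ) (p : MvPolynomial (Fin n) ℝ) :
    dd x (sq2 * p) = 2 * (lin x * p) + sq2 * dd x p := by
  simp only [dd, pderiv_mul, pderiv_sq2, smul_add, Finset.sum_add_distrib, Finset.mul_sum,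
    mul_smul_comm, lin, Finset.sum_mul, smul_mul_assoc, mul_assoc]

lemma lap_lin_mul (x : Fin n → ℝ) (p : MvPolynomial (Fin n) ℝ) :
    lap (lin x * p) = 2 * dd x p + lin x * lap p := by
  simp only [lap, dd, pderiv_mul, pderiv_lin, map_add, pderiv_C, zero_mul, zero_add,
    Finset.sum_add_distrib, Finset.mul_sum, C_mul', two_mul]
  simp only [Derivation.map_smul]; ring

lemma lap_sq_mul {k : ℕ} (p : MvPolynomial (Fin n) ℝ) (hp : p.IsHomogeneous k) :
    lap (sq2 * p) = ((2 * n + 4 * k : ℝ)) • p + sq2 * lap p := by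
  have h := hp.sum_X_mul_pderiv
  have h2 : ∀ i, pderiv i (pderiv i (sq2 * p)) =
      2 * p + 4 * (X i * pderiv i p) + sq2 * pderiv i (pderiv i p) := by
    intro i
    have : pderiv i (2 : MvPolynomial (Fin n) ℝ) = 0 := by
      rw [show (2 : MvPolynomial (Fin n) ℝ) = C 2 from rfl, pderiv_C]
    simp only [pderiv_mul, pderiv_sq2, map_add, this, pderiv_X_self]; ring
  simp only [lap, h2, Finset.sum_add_distrib, ← Finset.mul_sum, h, Finset.sum_const,
    Finset.card_univ, Fintype.card_fin]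
  congr 1
  simp only [nsmul_eq_mul, add_smul, ← C_mul', map_mul, map_natCast, map_add, map_ofNat]
  ring

lemma lap_dd (x : Fin n → ℝ) (p : MvPolynomial (Fin n) ℝ) : lap (dd x p) = dd x (lap p) := by
  simp only [lap, dd, map_sum, Derivation.map_smul, Finset.smul_sum]
  rw [Finset.sum_comm]
  refine Finset.sum_congr rfl fun i _ => Finset.sum_congr rfl fun j _ => ?_
  have hc : ∀ (q : MvPolynomial (Fin n) ℝ), pderiv j (pderiv i q) = pderiv i (pderiv j q) := by
    intro q
    ext m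
    simp only [coeff_pderiv]
    rw [add_right_comm m]
    by_cases h : i = j
    · subst h; rfl
    · simp [Finsupp.single_apply, h, Ne.symm h]; ring
  rw [hc, hc]

lemma hom_dd (x : Fin n → ℝ) {k : ℕ} {p : MvPolynomial (Fin n) ℝ} (hp : p.IsHomogeneous (k + 1)) :
    (dd x p).IsHomogeneous k :=
  IsHomogeneous.sum _ _ _ fun i _ => by
    rw [← C_mul']
    simpa using (isHomogeneous_C _ (x i)).mul (hp.pderiv (i := i))

lemma eval_dd (x : Fin n → ℝ) {k : ℕ} {p : MvPolynomial (Fin n) ℝ} (hp : p.IsHomogeneous k) :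
    eval x (dd x p) = k * eval x p := by
  have h := congrArg (eval x) hp.sum_X_mul_pderiv
  simp only [map_sum, map_mul, eval_X, nsmul_eq_mul, map_natCast] at h
  rw [← h, dd, map_sum]
  exact Finset.sum_congr rfl fun i _ => by rw [smul_eval]

lemma hom_lin (x : Fin n → ℝ) : (lin x).IsHomogeneous 1 :=
  IsHomogeneous.sum _ _ _ fun i _ => by
    rw [← C_mul']
    simpa using (isHomogeneous_C _ (x i)).mul (isHomogeneous_X ℝ i)

lemma hom_sq2 : (sq2 : MvPolynomial (Fin n) ℝ).IsHomogeneous 2 :=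
  IsHomogeneous.sum _ _ _ fun i _ => (isHomogeneous_X ℝ i).mul (isHomogeneous_X ℝ i)

lemma hom_smul {k : ℕ} {p : MvPolynomial (Fin n) ℝ} (c : ℝ) (hp : p.IsHomogeneous k) :
    (c • p).IsHomogeneous k := by
  rw [← C_mul']
  simpa using (isHomogeneous_C _ c).mul hp

/-- zonal solid harmonic with pole `x`. -/
noncomputable def zon (x : Fin n → ℝ) : ℕ → MvPolynomial (Fin n) ℝ
  | 0 => 1
  | 1 => lin x
  | k + 2 => ((2 * k + n : ℝ) / (k + n - 1)) • (lin x * zon x (k + 1))
      - ((k + 1 : ℝ) / (k + n - 1)) • (sq2 * zon x k)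

lemma hom_zon (x : Fin n → ℝ) : ∀ k, (zon x k).IsHomogeneous k
  | 0 => isHomogeneous_one _ _
  | 1 => hom_lin x
  | k + 2 => by
    rw [zon]
    refine IsHomogeneous.sub (hom_smul _ ?_) (hom_smul _ ?_)
    · have := (hom_lin x).mul (hom_zon x (k + 1)); rwa [add_comm 1 (k + 1)] at this
    · have := hom_sq2.mul (hom_zon x k); rwa [add_comm 2 k] at this

lemma dd_add (x : Fin n → ℝ) (a b : ℝ) (p q : MvPolynomial (Fin n) ℝ) :
    dd x (a • p - b • q) = a • dd x p - b • dd x q := by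
  simp only [dd, map_sub, Derivation.map_smul, smul_sub, Finset.sum_sub_distrib, Finset.smul_sum,
    smul_comm a, smul_comm b]

lemma lap_add (a b : ℝ) (p q : MvPolynomial (Fin n) ℝ) :
    lap (a • p - b • q) = a • lap p - b • lap q := by
  simp only [lap, map_sub, Derivation.map_smul, Finset.sum_sub_distrib, Finset.smul_sum]

lemma dd_zon (hn : 3 ≤ n) (x : Fin n → ℝ) (hx : ∑ i, x i * x i = 1) :
    ∀ k : ℕ, dd x (zon x (k + 1)) = ((k : ℝ) + 1) • zon x k
  | 0 => by
    have := dd_lin_mul x hx 1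
    simpa [zon, dd] using this
  | 1 => by
    have h0 := dd_zon hn x hx 0
    have h1 : (n : ℝ) - 1 ≠ 0 := by
      have : (3 : ℝ) ≤ n := by exact_mod_cast hn
      linarith
    have hz : dd x (1 : MvPolynomial (Fin n) ℝ) = 0 := by simp [dd]
    rw [show zon x (1 + 1) = ((2 * (0 : ℕ) + n : ℝ) / ((0 : ℕ) + n - 1)) • (lin x * zon x (0 + 1))
      - (((0 : ℕ) + 1 : ℝ) / ((0 : ℕ) + n - 1)) • (sq2 * zon x 0) from rfl,
      dd_add, dd_lin_mul x hx, dd_sq_mul, h0]
    simp only [zon, hz, Nat.cast_zero, mul_zero, zero_add, add_zero, one_smul, mul_one, two_mul,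
      Nat.cast_one]
    match_scalars
    field_simp
  | k + 2 => by
    have h0 := dd_zon hn x hx k
    have h1 := dd_zon hn x hx (k + 1)
    have h3 : (3 : ℝ) ≤ n := by exact_mod_cast hn
    have hk : (0 : ℝ) ≤ k := Nat.cast_nonneg k
    have e1 : (k : ℝ) + n - 1 ≠ 0 := by linarith
    have e2 : (k : ℝ) + 1 + n - 1 ≠ 0 := by linarith
    rw [zon, dd_add, dd_lin_mul x hx, dd_sq_mul, h0, h1]
    rw [show zon x (k + 1 + 1) = zon x (k + 2) from rfl, zon]
    simp only [mul_smul_comm, two_mul, Nat.cast_add, Nat.cast_one, Nat.cast_ofNat]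
    match_scalars
    · field_simp; ring
    · field_simp; ring

lemma lap_zon (hn : 3 ≤ n) (x : Fin n → ℝ) (hx : ∑ i, x i * x i = 1) :
    ∀ k : ℕ, lap (zon x k) = 0
  | 0 => by simp [zon, lap]
  | 1 => by simp [zon, lap, pderiv_lin]
  | k + 2 => by
    rw [zon, lap_add, lap_lin_mul, lap_sq_mul _ (hom_zon x k), lap_zon hn x hx k,
      lap_zon hn x hx (k + 1), dd_zon hn x hx]
    simp only [mul_zero, add_zero, two_mul]
    match_scalars
    ring

/-- reproducing constant -/
noncomputable def rc (n : ℕ) : ℕ → ℝ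
  | 0 => 1
  | 1 => 1
  | k + 2 => ((2 * k + n : ℝ) / (k + n - 1)) * (rc n (k + 1) * (k + 2))

lemma rc_pos (hn : 3 ≤ n) : ∀ k, 0 < rc n k
  | 0 => one_pos
  | 1 => one_pos
  | k + 2 => by
    have h3 : (3 : ℝ) ≤ n := by exact_mod_cast hn
    have hk : (0 : ℝ) ≤ k := Nat.cast_nonneg k
    have := rc_pos hn (k + 1)
    have e1 : 0 < (k : ℝ) + n - 1 := by linarith
    rw [rc]; positivity

lemma fi_one (x : Fin n → ℝ) (p : MvPolynomial (Fin n) ℝ) (hp : p.IsHomogeneous 0) :
    fi p 1 = eval x p := by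
  rw [← totalDegree_zero_iff_isHomogeneous, totalDegree_eq_zero_iff_eq_C] at hp
  rw [show (1 : MvPolynomial (Fin n) ℝ) = monomial 0 1 from rfl, fi_monomial]
  conv_rhs => rw [hp]
  simp [fw]

lemma fi_zon (x : Fin n → ℝ) : ∀ (k : ℕ) (p : MvPolynomial (Fin n) ℝ), p.IsHomogeneous k →
    lap p = 0 → fi p (zon x k) = rc n k * eval x p
  | 0, p, hp, _ => by rw [zon, rc, one_mul, fi_one x p hp]
  | 1, p, hp, _ => by
    rw [zon, rc, one_mul, ← mul_one (lin x), fi_lin, fi_one x _ (hom_dd x hp), eval_dd x hp]; simp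
  | k + 2, p, hp, hl => by
    rw [zon, map_sub, map_smul, map_smul, fi_lin, fi_sq, hl, fi_zero,
      fi_zon x (k + 1) _ (hom_dd x hp) (by rw [lap_dd, hl]; simp [dd]), eval_dd x hp, rc]
    simp; ring

lemma eval_zon (x y : Fin n → ℝ) (hy : ∑ i, y i * y i = 1) :
    ∀ k, eval y (zon x k) = geg n (∑ i, x i * y i) k
  | 0 => by simp [zon, geg]
  | 1 => by simp [zon, geg, lin, smul_eval]
  | k + 2 => by
    rw [zon, geg, map_sub, smul_eval, smul_eval, map_mul, map_mul, eval_zon x y hy k,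
      eval_zon x y hy (k + 1)]
    simp only [lin, sq2, map_sum, smul_eval, eval_X, map_mul, hy]
    ring

end Fischer

/-- positive semidefinite kernel on an index set. -/
def PSD {ι : Type} (s : Finset ι) (L : ι → ι → ℝ) : Prop :=
  ∀ c : ι → ℝ, 0 ≤ ∑ i ∈ s, ∑ j ∈ s, c i * c j * L i j

/-- Schur product with a Gegenbauer kernel. -/
theorem PSD.geg_mul {n : ℕ} (hn : 3 ≤ n) {ι : Type} {s : Finset ι} {L : ι → ι → ℝ} (hL : PSD s L)
    (e : ι → EuclideanSpace ℝ (Fin n)) (he : ∀ i ∈ s, ‖e i‖ = 1) (k : ℕ) :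
    PSD s fun i j => geg n (inner ℝ (e i) (e j)) k * L i j := by
  classical
  intro c
  have hu : ∀ i ∈ s, ∑ a, e i a * e i a = 1 := fun i hi => by
    have h := he i hi
    have h2 := EuclideanSpace.real_norm_sq_eq (e i)
    rw [h] at h2
    simpa [sq] using h2.symm
  set S := s.biUnion fun i => (zon (fun a => e i a) k).support
  have key : ∀ i ∈ s, ∀ j ∈ s, geg n (inner ℝ (e i) (e j)) k = ∑ a ∈ S, fw a / rc n k *
      (coeff a (zon (fun a => e i a) k) * coeff a (zon (fun a => e j a) k)) := by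
    intro i hi j hj
    have h1 := fi_zon (fun a => e i a) k _ (hom_zon (fun a => e j a) k)
      (lap_zon hn _ (hu j hj) k)
    rw [fi_eq _ _ S (Finset.subset_biUnion_of_mem
      (fun i => (zon (fun a => e i a) k).support) hi), eval_zon _ _ (hu i hi)] at h1
    have h2 : inner ℝ (e i) (e j) = ∑ a, e j a * e i a := by
      simp [PiLp.inner_apply]
    have := (rc_pos hn k).ne'
    rw [h2, ← mul_right_inj' this, ← h1, Finset.mul_sum]
    exact Finset.sum_congr rfl fun a _ => by field_simp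
  have : ∑ i ∈ s, ∑ j ∈ s, c i * c j * (geg n (inner ℝ (e i) (e j)) k * L i j)
      = ∑ a ∈ S, fw a / rc n k * ∑ i ∈ s, ∑ j ∈ s, (c i * coeff a (zon (fun a => e i a) k)) *
        (c j * coeff a (zon (fun a => e j a) k)) * L i j := by
    simp_rw [Finset.mul_sum]
    rw [Finset.sum_comm (s := S)]
    refine Finset.sum_congr rfl fun i hi => ?_
    rw [Finset.sum_comm (s := S)]
    refine Finset.sum_congr rfl fun j hj => ?_
    rw [key i hi j hj, Finset.sum_mul, Finset.mul_sum]
    exact Finset.sum_congr rfl fun a _ => by ring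
  rw [this]
  exact Finset.sum_nonneg fun a _ =>
    mul_nonneg (div_pos (fw_pos a) (rc_pos hn k)).le (hL _)

end Pool.Agent.Lib.MP_30f764_gt
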