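import Pool.Agent.Lib.MP_30f764_gt.Chain

/-! The linear programming inequality for the kernel `exp (c * inner x y)`. -/

namespace Pool.Agent.Lib.MP_30f764_gt
open Finset Filter Topology

noncomputable def EE (t : ℝ) : ℕ → ℝ → ℝ
  | 0 => fun s => Real.exp (s * t)
  | l + 1 => fun s => ∫ x in (0 : ℝ)..s, EE t l x

lemma EE_cont (t : ℝ) : ∀ l, Continuous (EE t l)
  | 0 => by unfold EE; fun_prop
  | l + 1 => intervalIntegral.continuous_primitive
      (fun a b => (EE_cont t l).intervalIntegrable a b) 0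

lemma EE_nonneg (t : ℝ) : ∀ l s, 0 ≤ s → 0 ≤ EE t l s
  | 0, _, _ => (Real.exp_pos _).le
  | l + 1, _, hs => intervalIntegral.integral_nonneg hs fun x hx => EE_nonneg t l x hx.1

lemma int_pow_fac (l : ℕ) (s : ℝ) : ∫ x in (0 : ℝ)..s, x ^ l / (l.factorial : ℝ)
    = s ^ (l + 1) / ((l + 1).factorial : ℝ) := by
  rw [intervalIntegral.integral_div, integral_pow, Nat.factorial_succ]
  have : (l.factorial : ℝ) ≠ 0 := by positivity
  push_cast; field_simp; simp

lemma EE_rec (t : ℝ) : ∀ l s, EE t l s = s ^ l / (l.factorial : ℝ) + t * EE t (l + 1) s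
  | 0, s => by
    have h : ∀ x ∈ Set.uIcc (0 : ℝ) s, HasDerivAt (fun x => Real.exp (x * t))
        (t * Real.exp (x * t)) x := fun x _ => by
      simpa [mul_comm] using ((hasDerivAt_id x).mul_const t).exp
    have := intervalIntegral.integral_eq_sub_of_hasDerivAt h
      (Continuous.intervalIntegrable (by fun_prop) _ _)
    rw [intervalIntegral.integral_const_mul] at this
    simp only [EE]
    rw [this]; simp
  | l + 1, s => by
    have h : EE t l = fun s => s ^ l / (l.factorial : ℝ) + t * EE t (l + 1) s :=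
      funext (EE_rec t l)
    have h1 : EE t (l + 1) s = ∫ x in (0 : ℝ)..s, EE t l x := rfl
    have h2 : EE t (l + 1 + 1) s = ∫ x in (0 : ℝ)..s, EE t (l + 1) x := rfl
    have hc := EE_cont t (l + 1)
    rw [h1, h2, h, intervalIntegral.integral_add (Continuous.intervalIntegrable (by fun_prop) _ _)
      (Continuous.intervalIntegrable (by fun_prop) _ _), int_pow_fac,
      intervalIntegral.integral_const_mul]

lemma EE_le {t : ℝ} (ht : t ≤ 1) : ∀ l s, 0 ≤ s →
    EE t l s ≤ Real.exp s * (s ^ l / (l.factorial : ℝ))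
  | 0, s, hs => by
    simp only [EE, pow_zero, Nat.factorial_zero, Nat.cast_one, div_one, mul_one]
    exact Real.exp_le_exp.2 (by nlinarith)
  | l + 1, s, hs => by
    rw [← int_pow_fac, ← intervalIntegral.integral_const_mul]
    refine intervalIntegral.integral_mono_on hs ((EE_cont t l).intervalIntegrable _ _)
      (Continuous.intervalIntegrable (by fun_prop) _ _) fun x hx => ?_
    refine (EE_le ht l x hx.1).trans ?_
    have := hx.1
    gcongr
    exact hx.2

variable {n K : ℕ}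

lemma hh_abs_le (hn : 3 ≤ n) (hK : 1 ≤ K) (m : ℕ) (x y : EuclideanSpace ℝ (Fin n))
    (hx : ‖x‖ = 1) (hy : ‖y‖ = 1) : |hh n K m (inner ℝ x y)| ≤ 1 := by
  have key : ∀ σ : ℝ, 0 ≤ (1 + σ ^ 2) * hh n K m 1 + 2 * σ * hh n K m (inner ℝ x y) := by
    intro σ
    have h := hh_psd hn hK m (univ : Finset Bool) (fun b => if b then x else y)
      (fun b _ => by cases b <;> simp [hx, hy]) (fun b => if b then 1 else σ)
    have h0 := mul_nonneg (qq_nonneg (K := K) hn m 0)
      (sq_nonneg (∑ i : Bool, if i then (1 : ℝ) else σ))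
    have h1 := h0.trans h
    simp only [Fintype.univ_bool, mem_singleton, Bool.true_eq_false, not_false_eq_true, sum_insert,
      sum_singleton, if_true, Bool.false_eq_true, if_false, real_inner_self_eq_norm_sq, hx, hy,
      real_inner_comm x y, one_pow] at h1
    rw [real_inner_comm]
    rw [real_inner_comm] at h1
    linarith
  have h1 := key 1
  have h2 := key (-1)
  have h3 := hh_one_le_one hn hK m
  rw [abs_le]; constructor <;> linarith

lemma hh_sum_le (hn : 3 ≤ n) (hK : 1 ≤ K) (x y : EuclideanSpace ℝ (Fin n))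
    (hx : ‖x‖ = 1) (hy : ‖y‖ = 1) {s : ℝ} (hs : 0 ≤ s) (M : ℕ) :
    ∑ m ∈ range (M + 1), s ^ m / (m.factorial : ℝ) * hh n K m (inner ℝ x y)
      ≤ Real.exp (s * inner ℝ x y) + Real.exp s * (s ^ (M + 1) / ((M + 1).factorial : ℝ)) := by
  set t : ℝ := inner ℝ x y with ht
  have ht1 : |t| ≤ 1 := by simpa [hx, hy] using abs_real_inner_le_norm x y
  have key : ∀ M, ∑ m ∈ range (M + 1), s ^ m / (m.factorial : ℝ) * hh n K m t
      + t * hh n K M t * EE t (M + 1) s ≤ EE t 0 s := by
    intro M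
    induction M with
    | zero => rw [EE_rec t 0 s]; simp [hh_zero hK]
    | succ M ih =>
      rw [Finset.sum_range_succ]
      rw [hh_succ hn hK, add_mul] at ih
      have h1 := mul_nonneg (mul_nonneg (up_nonneg hn (q2_nonneg (K := K) hn M) K)
        (sq_nonneg (geg n t K))) (EE_nonneg t (M + 1) s hs)
      have h2 := EE_rec t (M + 1) s
      have h3 : hh n K (M + 1) t * EE t (M + 1) s = s ^ (M + 1) / ((M + 1).factorial : ℝ)
          * hh n K (M + 1) t + t * hh n K (M + 1) t * EE t (M + 1 + 1) s := by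
        rw [h2]; ring
      linarith
  have h1 := key M
  have h2 : |t * hh n K M t| ≤ 1 := by
    rw [abs_mul]
    exact mul_le_one₀ ht1 (abs_nonneg _) (hh_abs_le hn hK M x y hx hy)
  have h3 := EE_le (abs_le.1 ht1).2 (M + 1) s hs
  have h4 := EE_nonneg t (M + 1) s hs
  have h5 : EE t 0 s = Real.exp (s * t) := rfl
  nlinarith [(abs_le.1 h2).1]

theorem kernel_bound (hn : 3 ≤ n) (hK : 1 ≤ K) {ι : Type} [DecidableEq ι] (X : Finset ι)
    (v : ι → EuclideanSpace ℝ (Fin n)) (w : ι → ℝ) {c L D : ℝ} (hc : 0 ≤ c)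
    (hw : ∀ i, 0 ≤ w i) (hv : ∀ i, w i ≠ 0 → v i ≠ 0 ∧ ‖v i‖ ≤ L)
    (hD : ∀ M, ∑ m ∈ range M, (c * L ^ 2) ^ m / (m.factorial : ℝ) * hh n K m 1 ≤ D)
    (I : Finset ℕ) :
    ∑ m ∈ I, c ^ m / (m.factorial : ℝ) * qq n K m 0 * (∑ i ∈ X, w i * ‖v i‖ ^ m) ^ 2
      ≤ ∑ p ∈ X.offDiag, w p.1 * w p.2 * Real.exp (c * inner ℝ (v p.1) (v p.2))
        + ∑ i ∈ X, w i ^ 2 * D := by
  classical
  obtain ⟨u, hu⟩ : ∃ u : EuclideanSpace ℝ (Fin n), ‖u‖ = 1 :=
    ⟨EuclideanSpace.single ⟨0, by omega⟩ 1, by simp⟩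
  set e : ι → EuclideanSpace ℝ (Fin n) := fun i => if v i = 0 then u else ‖v i‖⁻¹ • v i with he
  have he1 : ∀ i, ‖e i‖ = 1 := fun i => by
    simp only [he]
    split_ifs with h
    · exact hu
    · rw [norm_smul, norm_inv, norm_norm, inv_mul_cancel₀ (norm_ne_zero_iff.2 h)]
  have he2 : ∀ i, v i = ‖v i‖ • e i := fun i => by
    simp only [he]
    split_ifs with h
    · simp [h]
    · rw [smul_smul, mul_inv_cancel₀ (norm_ne_zero_iff.2 h), one_smul]
  have he3 : ∀ i j, c * inner ℝ (v i) (v j) = c * ‖v i‖ * ‖v j‖ * inner ℝ (e i) (e j) := by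
    intro i j
    conv_lhs => rw [he2 i, he2 j, real_inner_smul_left, real_inner_smul_right]
    ring
  have hlim : Tendsto (fun M : ℕ => ∑ p ∈ X.offDiag, w p.1 * w p.2 *
      (Real.exp (c * inner ℝ (v p.1) (v p.2)) + Real.exp (c * ‖v p.1‖ * ‖v p.2‖) *
        ((c * ‖v p.1‖ * ‖v p.2‖) ^ (M + 1) / ((M + 1).factorial : ℝ))) + ∑ i ∈ X, w i ^ 2 * D)
      atTop (𝓝 (∑ p ∈ X.offDiag, w p.1 * w p.2 * (Real.exp (c * inner ℝ (v p.1) (v p.2)) +
        Real.exp (c * ‖v p.1‖ * ‖v p.2‖) * 0) + ∑ i ∈ X, w i ^ 2 * D)) := by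
    refine Tendsto.add_const _ (tendsto_finsetSum _ fun p _ => Tendsto.const_mul _
      (Tendsto.const_add _ (Tendsto.const_mul _ ?_)))
    exact (FloorSemiring.tendsto_pow_div_factorial_atTop _).comp (tendsto_add_atTop_nat 1)
  simp only [mul_zero, add_zero] at hlim
  refine ge_of_tendsto hlim ?_
  filter_upwards [eventually_ge_atTop (I.sup id)] with M hM
  have hI : I ⊆ range (M + 1) := fun m hm =>
    Finset.mem_range.2 (Nat.lt_succ_of_le ((Finset.le_sup (f := id) hm).trans hM))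
  set F : ι → ι → ℝ := fun i j => w i * w j * ∑ m ∈ range (M + 1),
    (c * ‖v i‖ * ‖v j‖) ^ m / (m.factorial : ℝ) * hh n K m (inner ℝ (e i) (e j)) with hF
  calc _ ≤ ∑ m ∈ range (M + 1), c ^ m / (m.factorial : ℝ) * qq n K m 0 *
          (∑ i ∈ X, w i * ‖v i‖ ^ m) ^ 2 :=
        Finset.sum_le_sum_of_subset_of_nonneg hI fun m _ _ => by
          have := qq_nonneg (K := K) hn m 0
          positivity
    _ ≤ ∑ m ∈ range (M + 1), c ^ m / (m.factorial : ℝ) * ∑ i ∈ X, ∑ j ∈ X,
          (w i * ‖v i‖ ^ m) * (w j * ‖v j‖ ^ m) * hh n K m (inner ℝ (e i) (e j)) :=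
        Finset.sum_le_sum fun m _ => by
          rw [mul_assoc]
          exact mul_le_mul_of_nonneg_left (hh_psd hn hK m X e (fun i _ => he1 i) _)
            (by positivity)
    _ = ∑ i ∈ X, ∑ j ∈ X, F i j := by
        simp only [hF, Finset.mul_sum]
        rw [Finset.sum_comm]
        refine Finset.sum_congr rfl fun i _ => ?_
        rw [Finset.sum_comm]
        refine Finset.sum_congr rfl fun j _ => Finset.sum_congr rfl fun m _ => ?_
        simp only [mul_pow]; ring
    _ = ∑ p ∈ X.offDiag, F p.1 p.2 + ∑ i ∈ X, F i i := by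
        rw [← Finset.sum_product', ← Finset.diag_union_offDiag,
          Finset.sum_union (Finset.disjoint_diag_offDiag X), Finset.sum_diag, add_comm]
    _ ≤ _ := by
        refine add_le_add (Finset.sum_le_sum fun p _ => ?_) (Finset.sum_le_sum fun i _ => ?_)
        · refine mul_le_mul_of_nonneg_left ?_ (mul_nonneg (hw _) (hw _))
          rw [he3]
          exact hh_sum_le hn hK _ _ (he1 _) (he1 _) (by positivity) M
        · by_cases h : w i = 0
          · simp [hF, h]
          simp only [hF, sq]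
          refine mul_le_mul_of_nonneg_left (le_trans ?_ (hD (M + 1))) (mul_self_nonneg _)
          refine Finset.sum_le_sum fun m _ => ?_
          rw [real_inner_self_eq_norm_sq, he1, one_pow]
          have h1 := (hv i h).2
          have h2 := hh_one_nonneg (K := K) hn m
          have hL := (norm_nonneg _).trans h1
          have h3 : c * ‖v i‖ * ‖v i‖ ≤ c * L ^ 2 := by
            rw [mul_assoc, sq]; gcongr
          gcongr

end Pool.Agent.Lib.MP_30f764_gt
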