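import Mathlib

namespace Pool.Agent.Lib.MP_30f764_gt
open MeasureTheory

/-- `h` is an admissible auxiliary function for the Gaussian potential `exp (-α |x|²)`:
continuous, integrable, positive definite, and below the potential away from the origin. -/
def LPFeasible {n : ℕ} (α : ℝ) (h : EuclideanSpace ℝ (Fin n) → ℝ) : Prop :=
  Continuous h ∧ Integrable h ∧
  (∀ ξ, 0 ≤ ∫ x, h x * Real.cos (2 * Real.pi * inner ℝ x ξ)) ∧
  ∀ x, x ≠ 0 → h x ≤ Real.exp (-α * ‖x‖ ^ 2)

/-- The linear programming bound for the Gaussian energy at density `ρ` in dimension `n`. -/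
noncomputable def lpBound (n : ℕ) (α ρ : ℝ) : ℝ :=
  sSup {v : ℝ | ∃ h : EuclideanSpace ℝ (Fin n) → ℝ, LPFeasible α h ∧ v = ρ * (∫ x, h x) - h 0}

end Pool.Agent.Lib.MP_30f764_gt
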