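import Pool.Agent.Lib.MP_30f764_gt.NMain
import Pool.Agent.Lib.MP_30f764_gt.BarMain
import Pool.Agent.Lib.MP_30f764_gt.LPDefs

/-! The exact exponential rate of the linear programming bound. -/

set_option autoImplicit false

namespace Pool.Agent.Lib.MP_30f764_gt.Ml

open Real Filter Topology MeasureTheory Set

variable {n : ℕ} {H h : EE n → ℝ}

lemma rep_cont (Hi : Integrable H) (rep : ∀ x, h x = ∫ ξ, H ξ * cos (2 * inner ℝ x ξ)) : Continuous h := by
  rw [show h = fun x => ∫ ξ, H ξ * cos (2 * inner ℝ x ξ) from funext rep]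
  refine continuous_of_dominated (bound := fun ξ => ‖H ξ‖) (fun x => (int_cos Hi x).1)
    (fun x => Eventually.of_forall fun ξ => ?_) Hi.norm (Eventually.of_forall fun ξ => by fun_prop)
  rw [norm_mul]
  exact mul_le_of_le_one_right (norm_nonneg _) (abs_cos_le_one _)

lemma rep_reg (Hi : Integrable H) (H0 : ∀ᵐ ξ, 0 ≤ H ξ)
    (rep : ∀ x, h x = ∫ ξ, H ξ * cos (2 * inner ℝ x ξ)) (w : EE n) {s : ℝ} (hs : 0 < s) :
    0 ≤ ∫ x, h x * cos (2 * π * inner ℝ x w) * exp (-(s * ‖x‖ ^ 2)) := by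
  have gi : Integrable fun x : EE n => exp (-(s * ‖x‖ ^ 2)) := by
    simpa only [neg_mul] using gauss_integrable (n := n) hs
  have j : Integrable (Function.uncurry fun (x ζ : EE n) => exp (-(s * ‖x‖ ^ 2)) * H ζ *
      (cos (2 * inner ℝ x ζ) * cos (2 * π * inner ℝ x w))) (volume.prod volume) :=
    (gi.mul_prod Hi).mul_bdd (c := 1) (g := fun p : EE n × EE n =>
      cos (2 * inner ℝ p.1 p.2) * cos (2 * π * inner ℝ p.1 w)) (by fun_prop)
      (Eventually.of_forall fun p => by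
        rw [norm_mul]
        exact mul_le_one₀ (abs_cos_le_one _) (norm_nonneg _) (abs_cos_le_one _))
  have j2 := integral_integral_swap j
  have e1 : ∀ x, h x * cos (2 * π * inner ℝ x w) * exp (-(s * ‖x‖ ^ 2)) =
      ∫ ζ, exp (-(s * ‖x‖ ^ 2)) * H ζ * (cos (2 * inner ℝ x ζ) * cos (2 * π * inner ℝ x w)) := fun x => by
    rw [rep x, ← integral_mul_const, ← integral_mul_const]
    congr 1; funext ζ; ring
  simp only [e1]
  rw [j2]
  refine integral_nonneg_of_ae ?_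
  filter_upwards [H0] with ζ h0
  have e2 : ∀ x : EE n, exp (-(s * ‖x‖ ^ 2)) * H ζ * (cos (2 * inner ℝ x ζ) * cos (2 * π * inner ℝ x w)) =
      H ζ / 2 * (exp (-(s * ‖x‖ ^ 2)) * cos (2 * inner ℝ (ζ - π • w) x) +
        exp (-(s * ‖x‖ ^ 2)) * cos (2 * inner ℝ (ζ + π • w) x)) := fun x => by
    rw [inner_sub_left, inner_add_left, real_inner_smul_left, real_inner_comm x ζ, real_inner_comm x w,
      mul_sub, mul_add 2, cos_sub, cos_add, mul_assoc 2 π]
    ring
  simp only [e2, Pi.zero_apply]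
  rw [integral_const_mul, integral_add (int_cos gi _) (int_cos gi _), gauss_cos hs, gauss_cos hs]
  have := pi_pos
  positivity

lemma rep_pos (Hi : Integrable H) (H0 : ∀ᵐ ξ, 0 ≤ H ξ)
    (rep : ∀ x, h x = ∫ ξ, H ξ * cos (2 * inner ℝ x ξ)) (hi : Integrable h) (w : EE n) :
    0 ≤ ∫ x, h x * cos (2 * π * inner ℝ x w) := by
  have t := tendsto_integral_of_dominated_convergence (μ := volume)
    (F := fun (k : ℕ) (x : EE n) => h x * cos (2 * π * inner ℝ x w) * exp (-(1 / ((k : ℝ) + 1) * ‖x‖ ^ 2)))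
    (f := fun x => h x * cos (2 * π * inner ℝ x w)) (fun x => ‖h x‖)
    (fun k => (hi.1.mul (by fun_prop)).mul (by fun_prop)) hi.norm
    (fun k => Eventually.of_forall fun x => by
      rw [norm_mul, norm_mul, mul_assoc]
      refine mul_le_of_le_one_right (norm_nonneg _) (mul_le_one₀ (abs_cos_le_one _) (norm_nonneg _) ?_)
      rw [norm_of_nonneg (exp_pos _).le, exp_le_one_iff, neg_nonpos]
      positivity)
    (Eventually.of_forall fun x => by
      have t1 := ((continuous_exp.tendsto _).comp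
        (tendsto_one_div_add_atTop_nhds_zero_nat.mul_const (‖x‖ ^ 2)).neg).const_mul
        (h x * cos (2 * π * inner ℝ x w))
      simpa using t1)
  exact ge_of_tendsto' t fun k => rep_reg Hi H0 rep w (by positivity)

theorem lp_lower {α ρ c : ℝ} (hα : π ^ 2 / 2 ≤ α) (hρ : 0 < ρ)
    (hc : c < √(2 * exp 1 / π) * exp (-α / π ^ 2)) (c0 : 0 < c) :
    ∀ᶠ n : ℕ in atTop, ∃ h : EE n → ℝ, LPFeasible α h ∧ c ^ n ≤ ρ * (∫ x, h x) - h 0 := by
  filter_upwards [ex_lp hα hρ hc c0, eventually_ge_atTop 1] with n hn n1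
  obtain ⟨H, h, g, z1, z2, z3, z4, z5, z6, -, z8, z9⟩ := hn
  have : NeZero n := ⟨by omega⟩
  refine ⟨h, ⟨rep_cont z1 z3, z4, rep_pos z1 (by filter_upwards [Measure.ae_ne volume 0] using z2) z3 z4,
    z5⟩, z9.trans ?_⟩
  have := integral_mono_ae z4 z6 (by filter_upwards [Measure.ae_ne volume 0] using z8)
  nlinarith

theorem lp_exact {α ρ : ℝ} (hα : π ^ 2 / 2 < α) (hρ : 0 < ρ) :
    Tendsto (fun n : ℕ => lpBound n α ρ ^ ((1 : ℝ) / n)) atTop
      (𝓝 (√(2 * exp 1 / π) * exp (-α / π ^ 2))) := by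
  have hpi := pi_pos
  set r := √(2 * exp 1 / π) * exp (-α / π ^ 2) with hr
  have r0 : 0 < r := by positivity
  have root : ∀ (c : ℝ) (n : ℕ), 0 < c → 1 ≤ n → (c ^ n) ^ ((1 : ℝ) / n) = c := fun c n c0 n1 => by
    rw [one_div, pow_rpow_inv_natCast c0.le (by omega)]
  have up : ∀ c, r < c → ∀ᶠ n : ℕ in atTop, ∀ v ∈ {v : ℝ | ∃ h : EE n → ℝ, LPFeasible α h ∧
      v = ρ * (∫ x, h x) - h 0}, v ≤ c ^ n := fun c hc => by
    filter_upwards [Bar.barrier α ρ c hα hρ hc] with n hn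
    rintro _ ⟨h, ⟨a1, a2, a3, a4⟩, rfl⟩
    exact hn h a1 a2 a3 a4
  refine tendsto_order.2 ⟨fun a ha => ?_, fun a ha => ?_⟩
  · obtain ⟨c, c1, c2⟩ := exists_between (max_lt ha r0)
    have c0 : 0 < c := lt_of_le_of_lt (le_max_right _ _) c1
    filter_upwards [lp_lower hα.le hρ c2 c0, up (r + 1) (by linarith), eventually_ge_atTop 1] with n h1 h2 n1
    obtain ⟨h, b1, b2⟩ := h1
    have b3 : c ^ n ≤ lpBound n α ρ := b2.trans (le_csSup ⟨_, h2⟩ ⟨h, b1, rfl⟩)
    have := rpow_le_rpow (by positivity) b3 (show 0 ≤ (1 : ℝ) / n by positivity)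
    rw [root c n c0 n1] at this
    exact lt_of_lt_of_le (lt_of_le_of_lt (le_max_left _ _) c1) this
  · obtain ⟨c, c1, c2⟩ := exists_between ha
    have c0 : 0 < c := r0.trans c1
    filter_upwards [up c c1, eventually_ge_atTop 1] with n h2 n1
    have z : (0 : ℝ) ∈ {v : ℝ | ∃ h : EE n → ℝ, LPFeasible α h ∧ v = ρ * (∫ x, h x) - h 0} :=
      ⟨fun _ => 0, ⟨continuous_const, integrable_zero _ _ _, by simp, fun x _ => (exp_pos _).le⟩, by simp⟩
    have b3 : lpBound n α ρ ≤ c ^ n := csSup_le ⟨0, z⟩ h2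
    have b4 : 0 ≤ lpBound n α ρ := le_csSup ⟨_, h2⟩ z
    have := rpow_le_rpow b4 b3 (show 0 ≤ (1 : ℝ) / n by positivity)
    rw [root c n c0 n1] at this
    exact lt_of_le_of_lt this c2

end Pool.Agent.Lib.MP_30f764_gt.Ml
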