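import Pool.Agent.Lib.MP_30f764_gt.Moments

/-! The asymptotic lower bound for `α ≤ 4.898`. -/

namespace Pool.Agent.Lib.MP_30f764_gt
open Finset Filter Topology Metric MeasureTheory

variable {n K : ℕ}

lemma diag_bound (hn : 4 ≤ n) (hK : 1 ≤ K) {τ b : ℝ} (hτ : 0 ≤ τ) (hτ1 : τ ^ 2 < 1) (hb : 0 < b)
    (hs : 1 ≤ τ * b) (M : ℕ) :
    ∑ m ∈ range M, (τ * b) ^ m / (m.factorial : ℝ) * hh n K m 1 ≤ dm n K *
      (Real.exp (b - ((n - 2) * Real.log (b / (n - 2)) + (n - 2))) *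
        (n * (n + 2) * (1 / (1 - τ ^ 2)) ^ 2 * (1 / (1 - τ ^ 2) ^ ((n : ℝ) / 2)))) := by
  have hn3 : 3 ≤ n := by omega
  have h4 : (4 : ℝ) ≤ n := by exact_mod_cast hn
  set R := Real.exp (b - ((n - 2) * Real.log (b / (n - 2)) + (n - 2))) with hR
  set u : ℕ → ℝ := fun m => (τ * b) ^ m / (m.factorial : ℝ) * cc n m 0 with hu
  have hu0 : ∀ m, 0 ≤ u m := fun m => by
    have := cc_nonneg hn3 m 0
    simp only [hu]; positivity
  set v : ℕ → ℝ := fun m => u m * ((n + m) * (n + 2 + m)) with hv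
  have hv0 : ∀ m, 0 ≤ v m := fun m => by
    have := hu0 m
    simp only [hv]; positivity
  have h1 : ∀ m : ℕ, (τ * b) ^ m / (m.factorial : ℝ) * hh n K m 1
      ≤ dm n K * (u (m + 1) * (((m + 1 : ℕ) : ℝ) * ((m + 1 : ℕ) + n - 2)) + u m * (m + 1)) := by
    intro m
    have hm : (0 : ℝ) ≤ m := Nat.cast_nonneg m
    have c1 := cc_nonneg hn3 (m + 1) 0
    have c0 := cc_nonneg hn3 m 0
    have e0 : (0 : ℝ) ≤ m + n - 1 := by linarith
    have a1 : hh n K m 1 ≤ dm n K * (cc n (m + 1) 0 * (m + n - 1) + cc n m 0 * (m + 1)) :=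
      (hh_one_le hn hK m).trans (mul_le_mul_of_nonneg_left
        (div_le_self (by positivity) (by linarith)) (dm_pos hn3 K).le)
    have a2 : (τ * b) ^ m / (m.factorial : ℝ)
        ≤ (τ * b) ^ (m + 1) / ((m + 1).factorial : ℝ) * (m + 1) := by
      rw [Nat.factorial_succ, pow_succ]
      push_cast
      rw [show (τ * b) ^ m * (τ * b) / ((m + 1) * (m.factorial : ℝ)) * (m + 1)
        = (τ * b) ^ m / (m.factorial : ℝ) * (τ * b) by field_simp]
      exact le_mul_of_one_le_right (by positivity) hs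
    calc _ ≤ (τ * b) ^ m / (m.factorial : ℝ) *
          (dm n K * (cc n (m + 1) 0 * (m + n - 1) + cc n m 0 * (m + 1))) := by gcongr
      _ = dm n K * ((τ * b) ^ m / (m.factorial : ℝ) * (cc n (m + 1) 0 * (m + n - 1))
          + u m * (m + 1)) := by simp only [hu]; ring
      _ ≤ dm n K * ((τ * b) ^ (m + 1) / ((m + 1).factorial : ℝ) * (m + 1) *
          (cc n (m + 1) 0 * (m + n - 1)) + u m * (m + 1)) := by
          have := (dm_pos hn3 K).le
          gcongr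
      _ = _ := by simp only [hu]; push_cast; ring
  refine (Finset.sum_le_sum fun m _ => h1 m).trans ?_
  rw [← Finset.mul_sum]
  refine mul_le_mul_of_nonneg_left ?_ (dm_pos hn3 K).le
  have h2 : ∑ m ∈ range M, (u (m + 1) * (((m + 1 : ℕ) : ℝ) * ((m + 1 : ℕ) + n - 2))
      + u m * (m + 1)) ≤ ∑ m ∈ range (M + 1), v m := by
    calc _ ≤ ∑ m ∈ range (M + 1), u m * ((m : ℝ) * (m + n - 2))
          + ∑ m ∈ range (M + 1), u m * (m + 1) := by
          rw [Finset.sum_add_distrib, Finset.sum_range_succ' (fun m => u m * ((m : ℝ) * _)),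
            Finset.sum_range_succ (fun m => u m * ((m : ℝ) + 1))]
          have := hu0 M
          simp only [Nat.cast_zero, zero_mul, mul_zero, add_zero, add_le_add_iff_left,
            le_add_iff_nonneg_right]
          positivity
      _ ≤ _ := by
          rw [← Finset.sum_add_distrib]
          refine Finset.sum_le_sum fun m _ => ?_
          have hm : (0 : ℝ) ≤ m := Nat.cast_nonneg m
          simp only [hv]
          rw [← mul_add]
          exact mul_le_mul_of_nonneg_left (by nlinarith) (hu0 m)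
  have h3 : ∀ M, ∑ m ∈ range (2 * M), v m
      ≤ ∑ i ∈ range M, R * (nb n (τ ^ 2) i * (n + 2 * i) * (n + 2 + 2 * i)) := by
    intro M
    induction M with
    | zero => simp
    | succ M ih =>
      rw [show 2 * (M + 1) = 2 * M + 1 + 1 by ring, Finset.sum_range_succ, Finset.sum_range_succ,
        Finset.sum_range_succ]
      have e1 : v (2 * M + 1) = 0 := by simp [hv, hu, mu_odd hn3]
      have hp := pr_pos (a := n) (by linarith) M
      have e2 : u (2 * M) = (b ^ M / pr n M) ^ 2 * nb n (τ ^ 2) M := by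
        simp only [hu]
        rw [div_mul_eq_mul_div, mul_div_assoc, mu_even hn3, nb]
        have : (M.factorial : ℝ) ≠ 0 := by positivity
        field_simp
        ring
      have e3 : v (2 * M) ≤ R * (nb n (τ ^ 2) M * (n + 2 * M) * (n + 2 + 2 * M)) := by
        simp only [hv]
        rw [e2]
        push_cast
        rw [mul_assoc, mul_assoc (nb _ _ _)]
        have := nb_nonneg (a := n) (by linarith) (sq_nonneg τ) M
        exact mul_le_mul_of_nonneg_right (pow_div_pr (by linarith) hb M) (by positivity)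
      linarith
  refine h2.trans ((Finset.sum_le_sum_of_subset_of_nonneg
    (Finset.range_mono (by omega : M + 1 ≤ 2 * (M + 1))) fun m _ _ => hv0 m).trans
    ((h3 _).trans ?_))
  refine sum_le_hasSum _ (fun i _ => ?_) ((nb_hasSum2 n (sq_nonneg τ) hτ1).mul_left R)
  have := nb_nonneg (a := n) (by linarith) (sq_nonneg τ) i
  positivity

lemma main_term (hn : 3 ≤ n) {γ τ a b d η : ℝ} (hγ : 0 < γ) (hτ : 0 ≤ τ) (hτ1 : τ ^ 2 < 1)
    (hd : 0 < d) (hη : η ≤ 1) (I : Finset ℕ)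
    (hI : ∀ i : ℕ, |n + 2 * i - n * (1 / (1 - τ ^ 2))| ≤ d → i ∈ I)
    (h1 : ∀ i ∈ I, cc n (2 * i) 0 * (1 - η) ≤ qq n K (2 * i) 0)
    (h2 : ∀ i ∈ I, a ≤ n + (2 * i : ℕ) - d ∧ n + (2 * i : ℕ) + d ≤ b ∧
      2 * (n + (2 * i : ℕ)) / d ^ 2 ≤ η)
    (h3 : 2 * n * (1 / (1 - τ ^ 2)) ^ 2 / d ^ 2 ≤ η) :
    (1 - η) ^ 4 * (((Real.pi / γ) ^ ((n : ℝ) / 2)) ^ 2 * (1 / (1 - τ ^ 2) ^ ((n : ℝ) / 2)))
      ≤ ∑ m ∈ I.image (2 * ·), (2 * γ * τ) ^ m / (m.factorial : ℝ) * qq n K m 0 *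
        (∫ x : EuclideanSpace ℝ (Fin n), shell γ a b x * ‖x‖ ^ m) ^ 2 := by
  have hn0 : (0 : ℝ) < n := by exact_mod_cast (by omega : 0 < n)
  have hη' : 0 ≤ 1 - η := by linarith
  have hy : 0 < 1 - τ ^ 2 := by linarith
  rw [Finset.sum_image fun i _ j _ h => by omega]
  have hw := nb_window hn0 (sq_nonneg τ) hτ1 hd I hI
  calc _ = (1 - η) ^ 3 * ((Real.pi / γ) ^ ((n : ℝ) / 2)) ^ 2 *
        ((1 - η) * (1 / (1 - τ ^ 2) ^ ((n : ℝ) / 2))) := by ring
    _ ≤ (1 - η) ^ 3 * ((Real.pi / γ) ^ ((n : ℝ) / 2)) ^ 2 * ∑ i ∈ I, nb n (τ ^ 2) i := by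
        refine mul_le_mul_of_nonneg_left (le_trans ?_ hw) (by positivity)
        exact mul_le_mul_of_nonneg_right (by linarith) (by positivity)
    _ ≤ _ := by
        rw [Finset.mul_sum]
        refine Finset.sum_le_sum fun i hi => ?_
        obtain ⟨g1, g2, g3⟩ := h2 i hi
        have g4 := shell_mom (n := n) (by omega) hγ hd (2 * i) g1 g2
        have g5 := (mom_pos (n := n) (by omega) hγ (2 * i)).le
        have g6 : (1 - η) * mom n γ (2 * i)
            ≤ ∫ x : EuclideanSpace ℝ (Fin n), shell γ a b x * ‖x‖ ^ (2 * i) :=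
          le_trans (mul_le_mul_of_nonneg_right (by linarith) g5) g4
        have hp := pr_pos hn0 i
        have g7 := cc_nonneg hn (2 * i) 0
        calc _ = (2 * γ * τ) ^ (2 * i) / ((2 * i).factorial : ℝ) * (cc n (2 * i) 0 * (1 - η)) *
              ((1 - η) * mom n γ (2 * i)) ^ 2 := by
              have e : (2 * γ * τ) ^ (2 * i) / ((2 * i).factorial : ℝ) * (cc n (2 * i) 0 * (1 - η))
                  = (2 * γ * τ) ^ (2 * i) * (cc n (2 * i) 0 / ((2 * i).factorial : ℝ)) * (1 - η) := by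
                ring
              rw [e, mu_even hn, mom_even (by omega) hγ, nb]
              have : (i.factorial : ℝ) ≠ 0 := by positivity
              field_simp
              ring
          _ ≤ _ := by
              have := (mul_nonneg g7 hη').trans (h1 i hi)
              gcongr
              exact h1 i hi

lemma diag_small (hn : 4 ≤ n) {γ Λ : ℝ} (hγ : 0 < γ) (hα : γ * (1 + 0.45811) / 2 ≤ 4.898)
    (hΛ : Λ = 1 / (1 - (0.45811 : ℝ) ^ 2)) :
    Real.exp (-(n * (Λ - 2 / 10 ^ 7)) / 2) ^ 2 * (dm n (n / 16 + 1) *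
      (Real.exp (n * (Λ + 2 / 10 ^ 7) - ((n - 2) * Real.log (n * (Λ + 2 / 10 ^ 7) / (n - 2))
        + (n - 2))) * (n * (n + 2) * Λ ^ 2 * (1 / (1 - (0.45811 : ℝ) ^ 2) ^ ((n : ℝ) / 2))))) *
      (Real.exp (n / 2) * (Real.pi / (γ / (Λ + 2 / 10 ^ 7))) ^ ((n : ℝ) / 2))
    ≤ 10000 * (n * (n + 2)) * Real.exp (-1 / 10 ^ 5) ^ n *
      ((Real.pi / (2 * (γ * (1 - 0.45811)))) ^ ((n : ℝ) / 2) *
        (Real.pi / (γ * (1 + 0.45811) / 2)) ^ ((n : ℝ) / 2)) := by
  have hn3 : 3 ≤ n := by omega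
  have h4 : (4 : ℝ) ≤ n := by exact_mod_cast hn
  have hΛ1 : 1 ≤ Λ := by rw [hΛ]; norm_num
  have hΛ2 : Λ ≤ 1.3 := by rw [hΛ]; norm_num
  set Λ' := Λ + 2 / 10 ^ 7 with hΛ'
  have hΛ3 : Λ ≤ Λ' := by rw [hΛ']; norm_num
  have hΛ4 : Λ' ≤ 2 := by rw [hΛ']; linarith [show (2 : ℝ) / 10 ^ 7 ≤ 0.1 by norm_num]
  have hΛ0 : 0 < Λ' := by linarith
  have hpi := Real.pi_gt_d6
  have hpi0 := Real.pi_pos
  set ξ : ℝ := 17 / 16 * 1.193722 with hξ
  have hξ0 : 0 < ξ := by rw [hξ]; norm_num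
  have d1 : dm n (n / 16 + 1) ≤ 17 * Real.exp (n * Real.log ξ) := by
    have h := dm_le hn3 (n / 16 + 1) (y := 1 / 17) (by norm_num) (by norm_num)
    have h2 : (17 : ℝ) ^ (n / 16) ≤ 1.193722 ^ n :=
      calc (17 : ℝ) ^ (n / 16) ≤ (1.193722 ^ 16) ^ (n / 16) := by gcongr; norm_num
        _ = 1.193722 ^ (16 * (n / 16)) := by rw [← pow_mul]
        _ ≤ _ := pow_le_pow_right₀ (by norm_num) (Nat.mul_div_le n 16)
    rw [Real.exp_nat_mul, Real.exp_log hξ0, hξ, mul_pow]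
    have h3 : (1 / 17 : ℝ) ^ (n / 16 + 1) * (1 - 1 / 17) ^ n *
        (17 * ((17 / 16) ^ n * 17 ^ (n / 16))) = 1 := by
      rw [show (1 / 17 : ℝ) ^ (n / 16 + 1) * (1 - 1 / 17) ^ n *
        (17 * ((17 / 16) ^ n * 17 ^ (n / 16))) = ((1 / 17) * 17) ^ (n / 16 + 1) *
          ((1 - 1 / 17) * (17 / 16)) ^ n by rw [mul_pow, mul_pow]; ring]
      norm_num
    calc dm n (n / 16 + 1) = dm n (n / 16 + 1) * ((1 / 17 : ℝ) ^ (n / 16 + 1) * (1 - 1 / 17) ^ n)
          * (17 * ((17 / 16) ^ n * 17 ^ (n / 16))) := by rw [mul_assoc, h3, mul_one]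
      _ ≤ 1 * (17 * ((17 / 16) ^ n * 1.193722 ^ n)) := by gcongr
      _ = _ := one_mul _
  have d2 : Real.exp (n * Λ' - ((n - 2) * Real.log (n * Λ' / (n - 2)) + (n - 2)))
      ≤ Real.exp (n * Λ' - n * Real.log Λ' - n + 4) := by
    refine Real.exp_le_exp.2 ?_
    have e1 : Real.log Λ' ≤ Real.log (n * Λ' / (n - 2)) := by
      refine Real.log_le_log hΛ0 ?_
      rw [le_div_iff₀ (by linarith)]; nlinarith
    have e2 := Real.log_le_sub_one_of_pos hΛ0
    nlinarith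
  set X : ℝ := ξ ^ 2 * (Real.pi / (γ / Λ')) / ((1 - (0.45811 : ℝ) ^ 2) * Λ' ^ 2 *
    ((Real.pi / (2 * (γ * (1 - 0.45811)))) * (Real.pi / (γ * (1 + 0.45811) / 2)))) with hX
  have hX0 : 0 < X := by rw [hX]; norm_num; positivity
  have hX1 : X ≤ 2.7182818283 * (1 - 3 / 10 ^ 5) := by
    have e : X = ξ ^ 2 * (Λ / Λ') * (2 * (γ * (1 + 0.45811) / 2) * (1 - 0.45811)) / Real.pi := by
      rw [hX, hΛ]; field_simp
    rw [e, div_le_iff₀ hpi0]
    calc _ ≤ ξ ^ 2 * 1 * (2 * 4.898 * (1 - 0.45811)) := by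
          refine mul_le_mul (mul_le_mul_of_nonneg_left (div_le_one_of_le₀ hΛ3 hΛ0.le)
            (sq_nonneg _)) (by linarith) (by linarith) (by positivity)
      _ ≤ 2.7182818283 * (1 - 3 / 10 ^ 5) * 3.141592 := by rw [hξ]; norm_num
      _ ≤ _ := by gcongr
  have hX2 : Real.log X ≤ 1 - 3 / 10 ^ 5 := by
    have he := Real.exp_one_gt_d9
    have h := Real.log_le_sub_one_of_pos (div_pos hX0 (Real.exp_pos 1))
    rw [Real.log_div hX0.ne' (Real.exp_pos 1).ne', Real.log_exp] at h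
    have : X / Real.exp 1 ≤ 1 - 3 / 10 ^ 5 := by
      rw [div_le_iff₀ (Real.exp_pos 1)]; nlinarith
    linarith
  have p1 : 0 < Real.pi / (γ / Λ') := by positivity
  have p2 : 0 < 1 - (0.45811 : ℝ) ^ 2 := by norm_num
  have p3 : 0 < Real.pi / (2 * (γ * (1 - 0.45811))) := by norm_num; positivity
  have p4 : 0 < Real.pi / (γ * (1 + 0.45811) / 2) := by positivity
  have hX3 : Real.log X = 2 * Real.log ξ + Real.log (Real.pi / (γ / Λ'))
      - (Real.log (1 - (0.45811 : ℝ) ^ 2) + 2 * Real.log Λ' +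
        (Real.log (Real.pi / (2 * (γ * (1 - 0.45811)))) +
          Real.log (Real.pi / (γ * (1 + 0.45811) / 2)))) := by
    rw [hX, Real.log_div (by positivity) (by positivity), Real.log_mul (by positivity) p1.ne',
      Real.log_mul (by positivity) (by positivity), Real.log_mul p2.ne' (by positivity),
      Real.log_mul p3.ne' p4.ne', Real.log_pow, Real.log_pow]
    norm_num
  have he4 : Real.exp 4 ≤ 81 := by
    have := Real.exp_one_lt_d9
    rw [show (4 : ℝ) = (4 : ℕ) * 1 by norm_num, Real.exp_nat_mul]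
    calc _ ≤ (3 : ℝ) ^ 4 := by gcongr; linarith
      _ = _ := by norm_num
  rw [Real.rpow_def_of_pos p1, Real.rpow_def_of_pos p2, Real.rpow_def_of_pos p3,
    Real.rpow_def_of_pos p4, one_div, ← Real.exp_neg, ← Real.exp_nat_mul, ← Real.exp_nat_mul]
  calc _ ≤ Real.exp ((2 : ℕ) * (-(n * (Λ - 2 / 10 ^ 7)) / 2)) * (17 * Real.exp (n * Real.log ξ) *
      (Real.exp (n * Λ' - n * Real.log Λ' - n + 4) * (n * (n + 2) * 2 ^ 2 *
        Real.exp (-(Real.log (1 - (0.45811 : ℝ) ^ 2) * (n / 2)))))) *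
      (Real.exp (n / 2) * Real.exp (Real.log (Real.pi / (γ / Λ')) * (n / 2))) := by
        gcongr; linarith
    _ = 68 * Real.exp 4 * (n * (n + 2)) * Real.exp ((2 : ℕ) * (-(n * (Λ - 2 / 10 ^ 7)) / 2)
        + n * Real.log ξ + (n * Λ' - n * Real.log Λ' - n) +
        -(Real.log (1 - (0.45811 : ℝ) ^ 2) * (n / 2)) + n / 2 +
        Real.log (Real.pi / (γ / Λ')) * (n / 2)) := by
        simp only [Real.exp_add]; ring
    _ ≤ 10000 * (n * (n + 2)) * Real.exp (n * (-1 / 10 ^ 5) +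
        (Real.log (Real.pi / (2 * (γ * (1 - 0.45811)))) * (n / 2) +
          Real.log (Real.pi / (γ * (1 + 0.45811) / 2)) * (n / 2))) := by
        refine mul_le_mul (mul_le_mul_of_nonneg_right (by linarith) (by positivity))
          (Real.exp_le_exp.2 ?_) (Real.exp_pos _).le (by positivity)
        · have h5 : (n : ℝ) / 2 * Real.log X ≤ n / 2 * (1 - 3 / 10 ^ 5) := by gcongr
          rw [hX3] at h5
          have h6 : (n : ℝ) * Λ' = n * Λ + n * (2 / 10 ^ 7) := by rw [hΛ']; ring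
          push_cast
          nlinarith
    _ = _ := by simp only [Real.exp_add]; ring

lemma ev_small {η : ℝ} (hη : 0 < η) : ∀ᶠ n : ℕ in atTop,
    10 ^ 7 ≤ n ∧ 4 * 10 ^ 14 ≤ η * n ∧
    ((n : ℝ) + 1) * (1 - 1 / 10 ^ 6 : ℝ) ^ (2 * (n / 10 ^ 6)) ≤ η ∧
    10000 * ((n : ℝ) * (n + 2)) * Real.exp (-1 / 10 ^ 5) ^ n ≤ η := by
  have t : ∀ (k : ℕ) {r : ℝ}, 0 ≤ r → r < 1 →
      Tendsto (fun n : ℕ => (n : ℝ) ^ k * r ^ n) atTop (𝓝 0) := fun k r h0 h1 =>
    tendsto_pow_const_mul_const_pow_of_abs_lt_one k (by rwa [abs_of_nonneg h0])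
  have h2 : ∀ᶠ n : ℕ in atTop, 4 * 10 ^ 14 ≤ η * n :=
    (tendsto_natCast_atTop_atTop.const_mul_atTop hη).eventually_ge_atTop _
  have h3 : ∀ᶠ n : ℕ in atTop,
      ((n : ℝ) + 1) * (1 - 1 / 10 ^ 6 : ℝ) ^ (2 * (n / 10 ^ 6)) ≤ η := by
    have a := (((t 1 (r := (1 - 1 / 10 ^ 6) ^ 2) (by norm_num) (by norm_num)).add
      (t 0 (r := (1 - 1 / 10 ^ 6) ^ 2) (by norm_num) (by norm_num))).const_mul (10 ^ 6)).comp
      (Nat.tendsto_div_const_atTop (n := 10 ^ 6) (by norm_num))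
    rw [add_zero, mul_zero] at a
    filter_upwards [a.eventually (ge_mem_nhds hη)] with n hn
    refine le_trans ?_ hn
    simp only [Function.comp, pow_one, pow_zero, ← pow_mul]
    rw [← add_mul, ← mul_assoc]
    refine mul_le_mul_of_nonneg_right ?_ (by positivity)
    have : n + 1 ≤ 10 ^ 6 * (n / 10 ^ 6 + 1) := by omega
    exact_mod_cast this
  have h4 : ∀ᶠ n : ℕ in atTop,
      10000 * ((n : ℝ) * (n + 2)) * Real.exp (-1 / 10 ^ 5) ^ n ≤ η := by
    have r1 : Real.exp (-1 / 10 ^ 5) < 1 := Real.exp_lt_one_iff.2 (by norm_num)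
    have a := ((t 2 (Real.exp_pos _).le r1).add
      ((t 1 (Real.exp_pos _).le r1).const_mul 2)).const_mul 10000
    simp only [add_zero, mul_zero] at a
    filter_upwards [a.eventually (ge_mem_nhds hη)] with n hn
    refine le_trans (le_of_eq ?_) hn
    ring
  filter_upwards [eventually_ge_atTop (10 ^ 7), h2, h3, h4] with n a b c d using ⟨a, b, c, d⟩

theorem lower_main {η : ℝ} (hη : 0 < η) (hη1 : η ≤ 1) : ∀ᶠ n : ℕ in atTop, ∀ α ρ : ℝ, 0 < α →
    α ≤ 4.898 → 0 < ρ → ENNReal.ofReal ((ρ * (1 - η) ^ 4 - η) * (Real.pi / α) ^ ((n : ℝ) / 2))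
      ≤ minEnergy n α ρ := by
  classical
  filter_upwards [ev_small hη] with n ⟨hn, e1, e2, e3⟩ α ρ hα hα1 hρ
  obtain ⟨γ, rfl⟩ : ∃ γ, α = γ * (1 + 0.45811) / 2 :=
    ⟨α * 2 / (1 + 0.45811), by field_simp⟩
  have hγ : 0 < γ := by
    by_contra h
    nlinarith
  obtain ⟨Λ, hΛ⟩ : ∃ Λ : ℝ, Λ = 1 / (1 - (0.45811 : ℝ) ^ 2) := ⟨_, rfl⟩
  have hΛ1 : 1.2656 ≤ Λ := by rw [hΛ]; norm_num
  have hΛ2 : Λ ≤ 1.2656062 := by rw [hΛ]; norm_num
  have hN : (10 : ℝ) ^ 7 ≤ n := by exact_mod_cast hn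
  have hN0 : (0 : ℝ) < n := by linarith
  have hpi := Real.pi_pos
  set a : ℝ := n * (Λ - 2 / 10 ^ 7) with ha
  set b : ℝ := n * (Λ + 2 / 10 ^ 7) with hb
  have ha0 : 0 < a := mul_pos hN0 (by linarith)
  have hb0 : 0 < b := mul_pos hN0 (by linarith)
  set L : ℝ := Real.sqrt (b / (2 * γ)) with hL
  have hL2 : L ^ 2 = b / (2 * γ) := Real.sq_sqrt (by positivity)
  have hs : 2 * γ * 0.45811 * L ^ 2 = 0.45811 * b := by rw [hL2]; field_simp
  set I : Finset ℕ := (range n).filter fun i => |n + 2 * i - n * Λ| ≤ n / 10 ^ 7 with hI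
  have hK : 1 ≤ n / 16 + 1 := by omega
  have hD := diag_bound (n := n) (by omega) hK (τ := 0.45811) (b := b) (by norm_num)
    (by norm_num) hb0 (by nlinarith)
  have hE := energy_lower (n := n) (by omega) hK (α := γ * (1 + 0.45811) / 2)
    (β := γ * (1 - 0.45811)) (γ := γ) (c := 2 * γ * 0.45811) (L := L) (W0 := Real.exp (-a / 2))
    (ρ := ρ) (by nlinarith) hρ (by ring) (by ring) (by positivity) (Real.sqrt_nonneg _)
    (le_trans (by simp) (hD 0)) (shell γ a b) (shell_meas _ _ _) (shell_nonneg _ _ _)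
    (shell_le _ _ _) (shell_le' _ _ _) (fun x hx => by
      have h : a ≤ 2 * γ * ‖x‖ ^ 2 ∧ 2 * γ * ‖x‖ ^ 2 ≤ b := by
        by_contra h
        exact hx (if_neg h)
      refine ⟨fun h0 => ?_, Real.le_sqrt_of_sq_le ?_⟩
      · rw [h0] at h; simp at h; linarith [h.1]
      · rw [le_div_iff₀ (by positivity)]; linarith [h.2])
    (by rw [hs]; exact hD) (I.image (2 * ·))
  refine le_trans (ENNReal.ofReal_le_ofReal ?_) hE
  have hIm : ∀ i ∈ I, n * (Λ - 1 / 10 ^ 7) ≤ n + 2 * (i : ℝ) ∧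
      n + 2 * (i : ℝ) ≤ n * (Λ + 1 / 10 ^ 7) := fun i hi => by
    have := abs_le.1 (Finset.mem_filter.1 hi).2
    constructor <;> linarith [this.1, this.2]
  have hM := main_term (n := n) (K := n / 16 + 1) (by omega) hγ (τ := 0.45811) (a := a) (b := b)
    (d := n / 10 ^ 7) (η := η) (by norm_num) (by norm_num) (by positivity) hη1 I
    (fun i hi => by
      rw [← hΛ] at hi
      refine Finset.mem_filter.2 ⟨Finset.mem_range.2 ?_, hi⟩
      have h1 := (abs_le.1 hi).2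
      have : (i : ℝ) < n := by nlinarith
      exact_mod_cast this)
    (fun i hi => by
      obtain ⟨g1, g2⟩ := hIm i hi
      have hp : 2 * (n / 10 ^ 6) ≤ n / 16 := by omega
      have h := qq_zero_lower (n := n) (by omega) (2 * i) (n / 16 + 1 - 2 * (n / 10 ^ 6))
        (n / 10 ^ 6) (θ := 1 - 1 / 10 ^ 6) (by norm_num) (by omega) (fun l l1 l2 => by
          have l3 : n ≤ 16 * l + 32 * (n / 10 ^ 6) := by omega
          have l4 : l ≤ n := by omega
          have l5 : 10 ^ 6 * (n / 10 ^ 6) ≤ n := Nat.mul_div_le _ _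
          have l3' : (n : ℝ) ≤ 16 * l + 32 * ((n / 10 ^ 6 : ℕ) : ℝ) := by exact_mod_cast l3
          have l4' : (l : ℝ) ≤ n := by exact_mod_cast l4
          have l5' : (10 : ℝ) ^ 6 * ((n / 10 ^ 6 : ℕ) : ℝ) ≤ n := by exact_mod_cast l5
          have l6 : (0.062498 : ℝ) * n ≤ l := by linarith
          have l7 : (i : ℝ) ≤ 0.13280315 * n := by nlinarith
          have hi0 : (0 : ℝ) ≤ i := Nat.cast_nonneg i
          have l8 : (l : ℝ) * (i + l + n) ≤ n * (n + n + n) :=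
            mul_le_mul l4' (by linarith) (by positivity) hN0.le
          have l9 : (0.062498 * n) * (0.062498 * n + n) ≤ (l : ℝ) * (l + n) := by gcongr
          have l10 : (n : ℝ) * i ≤ n * (0.13280315 * n) := by gcongr
          push_cast
          rw [show (2 * (i : ℝ)) / 2 = i by ring]
          nlinarith)
      rw [show n / 16 + 1 - 2 * (n / 10 ^ 6) + 2 * (n / 10 ^ 6) = n / 16 + 1 by omega] at h
      refine le_trans (mul_le_mul_of_nonneg_left ?_ (cc_nonneg (by omega) _ _)) h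
      have h2 : ((2 * i : ℕ) : ℝ) + 1 ≤ n + 1 := by push_cast; nlinarith
      have h3 := mul_le_mul_of_nonneg_right h2
        (show (0 : ℝ) ≤ (1 - 1 / 10 ^ 6) ^ (2 * (n / 10 ^ 6)) by positivity)
      linarith)
    (fun i hi => by
      obtain ⟨g1, g2⟩ := hIm i hi
      push_cast
      refine ⟨by linarith, by linarith, ?_⟩
      rw [div_le_iff₀ (by positivity)]
      nlinarith)
    (by
      rw [← hΛ, div_le_iff₀ (by positivity)]
      have : Λ ^ 2 ≤ 2 := by nlinarith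
      nlinarith)
  have hV := vol_upper (n := n) (g := γ / (Λ + 2 / 10 ^ 7)) (L := L)
    (div_pos hγ (by linarith))
  have hgL : γ / (Λ + 2 / 10 ^ 7) * L ^ 2 = n / 2 := by
    have : Λ + 2 / 10 ^ 7 ≠ 0 := by linarith
    rw [hL2, hb]; field_simp
  rw [hgL] at hV
  have hS := diag_small (n := n) (by omega) hγ hα1 hΛ
  have p3 : 0 < Real.pi / (2 * (γ * (1 - 0.45811))) := by norm_num; positivity
  have p4 : 0 < Real.pi / (γ * (1 + 0.45811) / 2) := by positivity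
  have hnorm : ((Real.pi / γ) ^ ((n : ℝ) / 2)) ^ 2 * (1 / (1 - (0.45811 : ℝ) ^ 2) ^ ((n : ℝ) / 2))
      = (Real.pi / (2 * (γ * (1 - 0.45811)))) ^ ((n : ℝ) / 2) *
        (Real.pi / (γ * (1 + 0.45811) / 2)) ^ ((n : ℝ) / 2) := by
    rw [sq, ← Real.mul_rpow (by positivity) (by positivity), mul_one_div,
      ← Real.div_rpow (by positivity) (by norm_num), ← Real.mul_rpow p3.le p4.le]
    congr 1
    field_simp
    norm_num
  rw [hnorm] at hM
  rw [le_div_iff₀ (by positivity), ← hΛ]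
  set G1 := (Real.pi / (2 * (γ * (1 - 0.45811)))) ^ ((n : ℝ) / 2) with hG1
  set G2 := (Real.pi / (γ * (1 + 0.45811) / 2)) ^ ((n : ℝ) / 2) with hG2
  have hG : 0 ≤ G1 * G2 := by positivity
  have q1 := mul_le_mul_of_nonneg_left hM hρ.le
  have q2 := hS.trans (mul_le_mul_of_nonneg_right e3 hG)
  have q3 := (mul_le_mul_of_nonneg_left hV (mul_nonneg (sq_nonneg (Real.exp (-a / 2)))
    (le_trans (by simp) (hD 0))))
  rw [← hΛ] at q3
  have q4 := q3.trans q2
  linarith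

end Pool.Agent.Lib.MP_30f764_gt
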