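import Pool.Agent.Lib.MP_30f764_gt.MLP

set_option autoImplicit false

namespace Pool.Agent.Lib.MP_30f764_gt.Ml

open Polynomial Real Filter Topology MeasureTheory Set

def Uni (ψ : ℝ → ℝ) (M : ℝ) : Prop := MonotoneOn ψ (Iic M) ∧ AntitoneOn ψ (Ici M)

noncomputable def cv (z e : ℝ) (ψ : ℝ → ℝ) (y : ℝ) : ℝ := ∫ t in Ioi 0, exp (-(z * t)) * ψ (y + e * t)

variable {ψ : ℝ → ℝ} {z M D : ℝ}

lemma Uni.le (h : Uni ψ M) (y : ℝ) : ψ y ≤ ψ M :=
  (le_total y M).elim (fun g => h.1 g self_mem_Iic g) fun g => h.2 self_mem_Ici g g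

lemma Uni.neg (h : Uni ψ M) : Uni (fun y => ψ (-y)) (-M) :=
  ⟨fun _ ha _ hb ab => h.2 (le_neg.1 (mem_Iic.1 hb)) (le_neg.1 (mem_Iic.1 ha)) (neg_le_neg ab),
   fun _ ha _ hb ab => h.1 (neg_le.1 (mem_Ici.1 hb)) (neg_le.1 (mem_Ici.1 ha)) (neg_le_neg ab)⟩

lemma shift_Ioi (f : ℝ → ℝ) (a : ℝ) : ∫ t in Ioi a, f t = ∫ t in Ioi 0, f (t + a) := by
  have := (measurePreserving_add_right volume a).setIntegral_preimage_emb
    (measurableEmbedding_addRight a) f (Ioi a)
  simpa using this.symm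

lemma cv_prod (hm : Measurable ψ) (hi : Integrable ψ) (hz : 0 < z) (e : ℝ) :
    Integrable (fun p : ℝ × ℝ => exp (-(z * p.2)) * ψ (p.1 + e * p.2))
      (volume.prod (volume.restrict (Ioi 0))) := by
  rw [integrable_prod_iff' (Measurable.aestronglyMeasurable (by fun_prop))]
  refine ⟨Eventually.of_forall fun t => (hi.comp_add_right (e * t)).const_mul (exp (-(z * t))), ?_⟩
  simp only [norm_mul, integral_const_mul, integral_add_right_eq_self (fun y => ‖ψ y‖)]
  exact (exp_int hz).norm.mul_const _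

lemma cv_pair (hm : Measurable ψ) (hi : Integrable ψ) (hz : 0 < z) (e : ℝ) {F : ℝ → ℝ}
    (Fc : Continuous F) {B : ℝ} (FB : ∀ y, |F y| ≤ B) :
    ∫ y, F y * cv z e ψ y = ∫ y, (∫ t in Ioi 0, exp (-(z * t)) * F (y - e * t)) * ψ y := by
  simp only [cv, ← integral_const_mul, ← integral_mul_const]
  have i2 := (hi.mul_prod (exp_int hz)).bdd_mul (c := B) (f := fun p : ℝ × ℝ => F (p.1 - e * p.2))
    (by fun_prop) (Eventually.of_forall fun p => FB _)
  rw [integral_integral_swap ((cv_prod hm hi hz e).bdd_mul (c := B) (f := fun p : ℝ × ℝ => F p.1)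
    (by fun_prop) (Eventually.of_forall fun p => FB _)), integral_integral_swap
    (f := fun y t => exp (-(z * t)) * F (y - e * t) * ψ y) (i2.congr (Eventually.of_forall fun p => by
      simp only [Function.uncurry]; ring))]
  congr 1; funext t
  rw [← integral_add_right_eq_self (fun y => exp (-(z * t)) * F (y - e * t) * ψ y) (e * t)]
  congr 1; funext y
  rw [add_sub_cancel_right]; ring

lemma cv_int1 (hm : Measurable ψ) {B : ℝ} (hB : ∀ y, |ψ y| ≤ B) (hz : 0 < z) (e y : ℝ) :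
    IntegrableOn (fun t => exp (-(z * t)) * ψ (y + e * t)) (Ioi 0) :=
  (exp_int hz).mul_bdd (c := B) (Measurable.aestronglyMeasurable (by fun_prop))
    (Eventually.of_forall fun _ => hB _)

lemma cv_sg (hm : Measurable ψ) {B : ℝ} (hB : ∀ y, |ψ y| ≤ B) (hz : 0 < z) {a b : ℝ} (ab : a ≤ b) :
    cv z (-1) ψ b = (∫ t in Ioc 0 (b - a), exp (-(z * t)) * ψ (b + -1 * t)) +
      exp (-(z * (b - a))) * cv z (-1) ψ a := by
  have i := cv_int1 hm hB hz (-1) b
  rw [cv, ← Ioc_union_Ioi_eq_Ioi (sub_nonneg.2 ab), setIntegral_union Ioc_disjoint_Ioi_same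
    measurableSet_Ioi (i.mono_set Ioc_subset_Ioi_self) (i.mono_set (Ioi_subset_Ioi (sub_nonneg.2 ab))),
    shift_Ioi, cv, ← integral_const_mul]
  congr 2; funext t
  rw [← mul_assoc, ← exp_add]; congr 2 <;> ring

lemma cv_cmp {φ : ℝ → ℝ} (hm : Measurable ψ) {B : ℝ} (hB : ∀ y, |ψ y| ≤ B) (hm' : Measurable φ) {B' : ℝ}
    (hB' : ∀ y, |φ y| ≤ B') (hz : 0 < z) {a b : ℝ} (ab : a ≤ b) (h : ∀ v ∈ Icc a b, ψ v ≤ φ v) :
    cv z (-1) ψ b - exp (-(z * (b - a))) * cv z (-1) ψ a ≤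
      cv z (-1) φ b - exp (-(z * (b - a))) * cv z (-1) φ a := by
  rw [cv_sg hm hB hz ab, cv_sg hm' hB' hz ab, add_sub_cancel_right, add_sub_cancel_right]
  refine setIntegral_mono_on ((cv_int1 hm hB hz _ _).mono_set Ioc_subset_Ioi_self)
    ((cv_int1 hm' hB' hz _ _).mono_set Ioc_subset_Ioi_self) measurableSet_Ioc fun t ht => ?_
  exact mul_le_mul_of_nonneg_left (h _ ⟨by linarith [ht.2], by linarith [ht.1]⟩) (exp_pos _).le

lemma cv_const (hz : 0 < z) (e c y : ℝ) : cv z e (fun _ => c) y = c / z := by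
  rw [cv, integral_mul_const, exp_val hz]; ring

lemma cv_nonneg (h0 : ∀ y, 0 ≤ ψ y) (z e y : ℝ) : 0 ≤ cv z e ψ y :=
  integral_nonneg fun _ => mul_nonneg (exp_pos _).le (h0 _)

lemma Uni.cv (h : Uni ψ M) (hm : Measurable ψ) (hi : Integrable ψ) (h0 : ∀ y, 0 ≤ ψ y) (hz : 0 < z) :
    ∃ M', Uni (cv z (-1) ψ) M' := by
  have hB : ∀ y, |ψ y| ≤ ψ M := fun y => by rw [abs_of_nonneg (h0 y)]; exact h.le y
  set χ := Ml.cv z (-1) ψ with hχ
  have χ0 : ∀ y, 0 ≤ χ y := cv_nonneg h0 _ _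
  have lo : ∀ a b c, a ≤ b → (∀ v ∈ Icc a b, c ≤ ψ v) →
      c / z - exp (-(z * (b - a))) * (c / z) ≤ χ b - exp (-(z * (b - a))) * χ a := fun a b c ab g => by
    have := cv_cmp (ψ := fun _ => c) measurable_const (fun _ => le_rfl) hm hB hz ab g
    rwa [cv_const hz, cv_const hz] at this
  have up : ∀ a b c, a ≤ b → (∀ v ∈ Icc a b, ψ v ≤ c) →
      χ b - exp (-(z * (b - a))) * χ a ≤ c / z - exp (-(z * (b - a))) * (c / z) := fun a b c ab g => by
    have := cv_cmp (φ := fun _ => c) hm hB measurable_const (fun _ => le_rfl) hz ab g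
    rwa [cv_const hz, cv_const hz] at this
  have E : ∀ a b, a ≤ b → 0 < exp (-(z * (b - a))) ∧ exp (-(z * (b - a))) ≤ 1 := fun a b ab =>
    ⟨exp_pos _, exp_le_one_iff.2 (by nlinarith)⟩
  let S := {y | M ≤ y ∧ ψ y / z ≤ χ y}
  have dv : ∀ a b, M ≤ a → a ≤ b → ψ b / z ≤ ψ a / z := fun a b g ab =>
    div_le_div_of_nonneg_right (h.2 g (g.trans ab) ab) hz.le
  have s1 : ∀ a ∈ S, ∀ b, a ≤ b → b ∈ S ∧ χ b ≤ χ a := fun a ⟨g1, g2⟩ b ab => by
    have l1 := lo a b (ψ b) ab fun v hv => h.2 (g1.trans hv.1) (g1.trans ab) hv.2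
    have l2 := up a b (ψ a) ab fun v hv => h.2 g1 (g1.trans hv.1) hv.1
    obtain ⟨e1, e2⟩ := E a b ab
    exact ⟨⟨g1.trans ab, by nlinarith [dv a b g1 ab]⟩, by nlinarith⟩
  have s2 : ∀ a b, a ≤ b → b ∉ S ∨ b ≤ M → χ a ≤ χ b := by
    have m1 : ∀ a b, a ≤ b → b ≤ M → χ a ≤ χ b := fun a b ab g =>
      setIntegral_mono_on (cv_int1 hm hB hz _ _) (cv_int1 hm hB hz _ _) measurableSet_Ioi fun t ht =>
        mul_le_mul_of_nonneg_left (h.1 (show _ ≤ M by linarith [mem_Ioi.1 ht])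
          (show _ ≤ M by linarith [mem_Ioi.1 ht]) (by linarith)) (exp_pos _).le
    have m2 : ∀ a b, M ≤ a → a ≤ b → b ∉ S → χ a ≤ χ b := fun a b g ab nb => by
      have l1 := lo a b (ψ b) ab fun v hv => h.2 (g.trans hv.1) (g.trans ab) hv.2
      have : χ b < ψ b / z := not_le.1 fun c => nb ⟨g.trans ab, c⟩
      obtain ⟨e1, e2⟩ := E a b ab
      nlinarith
    intro a b ab g
    by_cases bM : b ≤ M
    · exact m1 a b ab bM
    have nb := g.resolve_right bM
    exact (le_total a M).elim (fun c => (m1 a M c le_rfl).trans (m2 M b le_rfl (not_le.1 bM).le nb))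
      fun c => m2 a b c ab nb
  have ne : S.Nonempty := by
    by_contra hn
    have hn : ∀ y, y ∉ S := fun y g => hn ⟨y, g⟩
    have p1 : 0 < χ (M + 1) := by
      have l1 := lo M (M + 1) (ψ (M + 1)) (by linarith) fun v hv => h.2 hv.1 (by simp) hv.2
      have : χ (M + 1) < ψ (M + 1) / z := not_le.1 fun c => hn _ ⟨by linarith, c⟩
      have e1 := exp_pos (-(z * (M + 1 - M)))
      have e2 : exp (-(z * (M + 1 - M))) < 1 := exp_lt_one_iff.2 (by simpa using hz)
      nlinarith [χ0 M, χ0 (M + 1)]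
    have : IntegrableOn (fun _ : ℝ => z * χ (M + 1)) (Ioi (M + 1)) :=
      hi.integrableOn.mono' aestronglyMeasurable_const
        (ae_restrict_of_forall_mem measurableSet_Ioi fun y hy => by
          have a1 := s2 (M + 1) y (le_of_lt hy) (Or.inl (hn y))
          have a2 : χ y < ψ y / z := not_le.1 fun c => hn _ ⟨by linarith [mem_Ioi.1 hy], c⟩
          rw [lt_div_iff₀ hz] at a2
          rw [norm_of_nonneg (by positivity)]; nlinarith)
    rw [integrableOn_const_iff] at this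
    simp [hz.ne', p1.ne'] at this
  have bd : BddBelow S := ⟨M, fun y hy => hy.1⟩
  have lim : ∀ (s : Set ℝ) (c : ℝ), Tendsto (fun x => exp (-(z * (c * (x - sInf S))))) (𝓝[s] (sInf S)) (𝓝 1) :=
    fun s c => tendsto_nhdsWithin_of_tendsto_nhds (Continuous.tendsto' (by fun_prop) _ _ (by simp))
  have out : ∀ y < sInf S, y ∉ S := fun y g c => g.not_ge (csInf_le bd c)
  have inn : ∀ y, sInf S < y → y ∈ S := fun y g => by
    obtain ⟨x, x1, x2⟩ := exists_lt_of_csInf_lt ne g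
    exact (s1 x x1 y x2.le).1
  refine ⟨sInf S, fun a _ b hb ab => ?_, fun a ha b _ ab => ?_⟩
  · rcases (mem_Iic.1 hb).lt_or_eq with g | rfl
    · exact s2 a b ab (Or.inl (out b g))
    rcases ab.lt_or_eq with g | rfl
    swap; · exact le_rfl
    have := (lim (Iio (sInf S)) (-1)).mul_const (χ a)
    rw [one_mul] at this
    refine le_of_tendsto this ?_
    filter_upwards [Ioo_mem_nhdsLT g] with x hx
    have l1 := lo x (sInf S) 0 hx.2.le fun v _ => h0 v
    have l2 := s2 a x hx.1.le (Or.inl (out x hx.2))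
    rw [show -1 * (x - sInf S) = sInf S - x by ring]
    simp only [zero_div, mul_zero, sub_zero] at l1
    nlinarith [exp_pos (-(z * (sInf S - x)))]
  · rcases (mem_Ici.1 ha).lt_or_eq with g | rfl
    · exact (s1 a (inn a g) b ab).2
    rcases ab.lt_or_eq with g | g
    swap; · rw [g]
    have := (((lim (Ioi (sInf S)) 1).mul_const (ψ M / z)).const_sub (ψ M / z)).add
      ((lim (Ioi (sInf S)) 1).mul_const (χ (sInf S)))
    simp only [one_mul, sub_self, zero_add] at this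
    refine ge_of_tendsto this ?_
    filter_upwards [Ioo_mem_nhdsGT g] with x hx
    have l1 := up (sInf S) x (ψ M) hx.1.le fun v _ => h.le v
    linarith [(s1 x (inn x hx.1) b hx.2.le).2]

structure Rep (D : ℝ) (P : ℝ[X]) (l : ℝ → ℝ) : Prop where
  me : Measurable l
  nn : ∀ y, 0 ≤ l y
  int : ∀ s ∈ Icc 0 D, Integrable fun y => exp (s * y) * l y
  lap : ∀ s ∈ Icc 0 D, P.eval s * ∫ y, exp (s * y) * l y = 1
  uni : ∀ s ∈ Icc 0 D, ∃ M, Uni (fun y => exp (s * y) * l y) M
  rep : ∀ u, 0 ≤ u → ∫ y, gg P (u * exp (-y)) * l y = exp (-u)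

lemma cv_tilt (z e s y : ℝ) : exp (s * y) * cv z e ψ y = cv (z + e * s) e (fun y => exp (s * y) * ψ y) y := by
  rw [cv, cv, ← integral_const_mul]
  congr 1; funext t
  rw [← mul_assoc, ← mul_assoc, ← exp_add, ← exp_add]; congr 2; ring

lemma Rep.step {P : ℝ[X]} {l : ℝ → ℝ} (h : Rep D P l) (hD : 0 ≤ D) {e : ℝ} (he : e = 1 ∨ e = -1)
    (hz : ∀ s ∈ Icc 0 D, 0 < z + e * s) : Rep D ((C z + C e * X) * P) (cv z e l) := by
  have hm := h.me
  have z0 : 0 < z := by simpa using hz 0 ⟨le_rfl, hD⟩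
  have i0 : Integrable l := by simpa using h.int 0 ⟨le_rfl, hD⟩
  refine ⟨?_, cv_nonneg h.nn _ _, fun s hs => ?_, fun s hs => ?_, fun s hs => ?_, fun u hu => ?_⟩
  · exact (StronglyMeasurable.integral_prod_right (f := fun y t => exp (-(z * t)) * l (y + e * t))
      (Measurable.stronglyMeasurable (by fun_prop))).measurable
  · simp only [cv_tilt]
    exact (cv_prod (by fun_prop) (h.int s hs) (hz s hs) e).integral_prod_left
  · have := cv_pair (by fun_prop) (h.int s hs) (hz s hs) e (F := fun _ => 1) continuous_const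
      fun _ => le_rfl
    simp only [one_mul, mul_one, exp_val (hz s hs), integral_const_mul] at this
    simp only [cv_tilt, this, eval_mul, eval_add, eval_C, eval_X]
    rw [one_div, mul_mul_mul_comm, mul_inv_cancel₀ (hz s hs).ne', one_mul, h.lap s hs]
  · simp only [cv_tilt]
    obtain ⟨M, hM⟩ := h.uni s hs
    have n0 : ∀ y, 0 ≤ exp (s * y) * l y := fun y => mul_nonneg (exp_pos _).le (h.nn y)
    rcases he with rfl | rfl
    · obtain ⟨M', g⟩ := hM.neg.cv (by fun_prop) (h.int s hs).comp_neg (fun y => n0 _) (hz s hs)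
      refine ⟨-M', (congrArg (Uni · _) (_root_.funext fun y => ?_)).mp g.neg⟩
      simp only [cv]; congr 1; funext t; congr 3 <;> ring
    · exact hM.cv (by fun_prop) (h.int s hs) n0 (hz s hs)
  · obtain ⟨A, hA⟩ := gg_bdd ((C z + C e * X) * P)
    rw [cv_pair hm i0 z0 e (F := fun y => gg _ (u * exp (-y))) (by fun_prop)
      fun y => hA _ (by positivity), ← h.rep u hu]
    congr 1; funext y
    rw [← gg_conv P z0 (show 0 ≤ u * exp (-y) by positivity) e]
    simp only [mul_assoc, ← exp_add]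
    congr 2; funext t; congr 4; ring

lemma Rep.base (hz : 0 < z) (D : ℝ) : Rep D (C z + C 1 * X) ((Iic 0).indicator fun y => exp (z * y)) := by
  have e : ∀ s, (fun y => exp (s * y) * (Iic (0 : ℝ)).indicator (fun y => exp (z * y)) y) =
      (Iic 0).indicator fun y => exp ((z + s) * y) := fun s => by
    funext y; by_cases h : y ∈ Iic (0 : ℝ) <;> simp [h, ← exp_add]; ring
  refine ⟨Measurable.indicator (by fun_prop) measurableSet_Iic,
    fun y => indicator_nonneg (fun _ _ => (exp_pos _).le) _, fun s hs => ?_, fun s hs => ?_,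
    fun s hs => ⟨0, ?_⟩, fun u hu => ?_⟩
  · rw [e, integrable_indicator_iff measurableSet_Iic]
    exact integrableOn_exp_mul_Iic (by linarith [hs.1]) 0
  · have : z + s ≠ 0 := by linarith [hs.1]
    rw [e, integral_indicator measurableSet_Iic, integral_exp_mul_Iic (by linarith [hs.1])]
    simp [this]
  · rw [e]
    refine ⟨fun a ha b hb ab => ?_, fun a ha b hb ab => ?_⟩
    · rw [indicator_of_mem ha, indicator_of_mem hb]; gcongr; linarith [hs.1]
    · by_cases g : b ∈ Iic (0 : ℝ)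
      · rw [le_antisymm ab (le_trans g ha)]
      · rw [indicator_of_notMem g]; exact indicator_nonneg (fun _ _ => (exp_pos _).le) _
  · have := gg_conv (C 1) hz hu 1
    rw [gg_C, one_mul, C_1, mul_one] at this
    simp only [← indicator_mul_right _ fun y => gg (C z + C 1 * X) (u * exp (-y))]
    rw [integral_indicator measurableSet_Iic, ← this, ← neg_zero, ← integral_comp_neg_Ioi]
    simp [mul_comm]

lemma Rep.prod {P : ℝ[X]} {l : ℝ → ℝ} (h : Rep D P l) (hD : 0 ≤ D) {e : ℝ} (he : e = 1 ∨ e = -1)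
    {ι : Type} (S : Finset ι) (z : ι → ℝ) (hz : ∀ i ∈ S, ∀ s ∈ Icc 0 D, 0 < z i + e * s) :
    ∃ l', Rep D ((∏ i ∈ S, (C (z i) + C e * X)) * P) l' := by
  classical
  induction S using Finset.induction_on with
  | empty => exact ⟨l, by simpa using h⟩
  | insert i S hi ih =>
    obtain ⟨l', g⟩ := ih fun j hj => hz j (Finset.mem_insert_of_mem hj)
    exact ⟨_, by rw [Finset.prod_insert hi, mul_assoc]; exact g.step hD he (hz i (by simp))⟩

end Pool.Agent.Lib.MP_30f764_gt.Ml
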