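import Pool.Agent.Lib.MP_30f764_gt.MConv

set_option autoImplicit false

namespace Pool.Agent.Lib.MP_30f764_gt.Ml

open Polynomial Real Filter Topology MeasureTheory Set

variable {ψ l φ : ℝ → ℝ} {M D : ℝ} {P : ℝ[X]}

lemma Rep.tail (h : Rep D P l) {s t b μ κ : ℝ} (hs : s ∈ Icc 0 D) (ht : s + t ∈ Icc 0 D)
    (p0 : 0 ≤ P.eval s) (hP : P.eval s ≤ P.eval (s + t) * exp (t * μ + κ)) {A : Set ℝ}
    (hA : MeasurableSet A) (hb : ∀ y ∈ A, 0 ≤ t * (y - b)) :
    P.eval s * ∫ y in A, exp (s * y) * l y ≤ exp (t * (μ - b) + κ) := by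
  have n0 : ∀ s y, 0 ≤ exp (s * y) * l y := fun s y => mul_nonneg (exp_pos _).le (h.nn y)
  have a1 : ∫ y in A, exp (s * y) * l y ≤ exp (-(t * b)) * ∫ y, exp ((s + t) * y) * l y := by
    rw [← integral_const_mul]
    refine le_trans (setIntegral_mono_on (h.int s hs).integrableOn ((h.int _ ht).const_mul _).integrableOn
      hA fun y hy => ?_) (setIntegral_le_integral ((h.int _ ht).const_mul _)
      (Eventually.of_forall fun y => mul_nonneg (exp_pos _).le (n0 _ _)))
    rw [← mul_assoc, ← exp_add]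
    exact mul_le_mul_of_nonneg_right (exp_le_exp.2 (by linarith [hb y hy])) (h.nn y)
  refine (mul_le_mul hP a1 (integral_nonneg fun y => n0 _ _) (p0.trans hP)).trans (le_of_eq ?_)
  rw [mul_comm (exp (-(t * b))), mul_mul_mul_comm, h.lap _ ht, one_mul, ← exp_add]; congr 1; ring

lemma const_le_int (hi : Integrable ψ) {a b c : ℝ} (ab : a ≤ b) (h : ∀ y ∈ Icc a b, c ≤ ψ y) :
    (b - a) * c ≤ ∫ y in Icc a b, ψ y := by
  have := setIntegral_mono_on (f := fun _ => c) (integrableOn_const measure_Icc_lt_top.ne)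
    hi.integrableOn measurableSet_Icc h
  simpa [ab] using this

lemma int_le_const (hi : Integrable ψ) {a b c : ℝ} (ab : a ≤ b) (h : ∀ y ∈ Icc a b, ψ y ≤ c) :
    ∫ y in Icc a b, ψ y ≤ (b - a) * c := by
  have := const_le_int hi.neg ab (c := -c) fun y hy => neg_le_neg (h y hy)
  simp only [Pi.neg_apply, integral_neg] at this
  linarith

lemma Uni.mode (h : Uni ψ M) (hi : Integrable ψ) (h0 : ∀ y, 0 ≤ ψ y) {c μ ε δ : ℝ} (hc : 0 ≤ c)
    (h1 : c * ∫ y, ψ y = 1) (hε : 0 < ε) (r : c * ∫ y in Ici (μ + ε), ψ y ≤ δ)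
    (l : c * ∫ y in Iic (μ - ε), ψ y ≤ δ) (hδ : 3 * δ < 1) : |M - μ| ≤ 3 * ε := by
  have sub : ∀ {A B : Set ℝ}, A ⊆ B → ∫ y in A, ψ y ≤ ∫ y in B, ψ y := fun g =>
    setIntegral_mono_set hi.integrableOn (Eventually.of_forall h0) g.eventuallyLE
  have t : ∫ y, ψ y ≤ (∫ y in Iic (μ - ε), ψ y) + ((∫ y in Icc (μ - ε) (μ + ε), ψ y) +
      ∫ y in Ici (μ + ε), ψ y) := by
    rw [← integral_add_compl (s := Iic (μ - ε)) measurableSet_Iic hi, compl_Iic, add_le_add_iff_left,
      ← Ioc_union_Ioi_eq_Ioi (show μ - ε ≤ μ + ε by linarith), setIntegral_union Ioc_disjoint_Ioi_same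
      measurableSet_Ioi hi.integrableOn hi.integrableOn]
    exact add_le_add (sub Ioc_subset_Icc_self) (sub Ioi_subset_Ici_self)
  have t := mul_le_mul_of_nonneg_left t hc
  rw [abs_le]
  constructor <;> by_contra g <;> push Not at g
  · have a1 := int_le_const hi (a := μ - ε) (b := μ + ε) (c := ψ (μ - ε)) (by linarith) fun y hy =>
      h.2 (show M ≤ _ by linarith) (show M ≤ _ by linarith [hy.1]) hy.1
    have a2 := const_le_int hi (a := μ - 3 * ε) (b := μ - ε) (c := ψ (μ - ε)) (by linarith) fun y hy =>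
      h.2 (show M ≤ _ by linarith [hy.1]) (show M ≤ _ by linarith) hy.2
    have a3 := mul_le_mul_of_nonneg_left (a := c) (show ∫ y in Icc (μ - ε) (μ + ε), ψ y ≤
      ∫ y in Iic (μ - ε), ψ y by linarith [sub (Icc_subset_Iic_self (a := μ - 3 * ε) (b := μ - ε))]) hc
    linarith
  · have a1 := int_le_const hi (a := μ - ε) (b := μ + ε) (c := ψ (μ + ε)) (by linarith) fun y hy =>
      h.1 (show _ ≤ M by linarith [hy.2]) (show _ ≤ M by linarith) hy.2
    have a2 := const_le_int hi (a := μ + ε) (b := μ + 3 * ε) (c := ψ (μ + ε)) (by linarith) fun y hy =>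
      h.1 (show _ ≤ M by linarith) (show _ ≤ M by linarith [hy.2]) hy.1
    have a3 := mul_le_mul_of_nonneg_left (a := c) (show ∫ y in Icc (μ - ε) (μ + ε), ψ y ≤
      ∫ y in Ici (μ + ε), ψ y by linarith [sub (show Icc (μ + ε) (μ + 3 * ε) ⊆ _ from Icc_subset_Ici_self)]) hc
    linarith

def Pos (P : ℝ[X]) (T : ℝ) : Prop :=
  ∀ u, 0 < u → 0 ≤ ∫ t in Ioi 0, exp (-(T * t)) * gg (X * P) (u * exp (-1 * t))

lemma hazard {T : ℝ} (hT : 0 < T) (hP : Pos P T) (hi : Integrable φ)
    (hz : ∀ y, φ y ≤ T * ∫ v in Ioi y, φ v) {u : ℝ} (hu : 0 < u) : 0 ≤ ∫ y, gg P (u * exp (-y)) * φ y := by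
  let G2 : ℝ → ℝ := fun s => gg (X * P) (u * exp (-s))
  have g2 : Integrable G2 := gX_int P hu
  have m2 : Measurable G2 := by fun_prop
  have ex : ∀ y t : ℝ, u * exp (-y) * exp (-1 * t) = u * exp (-(y + 1 * t)) := fun y t => by
    rw [mul_assoc, ← exp_add]; congr 2; ring
  have H0 : ∀ y, 0 ≤ cv T 1 G2 y := fun y => by
    simpa only [ex, cv, G2] using hP (u * exp (-y)) (by positivity)
  have Hi : Integrable (cv T 1 G2) := (cv_prod m2 g2 hT 1).integral_prod_left
  obtain ⟨B, hB⟩ := gg_bdd (X * P)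
  have Hb : ∀ y, ‖cv T 1 G2 y‖ ≤ 1 / T * B := fun y => by
    rw [← exp_val hT, ← integral_mul_const]
    refine norm_integral_le_of_norm_le ((exp_int hT).mul_const _) (Eventually.of_forall fun t => ?_)
    rw [norm_mul, norm_of_nonneg (exp_pos _).le]; gcongr; exact hB _ (by positivity)
  have c1 : ∀ y, gg P (u * exp (-y)) = T * (∫ s in Iic y, cv T 1 G2 s) - cv T 1 G2 y := fun y => by
    have a1 : ∫ s in Iic y, cv T 1 G2 s = ∫ t in Ioi 0, exp (-(T * t)) * gg P (u * exp (-(y + 1 * t))) := by
      have := (cv_prod m2 g2 hT 1).mono_measure (Measure.prod_mono (Measure.restrict_le_self (s := Iic y)) le_rfl)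
      simp only [cv]
      rw [integral_integral_swap this]
      congr 1; funext t
      rw [integral_const_mul, ← gX_val P hu]
      have := (measurePreserving_add_right volume (1 * t)).setIntegral_preimage_emb
        (measurableEmbedding_addRight _) G2 (Iic (y + 1 * t))
      rw [preimage_add_const_Iic, add_sub_cancel_right] at this
      rw [this]
    rw [a1, ← gg_conv P hT (show 0 ≤ u * exp (-y) by positivity) (-1), cv, ← integral_const_mul,
      ← integral_sub]
    · congr 1; funext t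
      rw [add_mul, mul_assoc (C (-1)), gg_add, gg_C_mul, gg_C_mul, ex]; ring
    · simpa only [ex] using (conv_int P hT (show 0 ≤ u * exp (-y) by positivity) (-1)).const_mul T
    · have := conv_int (X * P) hT (show 0 ≤ u * exp (-y) by positivity) (-1)
      simp only [ex] at this
      exact this
  have j : Integrable (fun p : ℝ × ℝ => {p : ℝ × ℝ | p.2 ≤ p.1}.indicator
      (fun p => φ p.1 * cv T 1 G2 p.2) p) (volume.prod volume) :=
    (hi.mul_prod Hi).indicator (measurableSet_le measurable_snd measurable_fst)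
  have e1 : ∀ y, ∫ s, {p : ℝ × ℝ | p.2 ≤ p.1}.indicator (fun p => φ p.1 * cv T 1 G2 p.2) (y, s) =
      φ y * ∫ s in Iic y, cv T 1 G2 s := fun y => by
    rw [← integral_const_mul, ← integral_indicator measurableSet_Iic]; rfl
  have e2 : ∀ s, ∫ y, {p : ℝ × ℝ | p.2 ≤ p.1}.indicator (fun p => φ p.1 * cv T 1 G2 p.2) (y, s) =
      (∫ y in Ioi s, φ y) * cv T 1 G2 s := fun y => by
    rw [← integral_Ici_eq_integral_Ioi, ← integral_mul_const, ← integral_indicator measurableSet_Ici]; rfl
  have j1 := j.integral_prod_left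
  have j2 := j.integral_prod_right
  have j3 := integral_integral_swap (f := fun y s => {p : ℝ × ℝ | p.2 ≤ p.1}.indicator
    (fun p => φ p.1 * cv T 1 G2 p.2) (y, s)) j
  simp only [e1, e2] at j1 j2 j3
  have j4 := hi.mul_bdd Hi.aestronglyMeasurable (Eventually.of_forall Hb)
  have : ∀ y, gg P (u * exp (-y)) * φ y = T * (φ y * ∫ s in Iic y, cv T 1 G2 s) - φ y * cv T 1 G2 y :=
    fun y => by rw [c1]; ring
  simp only [this]
  rw [integral_sub (j1.const_mul _) j4, integral_const_mul, j3, ← integral_const_mul, sub_nonneg]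
  refine integral_mono j4 (j2.const_mul _) fun y => ?_
  simp only [← mul_assoc]
  exact mul_le_mul_of_nonneg_right (hz y) (H0 y)

noncomputable def cutf (T c σ b : ℝ) (l : ℝ → ℝ) (y : ℝ) : ℝ :=
  if y ≤ b then l y - l b * (T - σ) / (T + c) * exp (c * (y - b))
  else l b * (c + σ) / (T + c) * exp (-T * (y - b))

lemma int_exp_Ioc (a p : ℝ) {y b : ℝ} (h : y ≤ b) :
    ∫ v in Ioc y b, a * exp (a * (v - p)) = exp (a * (b - p)) - exp (a * (y - p)) := by
  rw [← intervalIntegral.integral_of_le h]
  exact intervalIntegral.integral_eq_sub_of_hasDerivAt (f := fun v => exp (a * (v - p)))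
    (fun v _ => (((hasDerivAt_id v).sub_const p).const_mul a).exp.congr_deriv (by simp [mul_comm]))
    (Continuous.intervalIntegrable (by fun_prop) _ _)

lemma cut {T c σ b : ℝ} (hT : 0 < T) (hc : 0 < c) (s0 : 0 ≤ σ) (s1 : σ ≤ T) (h0 : ∀ y, 0 ≤ l y)
    (hi : Integrable l) (hm : MonotoneOn (fun y => exp (σ * y) * l y) (Iic b))
    (hb : ∀ y ∈ Icc (b - 1 / c) b, l b ≤ l y) :
    Integrable (cutf T c σ b l) ∧ (∀ y, cutf T c σ b l y ≤ T * ∫ v in Ioi y, cutf T c σ b l v) ∧
      ∫ y in Iic (b - 1 / c), l y ≤ ∫ y, cutf T c σ b l y := by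
  set θ := l b * (T - σ) / (T + c) with hθ
  set θ' := l b * (c + σ) / (T + c) with hθ'
  have lb := h0 b
  have ts : θ + θ' = l b := by rw [hθ, hθ']; field_simp; ring
  have t0 : 0 ≤ θ' := by positivity
  have t1 : θ * (T + c) = l b * (T - σ) := by rw [hθ]; field_simp
  have e1 : ∀ y ≤ b, cutf T c σ b l y = l y - θ * exp (c * (y - b)) := fun y h => if_pos h
  have e2 : ∀ y, b ≤ y → cutf T c σ b l y = θ' * exp (-T * (y - b)) := fun y h => by
    rcases h.lt_or_eq with h | rfl
    · exact if_neg h.not_ge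
    · rw [e1 _ le_rfl]; simp; linarith
  have x1 : IntegrableOn (fun y => θ * exp (c * (y - b))) (Iic b) := by
    simpa only [mul_sub, exp_sub, ← mul_div_assoc, IntegrableOn] using ((integrableOn_exp_mul_Iic hc b).const_mul θ).div_const _
  have x2 : ∀ y, IntegrableOn (fun y => θ' * exp (-T * (y - b))) (Ioi y) := fun y => by
    simpa only [mul_sub, exp_sub, ← mul_div_assoc, IntegrableOn] using
      ((integrableOn_exp_mul_Ioi (neg_lt_zero.2 hT) y).const_mul θ').div_const _
  have i1 : IntegrableOn (cutf T c σ b l) (Iic b) :=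
    (hi.integrableOn.sub x1).congr_fun (fun y h => (e1 y h).symm) measurableSet_Iic
  have i2 : IntegrableOn (cutf T c σ b l) (Ioi b) :=
    (x2 b).congr_fun (fun y h => (e2 y (le_of_lt h)).symm) measurableSet_Ioi
  have I : Integrable (cutf T c σ b l) := by
    rw [← integrableOn_univ, ← Iic_union_Ioi (a := b)]; exact i1.union i2
  have v2 : ∀ y, b ≤ y → T * ∫ v in Ioi y, cutf T c σ b l v = θ' * exp (-T * (y - b)) := fun y h => by
    rw [setIntegral_congr_fun measurableSet_Ioi fun v hv => e2 v (h.trans (le_of_lt hv))]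
    simp only [mul_sub, exp_sub, integral_const_mul, integral_div,
      integral_exp_mul_Ioi (neg_lt_zero.2 hT)]
    field_simp
  have sub : ∀ {A B : Set ℝ}, A ⊆ B → ∫ y in A, l y ≤ ∫ y in B, l y := fun g =>
    setIntegral_mono_set hi.integrableOn (Eventually.of_forall h0) g.eventuallyLE
  have c1 : 0 < 1 / c := by positivity
  have w : l b ≤ c * ∫ y in Ioc (b - 1 / c) b, l y := by
    have := mul_le_mul_of_nonneg_left (const_le_int hi (by linarith) hb) hc.le
    rwa [sub_sub_cancel, ← mul_assoc, mul_one_div_cancel hc.ne', one_mul, integral_Icc_eq_integral_Ioc] at this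
  refine ⟨I, fun y => (le_total y b).elim (fun h => ?_) fun h => by rw [e2 y h, v2 y h], ?_⟩
  · have a1 : l y ≤ l b + σ * ∫ v in Ioc y b, l v := by
      have b1 := int_exp_Ioc (-σ) y h
      have b2 : ∫ v in Ioc y b, -l y * (-σ * exp (-σ * (v - y))) ≤ ∫ v in Ioc y b, σ * l v := by
        refine setIntegral_mono_on (Continuous.integrableOn_Ioc (by fun_prop))
          (hi.const_mul σ).integrableOn measurableSet_Ioc fun v hv => ?_
        have := mul_le_mul_of_nonneg_left (hm h hv.2 hv.1.le) (exp_pos (-(σ * v))).le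
        simp only [← mul_assoc, ← exp_add, neg_add_cancel, exp_zero, one_mul] at this
        rw [show -σ * (v - y) = -(σ * v) + σ * y by ring]
        nlinarith
      have b3 := mul_le_mul_of_nonneg_left (hm h self_mem_Iic h) (exp_pos (-(σ * b))).le
      simp only [← mul_assoc, ← exp_add, neg_add_cancel, exp_zero, one_mul] at b3
      rw [integral_const_mul, b1, integral_const_mul, show -σ * (b - y) = -(σ * b) + σ * y by ring] at b2
      simp only [sub_self, mul_zero, exp_zero] at b2
      linarith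
    have a2 : l b * (1 - exp (c * (y - b))) ≤ c * ∫ v in Ioc y b, l v := by
      by_cases g : b - 1 / c ≤ y
      · have := mul_le_mul_of_nonneg_left (const_le_int hi h fun v hv => hb v ⟨g.trans hv.1, hv.2⟩) hc.le
        rw [integral_Icc_eq_integral_Ioc] at this
        nlinarith [add_one_le_exp (c * (y - b))]
      · have := mul_le_mul_of_nonneg_left (sub (Ioc_subset_Ioc_left (b := b) (not_le.1 g).le)) hc.le
        nlinarith [exp_pos (c * (y - b))]
    have a3 := int_exp_Ioc c b h
    rw [integral_const_mul, sub_self, mul_zero, exp_zero] at a3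
    have a4 := v2 b le_rfl
    rw [sub_self, mul_zero, exp_zero, mul_one] at a4
    rw [← Ioc_union_Ioi_eq_Ioi h, setIntegral_union Ioc_disjoint_Ioi_same measurableSet_Ioi
      I.integrableOn I.integrableOn, mul_add, a4, e1 y h,
      setIntegral_congr_fun measurableSet_Ioc fun v hv => e1 v hv.2,
      integral_sub hi.integrableOn (x1.mono_set Ioc_subset_Iic_self), integral_const_mul]
    refine le_of_mul_le_mul_left ?_ hc
    generalize ∫ v in Ioc y b, l v = L at *
    generalize ∫ v in Ioc y b, exp (c * (v - b)) = K at *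
    have a5 := mul_le_mul_of_nonneg_left a2 (sub_nonneg.2 s1)
    have a6 := mul_le_mul_of_nonneg_left a1 hc.le
    have a7 : c * (T * (θ * K)) = T * θ * (1 - exp (c * (y - b))) := by rw [← a3]; ring
    have a8 : (T - σ) * (l b * (1 - exp (c * (y - b)))) = θ * (T + c) * (1 - exp (c * (y - b))) := by
      rw [t1]; ring
    have a9 : c * l b = c * θ + c * θ' := by rw [← ts]; ring
    nlinarith
  · have a1 : c * ∫ y in Iic b, exp (c * (y - b)) = 1 := by
      simp only [mul_sub, exp_sub, integral_div, integral_exp_mul_Iic hc]; field_simp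
    have a4 := v2 b le_rfl
    have a5 : 0 ≤ ∫ v in Ioi b, cutf T c σ b l v := le_of_mul_le_mul_left (by rw [a4, mul_zero]; positivity) hT
    rw [← integral_add_compl (s := Iic b) measurableSet_Iic I, compl_Iic,
      setIntegral_congr_fun (s := Iic b) measurableSet_Iic fun v hv => e1 v hv,
      integral_sub hi.integrableOn x1, integral_const_mul,
      ← Iic_union_Ioc_eq_Iic (show b - 1 / c ≤ b by linarith), setIntegral_union (Iic_disjoint_Ioc le_rfl)
        measurableSet_Ioc hi.integrableOn hi.integrableOn, Iic_union_Ioc_eq_Iic (by linarith)]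
    have : θ * ∫ y in Iic b, exp (c * (y - b)) ≤ ∫ y in Ioc (b - 1 / c) b, l y :=
      le_of_mul_le_mul_left (by rw [mul_left_comm, a1]; linarith) hc
    linarith

variable {n : ℕ}

lemma mix_int (hi : Integrable φ) {c : ℝ → ℝ} (cc : Continuous c) (c0 : ∀ y, 0 < c y) {w : ℝ → ℝ}
    (hw : ∀ y, φ y = w y * (π / c y) ^ ((n : ℝ) / 2)) (wm : AEStronglyMeasurable w) :
    Integrable (fun p : ℝ × EE n => gg P (c p.1 * ‖p.2‖ ^ 2) * w p.1) (volume.prod volume) := by
  obtain ⟨A, A0, hA⟩ := gg_bound P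
  have hm : AEStronglyMeasurable (fun p : ℝ × EE n => gg P (c p.1 * ‖p.2‖ ^ 2) * w p.1)
      (volume.prod volume) := (Continuous.aestronglyMeasurable (by fun_prop)).mul wm.comp_fst
  rw [integrable_prod_iff hm]
  refine ⟨Eventually.of_forall fun y => (gg_int P (c0 y)).mul_const (w y), ?_⟩
  refine (hi.norm.const_mul (A * 2 ^ ((n : ℝ) / 2))).mono' hm.norm.integral_prod_right'
    (Eventually.of_forall fun y => ?_)
  have := c0 y
  have := pi_pos
  rw [norm_of_nonneg (integral_nonneg fun _ => norm_nonneg _)]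
  simp only [norm_mul, integral_mul_const, hw y]
  rw [norm_of_nonneg (show 0 ≤ (π / c y) ^ ((n : ℝ) / 2) by positivity), mul_comm ‖w y‖, ← mul_assoc]
  gcongr
  rw [mul_assoc, ← mul_rpow (by positivity) (by positivity), show 2 * (π / c y) = π / (c y / 2) by field_simp,
    ← gauss_int (by positivity), ← integral_const_mul]
  refine integral_mono (gg_int P (c0 y)).norm ((gauss_integrable (by positivity)).const_mul _) fun ξ =>
    (hA _ (by positivity)).trans (le_of_eq ?_)
  congr 2; ring

theorem lp_cut (hn : 1 ≤ n) (hD : D = (n : ℝ) / 2) (h : Rep D P l) (sym : P.comp (C D - X) = P)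
    (p0 : 0 ≤ P.eval 0) {c σ b : ℝ} (hc : 0 < c) (hs : σ ∈ Icc 0 D) (hP : Pos P (D + c))
    (hb : Uni (fun y => exp (σ * y) * l y) b) (b1 : ∀ y ∈ Icc (b - 1 / c) b, l b ≤ l y)
    (b2 : ∀ y ∈ Icc b (b + 1 / c), exp (D * b) * l b ≤ exp (D * y) * l y) {κ α ρ : ℝ}
    (hκ : P.eval D * ∫ y in Iic (b + 1 / c), exp (D * y) * l y ≤ κ) (hα : 0 < α) (hρ : 0 < ρ) :
    ENNReal.ofReal (ρ * ((1 - 2 * κ) * (π / α) ^ ((n : ℝ) / 2)) - exp (D * (0 - (b - 1 / c)) + 0)) ≤
      minEnergy n α ρ := by
  have D0 : 0 < D := by rw [hD]; have : (1 : ℝ) ≤ n := by exact_mod_cast hn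
                        linarith
  have pi0 := pi_pos
  have m0 : (0 : ℝ) ∈ Icc 0 D := ⟨le_rfl, D0.le⟩
  have mD : D ∈ Icc 0 D := ⟨D0.le, le_rfl⟩
  have pD : P.eval D = P.eval 0 := by conv_lhs => rw [← sym]; simp [eval_comp]
  have i0 : Integrable l := by simpa using h.int 0 m0
  let l' : ℝ → ℝ := fun y => exp (D * -y) * l (-y)
  have i1 : Integrable l' := (h.int D mD).comp_neg
  obtain ⟨k1, k2, k3⟩ := cut (T := D + c) (by linarith) hc hs.1 (by linarith [hs.2]) h.nn i0 hb.1 b1
  obtain ⟨j1, j2, j3⟩ := cut (T := D + c) (σ := D - σ) (b := -b) (l := l') (by linarith) hc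
    (by linarith [hs.2]) (by linarith [hs.1]) (fun y => mul_nonneg (exp_pos _).le (h.nn _)) i1
    (by
      refine hb.neg.1.congr fun y _ => ?_
      simp only [l', ← mul_assoc, ← exp_add]; congr 2; ring)
    (fun y hy => by simpa [l'] using b2 (-y) ⟨by linarith [hy.2], by linarith [hy.1]⟩)
  set φ := cutf (D + c) c σ b l
  set φ' := cutf (D + c) c (D - σ) (-b) l'
  have id : ∀ y, l (-y) - φ (-y) = exp (D * y) * φ' y := fun y => by
    have e : exp (D * y) * exp (D * -y) = 1 := by rw [← exp_add]; simp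
    have e1 : exp (D * y) * exp (D * b) * exp (-(D + c) * (y + b)) = exp (c * (-y - b)) := by
      rw [← exp_add, ← exp_add]; congr 1; ring
    have e2 : exp (D * y) * exp (D * b) * exp (c * (y + b)) = exp (-(D + c) * (-y - b)) := by
      rw [← exp_add, ← exp_add]; congr 1; ring
    have : D + c + c ≠ 0 := by positivity
    simp only [φ, φ', cutf, l', neg_neg, sub_neg_eq_add]
    rcases lt_trichotomy y (-b) with g | rfl | g
    · rw [if_neg (by linarith), if_pos g.le, ← e2]
      linear_combination (-l (-y)) * e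
    · simp only [neg_neg, le_refl, if_true, sub_self, neg_add_cancel, mul_zero, exp_zero, mul_one] at e ⊢
      generalize exp (D * -b) = A at e
      generalize exp (D * b) = B at e
      field_simp
      linear_combination (-l b * (c + D - σ)) * e
    · rw [if_pos (by linarith), if_neg g.not_ge, ← e1]; ring
  let hh : EE n → ℝ := fun x => ∫ y, gg P (α * exp y * ‖x‖ ^ 2) * (exp (D * y) * φ' y)
  have i2 : Integrable fun y => exp (D * y) * φ' y := by
    simp only [← id]; exact (i0.sub k1).comp_neg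
  have pw : ∀ (a y : ℝ), 0 < a → (a * exp y) ^ ((n : ℝ) / 2) = a ^ ((n : ℝ) / 2) * exp (D * y) :=
    fun a y ha => by rw [mul_rpow ha.le (exp_pos _).le, ← exp_mul, hD, mul_comm y]
  have q1 := mix_int (n := n) (P := P) (j1.const_mul ((π / α) ^ ((n : ℝ) / 2)))
    (c := fun y => α * exp y) (by fun_prop) (fun _ => by positivity) (w := fun y => exp (D * y) * φ' y)
    (fun y => by
      rw [show π / (α * exp y) = π / α * exp (-y) by rw [exp_neg]; field_simp, pw _ _ (by positivity),
        mul_neg, exp_neg]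
      field_simp) i2.aestronglyMeasurable
  have q2 := mix_int (n := n) (P := P) i2 (c := fun y => exp (-y) / α) (by fun_prop)
    (fun _ => by positivity) (w := fun y => ((π * α) ^ ((n : ℝ) / 2))⁻¹ * φ' y) (fun y => by
      rw [show π / (exp (-y) / α) = π * α * exp y by rw [exp_neg]; field_simp, pw _ _ (by positivity)]
      field_simp) (j1.const_mul _).aestronglyMeasurable
  obtain ⟨A, hA⟩ := gg_bdd P
  have bi : ∀ {f : ℝ → ℝ} (u : ℝ), 0 ≤ u → Integrable f → Integrable fun y => gg P (u * exp (-y)) * f y :=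
    fun u hu g => g.bdd_mul (c := A) (by fun_prop) (Eventually.of_forall fun y => hA _ (by positivity))
  have hx : ∀ x, hh x = exp (-(α * ‖x‖ ^ 2)) - ∫ y, gg P (α * ‖x‖ ^ 2 * exp (-y)) * φ y := fun x => by
    rw [← h.rep _ (by positivity), ← integral_sub (bi _ (by positivity) i0) (bi _ (by positivity) k1),
      ← integral_neg_eq_self]
    simp only [hh, ← id, neg_neg, mul_sub, mul_right_comm α]
  refine le_trans (ENNReal.ofReal_le_ofReal ?_) (lp (h := hh) hn q2.integral_prod_right (fun ξ hξ => ?_)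
    (fun x => ?_) q1.integral_prod_right hα (fun x hx0 => ?_) hρ)
  · have a1 : ∫ x, hh x = (π / α) ^ ((n : ℝ) / 2) * (P.eval D * ∫ y, φ' y) := by
      rw [← integral_integral_swap q1, ← integral_const_mul, ← integral_const_mul]
      congr 1; funext y
      have := gg_cos (n := n) P (α * exp y) (by positivity) 0
      simp only [inner_zero_left, mul_zero, cos_zero, mul_one, norm_zero] at this
      rw [integral_mul_const, this, ← hD, sym, show π / (α * exp y) = π / α * exp (-y) by
        rw [exp_neg]; field_simp, hD, pw _ _ (by positivity), ← hD, pD, mul_neg, exp_neg]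
      simp [gg_zero]; field_simp
    have a2 : 1 - κ ≤ P.eval D * ∫ y, φ' y := by
      refine le_trans ?_ (mul_le_mul_of_nonneg_left j3 (pD ▸ p0))
      have a5 := h.lap D mD
      rw [← integral_add_compl (s := Iic (b + 1 / c)) measurableSet_Iic (h.int D mD), compl_Iic] at a5
      rw [← neg_add', ← integral_comp_neg_Ioi]
      simp only [l', neg_neg]
      linarith
    have a3 : hh 0 ≤ exp (D * (0 - (b - 1 / c)) + 0) := by
      refine le_trans ?_ (h.tail m0 (by simpa using mD) p0 (by simp [pD]) (A := Ioi (b - 1 / c))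
        measurableSet_Ioi fun y hy => mul_nonneg D0.le (sub_nonneg.2 (le_of_lt hy)))
      have a4 := h.lap 0 m0
      rw [← integral_add_compl (s := Iic (b - 1 / c)) measurableSet_Iic (h.int 0 m0), compl_Iic] at a4
      simp only [hx, norm_zero, zero_mul, exp_zero, one_mul, ne_eq, OfNat.ofNat_ne_zero,
        not_false_eq_true, zero_pow, mul_zero, neg_zero, gg_zero, integral_const_mul] at a4 ⊢
      nlinarith
    have G0 : 0 < (π / α) ^ ((n : ℝ) / 2) := by positivity
    rw [a1]
    gcongr
    nlinarith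
  · simp only [mul_left_comm _ ((π * α) ^ ((n : ℝ) / 2))⁻¹, integral_const_mul]
    refine mul_nonneg (by positivity) ?_
    have := hazard (by linarith) hP j1 j2 (u := ‖ξ‖ ^ 2 / α) (by positivity)
    refine this.trans_eq ?_
    congr 1; funext y; congr 2; ring
  · simp only [← integral_mul_const]
    rw [← integral_integral_swap (q2.mul_bdd (c := 1) (g := fun p : ℝ × EE n => cos (2 * inner ℝ x p.2))
      (by fun_prop) (Eventually.of_forall fun _ => abs_cos_le_one _))]
    simp only [hh]
    congr 1; funext y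
    simp only [mul_right_comm _ (((π * α) ^ ((n : ℝ) / 2))⁻¹ * φ' y), integral_mul_const]
    rw [gg_cos P _ (by positivity), show π / (exp (-y) / α) = π * α * exp y by rw [exp_neg]; field_simp,
      pw _ _ (by positivity), ← hD, sym, show ‖x‖ ^ 2 / (exp (-y) / α) = α * exp y * ‖x‖ ^ 2 by
        rw [exp_neg]; field_simp]
    field_simp
  · rw [hx, neg_mul, sub_le_self_iff]
    exact hazard (by linarith) hP k1 k2 (by positivity)

end Pool.Agent.Lib.MP_30f764_gt.Ml
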