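import Pool.Agent.Lib.MP_30f764_gt.MOp
import Pool.Agent.Lib.MP_30f764_gt.Avg

set_option autoImplicit false

namespace Pool.Agent.Lib.MP_30f764_gt.Ml

open Polynomial Real Filter Topology MeasureTheory Set

abbrev EE (n : ℕ) := EuclideanSpace ℝ (Fin n)

variable {n : ℕ}

lemma gg_int (P : ℝ[X]) {c : ℝ} (hc : 0 < c) : Integrable fun ξ : EE n => gg P (c * ‖ξ‖ ^ 2) := by
  obtain ⟨A, -, hA⟩ := gg_bound P
  refine ((gauss_integrable (half_pos hc)).const_mul A).mono' (by fun_prop)
    (Eventually.of_forall fun ξ => (hA _ (by positivity)).trans (le_of_eq ?_))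
  congr 2; ring

lemma int_cos {f : EE n → ℝ} (hf : Integrable f) (x : EE n) :
    Integrable fun ξ => f ξ * cos (2 * inner ℝ x ξ) :=
  hf.mul_bdd (c := 1) (by fun_prop) (Eventually.of_forall fun _ => abs_cos_le_one _)

lemma gauss_cos {c : ℝ} (hc : 0 < c) (x : EE n) :
    ∫ ξ : EE n, exp (-(c * ‖ξ‖ ^ 2)) * cos (2 * inner ℝ x ξ) =
      (π / c) ^ ((n : ℝ) / 2) * exp (-(‖x‖ ^ 2 / c)) := by
  have h := GaussianFourier.integral_cexp_neg_mul_sq_norm_add (b := c) (by simpa using hc)
    (2 * Complex.I) x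
  have hi := GaussianFourier.integrable_cexp_neg_mul_sq_norm_add (b := c) (by simpa using hc)
    (2 * Complex.I) x
  have h2 := congrArg Complex.re h
  rw [← RCLike.re_to_complex, ← integral_re hi] at h2
  have e1 : ((π : ℂ) / c) ^ ((Module.finrank ℝ (EE n) : ℂ) / 2) = ((π / c) ^ ((n : ℝ) / 2) : ℝ) := by
    rw [Complex.ofReal_cpow (by positivity)]; simp
  have e2 : (2 * Complex.I) ^ 2 * (‖x‖ : ℂ) ^ 2 / (4 * c) = (-(‖x‖ ^ 2 / c) : ℝ) := by
    have : (c : ℂ) ≠ 0 := by exact_mod_cast hc.ne'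
    rw [mul_pow, Complex.I_sq]; push_cast; field_simp; ring
  rw [e1, e2, ← Complex.ofReal_exp, ← Complex.ofReal_mul, Complex.ofReal_re] at h2
  rw [← h2]
  congr 1; funext ξ
  rw [RCLike.re_to_complex, Complex.exp_re]
  simp [← Complex.ofReal_pow]

lemma gg_cos (P : ℝ[X]) : ∀ c : ℝ, 0 < c → ∀ x : EE n,
    ∫ ξ : EE n, gg P (c * ‖ξ‖ ^ 2) * cos (2 * inner ℝ x ξ) =
      (π / c) ^ ((n : ℝ) / 2) * gg (P.comp (C ((n : ℝ) / 2) - X)) (‖x‖ ^ 2 / c) := by
  induction P using Polynomial.induction_on with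
  | C a =>
    intro c hc x
    simp only [gg_C, C_comp, mul_assoc, integral_const_mul, gauss_cos hc]; ring
  | add P Q hP hQ =>
    intro c hc x
    simp only [gg_add, add_comp, add_mul, mul_add]
    rw [integral_add (int_cos (gg_int P hc) x) (int_cos (gg_int Q hc) x), hP c hc, hQ c hc]
  | monomial k a h =>
    intro c hc x
    rw [pow_succ', mul_left_comm]
    generalize C a * X ^ k = P at h ⊢
    obtain ⟨A, A0, hA⟩ := gg_bound (X * P)
    have d1 := (hasDerivAt_integral_of_dominated_loc_of_deriv_le (μ := volume) (x₀ := c)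
      (F := fun t (ξ : EE n) => gg P (t * ‖ξ‖ ^ 2) * cos (2 * inner ℝ x ξ))
      (F' := fun t ξ => -(1 / t) * (gg (X * P) (t * ‖ξ‖ ^ 2) * cos (2 * inner ℝ x ξ)))
      (bound := fun ξ => 2 / c * (A * exp (-(c / 4) * ‖ξ‖ ^ 2))) (Ioi_mem_nhds (half_lt_self hc))
      (Eventually.of_forall fun t => by fun_prop) (int_cos (gg_int P hc) x) (by fun_prop)
      (Eventually.of_forall fun ξ t (ht : c / 2 < t) => by
        have t0 : 0 < t := by linarith
        rw [norm_mul, norm_neg, norm_of_nonneg (by positivity), norm_mul]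
        refine mul_le_mul (by rw [div_le_div_iff₀ t0 hc]; linarith) ((mul_le_of_le_one_right
          (norm_nonneg _) (abs_cos_le_one _)).trans ((hA _ (by positivity)).trans ?_))
          (by positivity) (by positivity)
        gcongr; nlinarith [sq_nonneg ‖ξ‖])
      (((gauss_integrable (by positivity)).const_mul A).const_mul _)
      (Eventually.of_forall fun ξ t (ht : c / 2 < t) => by
        have t0 : 0 < t := by linarith
        refine (((gg_deriv P _).comp t ((hasDerivAt_id t).mul_const (‖ξ‖ ^ 2))).mul_const _).congr_deriv ?_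
        rw [gg_X]; simp only [id]; field_simp)).2
    have d2 : HasDerivAt (fun t => (π / t) ^ ((n : ℝ) / 2) *
        gg (P.comp (C ((n : ℝ) / 2) - X)) (‖x‖ ^ 2 / t)) (-(1 / c) * ((π / c) ^ ((n : ℝ) / 2) *
        gg ((X * P).comp (C ((n : ℝ) / 2) - X)) (‖x‖ ^ 2 / c))) c := by
      have a1 := ((hasDerivAt_const c π).div (hasDerivAt_id c) hc.ne').rpow_const (p := (n : ℝ) / 2)
        (Or.inl (by have := pi_pos; simp; positivity))
      have a2 := (gg_deriv (P.comp (C ((n : ℝ) / 2) - X)) _).comp c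
        ((hasDerivAt_const c (‖x‖ ^ 2)).div (hasDerivAt_id c) hc.ne')
      refine (a1.mul a2).congr_deriv ?_
      rw [mul_comp, X_comp, sub_mul, gg_sub, gg_C_mul, gg_X]
      simp only [Pi.div_apply, id, Function.comp]
      rw [rpow_sub_one (by have := pi_pos; positivity)]
      have := pi_pos
      field_simp
      ring
    have := d1.unique (d2.congr_of_eventuallyEq (by
      filter_upwards [Ioi_mem_nhds hc] with t ht using h t ht x))
    rw [integral_const_mul] at this
    exact mul_left_cancel₀ (neg_ne_zero.2 (by positivity)) this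

end Pool.Agent.Lib.MP_30f764_gt.Ml
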