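import Pool.Agent.Lib.MP_30f764_gt.MFT

set_option autoImplicit false

namespace Pool.Agent.Lib.MP_30f764_gt.Ml

open Real Filter Topology MeasureTheory Set Metric

variable {n : ℕ} {H h : EE n → ℝ}

lemma swap_H (Hi : Integrable H) (μ : Measure (EE n)) [IsFiniteMeasure μ] {F : EE n → EE n → ℝ}
    (Fc : Continuous (Function.uncurry F)) {B : ℝ} (FB : ∀ x ξ, |F x ξ| ≤ B) :
    ∫ x, ∫ ξ, H ξ * F x ξ ∂volume ∂μ = ∫ ξ, H ξ * ∫ x, F x ξ ∂μ := by
  rw [integral_integral_swap]
  · simp only [integral_const_mul]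
  · exact (Hi.comp_snd μ).mul_bdd (c := B) Fc.aestronglyMeasurable (Eventually.of_forall fun p => FB _ _)

noncomputable def tr (φ : ℝ → ℝ) (μ : Measure (EE n)) (ξ : EE n) : ℝ := ∫ x, φ (2 * inner ℝ x ξ) ∂μ

lemma tr_cont {φ : ℝ → ℝ} (hc : Continuous φ) (h1 : ∀ t, |φ t| ≤ 1) (μ : Measure (EE n))
    [IsFiniteMeasure μ] : Continuous (tr φ μ) :=
  continuous_of_dominated (bound := fun _ => 1) (fun _ => by fun_prop)
    (fun _ => Eventually.of_forall fun _ => h1 _) (integrable_const _)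
    (Eventually.of_forall fun _ => by fun_prop)

lemma tr_le {φ : ℝ → ℝ} (h1 : ∀ t, |φ t| ≤ 1) (μ : Measure (EE n)) [IsFiniteMeasure μ] (ξ : EE n) :
    |tr φ μ ξ| ≤ μ.real univ := by
  simpa [tr] using norm_integral_le_of_norm_le_const (μ := μ) (C := 1)
    (f := fun x => φ (2 * inner ℝ x ξ)) (Eventually.of_forall fun _ => h1 _)

lemma tr_int {φ : ℝ → ℝ} (hc : Continuous φ) (h1 : ∀ t, |φ t| ≤ 1) (μ : Measure (EE n))
    [IsFiniteMeasure μ] (ξ : EE n) : Integrable (fun x => φ (2 * inner ℝ x ξ)) μ :=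
  (integrable_const 1).mono' (by fun_prop) (Eventually.of_forall fun _ => h1 _)

lemma bil (Hi : Integrable H) (rep : ∀ x, h x = ∫ ξ, H ξ * cos (2 * inner ℝ x ξ))
    (μ ν : Measure (EE n)) [IsFiniteMeasure μ] [IsFiniteMeasure ν] :
    ∫ x, ∫ y, h (x - y) ∂ν ∂μ = ∫ ξ, H ξ * (tr cos μ ξ * tr cos ν ξ + tr sin μ ξ * tr sin ν ξ) := by
  have c1 := tr_cont continuous_cos abs_cos_le_one ν
  have c2 := tr_cont continuous_sin abs_sin_le_one ν
  have : ∀ x, ∫ y, h (x - y) ∂ν = ∫ ξ, H ξ * (cos (2 * inner ℝ x ξ) * tr cos ν ξ +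
      sin (2 * inner ℝ x ξ) * tr sin ν ξ) := fun x => by
    simp only [rep]
    rw [swap_H Hi ν (F := fun y ξ => cos (2 * inner ℝ (x - y) ξ)) (by fun_prop) fun _ _ => abs_cos_le_one _]
    simp only [inner_sub_left, mul_sub, cos_sub, tr]
    congr 1; funext ξ
    rw [integral_add ((tr_int continuous_cos abs_cos_le_one ν ξ).const_mul _)
      ((tr_int continuous_sin abs_sin_le_one ν ξ).const_mul _), integral_const_mul, integral_const_mul]
  simp only [this]
  rw [swap_H Hi μ (F := fun x ξ => cos (2 * inner ℝ x ξ) * tr cos ν ξ + sin (2 * inner ℝ x ξ) * tr sin ν ξ)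
    (B := ν.real univ + ν.real univ) (by fun_prop) fun x ξ => (abs_add_le _ _).trans (add_le_add
      (by rw [abs_mul]; exact (mul_le_of_le_one_left (abs_nonneg _) (abs_cos_le_one _)).trans
            (tr_le abs_cos_le_one ν ξ))
      (by rw [abs_mul]; exact (mul_le_of_le_one_left (abs_nonneg _) (abs_sin_le_one _)).trans
            (tr_le abs_sin_le_one ν ξ)))]
  congr 1; funext ξ
  rw [integral_add ((tr_int continuous_cos abs_cos_le_one μ ξ).mul_const _)
    ((tr_int continuous_sin abs_sin_le_one μ ξ).mul_const _), integral_mul_const, integral_mul_const]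
  rfl

lemma psd (Hi : Integrable H) (H0 : ∀ᵐ ξ, 0 ≤ H ξ) (rep : ∀ x, h x = ∫ ξ, H ξ * cos (2 * inner ℝ x ξ))
    (μ ν : Measure (EE n)) [IsFiniteMeasure μ] [IsFiniteMeasure ν] (ρ : ℝ) :
    2 * ρ * ∫ x, ∫ y, h (x - y) ∂ν ∂μ ≤ ∫ x, ∫ y, h (x - y) ∂μ ∂μ + ρ ^ 2 * ∫ x, ∫ y, h (x - y) ∂ν ∂ν := by
  have I : ∀ (μ ν : Measure (EE n)) [IsFiniteMeasure μ] [IsFiniteMeasure ν], Integrable fun ξ =>
      H ξ * (tr cos μ ξ * tr cos ν ξ + tr sin μ ξ * tr sin ν ξ) := fun μ ν _ _ => by
    have c1 := tr_cont continuous_cos abs_cos_le_one ν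
    have c2 := tr_cont continuous_sin abs_sin_le_one ν
    have c3 := tr_cont continuous_cos abs_cos_le_one μ
    have c4 := tr_cont continuous_sin abs_sin_le_one μ
    refine Hi.mul_bdd (c := μ.real univ * ν.real univ + μ.real univ * ν.real univ) (by fun_prop)
      (Eventually.of_forall fun ξ => (abs_add_le _ _).trans (add_le_add ?_ ?_)) <;> rw [abs_mul]
    · exact mul_le_mul (tr_le abs_cos_le_one μ ξ) (tr_le abs_cos_le_one ν ξ) (abs_nonneg _) measureReal_nonneg
    · exact mul_le_mul (tr_le abs_sin_le_one μ ξ) (tr_le abs_sin_le_one ν ξ) (abs_nonneg _) measureReal_nonneg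
  rw [bil Hi rep, bil Hi rep, bil Hi rep, ← integral_const_mul, ← integral_const_mul,
    ← integral_add (I μ μ) ((I ν ν).const_mul _)]
  refine integral_mono_ae ((I μ ν).const_mul _) ((I μ μ).add ((I ν ν).const_mul _)) ?_
  filter_upwards [H0] with ξ h0
  nlinarith [mul_nonneg h0 (add_nonneg (sq_nonneg (tr cos μ ξ - ρ * tr cos ν ξ))
    (sq_nonneg (tr sin μ ξ - ρ * tr sin ν ξ)))]

lemma lp_fin (hn : 1 ≤ n) (Hi : Integrable H) (H0 : ∀ ξ ≠ 0, 0 ≤ H ξ)
    (rep : ∀ x, h x = ∫ ξ, H ξ * cos (2 * inner ℝ x ξ)) (hi : Integrable h) {α : ℝ} (hα : 0 < α)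
    (hf : ∀ x ≠ 0, h x ≤ exp (-α * ‖x‖ ^ 2)) {ρ : ℝ} (hρ : 0 < ρ) (L r : ℝ) (S : Finset (EE n))
    (hS : ∀ x ∈ S, ‖x‖ ≤ r) :
    2 * ρ * (S.card * ((∫ x, h x) - ∫ x in (closedBall 0 L)ᶜ, |h x|)) ≤
      S.card * h 0 + ∑ p ∈ S.offDiag, exp (-α * dist p.1 p.2 ^ 2) +
      ρ ^ 2 * (volume.real (closedBall (0 : EE n) (r + L)) * (π / α) ^ ((n : ℝ) / 2)) := by
  classical
  have : NeZero n := ⟨by omega⟩
  have : IsFiniteMeasure ((volume : Measure (EE n)).restrict (closedBall 0 (r + L))) :=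
    isFiniteMeasure_restrict.2 measure_closedBall_lt_top.ne
  have hs : ∀ f : EE n → ℝ, ∫ x, f x ∂(∑ x ∈ S, Measure.dirac x) = ∑ x ∈ S, f x := fun f => by
    rw [integral_finsetSum_measure fun _ _ => integrable_dirac (by simp)]; simp
  have := psd Hi (by filter_upwards [Measure.ae_ne volume 0] using H0) rep (∑ x ∈ S, Measure.dirac x)
    (volume.restrict (closedBall 0 (r + L))) ρ
  simp only [hs] at this
  refine le_trans (mul_le_mul_of_nonneg_left ?_ (by positivity)) (this.trans (add_le_add ?_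
    (mul_le_mul_of_nonneg_left ?_ (by positivity))))
  · rw [← nsmul_eq_mul]
    refine Finset.card_nsmul_le_sum _ _ _ fun x hx => ?_
    have i1 := hi.comp_sub_left x
    have i2 : Integrable ((closedBall (0 : EE n) L)ᶜ.indicator fun z => |h z|) :=
      hi.abs.indicator measurableSet_closedBall.compl
    rw [← integral_sub_left_eq_self h volume x, ← integral_add_compl (s := closedBall 0 (r + L))
      measurableSet_closedBall i1, add_sub_assoc, add_le_iff_nonpos_right, sub_nonpos,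
      ← integral_indicator measurableSet_closedBall.compl,
      ← integral_indicator measurableSet_closedBall.compl,
      ← integral_sub_left_eq_self ((closedBall (0 : EE n) L)ᶜ.indicator fun z => |h z|) volume x]
    refine integral_mono (i1.indicator measurableSet_closedBall.compl) (i2.comp_sub_left x) fun y => ?_
    by_cases hy : y ∈ (closedBall (0 : EE n) (r + L))ᶜ
    · simp only [indicator_of_mem hy]
      rw [indicator_of_mem]
      · exact le_abs_self _
      · simp only [mem_compl_iff, mem_closedBall, dist_zero_right, not_le] at hy ⊢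
        linarith [hS x hx, norm_sub_norm_le y x, norm_sub_rev y x]
    · simp only [indicator_of_notMem hy]
      exact indicator_nonneg (fun _ _ => abs_nonneg _) _
  · rw [← Finset.sum_product', ← Finset.diag_union_offDiag, Finset.sum_union (Finset.disjoint_diag_offDiag S),
      Finset.sum_diag]
    refine add_le_add (by simp) (Finset.sum_le_sum fun p hp => ?_)
    rw [dist_eq_norm]
    exact hf _ (sub_ne_zero.2 (Finset.mem_offDiag.1 hp).2.2)
  · by_cases hI : Integrable (fun x => ∫ y in closedBall (0 : EE n) (r + L), h (x - y))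
      (volume.restrict (closedBall 0 (r + L)))
    · refine (integral_mono hI (integrable_const ((π / α) ^ ((n : ℝ) / 2))) fun x => ?_).trans (by simp)
      have g := (gauss_integrable (n := n) hα).comp_sub_left x
      dsimp only
      rw [← gauss_int hα, ← integral_sub_left_eq_self (fun x : EE n => exp (-α * ‖x‖ ^ 2)) volume x]
      refine le_trans (integral_mono_ae (hi.comp_sub_left x).integrableOn g.integrableOn
        (ae_restrict_of_ae ?_)) (setIntegral_le_integral g (Eventually.of_forall fun _ => (exp_pos _).le))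
      filter_upwards [Measure.ae_ne volume x] with y hy using hf _ (sub_ne_zero.2 hy.symm)
    · rw [integral_undef hI]; have := pi_pos; positivity

theorem lp (hn : 1 ≤ n) (Hi : Integrable H) (H0 : ∀ ξ ≠ 0, 0 ≤ H ξ)
    (rep : ∀ x, h x = ∫ ξ, H ξ * cos (2 * inner ℝ x ξ)) (hi : Integrable h) {α : ℝ} (hα : 0 < α)
    (hf : ∀ x ≠ 0, h x ≤ exp (-α * ‖x‖ ^ 2)) {ρ : ℝ} (hρ : 0 < ρ) :
    ENNReal.ofReal (ρ * (2 * (∫ x, h x) - (π / α) ^ ((n : ℝ) / 2)) - h 0) ≤ minEnergy n α ρ := by
  classical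
  refine le_iInf₂ fun C ⟨hfin, hden⟩ => ?_
  set G := (π / α) ^ ((n : ℝ) / 2)
  have t1 : Tendsto (fun L : ℕ => ∫ x in (closedBall (0 : EE n) L)ᶜ, |h x|) atTop (𝓝 0) := by
    have := tendsto_setIntegral_of_antitone (μ := volume) (f := fun x => |h x|)
      (s := fun L : ℕ => (closedBall (0 : EE n) L)ᶜ) (fun _ => measurableSet_closedBall.compl)
      (fun a b hab => compl_subset_compl.2 (closedBall_subset_closedBall (by exact_mod_cast hab)))
      ⟨0, hi.abs.integrableOn⟩
    rwa [← compl_iUnion, iUnion_closedBall_nat, compl_univ, setIntegral_empty] at this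
  have t2 := ENNReal.tendsto_ofReal (((((t1.const_sub (∫ x, h x)).const_mul 2).sub_const G).const_mul
    ρ).sub_const (h 0))
  rw [sub_zero] at t2
  refine le_of_tendsto' t2 fun L => ?_
  generalize hJ : (∫ x, h x) - ∫ x in (closedBall 0 (L : ℝ))ᶜ, |h x| = J
  have hlim := ENNReal.tendsto_ofReal ((((((vol_ratio (n := n) L).div hden hρ.ne').mul_const G).const_mul
    (ρ ^ 2)).const_sub (2 * ρ * J)).sub_const (h 0))
  rw [show ρ * (2 * J - G) = 2 * ρ * J - ρ ^ 2 * (1 / ρ * G) by field_simp, ← hlim.liminf_eq]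
  refine liminf_le_liminf ?_
  filter_upwards [eventually_gt_atTop 0, hden.eventually (lt_mem_nhds (half_lt_self hρ))] with r hr hpos
  refine ENNReal.ofReal_le_ofReal ?_
  have hf' := hfin (closedBall 0 r) isBounded_closedBall
  have hv : 0 < volume.real (closedBall (0 : EE n) r) := by
    rw [vol_ball _ hr.le]
    have := vol_one_pos (n := n)
    positivity
  have hN : (0 : ℝ) < ((C ∩ closedBall 0 r).ncard : ℝ) := by
    rcases (Nat.cast_nonneg (α := ℝ) (C ∩ closedBall 0 r).ncard).lt_or_eq with h | h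
    · exact h
    · rw [← h, zero_div] at hpos; linarith
  have h := lp_fin hn Hi H0 rep hi hα hf hρ L r hf'.toFinset
    (fun x hx => by simpa using (hf'.mem_toFinset.1 hx).2)
  have e1 : ∑ᶠ p ∈ (C ∩ closedBall 0 r).offDiag, exp (-α * dist p.1 p.2 ^ 2)
      = ∑ p ∈ hf'.toFinset.offDiag, exp (-α * dist p.1 p.2 ^ 2) := by
    rw [← finsum_mem_coe_finset, Finset.coe_offDiag, hf'.coe_toFinset]
  rw [← Set.ncard_eq_toFinset_card _ hf', ← e1, hJ] at h
  rw [le_div_iff₀ hN, Pi.div_apply, div_div_div_cancel_right₀ hv.ne', sub_mul, sub_mul, mul_assoc (ρ ^ 2),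
    mul_right_comm _ G, div_mul_cancel₀ _ hN.ne']
  linarith

end Pool.Agent.Lib.MP_30f764_gt.Ml
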