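import Pool.Agent.Lib.MP_30f764_gt.Avg

/-! Upper bound: one random point in each cell of a cubic grid. -/

namespace Pool.Agent.Lib.MP_30f764_gt
open Finset Filter Topology Metric MeasureTheory

variable {n : ℕ}

noncomputable def idx (l : ℝ) (x : EuclideanSpace ℝ (Fin n)) : Fin n → ℤ := fun i => ⌊x i / l⌋

lemma idx_meas (l : ℝ) : Measurable (idx (n := n) l) :=
  measurable_pi_lambda _ fun i => by unfold idx; fun_prop

lemma cell_meas (l : ℝ) (v : Fin n → ℤ) : MeasurableSet (idx l ⁻¹' {v}) :=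
  idx_meas l (measurableSet_singleton v)

lemma cell_vol {l : ℝ} (hl : 0 < l) (v : Fin n → ℤ) :
    volume (idx l ⁻¹' {v}) = ENNReal.ofReal (l ^ n) := by
  have h : idx l ⁻¹' {v} = (WithLp.ofLp : EuclideanSpace ℝ (Fin n) → (Fin n → ℝ)) ⁻¹'
      (Set.univ.pi fun i => Set.Ico (v i * l) ((v i + 1) * l)) := by
    ext x
    simp only [Set.mem_preimage, Set.mem_singleton_iff, funext_iff, idx, Int.floor_eq_iff,
      Set.mem_pi, Set.mem_univ, true_implies, Set.mem_Ico, le_div_iff₀ hl, div_lt_iff₀ hl]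
  rw [h, (PiLp.volume_preserving_ofLp (Fin n)).measure_preimage
    (MeasurableSet.univ_pi fun i => measurableSet_Ico).nullMeasurableSet, Real.volume_pi_Ico]
  simp only [show ∀ a : ℝ, (a + 1) * l - a * l = l from fun a => by ring]
  rw [Finset.prod_const, Finset.card_univ, Fintype.card_fin, ENNReal.ofReal_pow hl.le]

lemma idx_close {l : ℝ} (hl : 0 < l) {x y : EuclideanSpace ℝ (Fin n)} (h : idx l x = idx l y) :
    ‖x‖ ≤ ‖y‖ + l * n := by
  have h1 : ∀ i, |x i - y i| ≤ l := fun i => by
    have := Int.abs_sub_lt_one_of_floor_eq_floor (congrFun h i)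
    rw [← sub_div, abs_div, abs_of_pos hl, div_lt_one hl] at this
    exact this.le
  have h2 : ‖x - y‖ ^ 2 ≤ (l * n) ^ 2 := by
    rw [EuclideanSpace.real_norm_sq_eq]
    calc ∑ i, (x - y) i ^ 2 ≤ ∑ _i : Fin n, l ^ 2 := Finset.sum_le_sum fun i _ => by
          rw [← sq_abs]; exact pow_le_pow_left₀ (abs_nonneg _) (h1 i) 2
      _ = l ^ 2 * n := by simp [mul_comm]
      _ ≤ _ := by
          rw [mul_pow]
          gcongr
          exact_mod_cast Nat.le_self_pow two_ne_zero n
  have h3 := (abs_le_of_sq_le_sq' h2 (by positivity)).2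
  have h4 : ‖x‖ ≤ ‖y‖ + ‖x - y‖ := by simpa using norm_add_le y (x - y)
  linarith

lemma idx_fin {l : ℝ} (hl : 0 < l) (r : ℝ) :
    (idx l '' closedBall (0 : EuclideanSpace ℝ (Fin n)) r).Finite := by
  refine (Set.finite_Icc (fun _ : Fin n => ⌊-r / l⌋) fun _ => ⌊r / l⌋).subset ?_
  rintro _ ⟨x, hx, rfl⟩
  have h : ∀ i, |x i| ≤ r := fun i =>
    (PiLp.norm_apply_le x i).trans (by simpa using hx)
  constructor <;> intro i <;> refine Int.floor_mono ?_ <;> gcongr
  · exact (abs_le.1 (h i)).1
  · exact (abs_le.1 (h i)).2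

lemma pre_vol {l : ℝ} (hl : 0 < l) (V : Finset (Fin n → ℤ)) :
    volume.real (idx (n := n) l ⁻¹' (V : Set (Fin n → ℤ))) = V.card * l ^ n := by
  rw [Measure.real, ← sum_measure_preimage_singleton V fun v _ => cell_meas l v]
  simp only [cell_vol hl, Finset.sum_const, nsmul_eq_mul, ENNReal.toReal_mul, ENNReal.toReal_natCast]
  rw [ENNReal.toReal_ofReal (by positivity)]

lemma pre_fin {l : ℝ} (hl : 0 < l) (V : Finset (Fin n → ℤ)) :
    volume (idx (n := n) l ⁻¹' (V : Set (Fin n → ℤ))) ≠ ⊤ := by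
  rw [← sum_measure_preimage_singleton V fun v _ => cell_meas l v]
  simp only [cell_vol hl, Finset.sum_const, nsmul_eq_mul]
  finiteness

lemma card_upper {l : ℝ} (hl : 0 < l) (r : ℝ) :
    ((idx_fin (n := n) hl r).toFinset.card : ℝ) * l ^ n
      ≤ volume.real (closedBall (0 : EuclideanSpace ℝ (Fin n)) (r + l * n)) := by
  rw [← pre_vol hl, Set.Finite.coe_toFinset]
  refine measureReal_mono ?_ measure_closedBall_lt_top.ne
  rintro x ⟨y, hy, hxy⟩
  have := idx_close hl hxy.symm
  simp only [mem_closedBall, dist_zero_right] at hy ⊢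
  linarith

section
variable {l : ℝ} (hl : 0 < l) {p : (Fin n → ℤ) → EuclideanSpace ℝ (Fin n)}
  (hp : ∀ v, idx l (p v) = v)
include hl hp

open Classical in
lemma inter_eq (r : ℝ) : Set.range p ∩ closedBall 0 r =
    ↑(((idx_fin (n := n) hl r).toFinset.filter fun v => ‖p v‖ ≤ r).image p) := by
  ext x
  simp only [Set.mem_inter_iff, Set.mem_range, mem_closedBall, dist_zero_right, coe_image,
    coe_filter, Set.Finite.mem_toFinset, Set.mem_image, Set.mem_ofPred_eq]
  constructor
  · rintro ⟨⟨v, rfl⟩, h⟩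
    exact ⟨v, ⟨⟨p v, h, hp v⟩, h⟩, rfl⟩
  · rintro ⟨v, ⟨_, h⟩, rfl⟩
    exact ⟨⟨v, rfl⟩, h⟩

lemma ncard_bounds (r : ℝ) :
    volume.real (closedBall (0 : EuclideanSpace ℝ (Fin n)) (r + -(l * n)))
      ≤ ((Set.range p ∩ closedBall 0 r).ncard : ℝ) * l ^ n ∧
    ((Set.range p ∩ closedBall 0 r).ncard : ℝ) * l ^ n
      ≤ volume.real (closedBall (0 : EuclideanSpace ℝ (Fin n)) (r + l * n)) := by
  classical
  have hinj : Function.Injective p := Function.LeftInverse.injective hp
  rw [inter_eq hl hp, Set.ncard_coe_finset, Finset.card_image_of_injective _ hinj]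
  constructor
  · rw [← pre_vol hl]
    refine measureReal_mono (fun x hx => ?_) (pre_fin hl _)
    have h := idx_close hl (hp (idx l x))
    have h2 : ‖p (idx l x)‖ ≤ r := by
      simp only [mem_closedBall, dist_zero_right] at hx
      linarith
    simp only [coe_filter, Set.Finite.mem_toFinset, Set.mem_image, Set.mem_preimage,
      Set.mem_ofPred_eq, mem_closedBall, dist_zero_right]
    exact ⟨⟨_, h2, hp _⟩, h2⟩
  · refine le_trans ?_ (card_upper hl r)
    gcongr
    exact Finset.filter_subset _ _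

lemma isConfig_range {ρ : ℝ} (hρ : ρ * l ^ n = 1) : IsConfig (Set.range p) ρ := by
  constructor
  · intro s hs
    obtain ⟨r, hr⟩ := hs.subset_closedBall 0
    refine Set.Finite.subset ?_ (Set.inter_subset_inter_right _ hr)
    rw [inter_eq hl hp]; exact Finset.finite_toSet _
  · have h1 := (vol_ratio (n := n) (-(l * n))).const_mul ρ
    have h2 := (vol_ratio (n := n) (l * n)).const_mul ρ
    rw [mul_one] at h1 h2
    have hρ0 : 0 ≤ ρ := by
      by_contra h
      have : 0 < l ^ n := by positivity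
      nlinarith
    have e : ∀ r, ((Set.range p ∩ closedBall 0 r).ncard : ℝ)
        = ρ * (((Set.range p ∩ closedBall 0 r).ncard : ℝ) * l ^ n) := fun r => by
      linear_combination -((Set.range p ∩ closedBall 0 r).ncard : ℝ) * hρ
    refine tendsto_of_tendsto_of_tendsto_of_le_of_le h1 h2 (fun r => ?_) fun r => ?_
    · simp only
      rw [e r, mul_div_assoc]
      gcongr
      exact (ncard_bounds hl hp r).1
    · simp only
      rw [e r, mul_div_assoc]
      gcongr
      exact (ncard_bounds hl hp r).2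

lemma sum_le (α r : ℝ) :
    ∑ᶠ q ∈ (Set.range p ∩ closedBall 0 r).offDiag, Real.exp (-α * dist q.1 q.2 ^ 2)
      ≤ ∑ q ∈ (idx_fin (n := n) hl r).toFinset.offDiag,
        Real.exp (-α * dist (p q.1) (p q.2) ^ 2) := by
  classical
  have hinj : Function.Injective p := Function.LeftInverse.injective hp
  rw [inter_eq hl hp, ← Finset.coe_offDiag, finsum_mem_coe_finset]
  refine le_trans (Finset.sum_le_sum_of_subset_of_nonneg (t := (idx_fin (n := n) hl
    r).toFinset.offDiag.image (Prod.map p p)) ?_ fun _ _ _ => (Real.exp_pos _).le) ?_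
  · rintro ⟨x, y⟩ h
    simp only [mem_offDiag, mem_image, mem_filter] at h ⊢
    obtain ⟨⟨v, hv, rfl⟩, ⟨w, hw, rfl⟩, hne⟩ := h
    exact ⟨(v, w), ⟨hv.1, hw.1, fun h => hne (congrArg p h)⟩, rfl⟩
  · rw [Finset.sum_image fun a _ b _ h => (hinj.prodMap hinj) h]
    rfl

end

theorem minEnergy_le (hn : 1 ≤ n) {α ρ : ℝ} (hα : 0 < α) (hρ : 0 < ρ) :
    minEnergy n α ρ ≤ ENNReal.ofReal (ρ * (Real.pi / α) ^ ((n : ℝ) / 2)) := by
  classical
  obtain ⟨l, hl, hρl⟩ : ∃ l : ℝ, 0 < l ∧ ρ * l ^ n = 1 :=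
    ⟨ρ⁻¹ ^ (n : ℝ)⁻¹, by positivity, by
      rw [Real.rpow_inv_natCast_pow (by positivity) (by omega), mul_inv_cancel₀ hρ.ne']⟩
  set G : ℝ := (Real.pi / α) ^ ((n : ℝ) / 2) with hG
  have hG0 : 0 < G := by have := Real.pi_pos; positivity
  set μ : (Fin n → ℤ) → Measure (EuclideanSpace ℝ (Fin n)) :=
    fun v => ENNReal.ofReal ρ • volume.restrict (idx l ⁻¹' {v}) with hμ
  have : ∀ v, IsProbabilityMeasure (μ v) := fun v => ⟨by
    simp only [hμ, Measure.smul_apply, Measure.restrict_apply_univ, cell_vol hl, smul_eq_mul]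
    rw [← ENNReal.ofReal_mul hρ.le, hρl, ENNReal.ofReal_one]⟩
  set P := Measure.infinitePi μ with hP
  set F : EuclideanSpace ℝ (Fin n) × EuclideanSpace ℝ (Fin n) → ENNReal :=
    fun q => ENNReal.ofReal (Real.exp (-α * dist q.1 q.2 ^ 2)) with hF
  have hFm : Measurable F := by simp only [hF]; fun_prop
  have hFq : ∀ q : (Fin n → ℤ) × (Fin n → ℤ), Measurable
      fun ω : (Fin n → ℤ) → EuclideanSpace ℝ (Fin n) => F (ω q.1, ω q.2) :=
    fun q => hFm.comp (by fun_prop)
  have hFx : ∀ x, ∫⁻ y, F (x, y) = ENNReal.ofReal G := fun x => by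
    simp only [hF, dist_eq_norm]
    rw [lintegral_sub_left_eq_self
      (fun z : EuclideanSpace ℝ (Fin n) => ENNReal.ofReal (Real.exp (-α * ‖z‖ ^ 2))) x,
      ← ofReal_integral_eq_lintegral_ofReal (gauss_integrable hα)
        (Eventually.of_forall fun _ => (Real.exp_pos _).le), gauss_int hα]
  have hE : ∀ V : Finset (Fin n → ℤ), ∫⁻ ω, ∑ q ∈ V.offDiag, F (ω q.1, ω q.2) ∂P
      ≤ V.card * ENNReal.ofReal (ρ * G) := by
    intro V
    rw [lintegral_finsetSum _ fun q _ => hFq q]
    have h1 : ∀ q ∈ V.offDiag, ∫⁻ ω, F (ω q.1, ω q.2) ∂P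
        = ∫⁻ x, ∫⁻ y, F (x, y) ∂(μ q.2) ∂(μ q.1) := fun q hq => by
      rw [← lintegral_prod _ hFm.aemeasurable,
        ← Measure.infinitePi_map_eval_prod (Finset.mem_offDiag.1 hq).2.2,
        lintegral_map hFm (by fun_prop)]
    rw [Finset.sum_congr rfl h1]
    calc _ ≤ ∑ q ∈ V ×ˢ V, ∫⁻ x, ∫⁻ y, F (x, y) ∂(μ q.2) ∂(μ q.1) :=
          Finset.sum_le_sum_of_subset fun q hq => by
            have := Finset.mem_offDiag.1 hq
            exact Finset.mem_product.2 ⟨this.1, this.2.1⟩
      _ = ∑ v ∈ V, ∫⁻ x, ∑ w ∈ V, ∫⁻ y, F (x, y) ∂(μ w) ∂(μ v) := by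
          rw [Finset.sum_product]
          refine Finset.sum_congr rfl fun v _ => ?_
          rw [lintegral_finsetSum _ fun w _ => hFm.lintegral_prod_right']
      _ ≤ ∑ v ∈ V, ∫⁻ _x, ENNReal.ofReal (ρ * G) ∂(μ v) := by
          refine Finset.sum_le_sum fun v _ => lintegral_mono fun x => ?_
          simp only [hμ, lintegral_smul_measure, smul_eq_mul]
          rw [← Finset.mul_sum, ENNReal.ofReal_mul hρ.le, ← hFx x,
            ← lintegral_biUnion_finset _ fun w _ => cell_meas l w]
          · gcongr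
            exact Measure.restrict_le_self
          · intro a _ b _ hab
            exact Set.disjoint_left.2 fun y h1 h2 => hab (h1.symm.trans h2)
      _ = _ := by simp
  set vb : ℝ → ℝ := fun r => volume.real (closedBall (0 : EuclideanSpace ℝ (Fin n)) r) with hvb
  set g : ℕ → ((Fin n → ℤ) → EuclideanSpace ℝ (Fin n)) → ENNReal := fun k ω =>
    ENNReal.ofReal (l ^ n / vb (k + -(l * n))) *
      ∑ q ∈ (idx_fin (n := n) hl k).toFinset.offDiag, F (ω q.1, ω q.2) with hg
  have hgm : ∀ k, Measurable (g k) := fun k =>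
    (Finset.measurable_sum _ fun q _ => hFq q).const_mul _
  have hnull : P (⋃ v, {ω | idx l (ω v) ≠ v}) = 0 := by
    refine measure_iUnion_null fun v => ?_
    have h1 : {ω : (Fin n → ℤ) → EuclideanSpace ℝ (Fin n) | idx l (ω v) ≠ v}
        = (fun ω => ω v) ⁻¹' (idx l ⁻¹' {v})ᶜ := rfl
    rw [h1, ← Measure.map_apply (measurable_pi_apply v) (cell_meas l v).compl,
      Measure.infinitePi_map_eval]
    simp [hμ, Measure.restrict_apply (cell_meas l v).compl]
  obtain ⟨p, hp, hle⟩ := exists_notMem_null_le_lintegral (μ := P)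
    (f := fun ω => liminf (fun k => g k ω) atTop) (Measurable.liminf hgm).aemeasurable hnull
  have hp' : ∀ v, idx l (p v) = v := by simpa using hp
  have hlim : Tendsto (fun k : ℕ => ENNReal.ofReal
      ((vb (k + l * n) / vb k) / (vb (k + -(l * n)) / vb k) * (ρ * G))) atTop
      (𝓝 (ENNReal.ofReal (1 / 1 * (ρ * G)))) :=
    ENNReal.tendsto_ofReal (((((vol_ratio (l * n)).div (vol_ratio (-(l * n))) one_ne_zero).comp
      tendsto_natCast_atTop_atTop)).mul_const _)
  rw [div_one, one_mul] at hlim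
  have hvpos : ∀ r : ℝ, 0 < r → 0 < vb r := fun r hr => by
    simp only [hvb]
    rw [vol_ball _ hr.le]
    have := vol_one_pos (n := n)
    positivity
  have hev : ∀ᶠ k : ℕ in atTop, l * n < k := tendsto_natCast_atTop_atTop.eventually_gt_atTop _
  refine (iInf₂_le (Set.range p) (isConfig_range hl hp' hρl)).trans ?_
  calc energy α (Set.range p) ≤ liminf (fun k => g k p) atTop := by
        unfold energy
        refine le_trans (liminf_le_liminf_of_le (g := map (Nat.cast : ℕ → ℝ) atTop)
          tendsto_natCast_atTop_atTop) ?_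
        rw [← liminf_comp]
        refine liminf_le_liminf ?_
        filter_upwards [hev] with k hk
        have h1 := hvpos (k + -(l * n)) (by linarith)
        have h2 := (ncard_bounds hl hp' k).1
        simp only [hg, hF, Function.comp]
        rw [← ENNReal.ofReal_sum_of_nonneg fun _ _ => (Real.exp_pos _).le,
          ← ENNReal.ofReal_mul (by positivity)]
        refine ENNReal.ofReal_le_ofReal ?_
        have h3 : 0 < ((Set.range p ∩ closedBall 0 (k : ℝ)).ncard : ℝ) * l ^ n := h1.trans_le h2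
        have h4 : 0 < ((Set.range p ∩ closedBall 0 (k : ℝ)).ncard : ℝ) :=
          (mul_pos_iff_of_pos_right (by positivity)).1 h3
        rw [div_eq_mul_inv, mul_comm]
        refine mul_le_mul ?_ (sum_le hl hp' α k) (finsum_nonneg fun _ => finsum_nonneg fun _ =>
          (Real.exp_pos _).le) (by positivity)
        rw [inv_eq_one_div, div_le_div_iff₀ h4 h1, one_mul, mul_comm (l ^ n)]
        exact h2
    _ ≤ ∫⁻ ω, liminf (fun k => g k ω) atTop ∂P := hle
    _ ≤ liminf (fun k => ∫⁻ ω, g k ω ∂P) atTop := lintegral_liminf_le hgm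
    _ ≤ _ := by
        rw [← hlim.liminf_eq]
        refine liminf_le_liminf ?_
        filter_upwards [hev] with k hk
        have h0 : 0 < l * n := by have : (0 : ℝ) < n := by exact_mod_cast hn
                                  positivity
        have h1 := hvpos (k + -(l * n)) (by linarith)
        have h2 := hvpos k (by linarith)
        simp only [hg]
        rw [lintegral_const_mul _ (Finset.measurable_sum _ fun q _ => hFq q)]
        refine (mul_le_mul_right (hE _) _).trans ?_
        rw [← ENNReal.ofReal_natCast, ← ENNReal.ofReal_mul (by positivity),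
          ← ENNReal.ofReal_mul (by positivity), ← mul_assoc]
        refine ENNReal.ofReal_le_ofReal (mul_le_mul_of_nonneg_right ?_ (by positivity))
        rw [div_div_div_cancel_right₀ h2.ne', div_mul_eq_mul_div, mul_comm]
        gcongr
        exact card_upper hl k

end Pool.Agent.Lib.MP_30f764_gt
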