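import Pool.Agent.Lib.MP_30f764_gt.MMu
import Pool.Agent.Lib.MP_30f764_gt.Upper

set_option autoImplicit false

namespace Pool.Agent.Lib.MP_30f764_gt.Ml

open Polynomial Real Filter Topology MeasureTheory Set

theorem lower_fin {J : ℕ} (J1 : 1 ≤ J) {η κ : ℝ} (η0 : 0 < η) (η1 : η ≤ 1 / 10) (hκ : κ = η / (1800 * J ^ 2)) :
    ∀ᶠ n : ℕ in atTop, ∀ α ρ : ℝ, 0 < α → 0 < ρ →
      ENNReal.ofReal (ρ * ((1 - 2 * exp (-(4 * J * κ ^ 2 * (n / 2)))) * (π / α) ^ ((n : ℝ) / 2)) -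
        exp (-(n / 2 * (log (Wallis.W J) - 9 * J * η)) + 1 / η)) ≤ minEnergy n α ρ := by
  have J2 : (1 : ℝ) ≤ J := by exact_mod_cast J1
  have k0 : 0 < κ := by rw [hκ]; positivity
  have k1 : 48 * J * κ + η / (40 * J) ≤ η / (18 * J) := by
    rw [hκ, show 48 * J * (η / (1800 * J ^ 2)) + η / (40 * J) = η / J * (48 / 1800 + 1 / 40) by field_simp,
      show η / (18 * J) = η / J * (1 / 18) by field_simp]
    gcongr; norm_num
  have k2 : η / (18 * J) ≤ η / 18 := by gcongr; linarith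
  have k3 : 0 < η / (40 * J) := by positivity
  have k4 : κ ≤ J * κ := le_mul_of_one_le_left k0.le J2
  have tD : Tendsto (fun n : ℕ => (n : ℝ) / 2) atTop atTop :=
    tendsto_natCast_atTop_atTop.atTop_div_const two_pos
  obtain ⟨y, y12, hy⟩ : ∃ y : ℝ, 12 ≤ y ∧ (3 * J + 2) * LL J ^ 2 * 6 ≤ √y :=
    ⟨max 12 (((3 * J + 2) * LL J ^ 2 * 6) ^ 2), le_max_left _ _, le_sqrt_of_sq_le (le_max_right _ _)⟩
  have t1 := (tendsto_exp_neg_atTop_nhds_zero.comp (tD.const_mul_atTop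
    (show 0 < 4 * J * κ ^ 2 by positivity))).const_mul 3
  filter_upwards [eventually_ge_atTop 1, tD.eventually_ge_atTop y, tD.eventually_ge_atTop (LL J / η ^ 2),
    tD.eventually_ge_atTop (40 * J / η ^ 2), t1.eventually_lt_const (show 3 * 0 < (1 : ℝ) by norm_num),
    tD.eventually_ge_atTop (2 * J * exp (y * exp J * exp (2 * J + 2) + y * exp J))] with n n1 c1 c2 c3 c4 c5 α ρ hα hρ
  simp only [Function.comp] at c4
  set D : ℝ := n / 2 with hD
  have D0 : 0 < D := by linarith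
  have e0 : 0 < η * D := by positivity
  have e1 : 10 * (η * D) ≤ D := by nlinarith
  have e2 : 1 / (η * D) ≤ η / (40 * J) := by
    rw [div_le_div_iff₀ e0 (by positivity)]; rw [div_le_iff₀ (by positivity)] at c3; linarith
  have e3 : 1 ≤ η * D := by rw [← div_le_one e0]; nlinarith
  have e4 : κ * D ≤ η * D := by gcongr; linarith
  have e5 : 0 < 1 / (η * D) := by positivity
  obtain ⟨m, m1, m2⟩ : ∃ m : ℕ, D + 4 * (η * D) ≤ m ∧ m ≤ (1 + 5 * η) * D :=
    ⟨_, Nat.le_ceil _, by linarith [Nat.ceil_lt_add_one (show 0 ≤ D + 4 * (η * D) by positivity)]⟩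
  have Dm : D ≤ m := by linarith
  have m12 : 12 ≤ m := by exact_mod_cast (show (12 : ℝ) ≤ m by linarith)
  obtain ⟨l, h⟩ := PP_rep D0.le Dm J1 (by omega)
  have md : ∀ s, κ * D ≤ s → s ≤ D → ∃ M, Uni (fun y => exp (s * y) * l y) M ∧
      |M - mu D J m s| ≤ 3 * (8 * J * κ) := fun s s1 s2 => by
    obtain ⟨M, hM⟩ := h.uni s ⟨le_trans (by positivity) s1, by linarith⟩
    exact ⟨M, hM, near h J1 D0 Dm k0 (by linarith) ⟨s1, s2⟩ c4 hM⟩
  obtain ⟨M1, u1, v1⟩ := md D (by linarith) le_rfl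
  obtain ⟨b, u2, v2⟩ := md (D - η * D) (by linarith) (by linarith)
  obtain ⟨M3, u3, v3⟩ := md (D - 2 * (η * D)) (by linarith) (by linarith)
  have w1 := mu_sep J1 D0 Dm (by linarith) η0.le (s := D - η * D) (by linarith) (by linarith)
  have w2 := mu_sep J1 D0 Dm (by linarith) η0.le (s := D - 2 * (η * D)) (by linarith) (by linarith)
  have w3 := mu_ge (J := J) D0 Dm (by linarith) m2 e3
  rw [sub_add_cancel] at w1
  rw [show D - 2 * (η * D) + η * D = D - η * D by ring] at w2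
  rw [abs_le] at v1 v2 v3
  refine le_trans (ENNReal.ofReal_le_ofReal (sub_le_sub_left (exp_le_exp.2 ?_) _))
    (lp_cut n1 hD (h.mono (by linarith)) PP_sym (PP_nn ⟨le_rfl, D0.le⟩) e0 (σ := D - η * D)
      ⟨by linarith, by linarith⟩ (pos_main (τ := η * D) ⟨by linarith, by linarith, D0.le, Dm⟩ J1 m12 e0 y12 hy
      (by linarith) (by linarith) (le_trans ?_ (one_le_exp (by positivity)))) u2 (fun y hy => ?_)
      (fun y hy => ?_) (tail h D0 Dm k0.le (by linarith) ⟨by linarith, le_rfl⟩ (Or.inr rfl) measurableSet_Iic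
      fun y hy => by linarith [mem_Iic.1 hy]) hα hρ)
  · have : η ≤ J * η := le_mul_of_one_le_left η0.le J2
    have := mul_le_mul_of_nonneg_left (show log (Wallis.W J) - 9 * J * η ≤ b by linarith) D0.le
    linarith [show D * (1 / (η * D)) = 1 / η by field_simp]
  · rw [div_le_iff₀ (by positivity)] at c2
    rw [div_div, div_le_one (by positivity), sqrt_le_left (by positivity)]
    have : 0 ≤ LL J := by unfold LL; positivity
    calc _ ≤ LL J * (4 * D) := by gcongr; linarith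
      _ ≤ D * η ^ 2 * (4 * D) := by gcongr
      _ = _ := by ring
  · have := u3.2 (show M3 ≤ y by linarith [hy.1]) (show M3 ≤ b by linarith) hy.2
    exact le_of_mul_le_mul_left (this.trans (mul_le_mul_of_nonneg_right (exp_le_exp.2
      (mul_le_mul_of_nonneg_left hy.2 (by linarith))) (h.nn y))) (exp_pos _)
  · exact u1.1 (show b ≤ M1 by linarith) (show y ≤ M1 by linarith [hy.2]) hy.1

theorem main (K : Set (ℝ × ℝ)) (hK : IsCompact K) (hsub : K ⊆ Ioo (0 : ℝ) (π ^ 2 / 2) ×ˢ Ioi (0 : ℝ)) :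
    TendstoUniformlyOn (fun (n : ℕ) (p : ℝ × ℝ) => (p.1 / π) ^ ((n : ℝ) / 2) * (minEnergy n p.1 p.2).toReal)
      (fun p => p.2) atTop K := by
  rcases K.eq_empty_or_nonempty with rfl | ne
  · exact tendstoUniformlyOn_empty
  obtain ⟨q, hq, hA⟩ := hK.exists_isMaxOn ne continuous_fst.continuousOn
  obtain ⟨r, -, hR⟩ := hK.exists_isMaxOn ne continuous_snd.continuousOn
  obtain ⟨⟨A0, A1⟩, -⟩ := hsub hq
  have hpi := pi_pos
  obtain ⟨J, hJ, J1⟩ := ((Wallis.tendsto_W_nhds_pi_div_two.eventually_const_lt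
    (show q.1 / π < π / 2 by rw [div_lt_iff₀ hpi]; linarith)).and (eventually_ge_atTop 1)).exists
  have J2 : (0 : ℝ) < J := by exact_mod_cast J1
  have δ0 := sub_pos.2 (log_lt_log (by positivity) hJ)
  set δ := log (Wallis.W J) - log (q.1 / π) with hδ
  obtain ⟨η, η0, η1, η2⟩ : ∃ η : ℝ, 0 < η ∧ η ≤ 1 / 10 ∧ η ≤ δ / (18 * J) :=
    ⟨min _ _, lt_min (by norm_num) (by positivity), min_le_left _ _, min_le_right _ _⟩
  rw [le_div_iff₀ (by positivity)] at η2
  have tD : Tendsto (fun n : ℕ => (n : ℝ) / 2) atTop atTop :=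
    tendsto_natCast_atTop_atTop.atTop_div_const two_pos
  have t := ((tendsto_exp_neg_atTop_nhds_zero.comp (tD.const_mul_atTop
    (show 0 < 4 * J * (η / (1800 * J ^ 2)) ^ 2 by positivity))).const_mul (2 * r.2)).add
    ((tendsto_exp_neg_atTop_nhds_zero.comp (tD.const_mul_atTop (half_pos δ0))).mul_const (exp (1 / η)))
  rw [Metric.tendstoUniformlyOn_iff]
  intro ε hε
  filter_upwards [lower_fin J1 η0 η1 rfl, eventually_ge_atTop 1, t.eventually_lt_const (by simpa using hε)]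
    with n hl hn ht p hp
  obtain ⟨⟨hα, -⟩, hρ⟩ := hsub hp
  have hρ : 0 < p.2 := hρ
  have hu := minEnergy_le hn hα hρ
  have h1 := ENNReal.toReal_le_of_le_ofReal (by positivity) hu
  have h2 := (ENNReal.ofReal_le_iff_le_toReal (ne_top_of_le_ne_top ENNReal.ofReal_ne_top hu)).1 (hl _ _ hα hρ)
  have h3 : (p.1 / π) ^ ((n : ℝ) / 2) * (π / p.1) ^ ((n : ℝ) / 2) = 1 := by
    rw [← mul_rpow (by positivity) (by positivity), div_mul_div_cancel₀ hpi.ne', div_self hα.ne', one_rpow]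
  have h4 : 0 ≤ (p.1 / π) ^ ((n : ℝ) / 2) := by positivity
  have h5 := mul_le_mul_of_nonneg_left h1 h4
  have h6 := mul_le_mul_of_nonneg_left h2 h4
  rw [mul_left_comm, h3, mul_one] at h5
  rw [mul_sub, mul_left_comm, mul_left_comm _ (1 - _), h3, mul_one] at h6
  have h7 : (p.1 / π) ^ ((n : ℝ) / 2) * exp (-(n / 2 * (log (Wallis.W J) - 9 * J * η)) + 1 / η) ≤
      exp (-(δ / 2 * (n / 2))) * exp (1 / η) := by
    rw [rpow_def_of_pos (by positivity), ← exp_add, ← exp_add, exp_le_exp]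
    have : log (p.1 / π) ≤ log (q.1 / π) := by gcongr; exact hA hp
    nlinarith [(by positivity : (0 : ℝ) ≤ n / 2)]
  have h8 := mul_le_mul_of_nonneg_right (show p.2 ≤ r.2 from hR hp)
    (exp_pos (-(4 * J * (η / (1800 * J ^ 2)) ^ 2 * (n / 2)))).le
  simp only [Function.comp] at ht
  rw [Real.dist_eq, abs_lt]
  constructor <;> linarith

end Pool.Agent.Lib.MP_30f764_gt.Ml
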