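import Pool.Agent.Lib.MP_30f764_gt.MPos2

set_option autoImplicit false

namespace Pool.Agent.Lib.MP_30f764_gt.Ml

open Polynomial Real Filter Topology Finset MeasureTheory

variable {D s t : ℝ} {J m : ℕ} {l : ℝ → ℝ}

noncomputable def mu (D : ℝ) (J m : ℕ) (s : ℝ) : ℝ :=
  ∑ p ∈ II J m, (1 / (D + (aa m p + m : ℕ) + 1 - s) - 1 / (((aa m p + m : ℕ) : ℝ) + 1 + s))

lemma eval_PP (s : ℝ) : (PP D J m).eval s =
    ∏ p ∈ II J m, (D + (aa m p + m : ℕ) + 1 - s) * (((aa m p + m : ℕ) : ℝ) + 1 + s) := by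
  rw [PP, eval_mul, eval_prod, eval_prod, ← prod_mul_distrib]
  refine prod_congr rfl fun p _ => ?_
  simp [sub_eq_add_neg]

lemma z_ge (p : ℕ × ℕ) : (m : ℝ) ≤ (aa m p + m : ℕ) := by exact_mod_cast Nat.le_add_left _ _

lemma PP_nn (hs : s ∈ Set.Icc 0 D) : 0 ≤ (PP D J m).eval s := by
  have : (0 : ℝ) ≤ m := Nat.cast_nonneg m
  rw [eval_PP]
  exact prod_nonneg fun p _ => mul_nonneg (by linarith [z_ge (m := m) p, hs.2]) (by linarith [z_ge (m := m) p, hs.1])

lemma PP_sym : (PP D J m).comp (C D - X) = PP D J m := Polynomial.funext fun r => by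
  rw [eval_comp, eval_PP, eval_PP]
  exact prod_congr rfl fun p _ => by simp; ring

lemma PP_rep (D0 : 0 ≤ D) (Dm : D ≤ m) (J1 : 1 ≤ J) (m1 : 1 ≤ m) : ∃ l, Rep (2 * D) (PP D J m) l := by
  have h : ((0, 0) : ℕ × ℕ) ∈ II J m := by simp [II]; omega
  obtain ⟨l, g⟩ := (Rep.base (z := ((aa m (0, 0) + m : ℕ) : ℝ) + 1) (by positivity) (2 * D)).prod (by positivity)
    (Or.inl rfl) ((II J m).erase (0, 0)) (fun p => ((aa m p + m : ℕ) : ℝ) + 1) fun p _ s hs => by
      have := hs.1; positivity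
  rw [prod_erase_mul _ (fun p => C (((aa m p + m : ℕ) : ℝ) + 1) + C 1 * X) h] at g
  exact g.prod (by positivity) (Or.inr rfl) _ _ fun p _ s hs => by linarith [z_ge (m := m) p, hs.2]

lemma Rep.mono {D' : ℝ} {P : ℝ[X]} (h : Rep D' P l) (hD : D ≤ D') : Rep D P l :=
  ⟨h.me, h.nn, fun s hs => h.int s ⟨hs.1, hs.2.trans hD⟩, fun s hs => h.lap s ⟨hs.1, hs.2.trans hD⟩,
    fun s hs => h.uni s ⟨hs.1, hs.2.trans hD⟩, h.rep⟩

lemma fac_le {a r : ℝ} (r0 : 0 < r) (ha : r ≤ a) (ht : |t| ≤ r / 2) :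
    a ≤ (a + t) * exp (-(t * (1 / a)) + 2 * (t / r) ^ 2) := by
  have a0 : 0 < a := by linarith
  have h1 : 1 / 2 ≤ 1 + t / a := by
    rw [one_add_div a0.ne', le_div_iff₀ a0]; linarith [(abs_le.1 ht).1]
  have h2 := one_sub_inv_le_log_of_pos (show 0 < 1 + t / a by linarith)
  have h3 : (1 + t / a)⁻¹ ≤ 1 - t / a + 2 * (t / a) ^ 2 := by
    rw [inv_le_iff_one_le_mul₀ (by linarith)]; nlinarith [sq_nonneg (t / a)]
  have h4 : (t / a) ^ 2 ≤ (t / r) ^ 2 := by rw [div_pow, div_pow]; gcongr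
  rw [show a + t = a * (1 + t / a) by field_simp, ← exp_log (show 0 < 1 + t / a by linarith), mul_assoc,
    ← exp_add, mul_one_div]
  exact le_mul_of_one_le_right a0.le (one_le_exp (by linarith))

lemma chern (m1 : 1 ≤ m) (hs : s ∈ Set.Icc 0 D) (ht : |t| ≤ m / 2) :
    (PP D J m).eval s ≤ (PP D J m).eval (s + t) * exp (t * mu D J m s + 4 * J * t ^ 2 / m) := by
  have m0 : (0 : ℝ) < m := by exact_mod_cast m1
  have e : t * mu D J m s + 4 * J * t ^ 2 / m = ∑ p ∈ II J m, ((-(-t * (1 / (D + (aa m p + m : ℕ) + 1 - s))) +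
      2 * (-t / m) ^ 2) + (-(t * (1 / (((aa m p + m : ℕ) : ℝ) + 1 + s))) + 2 * (t / m) ^ 2)) := by
    rw [mu, mul_sum, show 4 * J * t ^ 2 / m = ∑ p ∈ II J m, 4 * (t / m) ^ 2 by
      rw [sum_const, card_II, nsmul_eq_mul]; push_cast; field_simp, ← sum_add_distrib]
    exact sum_congr rfl fun p _ => by ring
  rw [e, eval_PP, eval_PP, exp_sum, ← prod_mul_distrib]
  refine prod_le_prod (fun p _ => mul_nonneg (by linarith [z_ge (m := m) p, hs.2])
    (by linarith [z_ge (m := m) p, hs.1])) fun p _ => ?_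
  have a1 := fac_le (a := D + (aa m p + m : ℕ) + 1 - s) (t := -t) m0 (by linarith [z_ge (m := m) p, hs.2])
    (by rwa [abs_neg])
  have a2 := fac_le (a := ((aa m p + m : ℕ) : ℝ) + 1 + s) m0 (by linarith [z_ge (m := m) p, hs.1]) ht
  refine (mul_le_mul a1 a2 (by linarith [z_ge (m := m) p, hs.1])
    (le_trans (by linarith [z_ge (m := m) p, hs.2]) a1)).trans (le_of_eq ?_)
  rw [exp_add _ (_ + _)]; ring

lemma tail (h : Rep (2 * D) (PP D J m) l) (D0 : 0 < D) (Dm : D ≤ m) {κ e : ℝ} (k0 : 0 ≤ κ) (k1 : κ ≤ 1 / 2)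
    (hs : s ∈ Set.Icc (κ * D) D) (he : e = 1 ∨ e = -1) {A : Set ℝ} (hA : MeasurableSet A)
    (hb : ∀ y ∈ A, 8 * J * κ ≤ e * (y - mu D J m s)) :
    (PP D J m).eval s * ∫ y in A, exp (s * y) * l y ≤ exp (-(4 * J * κ ^ 2 * D)) := by
  have k2 : 0 ≤ κ * D := by positivity
  have k3 : κ * D ≤ D / 2 := by nlinarith
  have s1 : s ∈ Set.Icc 0 D := ⟨k2.trans hs.1, hs.2⟩
  have e2 : e * e = 1 := by rcases he with rfl | rfl <;> simp
  have k4 : |e * (κ * D)| = κ * D := by rcases he with rfl | rfl <;> simp [abs_of_nonneg k2]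
  have k5 := abs_le.1 k4.le
  refine (h.tail (b := mu D J m s + e * (8 * J * κ)) ⟨s1.1, by linarith [hs.2]⟩
    ⟨by linarith [hs.1], by linarith [hs.2]⟩ (PP_nn s1) (chern (t := e * (κ * D))
    (by exact_mod_cast D0.trans_le Dm) s1 (by linarith)) hA fun y hy => ?_).trans (exp_le_exp.2 ?_)
  · have := mul_nonneg k2 (sub_nonneg.2 (hb y hy))
    linear_combination this + κ * D * (8 * J * κ) * e2
  · have : 4 * J * (e * (κ * D)) ^ 2 / m ≤ 4 * J * κ ^ 2 * D := by
      rw [← sq_abs, k4, div_le_iff₀ (by linarith), mul_pow, sq D, ← mul_assoc, ← mul_assoc]; gcongr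
    linear_combination this - κ * D * (8 * J * κ) * e2

lemma near (h : Rep (2 * D) (PP D J m) l) (J1 : 1 ≤ J) (D0 : 0 < D) (Dm : D ≤ m) {κ M : ℝ} (k0 : 0 < κ)
    (k1 : κ ≤ 1 / 2) (hs : s ∈ Set.Icc (κ * D) D) (hδ : 3 * exp (-(4 * J * κ ^ 2 * D)) < 1)
    (hM : Uni (fun y => exp (s * y) * l y) M) : |M - mu D J m s| ≤ 3 * (8 * J * κ) := by
  have s1 : s ∈ Set.Icc 0 D := ⟨le_trans (by positivity) hs.1, hs.2⟩
  have s2 : s ∈ Set.Icc 0 (2 * D) := ⟨s1.1, by linarith [hs.2]⟩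
  exact hM.mode (h.int s s2) (fun y => mul_nonneg (exp_pos _).le (h.nn y)) (PP_nn s1) (h.lap s s2)
    (by positivity) (tail h D0 Dm k0.le k1 hs (Or.inl rfl) measurableSet_Ici fun y hy => by
      linarith [Set.mem_Ici.1 hy]) (tail h D0 Dm k0.le k1 hs (Or.inr rfl) measurableSet_Iic fun y hy => by
      linarith [Set.mem_Iic.1 hy]) hδ

lemma mu_sep (J1 : 1 ≤ J) (D0 : 0 < D) (Dm : D ≤ m) (mD : m ≤ 2 * D) {η : ℝ} (η0 : 0 ≤ η) (s0 : 0 ≤ s)
    (s1 : s + η * D ≤ D) : mu D J m s + η / (18 * J) ≤ mu D J m (s + η * D) := by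
  have J2 : (1 : ℝ) ≤ J := by exact_mod_cast J1
  have m0 : (0 : ℝ) < m := by linarith
  have k : 0 ≤ η * D := by positivity
  rw [mu, mu, show η / (18 * J) = ∑ p ∈ II J m, η * (m / 2) / (3 * J * m * (3 * J * m)) by
    rw [sum_const, card_II, nsmul_eq_mul]; push_cast; field_simp; ring, ← sum_add_distrib]
  refine sum_le_sum fun p hp => ?_
  have z1 := z_ge (m := m) p
  have z2 : ((aa m p + m : ℕ) : ℝ) + 1 ≤ 2 * J * m := by
    simp only [II, mem_product, mem_range] at hp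
    have : aa m p + m + 1 ≤ 2 * J * m := by
      have := Nat.mul_le_mul_right (2 * m) (show p.1 + 1 ≤ J from hp.1)
      unfold aa; nlinarith [hp.2]
    exact_mod_cast this
  generalize ((aa m p + m : ℕ) : ℝ) = z at *
  have z3 : (m : ℝ) ≤ J * m := by nlinarith
  have a1 : 1 / (D + z + 1 - s) ≤ 1 / (D + z + 1 - (s + η * D)) :=
    one_div_le_one_div_of_le (by linarith) (by linarith)
  have a2 : η * (m / 2) / (3 * J * m * (3 * J * m)) ≤ η * D / ((z + 1 + s) * (z + 1 + (s + η * D))) := by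
    gcongr
    exacts [mul_pos (by linarith) (by linarith), by linarith, by linarith, by linarith, by linarith]
  have a3 : η * D / ((z + 1 + s) * (z + 1 + (s + η * D))) = 1 / (z + 1 + s) - 1 / (z + 1 + (s + η * D)) := by
    have : 0 < z + 1 + s := by linarith
    have : 0 < z + 1 + (s + η * D) := by linarith
    field_simp; ring
  linarith

lemma mu_ge (D0 : 0 < D) (Dm : D ≤ m) {η : ℝ} (η1 : η ≤ 1) (mD : m ≤ (1 + 5 * η) * D) (hη : 1 ≤ η * D) :
    log (Wallis.W J) - 8 * J * η ≤ mu D J m (D - η * D) := by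
  have m0 : (0 : ℝ) < m := by linarith
  have η0 : 0 < η := by by_contra c; nlinarith
  rw [mu, II, sum_product, Wallis.W, log_prod fun _ _ => by positivity, show 8 * J * η = ∑ j ∈ range J, 8 * η by
    simp; ring, ← sum_sub_distrib]
  refine sum_le_sum fun j _ => ?_
  have := sum_range_sub (fun k : ℕ => log ((2 * j + 1) * m + k) - log ((2 * j + 2) * m + k)) m
  rw [show log ((2 * j + 2) / (2 * j + 1) * ((2 * j + 2) / (2 * j + 3)) : ℝ) = _ from Eq.trans ?_ this.symm,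
    show 8 * η = ∑ k ∈ range m, 8 * η / m by simp; field_simp, ← sum_sub_distrib]
  · refine sum_le_sum fun k _ => ?_
    have z1 := z_ge (m := m) (j, k)
    rw [show ((2 * j + 1) * m + (k + 1 : ℕ) : ℝ) = (aa m (j, k) + m : ℕ) + 1 by simp [aa]; ring,
      show ((2 * j + 2) * m + (k + 1 : ℕ) : ℝ) = (aa m (j, k) + m : ℕ) + m + 1 by simp [aa]; ring,
      show ((2 * j + 1) * m + k : ℝ) = (aa m (j, k) + m : ℕ) by simp [aa]; ring,
      show ((2 * j + 2) * m + k : ℝ) = (aa m (j, k) + m : ℕ) + m by simp [aa]; ring]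
    generalize ((aa m (j, k) + m : ℕ) : ℝ) = z at *
    have z0 : 0 < z := by linarith
    have k1 : η * D ≤ D := by nlinarith
    have a1 : log (z + 1) - log z ≤ 1 / z := by
      rw [← log_div (by positivity) z0.ne']
      exact (log_le_sub_one_of_pos (by positivity)).trans (le_of_eq (by field_simp; ring))
    have a2 : log (z + m) - log (z + m + 1) ≤ -(1 / (z + m + 1)) := by
      rw [← log_div (by positivity) (by positivity)]
      exact (log_le_sub_one_of_pos (by positivity)).trans (le_of_eq (by field_simp; ring))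
    have a3 : 1 / z - 1 / (D + z + 1 - (D - η * D)) ≤ 2 * η * m / (m * m) := by
      rw [div_sub_div _ _ z0.ne' (by linarith)]
      gcongr <;> nlinarith
    have a4 : 1 / (z + 1 + (D - η * D)) - 1 / (z + m + 1) ≤ 6 * η * m / (m * m) := by
      rw [div_sub_div _ _ (by linarith) (by linarith)]
      gcongr <;> nlinarith
    rw [mul_div_mul_right _ _ m0.ne'] at a3 a4
    linarith [show 8 * η / m = 2 * η / m + 6 * η / m by ring]
  · rw [Nat.cast_zero, add_zero, add_zero, ← add_one_mul, ← add_one_mul, log_mul, log_mul, log_mul, log_mul,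
      log_mul, log_div, log_div] <;> first | positivity | ring_nf

end Pool.Agent.Lib.MP_30f764_gt.Ml
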