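import Mathlib

set_option autoImplicit false

namespace Pool.Agent.Lib.MP_30f764_gt.Ml

open Polynomial Real Filter Topology MeasureTheory Set

noncomputable def Th : Module.End ℝ ℝ[X] := LinearMap.mulLeft ℝ X * (1 - derivative)
noncomputable def op (P : ℝ[X]) : ℝ[X] := aeval Th P 1
noncomputable def gg (P : ℝ[X]) (u : ℝ) : ℝ := (op P).eval u * exp (-u)
noncomputable def sh (P : ℝ[X]) : ℝ[X] := P.comp (X - 1)

lemma op_add (P Q : ℝ[X]) : op (P + Q) = op P + op Q := by simp [op]
lemma op_sub (P Q : ℝ[X]) : op (P - Q) = op P - op Q := by simp [op]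
lemma op_C_mul (a : ℝ) (P : ℝ[X]) : op (C a * P) = C a * op P := by
  simp [op, Algebra.algebraMap_eq_smul_one, smul_eq_C_mul]
lemma op_C (a : ℝ) : op (C a) = C a := by simp [op, Algebra.algebraMap_eq_smul_one, smul_eq_C_mul]
lemma op_X (P : ℝ[X]) : op (X * P) = X * (op P - derivative (op P)) := by simp [op, Th]

lemma op_sh (P : ℝ[X]) : op (sh P) = op P - derivative (op P) := by
  unfold sh
  induction P using Polynomial.induction_on with
  | C a => simp [op_C]
  | add p q hp hq => rw [add_comp, op_add, op_add, hp, hq, map_add]; ring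
  | monomial n a h =>
    rw [pow_succ', mul_left_comm, mul_comp, X_comp, sub_mul, one_mul, op_sub, op_X, op_X, h]
    simp; ring

lemma gg_add (P Q : ℝ[X]) (u : ℝ) : gg (P + Q) u = gg P u + gg Q u := by simp [gg, op_add, add_mul]
lemma gg_sub (P Q : ℝ[X]) (u : ℝ) : gg (P - Q) u = gg P u - gg Q u := by simp [gg, op_sub, sub_mul]
lemma gg_C_mul (a : ℝ) (P : ℝ[X]) (u : ℝ) : gg (C a * P) u = a * gg P u := by
  simp [gg, op_C_mul, mul_assoc]
lemma gg_C (a u : ℝ) : gg (C a) u = a * exp (-u) := by simp [gg, op_C]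
lemma gg_X (P : ℝ[X]) (u : ℝ) : gg (X * P) u = u * gg (sh P) u := by
  simp [gg, op_X, op_sh, mul_assoc]

@[fun_prop] lemma gg_cont (P : ℝ[X]) : Continuous (gg P) := by unfold gg; fun_prop

lemma gg_deriv (P : ℝ[X]) (u : ℝ) : HasDerivAt (gg P) (-gg (sh P) u) u := by
  have := ((op P).hasDerivAt u).mul (hasDerivAt_neg u).exp
  refine this.congr_deriv ?_
  simp [gg, op_sh]; ring

lemma ind {M : ℝ[X] → Prop} (hC : ∀ a, M (C a)) (ha : ∀ P Q, M P → M Q → M (P + Q))
    (hX : ∀ P, M (sh P) → M (X * P)) (P : ℝ[X]) : M P := by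
  induction h : P.natDegree using Nat.strong_induction_on generalizing P with
  | _ n ih =>
    by_cases h0 : P.natDegree = 0
    · rw [eq_C_of_natDegree_eq_zero h0]; exact hC _
    · rw [← X_mul_divX_add P]
      refine ha _ _ (hX _ (ih _ ?_ _ rfl)) (hC _)
      rw [sh, natDegree_comp, ← C_1, natDegree_X_sub_C, mul_one, natDegree_divX_eq_natDegree_tsub_one]
      omega

lemma gg_zero (P : ℝ[X]) : gg P 0 = P.eval 0 := by
  induction P using ind with
  | hC a => simp [gg_C]
  | ha P Q hP hQ => simp [gg_add, hP, hQ]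
  | hX P _ => simp [gg_X]

lemma gg_bound' (P : ℝ[X]) : ∀ r < 1, ∃ A, ∀ u, 0 ≤ u → |gg P u| ≤ A * exp (-(r * u)) := by
  induction P using ind with
  | hC a =>
    refine fun r hr => ⟨|a|, fun u hu => ?_⟩
    rw [gg_C, abs_mul, abs_exp]; gcongr; nlinarith
  | ha P Q hP hQ =>
    intro r hr
    obtain ⟨A, hA⟩ := hP r hr
    obtain ⟨B, hB⟩ := hQ r hr
    exact ⟨A + B, fun u hu => by
      rw [gg_add, add_mul]; exact (abs_add_le _ _).trans (add_le_add (hA u hu) (hB u hu))⟩
  | hX P hP =>
    intro r hr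
    obtain ⟨A, hA⟩ := hP ((r + 1) / 2) (by linarith)
    have A0 : 0 ≤ A := by simpa using (abs_nonneg _).trans (hA 0 le_rfl)
    refine ⟨A * (2 / (1 - r)), fun u hu => ?_⟩
    rw [gg_X, abs_mul, abs_of_nonneg hu]
    refine (mul_le_mul_of_nonneg_left (hA u hu) hu).trans ?_
    have h1 : u ≤ 2 / (1 - r) * exp ((1 - r) / 2 * u) := by
      rw [div_mul_eq_mul_div, le_div_iff₀ (by linarith)]
      linarith [add_one_le_exp ((1 - r) / 2 * u)]
    calc _ ≤ 2 / (1 - r) * exp ((1 - r) / 2 * u) * (A * exp (-((r + 1) / 2 * u))) := by gcongr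
      _ = _ := by
        rw [show -(r * u) = (1 - r) / 2 * u + -((r + 1) / 2 * u) by ring, exp_add]; ring

lemma gg_bound (P : ℝ[X]) : ∃ A, 0 ≤ A ∧ ∀ u, 0 ≤ u → |gg P u| ≤ A * exp (-(u / 2)) := by
  obtain ⟨A, hA⟩ := gg_bound' P (1 / 2) (by norm_num)
  exact ⟨A, by simpa using (abs_nonneg _).trans (hA 0 le_rfl), fun u hu => by
    simpa [div_eq_inv_mul] using hA u hu⟩

lemma gg_bdd (P : ℝ[X]) : ∃ A, ∀ u, 0 ≤ u → |gg P u| ≤ A := by
  obtain ⟨A, A0, hA⟩ := gg_bound P
  exact ⟨A, fun u hu => (hA u hu).trans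
    (mul_le_of_le_one_right A0 (exp_le_one_iff.2 (by linarith)))⟩

lemma gg_taylor (P : ℝ[X]) (v : ℝ) :
    HasSum (fun k : ℕ => (-v) ^ k / k.factorial * P.eval (-(k : ℝ))) (gg P v) := by
  induction P using ind with
  | hC a =>
    have := (NormedSpace.expSeries_div_hasSum_exp (-v)).mul_right a
    simpa [gg_C, mul_comm a, ← Real.exp_eq_exp_ℝ] using this
  | ha P Q hP hQ => simpa [gg_add, mul_add] using hP.add hQ
  | hX P hP =>
    rw [← hasSum_nat_add_iff' 1, gg_X]
    simp only [Finset.range_one, Finset.sum_singleton, Nat.cast_zero, neg_zero, eval_mul, eval_X,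
      zero_mul, mul_zero, sub_zero]
    refine (congrArg (HasSum · _) (_root_.funext fun k => ?_)).mp (hP.mul_left v)
    have : (k.factorial : ℝ) ≠ 0 := by positivity
    simp only [sh, eval_comp, eval_sub, eval_X, eval_one, Nat.factorial_succ, Nat.cast_mul, Nat.cast_add,
      Nat.cast_one, show -(k : ℝ) - 1 = -(k + 1) by ring]
    field_simp
    ring

lemma gg_mellin (P : ℝ[X]) : ∀ s : ℂ, 0 < s.re →
    HasMellin (fun u => (gg P u : ℂ)) s (aeval s P * Complex.Gamma s) := by
  induction P using ind with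
  | hC a =>
    intro s hs
    have h : MellinConvergent (fun u : ℝ => (exp (-u) : ℂ)) s := by
      simpa [MellinConvergent, mul_comm] using Complex.GammaIntegral_convergent hs
    have := hasMellin_const_smul h (a : ℂ)
    rw [← Complex.GammaIntegral_eq_mellin, ← Complex.Gamma_eq_integral hs] at this
    simpa [gg_C] using this
  | ha P Q hP hQ =>
    intro s hs
    have := hasMellin_add (hP s hs).1 (hQ s hs).1
    rw [(hP s hs).2, (hQ s hs).2] at this
    simpa [gg_add, add_mul] using this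
  | hX P hP =>
    intro s hs
    obtain ⟨h1, h2⟩ := hP (s + 1) (by simp; linarith)
    rw [← MellinConvergent.cpow_smul] at h1
    rw [← mellin_cpow_smul, Complex.Gamma_add_one s (by rintro rfl; simp at hs)] at h2
    simp only [Complex.cpow_one, smul_eq_mul] at h1 h2
    simp only [gg_X, Complex.ofReal_mul]
    refine ⟨h1, h2.trans ?_⟩
    simp [sh, aeval_comp]; ring

lemma exp_int {z : ℝ} (hz : 0 < z) : IntegrableOn (fun t => exp (-(z * t))) (Ioi 0) := by
  simpa using exp_neg_integrableOn_Ioi 0 hz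

lemma exp_val {z : ℝ} (hz : 0 < z) : ∫ t in Ioi 0, exp (-(z * t)) = 1 / z := by
  have := integral_exp_mul_Ioi (a := -z) (by linarith) 0
  simpa [div_neg, neg_div] using this

lemma conv_int (P : ℝ[X]) {z u : ℝ} (hz : 0 < z) (hu : 0 ≤ u) (e : ℝ) :
    IntegrableOn (fun t => exp (-(z * t)) * gg P (u * exp (e * t))) (Ioi 0) := by
  obtain ⟨A, hA⟩ := gg_bdd P
  exact (exp_int hz).mul_bdd (c := A) (by fun_prop) (Eventually.of_forall fun t => hA _ (by positivity))

lemma gg_conv (P : ℝ[X]) {z u : ℝ} (hz : 0 < z) (hu : 0 ≤ u) (e : ℝ) :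
    ∫ t in Ioi 0, exp (-(z * t)) * gg ((C z + C e * X) * P) (u * exp (e * t)) = gg P u := by
  obtain ⟨A, hA⟩ := gg_bdd P
  have := integral_Ioi_of_hasDerivAt_of_tendsto (a := 0) (m := 0)
    (f := fun t => -(exp (-(z * t)) * gg P (u * exp (e * t)))) (by fun_prop) (fun t _ => by
      have h1 := ((hasDerivAt_id t).const_mul z).neg.exp
      have h2 := (gg_deriv P _).comp t (((hasDerivAt_id t).const_mul e).exp.const_mul u)
      refine (h1.mul h2).neg.congr_deriv ?_
      rw [add_mul, mul_assoc (C e), gg_add, gg_C_mul, gg_C_mul, gg_X]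
      simp; ring) (conv_int ((C z + C e * X) * P) hz hu e) (by
      rw [← neg_zero]
      refine Tendsto.neg (squeeze_zero_norm (a := fun t => exp (-(z * t)) * A) (fun t => ?_) ?_)
      · rw [norm_mul, norm_eq_abs, abs_exp]; gcongr; exact hA _ (by positivity)
      · simpa using (tendsto_exp_neg_atTop_nhds_zero.comp
          (tendsto_id.const_mul_atTop hz)).mul_const A)
  simpa using this

lemma gX_int (P : ℝ[X]) {u : ℝ} (hu : 0 < u) : Integrable fun s => gg (X * P) (u * exp (-s)) := by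
  obtain ⟨A, A0, hA⟩ := gg_bound (sh P)
  have b : ∀ v, 0 ≤ v → ‖gg (X * P) v‖ ≤ A * (v * exp (-(v / 2))) := fun v hv => by
    rw [gg_X, norm_mul, norm_of_nonneg hv, mul_left_comm]; gcongr; exact hA v hv
  rw [← integrableOn_univ, ← Iic_union_Ioi (a := (0 : ℝ))]
  refine IntegrableOn.union ?_ ?_
  · refine ((integrableOn_exp_Iic 0).const_mul (A * (8 / u))).mono' (by fun_prop)
      (Eventually.of_forall fun s => (b _ (by positivity)).trans ?_)
    rw [mul_assoc A]
    refine mul_le_mul_of_nonneg_left ?_ A0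
    have v0 : 0 < u * exp (-s) := by positivity
    rw [show 8 / u * exp s = 8 / (u * exp (-s)) by rw [exp_neg]; field_simp]
    generalize u * exp (-s) = v at v0
    rw [exp_neg, ← div_eq_mul_inv, div_le_div_iff₀ (exp_pos _) v0]
    nlinarith [quadratic_le_exp_of_nonneg (show 0 ≤ v / 2 by linarith)]
  · refine ((exp_int one_pos).const_mul (A * u)).mono' (by fun_prop)
      (Eventually.of_forall fun s => (b _ (by positivity)).trans ?_)
    rw [mul_assoc A, one_mul]
    refine mul_le_mul_of_nonneg_left ?_ A0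
    exact mul_le_of_le_one_right (by positivity) (exp_le_one_iff.2 (neg_nonpos.2 (by positivity)))

lemma gX_val (P : ℝ[X]) {u : ℝ} (hu : 0 < u) (y : ℝ) :
    ∫ s in Iic y, gg (X * P) (u * exp (-s)) = gg P (u * exp (-y)) := by
  obtain ⟨A, A0, hA⟩ := gg_bound P
  have := integral_Iic_of_hasDerivAt_of_tendsto (a := y) (m := 0)
    (f := fun t => gg P (u * exp (-t))) (by fun_prop) (fun t _ => by
      refine ((gg_deriv P _).comp t ((hasDerivAt_neg t).exp.const_mul u)).congr_deriv ?_
      rw [gg_X]; ring) (gX_int P hu).integrableOn (by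
      refine squeeze_zero_norm (a := fun t => A * exp (-(u * exp (-t) / 2)))
        (fun t => hA _ (by positivity)) ?_
      simpa using (tendsto_exp_neg_atTop_nhds_zero.comp (((tendsto_exp_atTop.comp
        tendsto_neg_atBot_atTop).const_mul_atTop hu).atTop_div_const two_pos)).const_mul A)
  simpa using this

end Pool.Agent.Lib.MP_30f764_gt.Ml
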