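import Pool.Agent.Lib.MP_30f764_gt.MSad

set_option autoImplicit false

namespace Pool.Agent.Lib.MP_30f764_gt.Ml

open Polynomial Real Filter Topology Finset

noncomputable def PP (D : ℝ) (J m : ℕ) : ℝ[X] :=
  (∏ p ∈ II J m, (C (D + (aa m p + m : ℕ) + 1) + C (-1) * X)) *
    ∏ p ∈ II J m, (C (((aa m p + m : ℕ) : ℝ) + 1) + C 1 * X)
noncomputable def Ps (D : ℝ) (J m : ℕ) (s : ℂ) : ℂ := aeval s (sh (PP D J m)) * Complex.Gamma s
noncomputable def dr (D : ℝ) (m : ℕ) (x : ℝ) (p : ℕ × ℕ) : ℝ := D + 2 + (aa m p + m : ℕ) - x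
noncomputable def mm (D : ℝ) (J m : ℕ) (x : ℝ) : ℝ :=
  psi x + ∑ p ∈ II J m, 1 / (x + (aa m p + m : ℕ)) - ∑ p ∈ II J m, 1 / dr D m x p
noncomputable def phi (D : ℝ) (J m : ℕ) (x : ℝ) (w : ℂ) : ℂ :=
  Ps D J m (x + w) / Ps D J m x * Complex.exp (-(w * mm D J m x))
noncomputable def phN (D : ℝ) (J m : ℕ) (x : ℝ) (w : ℂ) (N : ℕ) : ℂ :=
  (∏ p ∈ II J m, Ef (w / ((x + (aa m p + m : ℕ) : ℝ) : ℂ))) * (∏ p ∈ II J m, Ef (-w / dr D m x p)) *
    (∏ i ∈ range (N + 1), Ef (w / ((x + i : ℝ) : ℂ)))⁻¹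

variable {D x : ℝ} {J m : ℕ}

lemma aeval_Q (s : ℂ) : aeval s (sh (PP D J m)) =
    (∏ p ∈ II J m, (((aa m p + m : ℕ) : ℂ) + s)) * ∏ p ∈ II J m, (D + 2 + ((aa m p + m : ℕ) : ℂ) - s) := by
  rw [sh, aeval_comp, PP, map_mul, map_prod, map_prod, mul_comm]
  congr 1 <;> refine prod_congr rfl fun p _ => ?_ <;> simp <;> ring

structure HH (D : ℝ) (m : ℕ) (x : ℝ) : Prop where
  x1 : 1 ≤ x
  x2 : 2 * x ≤ D + m + 2
  D0 : 0 ≤ D
  Dm : D ≤ m

lemma HH.dr1 (h : HH D m x) (p : ℕ × ℕ) : x + aa m p ≤ dr D m x p := by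
  have := h.x2; unfold dr; push_cast; linarith

lemma HH.dr2 (h : HH D m x) (p : ℕ × ℕ) : (m : ℝ) / 2 ≤ dr D m x p := by
  have := h.x2; have := h.D0; have : (0 : ℝ) ≤ aa m p := Nat.cast_nonneg _
  unfold dr; push_cast; linarith

lemma HH.dr0 (h : HH D m x) (p : ℕ × ℕ) : 0 < dr D m x p :=
  lt_of_lt_of_le (by have := h.x1; positivity) (h.dr1 p)

lemma HH.lim (h : HH D m x) {w : ℂ} (hw : 0 < x + w.re) :
    Tendsto (phN D J m x w) atTop (𝓝 (phi D J m x w)) := by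
  have x1 := h.x1
  have := (gamma_lim x1 hw).const_mul ((∏ p ∈ II J m, Ef (w / ((x + (aa m p + m : ℕ) : ℝ) : ℂ))) *
    (∏ p ∈ II J m, Ef (-w / dr D m x p)))
  refine (congrArg (fun z => Tendsto _ _ (𝓝 z)) ?_).mp this
  rw [prod_Ef _ _ fun p _ => by exact_mod_cast (by positivity : x + (aa m p + m : ℕ) ≠ 0),
    prod_Ef _ _ fun p _ => by exact_mod_cast (h.dr0 p).ne', phi, Ps, Ps, aeval_Q, aeval_Q, mm]
  push_cast
  rw [mul_sub, mul_add, neg_sub, sub_add_eq_sub_sub, sub_eq_add_neg, sub_eq_add_neg, Complex.exp_add,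
    Complex.exp_add, neg_mul, neg_neg]
  have e1 : ∏ p ∈ II J m, ((x : ℂ) + (aa m p + m) + w) = ∏ p ∈ II J m, ((aa m p : ℂ) + m + (x + w)) :=
    prod_congr rfl fun p _ => by ring
  have e2 : ∏ p ∈ II J m, ((x : ℂ) + (aa m p + m)) = ∏ p ∈ II J m, ((aa m p : ℂ) + m + x) :=
    prod_congr rfl fun p _ => by ring
  have e3 : ∏ p ∈ II J m, ((dr D m x p : ℂ) + -w) = ∏ p ∈ II J m, ((D : ℂ) + 2 + (aa m p + m) - (x + w)) :=
    prod_congr rfl fun p _ => by unfold dr; push_cast; ring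
  have e4 : ∏ p ∈ II J m, (dr D m x p : ℂ) = ∏ p ∈ II J m, ((D : ℂ) + 2 + (aa m p + m) - x) :=
    prod_congr rfl fun p _ => by unfold dr; push_cast; ring
  rw [e1, e2, e3, e4]
  ring

lemma norm_phN {w : ℂ} (h : ∀ i : ℕ, 0 < ‖Ef (w / ((x + i : ℝ) : ℂ))‖) {N : ℕ} (hN : 2 * J * m ≤ N) :
    ‖phN D J m x w N‖ = (∏ p ∈ II J m, ‖Ef (-w / dr D m x p)‖ / ‖Ef (w / ((x + aa m p : ℝ) : ℂ))‖) /
      ∏ i ∈ range (N + 1 - 2 * J * m), ‖Ef (w / ((x + (2 * J * m + i : ℕ) : ℝ) : ℂ))‖ := by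
  have e : N + 1 = 2 * J * m + (N + 1 - 2 * J * m) := by omega
  rw [phN, norm_mul, norm_mul, norm_inv, norm_prod, norm_prod, norm_prod, prod_div_distrib]
  conv_lhs => rw [e, prod_range_add, prod_split fun i => ‖Ef (w / ((x + i : ℝ) : ℂ))‖]
  have := (prod_pos fun p (_ : p ∈ II J m) => h (aa m p + m)).ne'
  field_simp

lemma Ef_I (y d : ℝ) : Ef (y * Complex.I / d) = Ef ((y / d : ℝ) * Complex.I) := by
  congr 1; push_cast; ring

lemma Ef_nI (y d : ℝ) : Ef (-(y * Complex.I) / d) = Ef ((-y / d : ℝ) * Complex.I) := by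
  congr 1; push_cast; ring

lemma card_II : (II J m).card = J * m := by simp [II]

lemma HH.re (h : HH D m x) (y : ℝ) : ‖phi D J m x (y * Complex.I)‖ * (1 - (3 * J + 2) * |y| ^ 3 / x ^ 2) ≤
    (phi D J m x (y * Complex.I)).re := by
  have x1 := h.x1
  have l := h.lim (J := J) (w := y * Complex.I) (by simp; linarith)
  refine le_of_tendsto_of_tendsto' (l.norm.mul_const _) ((Complex.continuous_re.tendsto _).comp l)
    fun N => le_trans (mul_le_mul_of_nonneg_left ?_ (norm_nonneg _)) (Pol.re (by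
      simp only [phN, Ef_I, Ef_nI]
      exact ((Pol.prod _ fun _ => pol_Ef _).mul (Pol.prod _ fun _ => pol_Ef _)).mul
        (Pol.prod _ fun _ => pol_Ef _).inv))
  have y0 : 0 ≤ |y| ^ 3 / x ^ 2 := by positivity
  have key : ∀ (d : ℕ × ℕ → ℝ) (c : ℝ), 0 ≤ c → (∀ p, x ≤ d p ∧ (m : ℝ) ≤ c * d p) →
      ∑ p ∈ II J m, |y / d p| ^ 3 ≤ c * J * (|y| ^ 3 / x ^ 2) := fun d c hc hd => by
    rcases Nat.eq_zero_or_pos m with rfl | m0
    · simp [II]; positivity
    have m1 : (0 : ℝ) < m := by exact_mod_cast m0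
    refine (sum_le_card_nsmul _ _ (c / m * (|y| ^ 3 / x ^ 2)) fun p _ => ?_).trans (le_of_eq ?_)
    · obtain ⟨d1, d2⟩ := hd p
      have d0 : 0 < d p := by linarith
      rw [abs_div, abs_of_pos d0, div_pow, show |y| ^ 3 / d p ^ 3 = 1 / d p * (|y| ^ 3 / d p ^ 2) by field_simp]
      exact mul_le_mul (by rw [div_le_div_iff₀ d0 m1]; linarith) (by gcongr) (by positivity) (by positivity)
    · rw [card_II, nsmul_eq_mul]; push_cast; field_simp
  have a1 := key (fun p => x + (aa m p + m : ℕ)) 1 zero_le_one fun p => by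
    have : (0 : ℝ) ≤ aa m p := Nat.cast_nonneg _
    have : (0 : ℝ) ≤ m := Nat.cast_nonneg _
    push_cast; constructor <;> linarith
  have a2 := key (dr D m x) 2 zero_le_two fun p =>
    ⟨le_trans (by simp) (h.dr1 p), by linarith [h.dr2 p]⟩
  have a3 : ∑ i ∈ range (N + 1), |y / (x + i)| ^ 3 ≤ 2 * (|y| ^ 3 / x ^ 2) := by
    calc _ ≤ ∑ i ∈ range (N + 1), |y| ^ 3 / x * (1 / (x + i) ^ 2) := sum_le_sum fun i _ => by
          rw [abs_div, abs_of_pos (show 0 < x + i by positivity), div_pow,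
            show |y| ^ 3 / (x + i) ^ 3 = |y| ^ 3 / (x + i) * (1 / (x + i) ^ 2) by field_simp]
          gcongr; simp
      _ ≤ |y| ^ 3 / x * (2 / x) := by rw [← mul_sum]; gcongr; exact sum_sq_le x1 _
      _ = _ := by field_simp
  simp only [neg_div, abs_neg, mul_div_assoc]
  linarith

lemma one_le_sq (t : ℝ) : 1 ≤ √(1 + t ^ 2) := one_le_sqrt.2 (by nlinarith)

lemma HH.lo (h : HH D m x) (y : ℝ) : exp (-(y ^ 2 / x)) ≤ ‖phi D J m x (y * Complex.I)‖ := by
  have x1 := h.x1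
  refine ge_of_tendsto' (h.lim (J := J) (w := y * Complex.I) (by simp; linarith)).norm fun N => ?_
  simp only [phN, Ef_I, Ef_nI, norm_mul, norm_inv, norm_prod, norm_Ef]
  refine le_trans ?_ (le_mul_of_one_le_left (by positivity) (one_le_mul_of_one_le_of_one_le
    (one_le_prod fun _ _ => one_le_sq _) (one_le_prod fun _ _ => one_le_sq _)))
  rw [exp_neg]
  refine inv_anti₀ (by positivity) ?_
  calc _ ≤ ∏ i ∈ range (N + 1), exp (y ^ 2 / 2 * (1 / (x + i) ^ 2)) :=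
        prod_le_prod (fun _ _ => by positivity) fun i _ => by
          rw [sqrt_le_left (exp_pos _).le, ← exp_nat_mul]
          refine le_trans (le_of_eq ?_) (add_one_le_exp _)
          push_cast; field_simp; ring
    _ ≤ _ := by
        rw [← exp_sum, ← mul_sum]
        refine exp_le_exp.2 ((mul_le_mul_of_nonneg_left (sum_sq_le x1 _) (by positivity)).trans (le_of_eq ?_))
        field_simp

lemma HH.hi0 (h : HH D m x) (y : ℝ) (J1 : 1 ≤ J) (m1 : 1 ≤ m) {K : ℕ} (K1 : K ≤ m) (K2 : K ≤ x) :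
    ‖phi D J m x (y * Complex.I)‖ ^ 2 ≤ ((1 + (y / (m / 2)) ^ 2) / (1 + (y / (2 * x)) ^ 2)) ^ K /
      (1 + (y / ((2 * J + 3) * m)) ^ 2) ^ m := by
  have x1 := h.x1
  have m2 : (1 : ℝ) ≤ m := by exact_mod_cast m1
  have T : ∀ a b : ℝ, 0 < a → a ≤ b → 1 + (y / b) ^ 2 ≤ 1 + (y / a) ^ 2 := fun a b a0 ab => by
    rw [div_pow, div_pow]; gcongr
  refine le_of_tendsto ((h.lim (J := J) (w := y * Complex.I) (by simp; linarith)).norm.pow 2) ?_
  filter_upwards [eventually_ge_atTop (2 * J * m + m)] with N hN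
  rw [norm_phN (fun i => by rw [Ef_I, norm_Ef]; positivity) (by omega)]
  have n1 : ∀ d : ℝ, ‖Ef (y * Complex.I / d)‖ ^ 2 = 1 + (y / d) ^ 2 := fun d => by
    rw [Ef_I, norm_Ef, sq_sqrt (by positivity)]
  have n2 : ∀ d : ℝ, ‖Ef (-(y * Complex.I) / d)‖ ^ 2 = 1 + (y / d) ^ 2 := fun d => by
    rw [Ef_nI, norm_Ef, sq_sqrt (by positivity), neg_div, neg_sq]
  rw [div_pow, ← prod_pow, ← prod_pow]
  simp only [fun a b : ℂ => div_pow ‖a‖ ‖b‖ 2, n1, n2]
  refine div_le_div₀ (by positivity) ?_ (by positivity) ?_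
  · have s : ({0} : Finset ℕ) ×ˢ range K ⊆ II J m :=
      product_subset_product (by simp; omega) (range_subset_range.2 K1)
    refine (prod_le_prod_of_subset_of_le_one s (fun _ _ => by positivity) fun p _ _ =>
      (div_le_one (by positivity)).2 (T _ _ (by positivity) (h.dr1 p))).trans ?_
    refine (prod_le_prod (g := fun _ => (1 + (y / (m / 2)) ^ 2) / (1 + (y / (2 * x)) ^ 2))
      (fun _ _ => by positivity) fun p hp => ?_).trans (by rw [prod_const]; simp)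
    simp only [mem_product, mem_singleton, mem_range] at hp
    refine div_le_div₀ (by positivity) (T _ _ (by positivity) (h.dr2 p)) (by positivity)
      (T _ _ (by positivity) ?_)
    have : (p.2 : ℝ) ≤ K := by exact_mod_cast hp.2.le
    simp [aa, hp.1]; linarith
  · refine le_trans ?_ (prod_le_prod_of_subset_of_one_le (range_subset_range.2
      (show m ≤ N + 1 - 2 * J * m by omega)) (fun _ _ => by positivity) fun _ _ _ =>
      le_add_of_nonneg_right (sq_nonneg _))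
    refine le_trans (by simp) (prod_le_prod (f := fun _ => 1 + (y / ((2 * J + 3) * m)) ^ 2)
      (fun _ _ => by positivity) fun i hi => T _ _ (by positivity) ?_)
    have : (i : ℝ) + 1 ≤ m := by exact_mod_cast mem_range.1 hi
    have := h.x2; have := h.Dm
    push_cast; linarith

noncomputable def LL (J : ℕ) : ℝ := 48 * (2 * J + 3) ^ 4

lemma pow6 {w v : ℝ} {K : ℕ} (hw : 0 ≤ w) (hv : 0 ≤ v) (h : v ≤ (K / 6 : ℕ) * w) : (1 + v) ^ 6 ≤ (1 + w) ^ K :=
  calc _ ≤ ((1 + w) ^ (K / 6)) ^ 6 := by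
        gcongr; exact le_trans (by linarith) (one_add_mul_le_pow (by linarith) _)
    _ ≤ _ := by rw [← pow_mul]; exact pow_le_pow_right₀ (by linarith) (by omega)

lemma HH.hi (h : HH D m x) (J1 : 1 ≤ J) (x12 : 12 ≤ x) (m12 : 12 ≤ m) (y : ℝ) :
    ‖phi D J m x (y * Complex.I)‖ ≤ ((1 + y ^ 2 / (LL J * x)) ^ 3)⁻¹ := by
  have m2 : (12 : ℝ) ≤ m := by exact_mod_cast m12
  have J2 : (1 : ℝ) ≤ J := by exact_mod_cast J1
  have d6 : ∀ K : ℕ, 12 ≤ K → (K : ℝ) + 1 ≤ 12 * (K / 6 : ℕ) := fun K hK => by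
    exact_mod_cast (by omega : K + 1 ≤ 12 * (K / 6))
  unfold LL
  refine (pow_le_pow_iff_left₀ (norm_nonneg _) (by positivity) two_ne_zero).1 ?_
  rw [inv_pow, ← pow_mul]
  by_cases c : x * ((4 * J + 6) ^ 2 : ℕ) ≤ m
  · have K1 := Nat.floor_le (show 0 ≤ x by linarith)
    have K2 := Nat.lt_floor_add_one x
    have K3 : 12 ≤ ⌊x⌋₊ := Nat.le_floor (by exact_mod_cast x12)
    have K4 : (4 * J + 6) ^ 2 * ⌊x⌋₊ ≤ m := by
      have : (((4 * J + 6) ^ 2 : ℕ) : ℝ) * ⌊x⌋₊ ≤ m := le_trans (by rw [mul_comm x]; gcongr) c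
      exact_mod_cast this
    refine (h.hi0 y J1 (by omega) (K := ⌊x⌋₊) (le_trans (Nat.le_mul_of_pos_left _ (by positivity)) K4)
      K1).trans ?_
    rw [div_pow, div_right_comm, ← one_div]
    refine div_le_div₀ zero_le_one ((div_le_one (by positivity)).2 ?_) (by positivity)
      (pow6 (by positivity) (by positivity) ?_)
    · refine le_trans ?_ (pow_le_pow_right₀ (le_add_of_nonneg_right (sq_nonneg _)) K4)
      rw [pow_mul]
      gcongr
      refine le_trans (le_of_eq ?_) (one_add_mul_le_pow (le_trans (by norm_num) (sq_nonneg _)) _)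
      push_cast; field_simp; ring
    · rw [div_pow, mul_div_assoc', div_le_div_iff₀ (by positivity) (by positivity)]
      have a1 : (1 : ℝ) ≤ (2 * J + 3) ^ 4 := one_le_pow₀ (by linarith)
      have a2 := d6 _ K3
      have a3 : x * 1 ≤ 12 * (⌊x⌋₊ / 6 : ℕ) * (2 * J + 3) ^ 4 := by gcongr; linarith
      nlinarith [mul_le_mul_of_nonneg_left a3 (show 0 ≤ y ^ 2 * x * 4 by positivity)]
  · refine (h.hi0 y J1 (by omega) (K := 0) (by omega) (by simp; linarith)).trans ?_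
    rw [pow_zero, one_div]
    refine inv_anti₀ (by positivity) (pow6 (by positivity) (by positivity) ?_)
    rw [div_pow, mul_div_assoc', div_le_div_iff₀ (by positivity) (by positivity)]
    push_cast at c
    have a3 : (m : ℝ) * m ≤ 12 * (m / 6 : ℕ) * (x * (4 * J + 6) ^ 2) := by
      gcongr; exacts [by linarith [d6 m m12], (not_le.1 c).le]
    nlinarith [mul_le_mul_of_nonneg_left a3 (show 0 ≤ y ^ 2 * (2 * J + 3) ^ 2 by positivity)]

lemma norm_Er {t : ℝ} (h : -1 ≤ t) : ‖Ef (t : ℂ)‖ = (1 + t) * exp (-t) := by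
  rw [Ef, show (1 + t : ℂ) * Complex.exp (-t) = ((1 + t) * exp (-t) : ℝ) by push_cast; rfl,
    Complex.norm_real, norm_of_nonneg (mul_nonneg (by linarith) (exp_pos _).le)]

lemma Er_le {a : ℝ} (h0 : 0 ≤ a) (h1 : a < 1) : (1 + -a) * exp (- -a) ≤ exp (-(a ^ 2 / 2)) := by
  have := (hasSum_pow_div_log_of_abs_lt_one (x := a) (by rwa [abs_of_nonneg h0]))
  have := sum_le_hasSum (range 2) (fun i _ => by positivity) this
  simp [sum_range_succ] at this
  rw [← exp_log (show 0 < 1 + -a by linarith), ← exp_add, ← sub_eq_add_neg 1]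
  exact exp_le_exp.2 (by norm_num at this; linarith)

lemma Er_ge {a : ℝ} (h0 : 0 ≤ a) : exp (-(a ^ 2 / 2)) ≤ (1 + a) * exp (-a) := by
  have := le_log_one_add_of_nonneg h0
  have h : a - a ^ 2 / 2 ≤ 2 * a / (a + 2) := by
    rw [le_div_iff₀ (by linarith)]; nlinarith [pow_nonneg h0 3]
  rw [← exp_log (show 0 < 1 + a by linarith), ← exp_add]
  exact exp_le_exp.2 (by linarith)

lemma HH.gap (h : HH D m x) (m1 : 1 ≤ m) {τ : ℝ} (t0 : 0 ≤ τ) (t1 : τ < x) :
    exp (m * ((τ / ((2 * J + 3) * m)) ^ 2 / 2)) ≤ ‖phi D J m x (-τ)‖ := by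
  have x1 := h.x1
  have m2 : (1 : ℝ) ≤ m := by exact_mod_cast m1
  have n1 : ∀ d : ℝ, x ≤ d → 0 < ‖Ef (-τ / d)‖ ∧ ‖Ef (-τ / d)‖ ≤ exp (-((τ / d) ^ 2 / 2)) := fun d hd => by
    have : τ / d < 1 := (div_lt_one (by linarith)).2 (by linarith)
    rw [show (-τ / d : ℂ) = (-(τ / d) : ℝ) by push_cast; ring, norm_Er (by linarith)]
    exact ⟨mul_pos (by linarith) (exp_pos _), Er_le (div_nonneg t0 (by linarith)) this⟩
  refine ge_of_tendsto (h.lim (J := J) (w := -τ) (by simp; linarith)).norm ?_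
  filter_upwards [eventually_ge_atTop (2 * J * m + m)] with N hN
  rw [norm_phN (fun i => (n1 _ (by simp)).1) (by omega), le_div_iff₀ (prod_pos fun i _ => (n1 _ (le_add_of_nonneg_right (Nat.cast_nonneg _))).1)]
  refine le_trans ?_ (one_le_prod fun p _ => (one_le_div (n1 _ (by simp)).1).2 ((n1 _ (by simp)).2.trans ?_))
  · refine (mul_le_mul_of_nonneg_left ((prod_le_prod (fun _ _ => norm_nonneg _) fun i _ =>
      (n1 _ (le_add_of_nonneg_right (Nat.cast_nonneg _))).2).trans (prod_le_prod_of_subset_of_le_one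
      (range_subset_range.2 (show m ≤ N + 1 - 2 * J * m by omega)) (fun _ _ => (exp_pos _).le)
      fun _ _ _ => exp_le_one_iff.2 (neg_nonpos.2 (by positivity)))) (exp_pos _).le).trans ?_
    rw [← exp_sum, ← exp_add, exp_le_one_iff, sum_neg_distrib, add_neg_le_iff_le_add, zero_add]
    conv_lhs => rw [← nsmul_eq_mul]; enter [1]; rw [← card_range m]
    refine card_nsmul_le_sum _ _ _ fun i hi => ?_
    have : (i : ℝ) + 1 ≤ m := by exact_mod_cast mem_range.1 hi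
    have := h.x2; have := h.Dm
    gcongr
    push_cast; linarith
  · have := h.dr0 p
    rw [neg_neg, ← Complex.ofReal_div, norm_Er (le_trans (by norm_num) (div_nonneg t0 this.le))]
    refine le_trans ?_ (Er_ge (by positivity))
    gcongr
    exact h.dr1 p

end Pool.Agent.Lib.MP_30f764_gt.Ml
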