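import Pool.Agent.Lib.MP_30f764_gt.MPhi

set_option autoImplicit false

namespace Pool.Agent.Lib.MP_30f764_gt.Ml

open Polynomial Real Filter Topology Finset MeasureTheory

variable {D x : ℝ} {J m : ℕ}

noncomputable def Pr (D : ℝ) (J m : ℕ) (x : ℝ) : ℝ := (sh (PP D J m)).eval x * Gamma x

lemma Ps_eq (x : ℝ) : Ps D J m x = Pr D J m x := by
  rw [Ps, Pr, Complex.ofReal_mul, Complex.Gamma_ofReal, ← Complex.coe_algebraMap, aeval_algebraMap_apply,
    coe_aeval_eq_eval]

lemma eval_Q (s : ℝ) : (sh (PP D J m)).eval s =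
    ∏ p ∈ II J m, (((aa m p + m : ℕ) : ℝ) + s) * (D + 2 + ((aa m p + m : ℕ) : ℝ) - s) := by
  rw [sh, eval_comp, PP, eval_mul, eval_prod, eval_prod, ← prod_mul_distrib]
  refine prod_congr rfl fun p _ => ?_
  simp; ring

lemma HH.Pr_pos (h : HH D m x) : 0 < Pr D J m x := by
  have := h.x1
  rw [Pr, eval_Q]
  exact mul_pos (prod_pos fun p _ => mul_pos (by positivity) (h.dr0 p)) (Gamma_pos_of_pos (by linarith))

lemma HH.Ps_phi (h : HH D m x) (w : ℂ) :
    Ps D J m (x + w) = Pr D J m x * (phi D J m x w * Complex.exp (w * mm D J m x)) := by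
  have : (Pr D J m x : ℂ) ≠ 0 := by exact_mod_cast (h.Pr_pos (J := J)).ne'
  rw [phi, Ps_eq, mul_assoc, ← Complex.exp_add, neg_add_cancel, Complex.exp_zero]; field_simp

lemma phi_cont (h : 0 < x) : Continuous fun y : ℝ => phi D J m x (y * Complex.I) := by
  have : Continuous fun y : ℝ => Complex.Gamma (x + y * Complex.I) :=
    continuous_iff_continuousAt.2 fun y => ContinuousAt.comp (f := fun y : ℝ => x + y * Complex.I)
      (Complex.differentiableAt_Gamma _ fun k e => by
        have := congrArg Complex.re e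
        simp at this; linarith [(Nat.cast_nonneg k : (0 : ℝ) ≤ k)]).continuousAt (by fun_prop)
  have h2 := (sh (PP D J m)).continuous_aeval (A := ℂ)
  unfold phi Ps
  fun_prop

lemma cau_int (S : ℝ) (hS : 0 < S) : Integrable fun y : ℝ => (1 + (y / S) ^ 2)⁻¹ :=
  integrable_inv_one_add_sq.comp_div hS.ne'

lemma cau_val (S : ℝ) (hS : 0 < S) : ∫ y : ℝ, (1 + (y / S) ^ 2)⁻¹ = S * π := by
  rw [Measure.integral_comp_div (fun y : ℝ => (1 + y ^ 2)⁻¹), integral_univ_inv_one_add_sq,
    abs_of_pos hS, smul_eq_mul]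

section
variable (h : HH D m x) (J1 : 1 ≤ J) (x12 : 12 ≤ x) (m12 : 12 ≤ m)
include h J1 x12 m12

lemma HH.hi3 (y : ℝ) : ‖phi D J m x (y * Complex.I)‖ ≤ ((1 + (y / √(LL J * x)) ^ 2) ^ 3)⁻¹ := by
  rw [div_pow, sq_sqrt (by unfold LL; positivity)]; exact h.hi J1 x12 m12 y

lemma HH.hi1 (y : ℝ) : ‖phi D J m x (y * Complex.I)‖ ≤ (1 + (y / √(LL J * x)) ^ 2)⁻¹ :=
  (h.hi3 J1 x12 m12 y).trans (inv_anti₀ (by positivity)
    (le_self_pow₀ (le_add_of_nonneg_right (sq_nonneg _)) (by norm_num)))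

lemma HH.int : Integrable fun y : ℝ => phi D J m x (y * Complex.I) :=
  (cau_int _ (sqrt_pos.2 (by unfold LL; positivity))).mono' (phi_cont (by linarith)).aestronglyMeasurable
    (Eventually.of_forall (h.hi1 J1 x12 m12))

lemma HH.inv (s : ℝ) : (gg (sh (PP D J m)) (exp s) : ℂ) = (1 / (2 * π) * exp (-(x * s)) * Pr D J m x : ℝ) *
    ∫ y : ℝ, phi D J m x (y * Complex.I) * Complex.exp ((y * (mm D J m x - s) : ℝ) * Complex.I) := by
  have e : ∀ y : ℝ, mellin (fun u => (gg (sh (PP D J m)) u : ℂ)) (x + y * Complex.I) =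
      Ps D J m (x + y * Complex.I) := fun y => (gg_mellin _ _ (by simp; linarith)).2
  rw [← mellinInv_mellin_eq x (fun u => (gg (sh (PP D J m)) u : ℂ)) (exp_pos s)
    (gg_mellin _ _ (by simp; linarith)).1 ?_ (by fun_prop), mellinInv]
  · simp only [e, h.Ps_phi, smul_eq_mul, Complex.real_smul]
    simp only [← integral_const_mul]
    congr 1; funext y
    rw [Complex.cpow_def_of_ne_zero (by simp), ← Complex.ofReal_log (exp_pos s).le, log_exp]
    push_cast
    rw [show (y * (mm D J m x - s) * Complex.I : ℂ) = y * Complex.I * mm D J m x + -(s * y * Complex.I) by ring,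
      show (s * -(x + y * Complex.I) : ℂ) = -(x * s) + -(s * y * Complex.I) by ring, Complex.exp_add,
      Complex.exp_add]
    ring
  · simp only [Complex.VerticalIntegrable, e, h.Ps_phi]
    refine ((h.int J1 x12 m12).mul_bdd (c := 1) (by fun_prop) (Eventually.of_forall fun y => ?_)).const_mul _
    simp [Complex.norm_exp]

lemma HH.abs_le (s : ℝ) : |gg (sh (PP D J m)) (exp s)| ≤ exp (-(x * s)) * Pr D J m x * (√(LL J * x) / 2) := by
  have := h.Pr_pos (J := J)
  have := pi_pos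
  have S0 : 0 < √(LL J * x) := sqrt_pos.2 (by unfold LL; positivity)
  rw [← norm_eq_abs, ← Complex.norm_real, h.inv J1 x12 m12, norm_mul, Complex.norm_real,
    norm_of_nonneg (by positivity)]
  refine (mul_le_mul_of_nonneg_left (norm_integral_le_of_norm_le (cau_int _ S0)
    (Eventually.of_forall fun y => ?_)) (by positivity)).trans (le_of_eq ?_)
  · rw [norm_mul, Complex.norm_exp_ofReal_mul_I, mul_one]; exact h.hi1 J1 x12 m12 y
  · rw [cau_val _ S0]; field_simp

lemma HH.pos (hx : (3 * J + 2) * LL J ^ 2 * 6 ≤ √x) : 0 ≤ gg (sh (PP D J m)) (exp (mm D J m x)) := by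
  have := h.Pr_pos (J := J)
  have := pi_pos
  have L0 : 0 < LL J * x := by unfold LL; positivity
  have S0 : 0 < √(LL J * x) := sqrt_pos.2 L0
  have e := congrArg Complex.re (h.inv J1 x12 m12 (mm D J m x))
  simp only [sub_self, mul_zero, Complex.ofReal_zero, zero_mul, Complex.exp_zero, mul_one,
    Complex.re_ofReal_mul, Complex.ofReal_re] at e
  rw [e]
  refine mul_nonneg (by positivity) ?_
  rw [← RCLike.re_to_complex, ← integral_re (h.int J1 x12 m12)]
  have i1 : Integrable ((Set.Icc (-√x) √x).indicator fun _ => exp (-1)) :=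
    (integrable_indicator_iff measurableSet_Icc).2 (integrableOn_const measure_Icc_lt_top.ne)
  have i2 := (cau_int _ S0).const_mul ((3 * J + 2) / x ^ 2 * √(LL J * x) ^ 3)
  refine le_trans ?_ (integral_mono (i1.sub i2) (h.int J1 x12 m12).re fun y => ?_)
  · simp only [Pi.sub_apply]
    rw [integral_sub i1 i2, integral_const_mul, cau_val _ S0, integral_indicator_const _ measurableSet_Icc,
      volume_real_Icc_of_le (by simp), smul_eq_mul, sub_nonneg,
      show (3 * J + 2) / x ^ 2 * √(LL J * x) ^ 3 * (√(LL J * x) * π) =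
        (3 * J + 2) / x ^ 2 * (√(LL J * x) ^ 2) ^ 2 * π by ring, sq_sqrt L0.le,
      show (3 * J + 2) / x ^ 2 * (LL J * x) ^ 2 = (3 * J + 2) * LL J ^ 2 by field_simp]
    have a1 : 1 / 3 ≤ exp (-1) := by
      rw [exp_neg, one_div]; exact inv_anti₀ (exp_pos _) (by linarith [exp_one_lt_d9])
    have a2 : 0 ≤ (3 * J + 2) * LL J ^ 2 := by positivity
    nlinarith [pi_le_four, sqrt_nonneg x]
  · refine le_trans ?_ (h.re y)
    rw [mul_sub, mul_one]
    refine sub_le_sub (Set.indicator_apply_le' (fun hy => le_trans (exp_le_exp.2 ?_) (h.lo y))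
      fun _ => norm_nonneg _) ((mul_le_mul_of_nonneg_right (h.hi3 J1 x12 m12 y) (by positivity)).trans ?_)
    · rw [neg_le_neg_iff, div_le_one (by linarith), ← sq_sqrt (show 0 ≤ x by linarith)]
      exact sq_le_sq' hy.1 hy.2
    · generalize √(LL J * x) = S at S0
      have a1 : |y| ^ 3 ≤ S ^ 3 * (1 + (y / S) ^ 2) ^ 2 := by
        rw [← sq_abs (y / S), abs_div, abs_of_pos S0, show |y| ^ 3 = S ^ 3 * (|y| / S) ^ 3 by field_simp]
        have : 0 ≤ |y| / S := by positivity
        generalize |y| / S = r at this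
        gcongr
        nlinarith [sq_nonneg (r ^ 2 - r), sq_nonneg r]
      calc _ ≤ ((1 + (y / S) ^ 2) ^ 3)⁻¹ * ((3 * J + 2) * (S ^ 3 * (1 + (y / S) ^ 2) ^ 2) / x ^ 2) := by gcongr
        _ = _ := by field_simp

end

lemma two_exp {f a s q g b t r : ℝ} (h : |f| ≤ exp s ∧ |f - exp a| ≤ q * exp s ∧ a ≤ s)
    (k : |g| ≤ exp t ∧ |g - exp b| ≤ r * exp t ∧ b ≤ t) : |f * g - exp (a + b)| ≤ (q + r) * exp (s + t) := by
  rw [exp_add, exp_add, show f * g - exp a * exp b = f * (g - exp b) + (f - exp a) * exp b by ring]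
  refine (abs_add_le _ _).trans ?_
  rw [abs_mul, abs_mul, abs_exp]
  linarith [mul_le_mul h.1 k.2.1 (abs_nonneg _) (exp_pos _).le,
    mul_le_mul h.2.1 (exp_le_exp.2 k.2.2) (exp_pos _).le ((abs_nonneg _).trans h.2.1)]

lemma prod_exp {ι : Type} (S : Finset ι) {f a s q : ι → ℝ} (h : ∀ i ∈ S, |f i| ≤ exp (s i) ∧
    |f i - exp (a i)| ≤ q i * exp (s i) ∧ a i ≤ s i) :
    |∏ i ∈ S, f i - exp (∑ i ∈ S, a i)| ≤ (∑ i ∈ S, q i) * exp (∑ i ∈ S, s i) := by
  classical
  induction S using Finset.induction_on with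
  | empty => simp
  | insert i S hi ih =>
    have g := ih fun j hj => h j (mem_insert_of_mem hj)
    obtain ⟨h1, h2, -⟩ := h i (by simp)
    have h3 := exp_le_exp.2 (sum_le_sum fun j hj => (h j (mem_insert_of_mem hj)).2.2)
    simp only [prod_insert hi, sum_insert hi, exp_add]
    rw [show f i * ∏ i ∈ S, f i - exp (a i) * exp (∑ i ∈ S, a i) = f i * (∏ i ∈ S, f i - exp (∑ i ∈ S, a i)) +
      (f i - exp (a i)) * exp (∑ i ∈ S, a i) by ring]
    refine (abs_add_le _ _).trans ?_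
    rw [abs_mul, abs_mul, abs_exp]
    linarith [mul_le_mul h1 g (abs_nonneg _) (exp_pos _).le,
      mul_le_mul h2 h3 (exp_pos _).le ((abs_nonneg _).trans h2)]

lemma one_add_exp {a r : ℝ} (h : |a| ≤ r) : |1 + a| ≤ exp r ∧ |1 + a - exp a| ≤ r ^ 2 * exp r ∧ a ≤ r := by
  refine ⟨(abs_add_le _ _).trans (by rw [abs_one]; linarith [add_one_le_exp r]), ?_, (le_abs_self a).trans h⟩
  have := Complex.norm_exp_sub_sum_le_norm_mul_exp a 2
  rw [show Complex.exp a - ∑ m ∈ range 2, (a : ℂ) ^ m / m.factorial = (exp a - (1 + a) : ℝ) by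
    simp [sum_range_succ], Complex.norm_real, Complex.norm_real, norm_eq_abs, norm_eq_abs, abs_sub_comm] at this
  exact this.trans (by gcongr)

lemma small (D0 : 0 ≤ D) (m1 : 1 ≤ m) {v V : ℝ} (v0 : 0 ≤ v) (v1 : v ≤ V)
    (hm : 2 * J * exp (V * exp (2 * J + 2) + V) ≤ m) : 0 ≤ gg (sh (PP D J m)) v := by
  have m2 : (1 : ℝ) ≤ m := by exact_mod_cast m1
  have z0 : ∀ p, (m : ℝ) ≤ (aa m p + m : ℕ) := fun p => by exact_mod_cast Nat.le_add_left _ _
  set κ := ∑ p ∈ II J m, (-(1 / ((aa m p + m : ℕ) : ℝ)) + 1 / (D + 2 + (aa m p + m : ℕ))) with hκ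
  have κ0 : κ ≤ 0 := sum_nonpos fun p _ => by
    have := one_div_le_one_div_of_le (lt_of_lt_of_le (by linarith) (z0 p))
      (show ((aa m p + m : ℕ) : ℝ) ≤ D + 2 + (aa m p + m : ℕ) by linarith)
    linarith
  set Q0 := (sh (PP D J m)).eval 0 with hQ
  have q0 : 0 < Q0 := by
    rw [hQ, eval_Q]; exact prod_pos fun p _ => mul_pos (by linarith [z0 p]) (by linarith [z0 p])
  have key : ∀ k : ℕ, |(sh (PP D J m)).eval (-(k : ℝ)) / Q0 - exp κ ^ k| ≤ 2 * J / m * exp (2 * J + 2) ^ k := by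
    intro k
    have := prod_exp (II J m) (f := fun p => (1 + -(k / ((aa m p + m : ℕ) : ℝ))) *
      (1 + k / (D + 2 + (aa m p + m : ℕ)))) (s := fun _ => k / m + k / m) (q := fun _ => (k / m) ^ 2 + (k / m) ^ 2)
      (a := fun p => -(k / ((aa m p + m : ℕ) : ℝ)) + k / (D + 2 + (aa m p + m : ℕ))) fun p _ => by
        have z1 := z0 p
        have b1 := one_add_exp (a := -(k / ((aa m p + m : ℕ) : ℝ))) (r := k / m) (by
          rw [abs_neg, abs_of_nonneg (by positivity)]; gcongr)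
        have b2 := one_add_exp (a := k / (D + 2 + (aa m p + m : ℕ))) (r := k / m) (by
          rw [abs_of_nonneg (by positivity)]; gcongr; linarith)
        refine ⟨by rw [abs_mul, exp_add]; gcongr; exacts [b1.1, b2.1], ?_, add_le_add b1.2.2 b2.2.2⟩
        exact two_exp b1 b2
    rw [hQ, eval_Q, eval_Q, ← prod_div_distrib, ← exp_nat_mul, hκ, mul_sum]
    refine le_trans (le_of_eq ?_) (this.trans ?_)
    · congr 2
      · refine prod_congr rfl fun p _ => ?_
        have := z0 p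
        generalize ((aa m p + m : ℕ) : ℝ) = z at *
        have : z ≠ 0 := by linarith
        have : D + 2 + z ≠ 0 := by linarith
        simp only [add_zero, sub_zero]; field_simp; ring
      · exact congrArg _ (sum_congr rfl fun p _ => by ring)
    · simp only [sum_const, card_II, nsmul_eq_mul, Nat.cast_mul]
      rw [← exp_nat_mul, show (J : ℝ) * m * (k / m + k / m) = k * (2 * J) by field_simp; ring,
        show (J : ℝ) * m * ((k / m) ^ 2 + (k / m) ^ 2) = 2 * J / m * k ^ 2 by field_simp; ring, mul_add,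
        exp_add, mul_assoc, mul_comm ((k : ℝ) ^ 2), mul_comm (k : ℝ) 2, ← Nat.cast_ofNat, exp_nat_mul _ 2]
      gcongr
      linarith [add_one_le_exp (k : ℝ)]
  have s1 := (gg_taylor (sh (PP D J m)) v).div_const Q0
  have s2 := NormedSpace.expSeries_div_hasSum_exp (-(v * exp κ))
  have s3 := (NormedSpace.expSeries_div_hasSum_exp (v * exp (2 * J + 2))).mul_left (2 * J / m : ℝ)
  rw [← Real.exp_eq_exp_ℝ] at s2 s3
  have := hasSum_le (fun k => by
    have := mul_le_mul_of_nonneg_left (abs_le.1 (key k)).1 (show 0 ≤ v ^ k / k.factorial by positivity)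
    have := mul_le_mul_of_nonneg_left (abs_le.1 (key k)).2 (show 0 ≤ v ^ k / k.factorial by positivity)
    rcases Nat.even_or_odd k with e | e <;> simp only [e.neg_pow, mul_pow] <;> ring_nf at * <;> linarith)
    (s2.sub s3) s1
  refine le_of_mul_le_mul_right ?_ (inv_pos.2 q0)
  rw [zero_mul, ← div_eq_mul_inv]
  refine le_trans (sub_nonneg.2 ?_) this
  rw [div_mul_eq_mul_div, div_le_iff₀ (by linarith)]
  refine le_trans ?_ (mul_le_mul_of_nonneg_left hm (exp_pos _).le)
  rw [mul_left_comm, ← exp_add]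
  gcongr
  nlinarith [exp_le_one_iff.2 κ0, exp_pos (2 * (J : ℝ) + 2)]

end Pool.Agent.Lib.MP_30f764_gt.Ml
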