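import Pool.Agent.Lib.MP_30f764_gt.MPos

set_option autoImplicit false

namespace Pool.Agent.Lib.MP_30f764_gt.Ml

open Polynomial Real Filter Topology Finset MeasureTheory

variable {D x : ℝ} {J m : ℕ}

lemma gg_total (hx : 0 < x) (a : ℝ) :
    ∫ t, exp (-(x * t)) * gg (sh (PP D J m)) (exp a * exp (-1 * t)) = exp (-(x * a)) * Pr D J m x := by
  have h := (gg_mellin (sh (PP D J m)) x (by simpa)).2
  rw [mellin_eq_fourier, fourier_real_eq, ← Ps, Ps_eq] at h
  simp only [Complex.ofReal_im, zero_div, mul_zero, neg_zero, AddChar.map_zero_eq_one, one_smul,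
    Complex.ofReal_re, Complex.real_smul, ← Complex.ofReal_mul, integral_complex_ofReal,
    Complex.ofReal_inj] at h
  rw [← h, ← integral_const_mul, ← integral_add_right_eq_self _ a]
  congr 1; funext t
  rw [← mul_assoc, ← exp_add, ← exp_add]
  congr 3 <;> ring

lemma mm_cont {y : ℝ} (h : HH D m y) (x1 : 1 ≤ x) : ContinuousOn (mm D J m) (Set.Icc x y) := by
  refine ((psi_cont.mono fun z hz => x1.trans hz.1).add (continuousOn_finsetSum _ fun p _ =>
    continuousOn_const.div (by fun_prop) fun z hz => ?_)).sub (continuousOn_finsetSum _ fun p _ =>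
    continuousOn_const.div (by unfold dr; fun_prop) fun z hz => ?_)
  · have := x1.trans hz.1; positivity
  · exact (HH.dr0 ⟨x1.trans hz.1, by linarith [hz.2, h.x2], h.D0, h.Dm⟩ p).ne'

lemma HH.mm_le (h : HH D m x) (m1 : 1 ≤ m) : mm D J m x ≤ log x + J := by
  have m2 : (0 : ℝ) < m := by exact_mod_cast m1
  have x1 := h.x1
  have a1 : ∑ p ∈ II J m, 1 / (x + (aa m p + m : ℕ)) ≤ J := by
    refine (sum_le_card_nsmul _ _ (1 / m : ℝ) fun p _ => one_div_le_one_div_of_le m2 ?_).trans (le_of_eq ?_)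
    · push_cast; linarith [(Nat.cast_nonneg (aa m p) : (0 : ℝ) ≤ _)]
    · rw [card_II, nsmul_eq_mul]; push_cast; field_simp
  have a2 : 0 ≤ ∑ p ∈ II J m, 1 / dr D m x p := sum_nonneg fun p _ => (one_div_pos.2 (h.dr0 p)).le
  unfold mm; linarith [psi_le x1]

theorem pos_main {T τ y : ℝ} (h : HH D m (T + 1 + τ)) (J1 : 1 ≤ J) (m12 : 12 ≤ m) (τ0 : 0 < τ) (y12 : 12 ≤ y)
    (hy : (3 * J + 2) * LL J ^ 2 * 6 ≤ √y) (yT : y ≤ T)
    (hm : 2 * J * exp (y * exp J * exp (2 * J + 2) + y * exp J) ≤ m)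
    (hS : √(LL J * (T + 1 + τ)) / 2 / τ ≤ exp (m * ((τ / ((2 * J + 3) * m)) ^ 2 / 2))) : Pos (PP D J m) T := by
  have hh : ∀ z ∈ Set.Icc y (T + 1 + τ), HH D m z := fun z hz =>
    ⟨by linarith [hz.1], by linarith [hz.2, h.x2], h.D0, h.Dm⟩
  have g0 : ∀ v, 0 < v → v ≤ exp (mm D J m (T + 1 + τ)) → 0 ≤ gg (sh (PP D J m)) v := fun v v0 v1 => by
    by_cases c : log v ≤ mm D J m y
    · refine small h.D0 (by omega) v0.le ?_ hm
      have := c.trans ((hh y ⟨le_rfl, by linarith⟩).mm_le (by omega))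
      rwa [log_le_iff_le_exp v0, exp_add, exp_log (by linarith)] at this
    · obtain ⟨z, z1, z2⟩ := intermediate_value_Icc (by linarith) (mm_cont (J := J) (x := y) h (by linarith))
        ⟨(not_le.1 c).le, (log_le_iff_le_exp v0).2 v1⟩
      rw [← exp_log v0, ← z2]
      exact (hh z z1).pos J1 (by linarith [z1.1]) m12 (hy.trans (sqrt_le_sqrt z1.1))
  intro u u0
  simp only [gg_X]
  by_cases c : u ≤ exp (mm D J m (T + 1 + τ))
  · refine setIntegral_nonneg measurableSet_Ioi fun t ht => mul_nonneg (exp_pos _).le (mul_nonneg (by positivity)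
      (g0 _ (by positivity) (le_trans (mul_le_of_le_one_right u0.le (exp_le_one_iff.2 ?_)) c)))
    linarith [Set.mem_Ioi.1 ht]
  obtain ⟨a, rfl⟩ : ∃ a, u = exp a := ⟨_, (exp_log u0).symm⟩
  have c := exp_lt_exp.1 (not_le.1 c)
  have e : ∀ t, exp (-(T * t)) * (exp a * exp (-1 * t) * gg (sh (PP D J m)) (exp a * exp (-1 * t))) =
      exp a * (exp (-((T + 1) * t)) * gg (sh (PP D J m)) (exp a * exp (-1 * t))) := fun t => by
    rw [show -((T + 1) * t) = -(T * t) + -1 * t by ring, exp_add]; ring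
  simp only [e, integral_const_mul]
  refine mul_nonneg u0.le ?_
  set A := exp (-((T + 1 + τ) * a)) * Pr D J m (T + 1 + τ) * (√(LL J * (T + 1 + τ)) / 2) with hA
  have b : ∀ t, ‖exp (-((T + 1) * t)) * gg (sh (PP D J m)) (exp a * exp (-1 * t))‖ ≤ A * exp (τ * t) := fun t => by
    rw [norm_mul, norm_eq_abs, abs_exp, ← exp_add]
    refine (mul_le_mul_of_nonneg_left (h.abs_le J1 (by linarith) m12 _) (exp_pos _).le).trans (le_of_eq ?_)
    rw [hA, ← mul_assoc, ← mul_assoc, ← exp_add, show -((T + 1) * t) + -((T + 1 + τ) * (a + -1 * t)) =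
      -((T + 1 + τ) * a) + τ * t by ring, exp_add]
    ring
  have i1 := (integrableOn_exp_mul_Iic τ0 0).const_mul A
  have i2 := i1.mono' (g := fun t => A * exp (τ * t)) (by fun_prop) (Eventually.of_forall b)
  have i3 := setIntegral_union (Set.Iic_disjoint_Ioi le_rfl) measurableSet_Ioi i2
    (conv_int (sh (PP D J m)) (z := T + 1) (by linarith) u0.le (-1))
  rw [Set.Iic_union_Ioi, setIntegral_univ, gg_total (by linarith)] at i3
  have i4 := (le_abs_self _).trans (norm_integral_le_of_norm_le i1 (Eventually.of_forall b))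
  rw [integral_const_mul, integral_exp_mul_Iic τ0, mul_zero, exp_zero] at i4
  have p0 := h.Pr_pos (J := J)
  have p1 := (hh (T + 1) ⟨by linarith, by linarith⟩).Pr_pos (J := J)
  have i5 := congrArg norm (h.Ps_phi (J := J) (-τ))
  rw [show ((T + 1 + τ : ℝ) : ℂ) + -τ = (T + 1 : ℝ) by push_cast; ring, Ps_eq, norm_mul, norm_mul,
    Complex.norm_real, Complex.norm_real, norm_of_nonneg p0.le, norm_of_nonneg p1.le, Complex.norm_exp,
    ← Complex.ofReal_neg, ← Complex.ofReal_mul, Complex.ofReal_re, Complex.ofReal_neg] at i5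
  have i6 := hS.trans (h.gap (J := J) (by omega) τ0.le (by linarith))
  have : A * (1 / τ) ≤ exp (-((T + 1) * a)) * Pr D J m (T + 1) := by
    rw [i5, hA, mul_assoc, mul_assoc, mul_one_div, mul_left_comm, mul_left_comm (exp _), mul_left_comm (exp _),
      ← exp_add, mul_comm (exp _)]
    gcongr
    nlinarith
  linarith

end Pool.Agent.Lib.MP_30f764_gt.Ml
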