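import Pool.Agent.Lib.MP_30f764_gt.MCut

set_option autoImplicit false

namespace Pool.Agent.Lib.MP_30f764_gt.Ml

open Real Filter Topology Finset

noncomputable def psi (x : ℝ) : ℝ := log x + ∑' i : ℕ, (log (1 + 1 / (x + i)) - 1 / (x + i))

lemma log_sub_le {t : ℝ} (h : 0 ≤ t) : |log (1 + t) - t| ≤ t ^ 2 := by
  have h1 := log_le_sub_one_of_pos (show 0 < 1 + t by linarith)
  have h2 := one_sub_inv_le_log_of_pos (show 0 < 1 + t by linarith)
  have h3 : (1 + t)⁻¹ ≤ 1 - t + t ^ 2 := by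
    rw [inv_le_iff_one_le_mul₀ (by linarith)]; nlinarith [pow_nonneg h 3]
  rw [abs_le]; constructor <;> nlinarith

lemma psi_bd {x : ℝ} (hx : 1 ≤ x) (i : ℕ) :
    ‖log (1 + 1 / (x + i)) - 1 / (x + i)‖ ≤ 1 / ((i + 1 : ℕ) : ℝ) ^ 2 := by
  refine (log_sub_le (by positivity)).trans ?_
  rw [one_div_pow]; push_cast; rw [add_comm x]; gcongr

lemma sq_sum : Summable fun i : ℕ => 1 / ((i + 1 : ℕ) : ℝ) ^ 2 :=
  (summable_nat_add_iff 1).2 (summable_one_div_nat_pow.2 one_lt_two)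

lemma psi_cont : ContinuousOn psi (Set.Ici 1) := by
  refine (continuousOn_log.mono fun x (hx : 1 ≤ x) => by simp; linarith).add
    (continuousOn_tsum (fun i => ?_) sq_sum fun i x hx => psi_bd hx i)
  have h : ContinuousOn (fun x : ℝ => 1 / (x + i)) (Set.Ici 1) :=
    continuousOn_const.div (by fun_prop) fun x (hx : 1 ≤ x) => by positivity
  exact ((h.const_add 1).log fun x (hx : 1 ≤ x) => by positivity).sub h

lemma psi_le {x : ℝ} (hx : 1 ≤ x) : psi x ≤ log x :=
  add_le_of_nonpos_right (tsum_nonpos fun i => by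
    linarith [log_le_sub_one_of_pos (show 0 < 1 + 1 / (x + i) by positivity)])

lemma psi_lim {x : ℝ} (hx : 1 ≤ x) :
    Tendsto (fun N : ℕ => log N - ∑ i ∈ range (N + 1), 1 / (x + i)) atTop (𝓝 (psi x)) := by
  have h1 := (((Summable.of_norm_bounded sq_sum (psi_bd hx)).hasSum.tendsto_sum_nat).comp
    (tendsto_add_atTop_nat 1)).const_add (log x)
  have h2 : Tendsto (fun N : ℕ => log (N + (x + 1)) - log N) atTop (𝓝 0) :=
    (tendsto_log_comp_add_sub_log (x + 1)).comp tendsto_natCast_atTop_atTop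
  have h3 : ∀ N : ℕ, log x + ∑ i ∈ range N, log (1 + 1 / (x + i)) = log (x + N) := fun N => by
    induction N with
    | zero => simp
    | succ N ih =>
      rw [sum_range_succ, ← add_assoc, ih, ← log_mul (by positivity) (by positivity)]
      congr 1; push_cast; field_simp; ring
  have := h1.sub h2
  rw [sub_zero] at this
  refine this.congr fun N => ?_
  have := h3 (N + 1)
  simp only [Function.comp, sum_sub_distrib]
  rw [show (N : ℝ) + (x + 1) = x + (N + 1 : ℕ) by push_cast; ring]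
  linarith

noncomputable def Ef (t : ℂ) : ℂ := (1 + t) * Complex.exp (-t)

lemma prod_Ef {ι : Type} (S : Finset ι) (d : ι → ℂ) (hd : ∀ i ∈ S, d i ≠ 0) (w : ℂ) :
    ∏ i ∈ S, Ef (w / d i) = (∏ i ∈ S, (d i + w)) / (∏ i ∈ S, d i) * Complex.exp (-(w * ∑ i ∈ S, 1 / d i)) := by
  simp only [Ef, prod_mul_distrib, ← Complex.exp_sum, ← prod_div_distrib, mul_sum, sum_neg_distrib,
    mul_one_div]
  congr 1
  exact prod_congr rfl fun i hi => by field_simp [hd i hi]

lemma gamma_lim {x : ℝ} (hx : 1 ≤ x) {w : ℂ} (hw : 0 < x + w.re) :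
    Tendsto (fun N : ℕ => (∏ i ∈ range (N + 1), Ef (w / ((x + i : ℝ) : ℂ)))⁻¹) atTop
      (𝓝 (Complex.Gamma (x + w) / Complex.Gamma x * Complex.exp (-(w * psi x)))) := by
  have := ((Complex.GammaSeq_tendsto_Gamma (x + w)).div (Complex.GammaSeq_tendsto_Gamma x)
    (Complex.Gamma_ne_zero_of_re_pos (by simp; linarith))).mul
    (((Complex.continuous_ofReal.tendsto _).comp (psi_lim hx)).const_mul w).neg.cexp
  refine this.congr' ?_
  filter_upwards [eventually_ge_atTop 1] with N hN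
  have N0 : (N : ℂ) ≠ 0 := by exact_mod_cast (by omega : N ≠ 0)
  have a1 : ∏ j ∈ range (N + 1), ((x : ℂ) + j) ≠ 0 := prod_ne_zero_iff.2 fun j _ => by
    exact_mod_cast (by positivity : x + j ≠ 0)
  have a2 : ∏ j ∈ range (N + 1), ((x : ℂ) + w + j) ≠ 0 := prod_ne_zero_iff.2 fun j _ h => by
    have := congrArg Complex.re h
    simp at this; linarith [(Nat.cast_nonneg j : (0 : ℝ) ≤ j)]
  have a3 : (N.factorial : ℂ) ≠ 0 := by exact_mod_cast N.factorial_ne_zero
  have a4 : (N : ℂ) ^ (x : ℂ) ≠ 0 := Complex.cpow_ne_zero_iff.2 (Or.inl N0)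
  rw [prod_Ef _ _ fun i _ => by exact_mod_cast (by positivity : x + i ≠ 0)]
  simp only [Pi.div_apply, Complex.GammaSeq, Function.comp, Complex.cpow_add _ _ N0]
  push_cast
  simp only [add_right_comm (x : ℂ) _ w]
  rw [Complex.cpow_def_of_ne_zero N0 w, mul_sub, neg_sub, Complex.exp_sub, Complex.exp_neg,
    mul_comm (Complex.log N)]
  field_simp

def Pol (z : ℂ) (β : ℝ) : Prop := ∃ B : ℝ, |B| ≤ β ∧ z = ‖z‖ * Complex.exp (B * Complex.I)

lemma Pol.mul {z w : ℂ} {a b : ℝ} (h : Pol z a) (g : Pol w b) : Pol (z * w) (a + b) := by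
  obtain ⟨A, a1, a2⟩ := h
  obtain ⟨B, b1, b2⟩ := g
  refine ⟨A + B, (abs_add_le _ _).trans (add_le_add a1 b1), ?_⟩
  rw [norm_mul]; push_cast
  rw [add_mul, Complex.exp_add, mul_mul_mul_comm, ← a2, ← b2]

lemma Pol.inv {z : ℂ} {a : ℝ} (h : Pol z a) : Pol z⁻¹ a := by
  obtain ⟨A, a1, a2⟩ := h
  refine ⟨-A, by rwa [abs_neg], ?_⟩
  rw [norm_inv]; push_cast
  rw [neg_mul, Complex.exp_neg, ← mul_inv, ← a2]

lemma Pol.prod {ι : Type} (S : Finset ι) {z : ι → ℂ} {a : ι → ℝ} (h : ∀ i, Pol (z i) (a i)) :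
    Pol (∏ i ∈ S, z i) (∑ i ∈ S, a i) := by
  classical
  induction S using Finset.induction_on with
  | empty => exact ⟨0, by simp⟩
  | insert i S hi ih => rw [prod_insert hi, sum_insert hi]; exact (h i).mul ih

lemma Pol.re {z : ℂ} {a : ℝ} (h : Pol z a) : ‖z‖ * (1 - a) ≤ z.re := by
  obtain ⟨A, a1, a2⟩ := h
  conv_rhs => rw [a2, Complex.re_ofReal_mul, Complex.exp_ofReal_mul_I_re]
  refine mul_le_mul_of_nonneg_left ?_ (norm_nonneg _)
  by_cases g : |A| ≤ 2
  · nlinarith [one_sub_sq_div_two_le_cos (x := A), sq_abs A, abs_nonneg A]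
  · linarith [neg_one_le_cos A]

lemma norm_Ef (t : ℝ) : ‖Ef (t * Complex.I)‖ = √(1 + t ^ 2) := by
  rw [Ef, norm_mul, Complex.norm_exp, Complex.norm_eq_sqrt_sq_add_sq]; simp

lemma pol_Ef (t : ℝ) : Pol (Ef (t * Complex.I)) (|t| ^ 3) := by
  refine ⟨arctan t - t, ?_, ?_⟩
  · have := (convex_Icc (-|t|) |t|).norm_image_sub_le_of_norm_hasDerivWithin_le (C := t ^ 2)
      (f := fun s => arctan s - s) (fun s _ => ((hasDerivAt_arctan s).sub (hasDerivAt_id s)).hasDerivWithinAt)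
      (fun s hs => by
        have : s ^ 2 ≤ t ^ 2 := sq_le_sq.2 (abs_le.2 hs)
        rw [show 1 / (1 + s ^ 2) - 1 = -(s ^ 2 / (1 + s ^ 2)) by field_simp; ring, norm_neg,
          norm_of_nonneg (by positivity)]
        exact (div_le_self (by positivity) (by nlinarith)).trans this)
      (x := 0) (y := t) (by simp) (abs_le.1 le_rfl)
    simpa [pow_succ] using this
  · have s0 : √(1 + t ^ 2) ≠ 0 := by positivity
    rw [norm_Ef, Ef]; push_cast
    rw [sub_mul, sub_eq_add_neg, Complex.exp_add, ← mul_assoc, ← Complex.ofReal_arctan,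
      Complex.exp_mul_I, ← Complex.ofReal_cos, ← Complex.ofReal_sin, cos_arctan, sin_arctan]
    congr 1
    have : ((√(1 + t ^ 2) : ℝ) : ℂ) ≠ 0 := by exact_mod_cast s0
    push_cast; field_simp

lemma sum_sq_le {x : ℝ} (hx : 1 ≤ x) (N : ℕ) : ∑ i ∈ range N, 1 / (x + i) ^ 2 ≤ 2 / x := by
  have : ∑ i ∈ range N, 1 / (x + i) ^ 2 ≤ 1 / (x - 1 / 2) - 1 / (x - 1 / 2 + N) := by
    induction N with
    | zero => simp
    | succ N ih =>
      have N0 : (0 : ℝ) ≤ N := Nat.cast_nonneg N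
      have : 1 / (x + N) ^ 2 ≤ 1 / (x - 1 / 2 + N) - 1 / (x - 1 / 2 + (N + 1)) := by
        rw [div_sub_div _ _ (by linarith) (by linarith), div_le_div_iff₀ (by positivity)
          (mul_pos (by linarith) (by linarith))]
        nlinarith
      rw [sum_range_succ]; push_cast; linarith
  have h1 : 0 ≤ 1 / (x - 1 / 2 + N) := by
    have N0 : (0 : ℝ) ≤ N := Nat.cast_nonneg N
    exact div_nonneg zero_le_one (by linarith)
  have h2 : 1 / (x - 1 / 2) ≤ 2 / x := by rw [div_le_div_iff₀ (by linarith) (by linarith)]; linarith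
  linarith

def II (J m : ℕ) : Finset (ℕ × ℕ) := range J ×ˢ range m
def aa (m : ℕ) (p : ℕ × ℕ) : ℕ := 2 * p.1 * m + p.2

lemma prod_split (F : ℕ → ℝ) (J m : ℕ) : ∏ i ∈ range (2 * J * m), F i =
    (∏ p ∈ II J m, F (aa m p)) * ∏ p ∈ II J m, F (aa m p + m) := by
  simp only [II, prod_product, aa]
  induction J with
  | zero => simp
  | succ J ih =>
    rw [show 2 * (J + 1) * m = 2 * J * m + m + m by ring, prod_range_add, prod_range_add, ih,
      prod_range_succ, prod_range_succ]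
    simp only [add_right_comm _ m]; ring

end Pool.Agent.Lib.MP_30f764_gt.Ml
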