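import Pool.Agent.Lib.MP_30f764_gt.Lower
import Pool.Agent.Lib.MP_30f764_gt.Upper

namespace Pool.Agent.Lib.MP_30f764_gt
open Filter Topology Metric

theorem main (K : Set (ℝ × ℝ)) (hK : IsCompact K)
    (hsub : K ⊆ Set.Ioc (0 : ℝ) 4.898 ×ˢ Set.Ioi (0 : ℝ)) :
    TendstoUniformlyOn
      (fun (n : ℕ) (p : ℝ × ℝ) =>
        (p.1 / Real.pi) ^ ((n : ℝ) / 2) * (minEnergy n p.1 p.2).toReal)
      (fun p => p.2) atTop K := by
  obtain ⟨R, hR⟩ := (hK.image continuous_snd).bddAbove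
  rw [Metric.tendstoUniformlyOn_iff]
  intro ε hε
  have hR0 : 0 < 4 * |R| + 2 := by positivity
  set η : ℝ := min 1 (ε / (4 * |R| + 2)) with hη
  have hη0 : 0 < η := lt_min one_pos (by positivity)
  have hη1 : η ≤ 1 := min_le_left _ _
  have hη2 : η * (4 * |R| + 2) ≤ ε := (le_div_iff₀ hR0).1 (min_le_right _ _)
  filter_upwards [lower_main hη0 hη1, eventually_ge_atTop 1] with n hl hn p hp
  obtain ⟨⟨hα, hα1⟩, hρ⟩ := hsub hp
  have hρ : 0 < p.2 := hρ
  have hρR : p.2 ≤ |R| := (hR ⟨p, hp, rfl⟩).trans (le_abs_self R)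
  have hu := minEnergy_le hn hα hρ
  have hpi := Real.pi_pos
  have hfin : minEnergy n p.1 p.2 ≠ ⊤ := ne_top_of_le_ne_top ENNReal.ofReal_ne_top hu
  have h1 := ENNReal.toReal_le_of_le_ofReal (by positivity) hu
  have h2 := (ENNReal.ofReal_le_iff_le_toReal hfin).1 (hl p.1 p.2 hα hα1 hρ)
  have h3 : (p.1 / Real.pi) ^ ((n : ℝ) / 2) * (Real.pi / p.1) ^ ((n : ℝ) / 2) = 1 := by
    rw [← Real.mul_rpow (by positivity) (by positivity), div_mul_div_cancel₀ hpi.ne',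
      div_self hα.ne', Real.one_rpow]
  have h4 : 0 ≤ (p.1 / Real.pi) ^ ((n : ℝ) / 2) := by positivity
  have h5 := mul_le_mul_of_nonneg_left h1 h4
  have h6 := mul_le_mul_of_nonneg_left h2 h4
  rw [mul_left_comm, h3, mul_one] at h5 h6
  have h7 : 1 - 4 * η ≤ (1 - η) ^ 4 := by
    have := one_add_mul_le_pow (a := -η) (by linarith) 4
    push_cast at this
    rw [← sub_eq_add_neg] at this
    linarith
  have h8 := mul_le_mul_of_nonneg_left h7 hρ.le
  have h9 := mul_le_mul_of_nonneg_left hρR hη0.le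
  rw [Real.dist_eq, abs_lt]
  constructor <;> nlinarith

end Pool.Agent.Lib.MP_30f764_gt
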