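import Pool.Agent.Lib.MP_30f764_gt.Avg

/-! Gaussian moments, shells and the negative binomial series. -/

namespace Pool.Agent.Lib.MP_30f764_gt
open Finset Filter Topology Metric MeasureTheory

variable {n : ℕ}

noncomputable def pr (a : ℝ) (i : ℕ) : ℝ := ∏ l ∈ range i, (a + 2 * l)

lemma pr_pos {a : ℝ} (ha : 0 < a) (i : ℕ) : 0 < pr a i :=
  Finset.prod_pos fun l _ => by positivity

lemma pr_succ (a : ℝ) (i : ℕ) : pr a (i + 1) = pr a i * (a + 2 * i) := Finset.prod_range_succ _ _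

lemma pr_shift (a : ℝ) (i : ℕ) : pr a i * (a + 2 * i) = a * pr (a + 2) i := by
  rw [← pr_succ, pr, Finset.prod_range_succ', pr, mul_comm]
  congr 1
  · simp
  · exact Finset.prod_congr rfl fun l _ => by push_cast; ring

noncomputable def nb (a y : ℝ) (i : ℕ) : ℝ := y ^ i * pr a i / (2 ^ i * (i.factorial : ℝ))

lemma nb_nonneg {a y : ℝ} (ha : 0 < a) (hy : 0 ≤ y) (i : ℕ) : 0 ≤ nb a y i := by
  have := pr_pos ha i
  unfold nb; positivity

lemma nb_hasSum (a : ℝ) {y : ℝ} (h0 : 0 ≤ y) (h1 : y < 1) :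
    HasSum (nb a y) (1 / (1 - y) ^ (a / 2)) := by
  have h := (Real.one_div_one_sub_rpow_hasFPowerSeriesOnBall_zero (a / 2)).hasSum (y := y)
    (by simpa [enorm_eq_nnnorm, ← NNReal.coe_lt_coe, abs_of_nonneg h0] using h1)
  simp only [FormalMultilinearSeries.ofScalars_apply_eq, zero_add, smul_eq_mul] at h
  have e : ∀ i : ℕ, Ring.choose (a / 2 + i - 1) i * y ^ i = nb a y i := by
    intro i
    have h2 := Ring.factorial_nsmul_multichoose_eq_ascPochhammer (a / 2) i
    rw [Polynomial.ascPochhammer_smeval_eq_eval, nsmul_eq_mul, Ring.multichoose_eq] at h2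
    have h3 : ∀ i : ℕ, 2 ^ i * (ascPochhammer ℝ i).eval (a / 2) = pr a i := by
      intro i
      induction i with
      | zero => simp [pr]
      | succ i ih => rw [ascPochhammer_succ_eval, pr_succ, ← ih]; ring
    rw [nb, ← h3, ← h2]
    have : (i.factorial : ℝ) ≠ 0 := by positivity
    field_simp
  simpa only [e] using h

lemma nb_shift (a y : ℝ) (i : ℕ) : nb a y i * (a + 2 * i) = a * nb (a + 2) y i := by
  simp only [nb]
  rw [div_mul_eq_mul_div, mul_assoc, pr_shift]; ring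

lemma nb_hasSum1 (a : ℝ) {y : ℝ} (h0 : 0 ≤ y) (h1 : y < 1) :
    HasSum (fun i : ℕ => nb a y i * (a + 2 * i)) (a * (1 / (1 - y)) * (1 / (1 - y) ^ (a / 2))) := by
  simp only [nb_shift]
  have h := (nb_hasSum (a + 2) h0 h1).mul_left a
  have h2 : 0 < 1 - y := by linarith
  rw [show (a + 2) / 2 = a / 2 + 1 by ring, Real.rpow_add_one h2.ne'] at h
  have e : a * (1 / (1 - y)) * (1 / (1 - y) ^ (a / 2)) = a * (1 / ((1 - y) ^ (a / 2) * (1 - y))) := by
    have : 0 < (1 - y) ^ (a / 2) := by positivity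
    field_simp
  rw [e]; exact h

lemma nb_hasSum2 (a : ℝ) {y : ℝ} (h0 : 0 ≤ y) (h1 : y < 1) :
    HasSum (fun i : ℕ => nb a y i * (a + 2 * i) * (a + 2 + 2 * i))
      (a * (a + 2) * (1 / (1 - y)) ^ 2 * (1 / (1 - y) ^ (a / 2))) := by
  simp only [nb_shift, mul_assoc a]
  have h := (nb_hasSum1 (a + 2) h0 h1).mul_left a
  have h2 : 0 < 1 - y := by linarith
  rw [show (a + 2) / 2 = a / 2 + 1 by ring, Real.rpow_add_one h2.ne'] at h
  have e : a * ((a + 2) * (1 / (1 - y)) ^ 2 * (1 / (1 - y) ^ (a / 2)))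
      = a * ((a + 2) * (1 / (1 - y)) * (1 / ((1 - y) ^ (a / 2) * (1 - y)))) := by
    have : 0 < (1 - y) ^ (a / 2) := by positivity
    field_simp
  simp only [← nb_shift]
  rw [e]; exact h

open Classical in
lemma nb_window {a y d : ℝ} (ha : 0 < a) (h0 : 0 ≤ y) (h1 : y < 1) (hd : 0 < d) (I : Finset ℕ)
    (hI : ∀ i : ℕ, |a + 2 * i - a * (1 / (1 - y))| ≤ d → i ∈ I) :
    (1 - 2 * a * (1 / (1 - y)) ^ 2 / d ^ 2) * (1 / (1 - y) ^ (a / 2)) ≤ ∑ i ∈ I, nb a y i := by
  set Λ := 1 / (1 - y) with hΛ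
  set S := 1 / (1 - y) ^ (a / 2) with hS
  have h2 : 0 < 1 - y := by linarith
  have hS0 : 0 < S := by positivity
  have hΛ0 : 0 < Λ := by positivity
  have g := (nb_hasSum a h0 h1).sub ((((nb_hasSum2 a h0 h1).sub
    ((nb_hasSum1 a h0 h1).mul_left (2 + 2 * a * Λ))).add
    ((nb_hasSum a h0 h1).mul_left ((a * Λ) ^ 2))).div_const (d ^ 2))
  have g2 : HasSum (fun i => if i ∈ I then nb a y i else 0) (∑ i ∈ I, nb a y i) := by
    have := hasSum_sum_of_ne_finset_zero (f := fun i => if i ∈ I then nb a y i else 0) (s := I)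
      (L := SummationFilter.unconditional ℕ) (fun i hi => if_neg hi)
    rwa [Finset.sum_congr rfl fun i hi => if_pos hi] at this
  refine le_trans ?_ (hasSum_le (fun i => ?_) g g2)
  · rw [← hΛ, ← hS]
    have : 0 ≤ 2 * a * Λ * S / d ^ 2 := by positivity
    calc _ ≤ (1 - 2 * a * Λ ^ 2 / d ^ 2) * S + 2 * a * Λ * S / d ^ 2 := by linarith
      _ = _ := by ring
  · have e : nb a y i - (nb a y i * (a + 2 * i) * (a + 2 + 2 * i) - (2 + 2 * a * Λ) *
        (nb a y i * (a + 2 * i)) + (a * Λ) ^ 2 * nb a y i) / d ^ 2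
        = nb a y i * (1 - (a + 2 * i - a * Λ) ^ 2 / d ^ 2) := by ring
    rw [e]
    have hnb := nb_nonneg ha h0 i
    split_ifs with h
    · exact mul_le_of_le_one_right hnb (sub_le_self _ (by positivity))
    · refine mul_nonpos_of_nonneg_of_nonpos hnb (sub_nonpos.2 ?_)
      rw [one_le_div (by positivity), ← sq_abs (a + 2 * i - a * Λ)]
      have := not_le.1 (mt (hI i) h)
      gcongr

noncomputable def mom (n : ℕ) (γ : ℝ) (m : ℕ) : ℝ :=
  ∫ x : EuclideanSpace ℝ (Fin n), Real.exp (-γ * ‖x‖ ^ 2) * ‖x‖ ^ m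

lemma mom_eq (hn : 1 ≤ n) {γ : ℝ} (hγ : 0 < γ) (m : ℕ) : mom n γ m =
    n * volume.real (ball (0 : EuclideanSpace ℝ (Fin n)) 1) *
      (γ ^ (-((n : ℝ) + m) / 2) * (1 / 2) * Real.Gamma (((n : ℝ) + m) / 2)) := by
  have : Nonempty (Fin n) := ⟨⟨0, hn⟩⟩
  have h1 : (1 : ℝ) ≤ n := by exact_mod_cast hn
  have hm : (0 : ℝ) ≤ m := Nat.cast_nonneg m
  have h := integral_rpow_mul_exp_neg_mul_rpow (p := 2) (q := (n : ℝ) + m - 1) two_pos
    (by linarith) hγ
  rw [sub_add_cancel] at h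
  rw [mom, integral_fun_norm_addHaar volume (fun r => Real.exp (-γ * r ^ 2) * r ^ m), ← h]
  simp only [finrank_euclideanSpace, Fintype.card_fin, nsmul_eq_mul, smul_eq_mul, mul_assoc]
  congr 2
  refine setIntegral_congr_fun measurableSet_Ioi fun r hr => ?_
  have e : (n : ℝ) + m - 1 = ((n - 1 + m : ℕ) : ℝ) := by push_cast [Nat.cast_sub hn]; ring
  simp only [e, Real.rpow_natCast, Real.rpow_ofNat, pow_add]
  ring

lemma mom_pos (hn : 1 ≤ n) {γ : ℝ} (hγ : 0 < γ) (m : ℕ) : 0 < mom n γ m := by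
  have h1 : (0 : ℝ) < n := by exact_mod_cast hn
  have h2 : 0 < volume.real (ball (0 : EuclideanSpace ℝ (Fin n)) 1) :=
    ENNReal.toReal_pos (measure_ball_pos _ _ one_pos).ne' measure_ball_lt_top.ne
  have h3 := Real.Gamma_pos_of_pos (s := ((n : ℝ) + m) / 2) (by positivity)
  rw [mom_eq hn hγ]; positivity

lemma mom_integrable (hn : 1 ≤ n) {γ : ℝ} (hγ : 0 < γ) (m : ℕ) : Integrable
    fun x : EuclideanSpace ℝ (Fin n) => Real.exp (-γ * ‖x‖ ^ 2) * ‖x‖ ^ m :=
  Integrable.of_integral_ne_zero (mom_pos hn hγ m).ne'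

lemma mom_succ (hn : 1 ≤ n) {γ : ℝ} (hγ : 0 < γ) (m : ℕ) :
    2 * γ * mom n γ (m + 2) = (n + m) * mom n γ m := by
  have h1 : (0 : ℝ) < n := by exact_mod_cast hn
  rw [mom_eq hn hγ, mom_eq hn hγ]
  push_cast
  rw [show ((n : ℝ) + (m + 2)) / 2 = (n + m) / 2 + 1 by ring, Real.Gamma_add_one (by positivity),
    show -((n : ℝ) + (m + 2)) / 2 = -(n + m) / 2 - 1 by ring, Real.rpow_sub_one hγ.ne']
  field_simp

lemma mom_even (hn : 1 ≤ n) {γ : ℝ} (hγ : 0 < γ) : ∀ i : ℕ,
    mom n γ (2 * i) = (Real.pi / γ) ^ ((n : ℝ) / 2) * pr n i / (2 * γ) ^ i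
  | 0 => by simp only [mom, mul_zero, pow_zero, mul_one, gauss_int hγ, pr]; simp
  | i + 1 => by
    have h := mom_succ hn hγ (2 * i)
    rw [mom_even hn hγ i] at h
    rw [show 2 * (i + 1) = 2 * i + 2 by ring, pr_succ, pow_succ, eq_div_iff (by positivity)]
    push_cast at h
    field_simp at h
    linear_combination h

noncomputable def shell (γ a b : ℝ) (x : EuclideanSpace ℝ (Fin n)) : ℝ :=
  if a ≤ 2 * γ * ‖x‖ ^ 2 ∧ 2 * γ * ‖x‖ ^ 2 ≤ b then Real.exp (-γ * ‖x‖ ^ 2) else 0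

lemma shell_meas (γ a b : ℝ) : Measurable (shell (n := n) γ a b) := by
  have h : Measurable fun x : EuclideanSpace ℝ (Fin n) => 2 * γ * ‖x‖ ^ 2 := by fun_prop
  exact Measurable.ite ((measurableSet_le measurable_const h).inter
    (measurableSet_le h measurable_const)) (by fun_prop) measurable_const

lemma shell_nonneg (γ a b : ℝ) (x : EuclideanSpace ℝ (Fin n)) : 0 ≤ shell γ a b x := by
  unfold shell; split_ifs <;> positivity

lemma shell_le (γ a b : ℝ) (x : EuclideanSpace ℝ (Fin n)) :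
    shell γ a b x ≤ Real.exp (-γ * ‖x‖ ^ 2) := by
  unfold shell; split_ifs
  · exact le_rfl
  · positivity

lemma shell_le' (γ a b : ℝ) (x : EuclideanSpace ℝ (Fin n)) : shell γ a b x ≤ Real.exp (-a / 2) := by
  unfold shell; split_ifs with h
  · exact Real.exp_le_exp.2 (by linarith [h.1])
  · positivity

lemma shell_mom (hn : 1 ≤ n) {γ a b d : ℝ} (hγ : 0 < γ) (hd : 0 < d) (m : ℕ)
    (ha : a ≤ n + m - d) (hb : n + m + d ≤ b) :
    (1 - 2 * (n + m) / d ^ 2) * mom n γ m
      ≤ ∫ x : EuclideanSpace ℝ (Fin n), shell γ a b x * ‖x‖ ^ m := by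
  have i0 := mom_integrable hn hγ m
  have i2 := mom_integrable hn hγ (m + 2)
  have i4 := mom_integrable hn hγ (m + 2 + 2)
  have r2 := mom_succ hn hγ m
  have r4 := mom_succ hn hγ (m + 2)
  set N : ℝ := n + m with hN
  have hs : Integrable fun x : EuclideanSpace ℝ (Fin n) => shell γ a b x * ‖x‖ ^ m := by
    have := shell_meas (n := n) γ a b
    refine i0.mono' (by fun_prop) (Eventually.of_forall fun x => ?_)
    rw [Real.norm_of_nonneg (mul_nonneg (shell_nonneg _ _ _ _) (by positivity))]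
    exact mul_le_mul_of_nonneg_right (shell_le _ _ _ _) (by positivity)
  have h := integral_mono (i0.sub ((((i4.const_mul ((2 * γ) ^ 2)).sub
    (i2.const_mul (2 * N * (2 * γ)))).add (i0.const_mul (N ^ 2))).div_const (d ^ 2))) hs
    (fun x => by
      have e : Real.exp (-γ * ‖x‖ ^ 2) * ‖x‖ ^ m - ((2 * γ) ^ 2 * (Real.exp (-γ * ‖x‖ ^ 2) *
          ‖x‖ ^ (m + 2 + 2)) - 2 * N * (2 * γ) * (Real.exp (-γ * ‖x‖ ^ 2) * ‖x‖ ^ (m + 2)) +
          N ^ 2 * (Real.exp (-γ * ‖x‖ ^ 2) * ‖x‖ ^ m)) / d ^ 2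
          = Real.exp (-γ * ‖x‖ ^ 2) * ‖x‖ ^ m * (1 - (2 * γ * ‖x‖ ^ 2 - N) ^ 2 / d ^ 2) := by ring
      simp only [Pi.sub_apply, Pi.add_apply]
      rw [e, shell]
      split_ifs with h
      · exact mul_le_of_le_one_right (by positivity) (sub_le_self _ (by positivity))
      · rw [zero_mul]
        refine mul_nonpos_of_nonneg_of_nonpos (by positivity) (sub_nonpos.2 ?_)
        rw [one_le_div (by positivity)]
        rcases not_and_or.1 h with h | h <;> nlinarith [not_le.1 h])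
  refine le_trans (le_of_eq ?_) h
  simp only [Pi.sub_apply, Pi.add_apply]
  rw [integral_sub i0 (by exact (((i4.const_mul ((2 * γ) ^ 2)).sub
    (i2.const_mul (2 * N * (2 * γ)))).add (i0.const_mul (N ^ 2))).div_const (d ^ 2)),
    integral_div, integral_add (by exact ((i4.const_mul ((2 * γ) ^ 2)).sub
    (i2.const_mul (2 * N * (2 * γ))))) (i0.const_mul (N ^ 2)),
    integral_sub (i4.const_mul _) (i2.const_mul _), integral_const_mul, integral_const_mul,
    integral_const_mul]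
  change _ = mom n γ m - ((2 * γ) ^ 2 * mom n γ (m + 2 + 2) - 2 * N * (2 * γ) * mom n γ (m + 2)
    + N ^ 2 * mom n γ m) / d ^ 2
  push_cast at r4
  have e4 : (2 * γ) ^ 2 * mom n γ (m + 2 + 2) = (N + 2) * N * mom n γ m := by
    linear_combination (2 * γ) * r4 + (N + 2) * r2
  have e2 : 2 * N * (2 * γ) * mom n γ (m + 2) = 2 * N * N * mom n γ m := by
    linear_combination (2 * N) * r2
  rw [e4, e2]; ring

lemma vol_upper {g L : ℝ} (hg : 0 < g) :
    volume.real (closedBall (0 : EuclideanSpace ℝ (Fin n)) L)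
      ≤ Real.exp (g * L ^ 2) * (Real.pi / g) ^ ((n : ℝ) / 2) := by
  rw [← gauss_int hg, ← integral_const_mul, ← mul_one (volume.real _), ← smul_eq_mul,
    ← integral_indicator_const _ measurableSet_closedBall]
  refine integral_mono (ind_integrable _ _ _) ((gauss_integrable hg).const_mul _) fun x => ?_
  by_cases hx : x ∈ closedBall (0 : EuclideanSpace ℝ (Fin n)) L
  · simp only [Set.indicator_of_mem hx, ← Real.exp_add]
    refine Real.one_le_exp ?_
    have h1 : ‖x‖ ≤ L := by simpa using hx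
    have h2 : ‖x‖ ^ 2 ≤ L ^ 2 := by gcongr
    nlinarith
  · simp only [Set.indicator_of_notMem hx]; positivity

lemma mu_even (hn : 3 ≤ n) : ∀ i : ℕ,
    cc n (2 * i) 0 / ((2 * i).factorial : ℝ) = 1 / (2 ^ i * (i.factorial : ℝ) * pr n i)
  | 0 => by simp [cc, del, pr]
  | i + 1 => by
    have h := mu_succ hn (2 * i)
    have ih := mu_even hn i
    have h3 : (0 : ℝ) < n := by exact_mod_cast (by omega : 0 < n)
    have hp := pr_pos h3 i
    rw [div_eq_div_iff (by positivity) (by positivity)] at ih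
    rw [show 2 * (i + 1) = 2 * i + 2 by ring, pr_succ, Nat.factorial_succ, Nat.factorial_succ,
      Nat.factorial_succ, div_eq_div_iff (by positivity) (by positivity)]
    push_cast at h ⊢
    linear_combination (2 * (i + 1) * (2 ^ i * (i.factorial : ℝ) * pr n i)) * h
      + (2 * (i + 1) * (2 * i + 1)) * ih

lemma pow_div_pr {a b : ℝ} (ha : 2 < a) (hb : 0 < b) (i : ℕ) : (b ^ i / pr a i) ^ 2
    ≤ Real.exp (b - ((a - 2) * Real.log (b / (a - 2)) + (a - 2))) := by
  set G : ℝ → ℝ := fun u => u * Real.log (b / u) + u with hG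
  have h1 : ∀ u, 0 < u → G u ≤ b := fun u hu => by
    have := Real.log_le_sub_one_of_pos (div_pos hb hu)
    have h2 : u * Real.log (b / u) ≤ u * (b / u - 1) := by gcongr
    rw [mul_sub, mul_div_cancel₀ _ hu.ne'] at h2
    simp only [hG]; linarith
  have h2 : ∀ u, 0 < u → (b / (u + 2)) ^ 2 ≤ Real.exp (G (u + 2) - G u) := fun u hu => by
    have e : (b / (u + 2)) ^ 2 = Real.exp (2 * Real.log (b / (u + 2))) := by
      rw [show (2 : ℝ) * Real.log (b / (u + 2)) = (2 : ℕ) * Real.log (b / (u + 2)) by norm_num,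
        Real.exp_nat_mul, Real.exp_log (by positivity)]
    rw [e, Real.exp_le_exp]
    have h3 := Real.log_le_sub_one_of_pos (show 0 < (u + 2) / u by positivity)
    have h4 : u * Real.log ((u + 2) / u) ≤ u * ((u + 2) / u - 1) := by gcongr
    rw [mul_sub, mul_div_cancel₀ _ hu.ne'] at h4
    simp only [hG]
    rw [Real.log_div (by positivity) hu.ne'] at h4
    rw [Real.log_div hb.ne' (by positivity), Real.log_div hb.ne' hu.ne']
    linarith
  have h3 : ∀ i : ℕ, (b ^ i / pr a i) ^ 2 ≤ Real.exp (G (a - 2 + 2 * i) - G (a - 2)) := by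
    intro i
    induction i with
    | zero => simp [pr]
    | succ i ih =>
      have hi : (0 : ℝ) ≤ i := Nat.cast_nonneg i
      have h4 := h2 (a - 2 + 2 * i) (by linarith)
      rw [pr_succ, pow_succ b, mul_div_mul_comm, mul_pow]
      rw [show a - 2 + 2 * i + 2 = a + 2 * i by ring] at h4
      refine (mul_le_mul ih h4 (sq_nonneg _) (Real.exp_pos _).le).trans (le_of_eq ?_)
      rw [← Real.exp_add]
      push_cast
      rw [show a - 2 + 2 * (i + 1) = a + 2 * i by ring]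
      congr 1; ring
  have hi : (0 : ℝ) ≤ i := Nat.cast_nonneg i
  refine (h3 i).trans (Real.exp_le_exp.2 ?_)
  have := h1 (a - 2 + 2 * i) (by linarith)
  simp only [hG] at this ⊢
  linarith

end Pool.Agent.Lib.MP_30f764_gt
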