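import Pool.Agent.Lib.MP_30f764_gt.NHaz

/-! The auxiliary function with its sign outside a ball, and the linear programming bound with a
separate majorant. The proofs follow `lp_cut`, `lp_fin` and `lp`. -/

set_option autoImplicit false

namespace Pool.Agent.Lib.MP_30f764_gt.Ml

open Polynomial Real Filter Topology MeasureTheory Set

section
variable {l : ℝ → ℝ} {D : ℝ} {P : ℝ[X]} {n : ℕ}

theorem ex_cut (hn : 1 ≤ n) (hD : D = (n : ℝ) / 2) (h : Rep D P l) (sym : P.comp (C D - X) = P)
    (p0 : 0 ≤ P.eval 0) {c σ b : ℝ} (hc : 0 < c) (hs : σ ∈ Icc 0 D) (hP : Pos P (D + c))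
    (hb : Uni (fun y => exp (σ * y) * l y) b) (b1 : ∀ y ∈ Icc (b - 1 / c) b, l b ≤ l y)
    (b2 : ∀ y ∈ Icc b (b + 1 / c), exp (D * b) * l b ≤ exp (D * y) * l y) {κ α U : ℝ}
    (hκ : P.eval D * ∫ y in Iic (b + 1 / c), exp (D * y) * l y ≤ κ) (hα : 0 < α) (hU : 0 < U)
    (hneg : ∀ u, U ≤ u → ∃ β, 0 ≤ β ∧ exp (-u) ≤ β * (l b * (c + σ) / (D + c + c) / (D + c)) ∧
      ∀ s ≤ b, β * exp ((D + c) * (s - b)) ≤
        ∫ t in Ioi 0, exp (-((D + c) * t)) * gg (X * P) (u * exp (-s) * exp (-1 * t))) :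
    ∃ H hh : EE n → ℝ, Integrable H ∧ (∀ ξ ≠ 0, 0 ≤ H ξ) ∧
      (∀ x, hh x = ∫ ξ, H ξ * cos (2 * inner ℝ x ξ)) ∧ Integrable hh ∧
      (∀ x ≠ 0, hh x ≤ exp (-α * ‖x‖ ^ 2)) ∧ (∀ x, U ≤ α * ‖x‖ ^ 2 → hh x ≤ 0) ∧
      (1 - κ) * (π / α) ^ ((n : ℝ) / 2) ≤ ∫ x, hh x ∧ hh 0 ≤ exp (D * (0 - (b - 1 / c)) + 0) := by
  have D0 : 0 < D := by rw [hD]; have : (1 : ℝ) ≤ n := by exact_mod_cast hn
                        linarith
  have pi0 := pi_pos
  have m0 : (0 : ℝ) ∈ Icc 0 D := ⟨le_rfl, D0.le⟩
  have mD : D ∈ Icc 0 D := ⟨D0.le, le_rfl⟩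
  have pD : P.eval D = P.eval 0 := by conv_lhs => rw [← sym]; simp [eval_comp]
  have i0 : Integrable l := by simpa using h.int 0 m0
  let l' : ℝ → ℝ := fun y => exp (D * -y) * l (-y)
  have i1 : Integrable l' := (h.int D mD).comp_neg
  obtain ⟨k1, k2, k3⟩ := cut (T := D + c) (by linarith) hc hs.1 (by linarith [hs.2]) h.nn i0 hb.1 b1
  obtain ⟨j1, j2, j3⟩ := cut (T := D + c) (σ := D - σ) (b := -b) (l := l') (by linarith) hc
    (by linarith [hs.2]) (by linarith [hs.1]) (fun y => mul_nonneg (exp_pos _).le (h.nn _)) i1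
    (by
      refine hb.neg.1.congr fun y _ => ?_
      simp only [l', ← mul_assoc, ← exp_add]; congr 2; ring)
    (fun y hy => by simpa [l'] using b2 (-y) ⟨by linarith [hy.2], by linarith [hy.1]⟩)
  set φ := cutf (D + c) c σ b l
  set φ' := cutf (D + c) c (D - σ) (-b) l'
  have id : ∀ y, l (-y) - φ (-y) = exp (D * y) * φ' y := fun y => by
    have e : exp (D * y) * exp (D * -y) = 1 := by rw [← exp_add]; simp
    have e1 : exp (D * y) * exp (D * b) * exp (-(D + c) * (y + b)) = exp (c * (-y - b)) := by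
      rw [← exp_add, ← exp_add]; congr 1; ring
    have e2 : exp (D * y) * exp (D * b) * exp (c * (y + b)) = exp (-(D + c) * (-y - b)) := by
      rw [← exp_add, ← exp_add]; congr 1; ring
    have : D + c + c ≠ 0 := by positivity
    simp only [φ, φ', cutf, l', neg_neg, sub_neg_eq_add]
    rcases lt_trichotomy y (-b) with g | rfl | g
    · rw [if_neg (by linarith), if_pos g.le, ← e2]
      linear_combination (-l (-y)) * e
    · simp only [neg_neg, le_refl, if_true, sub_self, neg_add_cancel, mul_zero, exp_zero, mul_one] at e ⊢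
      generalize exp (D * -b) = A at e
      generalize exp (D * b) = B at e
      field_simp
      linear_combination (-l b * (c + D - σ)) * e
    · rw [if_pos (by linarith), if_neg g.not_ge, ← e1]; ring
  let hh : EE n → ℝ := fun x => ∫ y, gg P (α * exp y * ‖x‖ ^ 2) * (exp (D * y) * φ' y)
  have i2 : Integrable fun y => exp (D * y) * φ' y := by
    simp only [← id]; exact (i0.sub k1).comp_neg
  have pw : ∀ (a y : ℝ), 0 < a → (a * exp y) ^ ((n : ℝ) / 2) = a ^ ((n : ℝ) / 2) * exp (D * y) :=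
    fun a y ha => by rw [mul_rpow ha.le (exp_pos _).le, ← exp_mul, hD, mul_comm y]
  have q1 := mix_int (n := n) (P := P) (j1.const_mul ((π / α) ^ ((n : ℝ) / 2)))
    (c := fun y => α * exp y) (by fun_prop) (fun _ => by positivity) (w := fun y => exp (D * y) * φ' y)
    (fun y => by
      rw [show π / (α * exp y) = π / α * exp (-y) by rw [exp_neg]; field_simp, pw _ _ (by positivity),
        mul_neg, exp_neg]
      field_simp) i2.aestronglyMeasurable
  have q2 := mix_int (n := n) (P := P) i2 (c := fun y => exp (-y) / α) (by fun_prop)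
    (fun _ => by positivity) (w := fun y => ((π * α) ^ ((n : ℝ) / 2))⁻¹ * φ' y) (fun y => by
      rw [show π / (exp (-y) / α) = π * α * exp y by rw [exp_neg]; field_simp, pw _ _ (by positivity)]
      field_simp) (j1.const_mul _).aestronglyMeasurable
  obtain ⟨A, hA⟩ := gg_bdd P
  have bi : ∀ {f : ℝ → ℝ} (u : ℝ), 0 ≤ u → Integrable f → Integrable fun y => gg P (u * exp (-y)) * f y :=
    fun u hu g => g.bdd_mul (c := A) (by fun_prop) (Eventually.of_forall fun y => hA _ (by positivity))
  have hx : ∀ x, hh x = exp (-(α * ‖x‖ ^ 2)) - ∫ y, gg P (α * ‖x‖ ^ 2 * exp (-y)) * φ y := fun x => by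
    rw [← h.rep _ (by positivity), ← integral_sub (bi _ (by positivity) i0) (bi _ (by positivity) k1),
      ← integral_neg_eq_self]
    simp only [hh, ← id, neg_neg, mul_sub, mul_right_comm α]
  refine ⟨_, hh, q2.integral_prod_right, fun ξ hξ => ?_, fun x => ?_, q1.integral_prod_right,
    fun x hx0 => ?_, fun x hxU => ?_, ?_, ?_⟩
  · simp only [mul_left_comm _ ((π * α) ^ ((n : ℝ) / 2))⁻¹, integral_const_mul]
    refine mul_nonneg (by positivity) ?_
    have := hazard (by linarith) hP j1 j2 (u := ‖ξ‖ ^ 2 / α) (by positivity)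
    refine this.trans_eq ?_
    congr 1; funext y; congr 2; ring
  · simp only [← integral_mul_const]
    rw [← integral_integral_swap (q2.mul_bdd (c := 1) (g := fun p : ℝ × EE n => cos (2 * inner ℝ x p.2))
      (by fun_prop) (Eventually.of_forall fun _ => abs_cos_le_one _))]
    simp only [hh]
    congr 1; funext y
    simp only [mul_right_comm _ (((π * α) ^ ((n : ℝ) / 2))⁻¹ * φ' y), integral_mul_const]
    rw [gg_cos P _ (by positivity), show π / (exp (-y) / α) = π * α * exp y by rw [exp_neg]; field_simp,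
      pw _ _ (by positivity), ← hD, sym, show ‖x‖ ^ 2 / (exp (-y) / α) = α * exp y * ‖x‖ ^ 2 by
        rw [exp_neg]; field_simp]
    field_simp
  · rw [hx, neg_mul, sub_le_self_iff]
    exact hazard (by linarith) hP k1 k2 (by positivity)
  · obtain ⟨β, β0, β1, β2⟩ := hneg _ hxU
    have z1 := hazard2 (by linarith) hP k1 k2 (u := α * ‖x‖ ^ 2) (by linarith) β0 β2
    have z2 : ∫ y in Ioi b, φ y = l b * (c + σ) / (D + c + c) / (D + c) := by
      have z3 : ∀ v ∈ Ioi b, φ v = l b * (c + σ) / (D + c + c) * exp (-(D + c) * (v - b)) :=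
        fun v hv => if_neg (not_le.2 hv)
      rw [setIntegral_congr_fun measurableSet_Ioi z3]
      simp only [mul_sub, exp_sub, integral_const_mul, integral_div,
        integral_exp_mul_Ioi (neg_lt_zero.2 (show 0 < D + c by linarith))]
      field_simp
    rw [hx, sub_nonpos]
    rw [z2] at z1
    exact β1.trans z1
  · have a1 : ∫ x, hh x = (π / α) ^ ((n : ℝ) / 2) * (P.eval D * ∫ y, φ' y) := by
      rw [← integral_integral_swap q1, ← integral_const_mul, ← integral_const_mul]
      congr 1; funext y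
      have := gg_cos (n := n) P (α * exp y) (by positivity) 0
      simp only [inner_zero_left, mul_zero, cos_zero, mul_one, norm_zero] at this
      rw [integral_mul_const, this, ← hD, sym, show π / (α * exp y) = π / α * exp (-y) by
        rw [exp_neg]; field_simp, hD, pw _ _ (by positivity), ← hD, pD, mul_neg, exp_neg]
      simp [gg_zero]; field_simp
    have a2 : 1 - κ ≤ P.eval D * ∫ y, φ' y := by
      refine le_trans ?_ (mul_le_mul_of_nonneg_left j3 (pD ▸ p0))
      have a5 := h.lap D mD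
      rw [← integral_add_compl (s := Iic (b + 1 / c)) measurableSet_Iic (h.int D mD), compl_Iic] at a5
      rw [← neg_add', ← integral_comp_neg_Ioi]
      simp only [l', neg_neg]
      linarith
    have G0 : 0 < (π / α) ^ ((n : ℝ) / 2) := by positivity
    rw [a1]
    nlinarith
  · have a3 : hh 0 ≤ exp (D * (0 - (b - 1 / c)) + 0) := by
      refine le_trans ?_ (h.tail m0 (by simpa using mD) p0 (by simp [pD]) (A := Ioi (b - 1 / c))
        measurableSet_Ioi fun y hy => mul_nonneg D0.le (sub_nonneg.2 (le_of_lt hy)))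
      have a4 := h.lap 0 m0
      rw [← integral_add_compl (s := Iic (b - 1 / c)) measurableSet_Iic (h.int 0 m0), compl_Iic] at a4
      simp only [hx, norm_zero, zero_mul, exp_zero, one_mul, ne_eq, OfNat.ofNat_ne_zero,
        not_false_eq_true, zero_pow, mul_zero, neg_zero, gg_zero, integral_const_mul] at a4 ⊢
      nlinarith
    exact a3

end

section
open Metric
variable {n : ℕ} {H h : EE n → ℝ}

lemma lp_fin2 (hn : 1 ≤ n) (Hi : Integrable H) (H0 : ∀ ξ ≠ 0, 0 ≤ H ξ)
    (rep : ∀ x, h x = ∫ ξ, H ξ * cos (2 * inner ℝ x ξ)) (hi : Integrable h) {α : ℝ}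
    (hf : ∀ x ≠ 0, h x ≤ exp (-α * ‖x‖ ^ 2)) {g : EE n → ℝ} (gi : Integrable g) (g0 : ∀ x, 0 ≤ g x)
    (hg : ∀ x ≠ 0, h x ≤ g x) {ρ : ℝ} (hρ : 0 < ρ) (L r : ℝ) (S : Finset (EE n))
    (hS : ∀ x ∈ S, ‖x‖ ≤ r) :
    2 * ρ * (S.card * ((∫ x, h x) - ∫ x in (closedBall 0 L)ᶜ, |h x|)) ≤
      S.card * h 0 + ∑ p ∈ S.offDiag, exp (-α * dist p.1 p.2 ^ 2) +
      ρ ^ 2 * (volume.real (closedBall (0 : EE n) (r + L)) * ∫ x, g x) := by
  classical
  have : NeZero n := ⟨by omega⟩
  have : IsFiniteMeasure ((volume : Measure (EE n)).restrict (closedBall 0 (r + L))) :=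
    isFiniteMeasure_restrict.2 measure_closedBall_lt_top.ne
  have hs : ∀ f : EE n → ℝ, ∫ x, f x ∂(∑ x ∈ S, Measure.dirac x) = ∑ x ∈ S, f x := fun f => by
    rw [integral_finsetSum_measure fun _ _ => integrable_dirac (by simp)]; simp
  have := psd Hi (by filter_upwards [Measure.ae_ne volume 0] using H0) rep (∑ x ∈ S, Measure.dirac x)
    (volume.restrict (closedBall 0 (r + L))) ρ
  simp only [hs] at this
  refine le_trans (mul_le_mul_of_nonneg_left ?_ (by positivity)) (this.trans (add_le_add ?_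
    (mul_le_mul_of_nonneg_left ?_ (by positivity))))
  · rw [← nsmul_eq_mul]
    refine Finset.card_nsmul_le_sum _ _ _ fun x hx => ?_
    have i1 := hi.comp_sub_left x
    have i2 : Integrable ((closedBall (0 : EE n) L)ᶜ.indicator fun z => |h z|) :=
      hi.abs.indicator measurableSet_closedBall.compl
    rw [← integral_sub_left_eq_self h volume x, ← integral_add_compl (s := closedBall 0 (r + L))
      measurableSet_closedBall i1, add_sub_assoc, add_le_iff_nonpos_right, sub_nonpos,
      ← integral_indicator measurableSet_closedBall.compl,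
      ← integral_indicator measurableSet_closedBall.compl,
      ← integral_sub_left_eq_self ((closedBall (0 : EE n) L)ᶜ.indicator fun z => |h z|) volume x]
    refine integral_mono (i1.indicator measurableSet_closedBall.compl) (i2.comp_sub_left x) fun y => ?_
    by_cases hy : y ∈ (closedBall (0 : EE n) (r + L))ᶜ
    · simp only [indicator_of_mem hy]
      rw [indicator_of_mem]
      · exact le_abs_self _
      · simp only [mem_compl_iff, mem_closedBall, dist_zero_right, not_le] at hy ⊢
        linarith [hS x hx, norm_sub_norm_le y x, norm_sub_rev y x]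
    · simp only [indicator_of_notMem hy]
      exact indicator_nonneg (fun _ _ => abs_nonneg _) _
  · rw [← Finset.sum_product', ← Finset.diag_union_offDiag, Finset.sum_union (Finset.disjoint_diag_offDiag S),
      Finset.sum_diag]
    refine add_le_add (by simp) (Finset.sum_le_sum fun p hp => ?_)
    rw [dist_eq_norm]
    exact hf _ (sub_ne_zero.2 (Finset.mem_offDiag.1 hp).2.2)
  · by_cases hI : Integrable (fun x => ∫ y in closedBall (0 : EE n) (r + L), h (x - y))
      (volume.restrict (closedBall 0 (r + L)))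
    · refine (integral_mono hI (integrable_const (∫ x, g x)) fun x => ?_).trans (by simp)
      have g' := gi.comp_sub_left x
      dsimp only
      rw [← integral_sub_left_eq_self g volume x]
      refine le_trans (integral_mono_ae (hi.comp_sub_left x).integrableOn g'.integrableOn
        (ae_restrict_of_ae ?_)) (setIntegral_le_integral g' (Eventually.of_forall fun _ => g0 _))
      filter_upwards [Measure.ae_ne volume x] with y hy using hg _ (sub_ne_zero.2 hy.symm)
    · rw [integral_undef hI]; exact mul_nonneg measureReal_nonneg (integral_nonneg g0)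

theorem lp2 (hn : 1 ≤ n) (Hi : Integrable H) (H0 : ∀ ξ ≠ 0, 0 ≤ H ξ)
    (rep : ∀ x, h x = ∫ ξ, H ξ * cos (2 * inner ℝ x ξ)) (hi : Integrable h) {α : ℝ}
    (hf : ∀ x ≠ 0, h x ≤ exp (-α * ‖x‖ ^ 2)) {g : EE n → ℝ} (gi : Integrable g) (g0 : ∀ x, 0 ≤ g x)
    (hg : ∀ x ≠ 0, h x ≤ g x) {ρ : ℝ} (hρ : 0 < ρ) :
    ENNReal.ofReal (ρ * (2 * (∫ x, h x) - ∫ x, g x) - h 0) ≤ minEnergy n α ρ := by
  classical
  refine le_iInf₂ fun C ⟨hfin, hden⟩ => ?_
  set G := ∫ x, g x
  have t1 : Tendsto (fun L : ℕ => ∫ x in (closedBall (0 : EE n) L)ᶜ, |h x|) atTop (𝓝 0) := by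
    have := tendsto_setIntegral_of_antitone (μ := volume) (f := fun x => |h x|)
      (s := fun L : ℕ => (closedBall (0 : EE n) L)ᶜ) (fun _ => measurableSet_closedBall.compl)
      (fun a b hab => compl_subset_compl.2 (closedBall_subset_closedBall (by exact_mod_cast hab)))
      ⟨0, hi.abs.integrableOn⟩
    rwa [← compl_iUnion, iUnion_closedBall_nat, compl_univ, setIntegral_empty] at this
  have t2 := ENNReal.tendsto_ofReal (((((t1.const_sub (∫ x, h x)).const_mul 2).sub_const G).const_mul
    ρ).sub_const (h 0))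
  rw [sub_zero] at t2
  refine le_of_tendsto' t2 fun L => ?_
  generalize hJ : (∫ x, h x) - ∫ x in (closedBall 0 (L : ℝ))ᶜ, |h x| = J
  have hlim := ENNReal.tendsto_ofReal ((((((vol_ratio (n := n) L).div hden hρ.ne').mul_const G).const_mul
    (ρ ^ 2)).const_sub (2 * ρ * J)).sub_const (h 0))
  rw [show ρ * (2 * J - G) = 2 * ρ * J - ρ ^ 2 * (1 / ρ * G) by field_simp, ← hlim.liminf_eq]
  refine liminf_le_liminf ?_
  filter_upwards [eventually_gt_atTop 0, hden.eventually (lt_mem_nhds (half_lt_self hρ))] with r hr hpos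
  refine ENNReal.ofReal_le_ofReal ?_
  have hf' := hfin (closedBall 0 r) isBounded_closedBall
  have hv : 0 < volume.real (closedBall (0 : EE n) r) := by
    rw [vol_ball _ hr.le]
    have := vol_one_pos (n := n)
    positivity
  have hN : (0 : ℝ) < ((C ∩ closedBall 0 r).ncard : ℝ) := by
    rcases (Nat.cast_nonneg (α := ℝ) (C ∩ closedBall 0 r).ncard).lt_or_eq with h | h
    · exact h
    · rw [← h, zero_div] at hpos; linarith
  have h := lp_fin2 hn Hi H0 rep hi hf gi g0 hg hρ L r hf'.toFinset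
    (fun x hx => by simpa using (hf'.mem_toFinset.1 hx).2)
  have e1 : ∑ᶠ p ∈ (C ∩ closedBall 0 r).offDiag, exp (-α * dist p.1 p.2 ^ 2)
      = ∑ p ∈ hf'.toFinset.offDiag, exp (-α * dist p.1 p.2 ^ 2) := by
    rw [← finsum_mem_coe_finset, Finset.coe_offDiag, hf'.coe_toFinset]
  rw [← Set.ncard_eq_toFinset_card _ hf', ← e1, hJ] at h
  rw [le_div_iff₀ hN, Pi.div_apply, div_div_div_cancel_right₀ hv.ne', sub_mul, sub_mul, mul_assoc (ρ ^ 2),
    mul_right_comm _ G, div_mul_cancel₀ _ hN.ne']
  linarith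

end

end Pool.Agent.Lib.MP_30f764_gt.Ml
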