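import Pool.Agent.Lib.MP_30f764_gt.MMain

/-! Quantitative forms of the hazard rate lemma and of the positivity of the Pareto mixture. -/

set_option autoImplicit false

namespace Pool.Agent.Lib.MP_30f764_gt.Ml

open Polynomial Real Filter Topology MeasureTheory Set

variable {φ F : ℝ → ℝ} {P : ℝ[X]}

lemma haz_gen {T B : ℝ} (hi : Integrable φ) (hz : ∀ y, φ y ≤ T * ∫ v in Ioi y, φ v)
    (Fi : Integrable F) (F0 : ∀ y, 0 ≤ F y) (Fb : ∀ y, ‖F y‖ ≤ B) :
    0 ≤ ∫ y, (T * (∫ s in Iic y, F s) - F y) * φ y := by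
  have j : Integrable (fun p : ℝ × ℝ => {p : ℝ × ℝ | p.2 ≤ p.1}.indicator
      (fun p => φ p.1 * F p.2) p) (volume.prod volume) :=
    (hi.mul_prod Fi).indicator (measurableSet_le measurable_snd measurable_fst)
  have e1 : ∀ y, ∫ s, {p : ℝ × ℝ | p.2 ≤ p.1}.indicator (fun p => φ p.1 * F p.2) (y, s) =
      φ y * ∫ s in Iic y, F s := fun y => by
    rw [← integral_const_mul, ← integral_indicator measurableSet_Iic]; rfl
  have e2 : ∀ s, ∫ y, {p : ℝ × ℝ | p.2 ≤ p.1}.indicator (fun p => φ p.1 * F p.2) (y, s) =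
      (∫ y in Ioi s, φ y) * F s := fun y => by
    rw [← integral_Ici_eq_integral_Ioi, ← integral_mul_const, ← integral_indicator measurableSet_Ici]; rfl
  have j1 := j.integral_prod_left
  have j2 := j.integral_prod_right
  have j3 := integral_integral_swap (f := fun y s => {p : ℝ × ℝ | p.2 ≤ p.1}.indicator
    (fun p => φ p.1 * F p.2) (y, s)) j
  simp only [e1, e2] at j1 j2 j3
  have j4 := hi.mul_bdd Fi.aestronglyMeasurable (Eventually.of_forall Fb)
  have : ∀ y, (T * (∫ s in Iic y, F s) - F y) * φ y = T * (φ y * ∫ s in Iic y, F s) - φ y * F y :=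
    fun y => by ring
  simp only [this]
  rw [integral_sub (j1.const_mul _) j4, integral_const_mul, j3, ← integral_const_mul, sub_nonneg]
  refine integral_mono j4 (j2.const_mul _) fun y => ?_
  simp only [← mul_assoc]
  exact mul_le_mul_of_nonneg_right (hz y) (F0 y)

lemma exp_Iic {T : ℝ} (hT : 0 < T) (b y : ℝ) :
    IntegrableOn (fun s => exp (T * (s - b))) (Iic y) ∧
      T * ∫ s in Iic y, exp (T * (s - b)) = exp (T * (y - b)) := by
  constructor
  · simpa only [mul_sub, exp_sub, IntegrableOn] using (integrableOn_exp_mul_Iic hT y).div_const _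
  · simp only [mul_sub, exp_sub, integral_div, integral_exp_mul_Iic hT]; field_simp

lemma hazard2 {T : ℝ} (hT : 0 < T) (hP : Pos P T) (hi : Integrable φ)
    (hz : ∀ y, φ y ≤ T * ∫ v in Ioi y, φ v) {u : ℝ} (hu : 0 < u) {b β : ℝ} (β0 : 0 ≤ β)
    (hβ : ∀ s ≤ b, β * exp (T * (s - b)) ≤
      ∫ t in Ioi 0, exp (-(T * t)) * gg (X * P) (u * exp (-s) * exp (-1 * t))) :
    β * ∫ y in Ioi b, φ y ≤ ∫ y, gg P (u * exp (-y)) * φ y := by
  let G2 : ℝ → ℝ := fun s => gg (X * P) (u * exp (-s))
  have g2 : Integrable G2 := gX_int P hu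
  have m2 : Measurable G2 := by fun_prop
  have ex : ∀ y t : ℝ, u * exp (-y) * exp (-1 * t) = u * exp (-(y + 1 * t)) := fun y t => by
    rw [mul_assoc, ← exp_add]; congr 2; ring
  have H0 : ∀ y, 0 ≤ cv T 1 G2 y := fun y => by
    simpa only [ex, cv, G2] using hP (u * exp (-y)) (by positivity)
  have H1 : ∀ s ≤ b, β * exp (T * (s - b)) ≤ cv T 1 G2 s := fun s hs => by
    simpa only [ex, cv, G2] using hβ s hs
  have Hi : Integrable (cv T 1 G2) := (cv_prod m2 g2 hT 1).integral_prod_left
  obtain ⟨B, hB⟩ := gg_bdd (X * P)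
  have Hb : ∀ y, ‖cv T 1 G2 y‖ ≤ 1 / T * B := fun y => by
    rw [← exp_val hT, ← integral_mul_const]
    refine norm_integral_le_of_norm_le ((exp_int hT).mul_const _) (Eventually.of_forall fun t => ?_)
    rw [norm_mul, norm_of_nonneg (exp_pos _).le]; gcongr; exact hB _ (by positivity)
  have c1 : ∀ y, gg P (u * exp (-y)) = T * (∫ s in Iic y, cv T 1 G2 s) - cv T 1 G2 y := fun y => by
    have a1 : ∫ s in Iic y, cv T 1 G2 s = ∫ t in Ioi 0, exp (-(T * t)) * gg P (u * exp (-(y + 1 * t))) := by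
      have := (cv_prod m2 g2 hT 1).mono_measure (Measure.prod_mono (Measure.restrict_le_self (s := Iic y)) le_rfl)
      simp only [cv]
      rw [integral_integral_swap this]
      congr 1; funext t
      rw [integral_const_mul, ← gX_val P hu]
      have := (measurePreserving_add_right volume (1 * t)).setIntegral_preimage_emb
        (measurableEmbedding_addRight _) G2 (Iic (y + 1 * t))
      rw [preimage_add_const_Iic, add_sub_cancel_right] at this
      rw [this]
    rw [a1, ← gg_conv P hT (show 0 ≤ u * exp (-y) by positivity) (-1), cv, ← integral_const_mul,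
      ← integral_sub]
    · congr 1; funext t
      rw [add_mul, mul_assoc (C (-1)), gg_add, gg_C_mul, gg_C_mul, ex]; ring
    · simpa only [ex] using (conv_int P hT (show 0 ≤ u * exp (-y) by positivity) (-1)).const_mul T
    · have := conv_int (X * P) hT (show 0 ≤ u * exp (-y) by positivity) (-1)
      simp only [ex] at this
      exact this
  let E : ℝ → ℝ := (Iic b).indicator fun s => exp (T * (s - b))
  have Ei : Integrable E := (integrable_indicator_iff measurableSet_Iic).2 (exp_Iic hT b b).1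
  have E0 : ∀ y, 0 ≤ E y := fun y => indicator_nonneg (fun _ _ => (exp_pos _).le) _
  have E1 : ∀ y, β * E y ≤ cv T 1 G2 y := fun y => by
    by_cases h : y ∈ Iic b
    · simp only [E, indicator_of_mem h]; exact H1 y h
    · simp only [E, indicator_of_notMem h, mul_zero]; exact H0 y
  have c2 : ∀ y, T * (∫ s in Iic y, E s) - E y = (Ioi b).indicator (fun _ => (1 : ℝ)) y := fun y => by
    simp only [E]
    rw [setIntegral_indicator measurableSet_Iic, Iic_inter_Iic, (exp_Iic hT b _).2]
    rcases le_or_gt y b with h | h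
    · rw [inf_eq_left.2 h, indicator_of_mem (mem_Iic.2 h), indicator_of_notMem (by simpa using h), sub_self]
    · rw [inf_eq_right.2 h.le, indicator_of_notMem (by simpa using h), indicator_of_mem (mem_Ioi.2 h)]
      simp
  have key := haz_gen (F := fun y => cv T 1 G2 y - β * E y) (B := 1 / T * B) hi hz
    (Hi.sub (Ei.const_mul β)) (fun y => sub_nonneg.2 (E1 y)) fun y => by
      rw [norm_of_nonneg (sub_nonneg.2 (E1 y))]
      have := Hb y
      rw [norm_of_nonneg (H0 y)] at this
      linarith [mul_nonneg β0 (E0 y)]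
  have e3 : ∀ y, (T * (∫ s in Iic y, (cv T 1 G2 s - β * E s)) - (cv T 1 G2 y - β * E y)) * φ y =
      gg P (u * exp (-y)) * φ y - β * (Ioi b).indicator φ y := fun y => by
    have : (Ioi b).indicator φ y = (Ioi b).indicator (fun _ => (1 : ℝ)) y * φ y := by
      by_cases h : y ∈ Ioi b <;> simp [h]
    rw [integral_sub Hi.integrableOn (Ei.const_mul β).integrableOn, integral_const_mul, c1 y, this, ← c2 y]
    ring
  obtain ⟨A, hA⟩ := gg_bdd P
  have i1 : Integrable fun y => gg P (u * exp (-y)) * φ y :=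
    hi.bdd_mul (c := A) (by fun_prop) (Eventually.of_forall fun y => hA _ (by positivity))
  simp only [e3] at key
  rw [integral_sub i1 ((hi.indicator measurableSet_Ioi).const_mul β), integral_const_mul,
    integral_indicator measurableSet_Ioi] at key
  linarith

variable {D : ℝ} {J m : ℕ}

theorem pos2 {T τ a : ℝ} (h : HH D m (T + 1 + τ)) (J1 : 1 ≤ J) (m12 : 12 ≤ m) (τ0 : 0 < τ)
    (T12 : 12 ≤ T) (hS : √(LL J * (T + 1 + τ)) / τ ≤ 1) (c : mm D J m (T + 1 + τ) ≤ a) :
    exp (-(T * a)) * Pr D J m (T + 1) / 2 ≤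
      ∫ t in Ioi 0, exp (-(T * t)) * gg (X * PP D J m) (exp a * exp (-1 * t)) := by
  have h' : HH D m (T + 1) := ⟨by linarith, by linarith [h.x2], h.D0, h.Dm⟩
  have u0 := exp_pos a
  simp only [gg_X]
  have e : ∀ t, exp (-(T * t)) * (exp a * exp (-1 * t) * gg (sh (PP D J m)) (exp a * exp (-1 * t))) =
      exp a * (exp (-((T + 1) * t)) * gg (sh (PP D J m)) (exp a * exp (-1 * t))) := fun t => by
    rw [show -((T + 1) * t) = -(T * t) + -1 * t by ring, exp_add]; ring
  simp only [e, integral_const_mul]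
  set A := exp (-((T + 1 + τ) * a)) * Pr D J m (T + 1 + τ) * (√(LL J * (T + 1 + τ)) / 2) with hA
  have b : ∀ t, ‖exp (-((T + 1) * t)) * gg (sh (PP D J m)) (exp a * exp (-1 * t))‖ ≤ A * exp (τ * t) := fun t => by
    rw [norm_mul, norm_eq_abs, abs_exp, ← exp_add]
    refine (mul_le_mul_of_nonneg_left (h.abs_le J1 (by linarith) m12 _) (exp_pos _).le).trans (le_of_eq ?_)
    rw [hA, ← mul_assoc, ← mul_assoc, ← exp_add, show -((T + 1) * t) + -((T + 1 + τ) * (a + -1 * t)) =
      -((T + 1 + τ) * a) + τ * t by ring, exp_add]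
    ring
  have i1 := (integrableOn_exp_mul_Iic τ0 0).const_mul A
  have i2 := i1.mono' (g := fun t => A * exp (τ * t)) (by fun_prop) (Eventually.of_forall b)
  have i3 := setIntegral_union (Set.Iic_disjoint_Ioi le_rfl) measurableSet_Ioi i2
    (conv_int (sh (PP D J m)) (z := T + 1) (by linarith) u0.le (-1))
  rw [Set.Iic_union_Ioi, setIntegral_univ, gg_total (by linarith)] at i3
  have i4 := (le_abs_self _).trans (norm_integral_le_of_norm_le i1 (Eventually.of_forall b))
  rw [integral_const_mul, integral_exp_mul_Iic τ0, mul_zero, exp_zero] at i4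
  have p0 := h.Pr_pos (J := J)
  have p1 := h'.Pr_pos (J := J)
  have i5 := congrArg norm (h.Ps_phi (J := J) (-τ))
  rw [show ((T + 1 + τ : ℝ) : ℂ) + -τ = (T + 1 : ℝ) by push_cast; ring, Ps_eq, norm_mul, norm_mul,
    Complex.norm_real, Complex.norm_real, norm_of_nonneg p0.le, norm_of_nonneg p1.le, Complex.norm_exp,
    ← Complex.ofReal_neg, ← Complex.ofReal_mul, Complex.ofReal_re, Complex.ofReal_neg] at i5
  have i6 : 1 ≤ ‖phi D J m (T + 1 + τ) (-τ)‖ :=
    (one_le_exp (by positivity)).trans (h.gap (J := J) (by omega) τ0.le (by linarith))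
  have i7 : exp (-((T + 1 + τ) * a)) ≤ exp (-((T + 1) * a)) * exp (-τ * mm D J m (T + 1 + τ)) := by
    rw [← exp_add, exp_le_exp]
    nlinarith
  have i8 : exp (-((T + 1 + τ) * a)) * Pr D J m (T + 1 + τ) ≤ exp (-((T + 1) * a)) * Pr D J m (T + 1) := by
    rw [i5]
    calc _ ≤ exp (-((T + 1) * a)) * exp (-τ * mm D J m (T + 1 + τ)) * Pr D J m (T + 1 + τ) := by gcongr
      _ = exp (-((T + 1) * a)) * (Pr D J m (T + 1 + τ) * (1 * exp (-τ * mm D J m (T + 1 + τ)))) := by ring
      _ ≤ _ := by gcongr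
  have i9 : A * (1 / τ) ≤ exp (-((T + 1) * a)) * Pr D J m (T + 1) / 2 := by
    calc A * (1 / τ) = exp (-((T + 1 + τ) * a)) * Pr D J m (T + 1 + τ) * (√(LL J * (T + 1 + τ)) / τ) / 2 := by
          rw [hA]; ring
      _ ≤ exp (-((T + 1) * a)) * Pr D J m (T + 1) * 1 / 2 := by gcongr
      _ = _ := by ring
  have e4 : exp (-(T * a)) = exp a * exp (-((T + 1) * a)) := by rw [← exp_add]; congr 1; ring
  rw [e4, mul_assoc, mul_div_assoc]
  apply mul_le_mul_of_nonneg_left _ u0.le
  linarith

lemma gamma_ge {T : ℝ} (hT : 1 ≤ T) : exp ((T - 1) * log T - T - 1) ≤ Gamma T := by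
  have T0 : 0 < T := by linarith
  rw [Gamma_eq_integral T0]
  have i := GammaIntegral_convergent T0
  have a1 : ∫ x in Icc T (T + 1), exp ((T - 1) * log T - T - 1) ≤
      ∫ x in Icc T (T + 1), exp (-x) * x ^ (T - 1) := by
    refine setIntegral_mono_on (integrableOn_const measure_Icc_lt_top.ne)
      (i.mono_set fun x hx => lt_of_lt_of_le T0 hx.1) measurableSet_Icc fun x hx => ?_
    rw [rpow_def_of_pos (lt_of_lt_of_le T0 hx.1), ← exp_add, exp_le_exp]
    have := mul_le_mul_of_nonneg_left (log_le_log T0 hx.1) (sub_nonneg.2 hT)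
    linarith [hx.2]
  have a2 : ∫ x in Icc T (T + 1), exp (-x) * x ^ (T - 1) ≤ ∫ x in Ioi 0, exp (-x) * x ^ (T - 1) := by
    refine setIntegral_mono_set i ?_ (LE.le.eventuallyLE fun x hx => lt_of_lt_of_le T0 hx.1)
    filter_upwards [ae_restrict_mem measurableSet_Ioi] with x hx
    have : 0 < x := hx
    positivity
  simpa using a1.trans a2

end Pool.Agent.Lib.MP_30f764_gt.Ml
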