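import Pool.Agent.Lib.MP_30f764_gt.NNeg

/-! Auxiliary functions for `α ≥ π²/2` and the lower bound for the energy. -/

set_option autoImplicit false

namespace Pool.Agent.Lib.MP_30f764_gt.Ml

open Polynomial Real Filter Topology MeasureTheory Set

theorem ex_fin {J : ℕ} (J1 : 1 ≤ J) {η κ : ℝ} (η0 : 0 < η) (η1 : η ≤ 1 / 10) (hκ : κ = η / (1800 * J ^ 2)) :
    ∀ᶠ n : ℕ in atTop, ∀ α : ℝ, 0 < α → ∃ H hh : EE n → ℝ, Integrable H ∧ (∀ ξ ≠ 0, 0 ≤ H ξ) ∧
      (∀ x, hh x = ∫ ξ, H ξ * cos (2 * inner ℝ x ξ)) ∧ Integrable hh ∧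
      (∀ x ≠ 0, hh x ≤ exp (-α * ‖x‖ ^ 2)) ∧ (∀ x, n / 2 * exp (11 * J * η) ≤ α * ‖x‖ ^ 2 → hh x ≤ 0) ∧
      (1 - exp (-(4 * J * κ ^ 2 * (n / 2)))) * (π / α) ^ ((n : ℝ) / 2) ≤ ∫ x, hh x ∧
      hh 0 ≤ exp (-(n / 2 * (log (Wallis.W J) - 9 * J * η)) + 1 / η) := by
  have J2 : (1 : ℝ) ≤ J := by exact_mod_cast J1
  have k0 : 0 < κ := by rw [hκ]; positivity
  have k1 : 48 * J * κ + η / (40 * J) ≤ η / (18 * J) := by
    rw [hκ, show 48 * J * (η / (1800 * J ^ 2)) + η / (40 * J) = η / J * (48 / 1800 + 1 / 40) by field_simp,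
      show η / (18 * J) = η / J * (1 / 18) by field_simp]
    gcongr; norm_num
  have k2 : η / (18 * J) ≤ η / 18 := by gcongr; linarith
  have k3 : 0 < η / (40 * J) := by positivity
  have k4 : κ ≤ J * κ := le_mul_of_one_le_left k0.le J2
  have tD : Tendsto (fun n : ℕ => (n : ℝ) / 2) atTop atTop :=
    tendsto_natCast_atTop_atTop.atTop_div_const two_pos
  obtain ⟨y, y12, hy⟩ : ∃ y : ℝ, 12 ≤ y ∧ (3 * J + 2) * LL J ^ 2 * 6 ≤ √y :=
    ⟨max 12 (((3 * J + 2) * LL J ^ 2 * 6) ^ 2), le_max_left _ _, le_sqrt_of_sq_le (le_max_right _ _)⟩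
  have t1 := (tendsto_exp_neg_atTop_nhds_zero.comp (tD.const_mul_atTop
    (show 0 < 4 * J * κ ^ 2 by positivity))).const_mul 3
  filter_upwards [eventually_ge_atTop 1, tD.eventually_ge_atTop y, tD.eventually_ge_atTop (4 * LL J / η ^ 2),
    tD.eventually_ge_atTop (40 * J / η ^ 2), t1.eventually_lt_const (show 3 * 0 < (1 : ℝ) by norm_num),
    tD.eventually_ge_atTop (2 * J * exp (y * exp J * exp (2 * J + 2) + y * exp J)),
    tD.eventually_ge_atTop ((1 / η ^ 2) ^ 2)] with n n1 c1 c2 c3 c4 c5 c6 α hα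
  simp only [Function.comp] at c4
  set D : ℝ := n / 2 with hD
  have D0 : 0 < D := by linarith
  have e0 : 0 < η * D := by positivity
  have e1 : 10 * (η * D) ≤ D := by nlinarith
  have e2 : 1 / (η * D) ≤ η / (40 * J) := by
    rw [div_le_div_iff₀ e0 (by positivity)]; rw [div_le_iff₀ (by positivity)] at c3; linarith
  have e3 : 1 ≤ η * D := by rw [← div_le_one e0]; nlinarith
  have e4 : κ * D ≤ η * D := by gcongr; linarith
  have e5 : 0 < 1 / (η * D) := by positivity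
  obtain ⟨m, m1, m2⟩ : ∃ m : ℕ, D + 4 * (η * D) ≤ m ∧ m ≤ (1 + 5 * η) * D :=
    ⟨_, Nat.le_ceil _, by linarith [Nat.ceil_lt_add_one (show 0 ≤ D + 4 * (η * D) by positivity)]⟩
  have Dm : D ≤ m := by linarith
  have m12 : 12 ≤ m := by exact_mod_cast (show (12 : ℝ) ≤ m by linarith)
  obtain ⟨l, h⟩ := PP_rep D0.le Dm J1 (by omega)
  have md : ∀ s, κ * D ≤ s → s ≤ D → ∃ M, Uni (fun y => exp (s * y) * l y) M ∧
      |M - mu D J m s| ≤ 3 * (8 * J * κ) := fun s s1 s2 => by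
    obtain ⟨M, hM⟩ := h.uni s ⟨le_trans (by positivity) s1, by linarith⟩
    exact ⟨M, hM, near h J1 D0 Dm k0 (by linarith) ⟨s1, s2⟩ c4 hM⟩
  obtain ⟨M1, u1, v1⟩ := md D (by linarith) le_rfl
  obtain ⟨b, u2, v2⟩ := md (D - η * D) (by linarith) (by linarith)
  obtain ⟨M3, u3, v3⟩ := md (D - 2 * (η * D)) (by linarith) (by linarith)
  have w1 := mu_sep J1 D0 Dm (by linarith) η0.le (s := D - η * D) (by linarith) (by linarith)
  have w2 := mu_sep J1 D0 Dm (by linarith) η0.le (s := D - 2 * (η * D)) (by linarith) (by linarith)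
  have w3 := mu_ge (J := J) D0 Dm (by linarith) m2 e3
  rw [sub_add_cancel] at w1
  rw [show D - 2 * (η * D) + η * D = D - η * D by ring] at w2
  have hS : √(LL J * (D + η * D + 1 + η * D)) / (η * D) ≤ 1 := by
    rw [div_le_iff₀ (by positivity)] at c2
    rw [div_le_one (by positivity), sqrt_le_left (by positivity)]
    have : 0 ≤ LL J := by unfold LL; positivity
    calc _ ≤ LL J * (4 * D) := by gcongr; linarith
      _ = 4 * LL J * D := by ring
      _ ≤ D * η ^ 2 * D := by gcongr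
      _ = _ := by ring
  have hbig : 1 ≤ η ^ 2 * √D := by
    have := le_sqrt_of_sq_le c6
    rwa [div_le_iff₀' (by positivity)] at this
  have nk := neg_key h J1 η0 η1 k0 (by linarith) (by linarith) m1 e3 c4 u2 v2 hS hbig
  rw [abs_le] at v1 v2 v3
  obtain ⟨H, hh, z1, z2, z3, z4, z5, z6, z7, z8⟩ := ex_cut n1 hD (h.mono (by linarith)) PP_sym
    (PP_nn ⟨le_rfl, D0.le⟩) e0 (σ := D - η * D)
      ⟨by linarith, by linarith⟩ (pos_main (τ := η * D) ⟨by linarith, by linarith, D0.le, Dm⟩ J1 m12 e0 y12 hy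
      (by linarith) (by linarith) (le_trans (by
        rw [div_right_comm]; linarith) (one_le_exp (by positivity)))) u2 (fun y hy => by
      have := u3.2 (show M3 ≤ y by linarith [hy.1]) (show M3 ≤ b by linarith) hy.2
      exact le_of_mul_le_mul_left (this.trans (mul_le_mul_of_nonneg_right (exp_le_exp.2
        (mul_le_mul_of_nonneg_left hy.2 (by linarith))) (h.nn y))) (exp_pos _))
      (fun y hy => u1.1 (show b ≤ M1 by linarith) (show y ≤ M1 by linarith [hy.2]) hy.1)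
      (tail h D0 Dm k0.le (by linarith) ⟨by linarith, le_rfl⟩ (Or.inr rfl) measurableSet_Iic
      fun y hy => by linarith [mem_Iic.1 hy]) hα (by positivity) nk
  refine ⟨H, hh, z1, z2, z3, z4, z5, z6, z7, z8.trans (exp_le_exp.2 ?_)⟩
  have : η ≤ J * η := le_mul_of_one_le_left η0.le J2
  have := mul_le_mul_of_nonneg_left (show log (Wallis.W J) - 9 * J * η ≤ b by linarith) D0.le
  linarith [show D * (1 / (η * D)) = 1 / η by field_simp]

/-- Choice of the parameters. -/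
lemma params {α c : ℝ} (hα : π ^ 2 / 2 ≤ α) (hc : c < √(2 * exp 1 / π) * exp (-α / π ^ 2)) :
    ∃ (J : ℕ) (η a : ℝ), 1 ≤ J ∧ 0 < η ∧ η ≤ 1 / 10 ∧ 0 < a ∧ a ≤ α ∧
      log (a / π) < log (Wallis.W J) - 9 * J * η ∧
      c < √(π / a) * exp (-((α - a) / a * exp (11 * J * η) / 2)) := by
  have hpi := pi_pos
  have hb : 0 < π ^ 2 / 2 := by positivity
  have e3 : √(2 * exp 1 / π) * exp (-α / π ^ 2) =
      √(π / (π ^ 2 / 2)) * exp (-((α - π ^ 2 / 2) / (π ^ 2 / 2) * exp 0 / 2)) := by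
    rw [show 2 * exp 1 / π = π / (π ^ 2 / 2) * exp 1 by field_simp, sqrt_mul (by positivity), ← exp_half,
      mul_assoc, ← exp_add, exp_zero]
    congr 2
    field_simp
    ring
  have c1 : ContinuousAt (fun a : ℝ => √(π / a) * exp (-((α - a) / a * exp 0 / 2))) (π ^ 2 / 2) := by
    have := hb.ne'
    fun_prop (disch := assumption)
  rw [e3] at hc
  obtain ⟨a, ⟨a1, a2⟩, a3⟩ := ((((c1.eventually (lt_mem_nhds hc)).and (lt_mem_nhds hb)).filter_mono
    nhdsWithin_le_nhds).and (self_mem_nhdsWithin (a := π ^ 2 / 2) (s := Iio (π ^ 2 / 2)))).exists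
  have a4 : a < π ^ 2 / 2 := a3
  obtain ⟨J, hJ, J1⟩ := ((Wallis.tendsto_W_nhds_pi_div_two.eventually_const_lt
    (show a / π < π / 2 by rw [div_lt_iff₀ hpi]; linarith)).and (eventually_ge_atTop 1)).exists
  have δ0 := log_lt_log (by positivity) hJ
  have c2 : ContinuousAt (fun η : ℝ => √(π / a) * exp (-((α - a) / a * exp (11 * J * η) / 2))) 0 := by
    fun_prop
  have c3 : ContinuousAt (fun η : ℝ => log (Wallis.W J) - 9 * J * η) 0 := by fun_prop
  obtain ⟨η, ⟨⟨b1, b2⟩, b3⟩, b4⟩ := (((((c2.eventually (lt_mem_nhds (by simpa using a1))).and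
    (c3.eventually (lt_mem_nhds (by simpa using δ0)))).and
    (gt_mem_nhds (show (0 : ℝ) < 1 / 10 by norm_num))).filter_mono nhdsWithin_le_nhds).and
    (self_mem_nhdsWithin (a := (0 : ℝ)) (s := Ioi 0))).exists
  exact ⟨J, η, a, J1, b4, le_of_lt b3, a2, by linarith, b2, b1⟩

theorem ex_lp {α ρ c : ℝ} (hα : π ^ 2 / 2 ≤ α) (hρ : 0 < ρ)
    (hc : c < √(2 * exp 1 / π) * exp (-α / π ^ 2)) (c0 : 0 < c) :
    ∀ᶠ n : ℕ in atTop, ∃ H h g : EE n → ℝ, Integrable H ∧ (∀ ξ ≠ 0, 0 ≤ H ξ) ∧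
      (∀ x, h x = ∫ ξ, H ξ * cos (2 * inner ℝ x ξ)) ∧ Integrable h ∧
      (∀ x ≠ 0, h x ≤ exp (-α * ‖x‖ ^ 2)) ∧ Integrable g ∧ (∀ x, 0 ≤ g x) ∧ (∀ x ≠ 0, h x ≤ g x) ∧
      c ^ n ≤ ρ * (2 * (∫ x, h x) - ∫ x, g x) - h 0 := by
  obtain ⟨J, η, a, J1, η0, η1, a0, a1, a2, a3⟩ := params hα hc
  have hpi := pi_pos
  have J2 : (0 : ℝ) < J := by exact_mod_cast J1
  have tD : Tendsto (fun n : ℕ => (n : ℝ) / 2) atTop atTop :=
    tendsto_natCast_atTop_atTop.atTop_div_const two_pos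
  set δ := log (Wallis.W J) - 9 * J * η - log (a / π) with hδ
  have δ0 : 0 < δ := by linarith
  have t1 := tendsto_exp_neg_atTop_nhds_zero.comp (tD.const_mul_atTop
    (show 0 < 4 * J * (η / (1800 * J ^ 2)) ^ 2 by positivity))
  have t2 := (tendsto_exp_neg_atTop_nhds_zero.comp (tD.const_mul_atTop δ0)).mul_const (exp (1 / η))
  set c₁ := √(π / a) * exp (-((α - a) / a * exp (11 * J * η) / 2)) with hc₁
  have c10 : 0 < c₁ := by positivity
  have t3 := tendsto_pow_atTop_nhds_zero_of_lt_one (r := c / c₁) (by positivity) ((div_lt_one c10).2 a3)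
  filter_upwards [ex_fin J1 η0 η1 rfl, t1.eventually_lt_const (show (0 : ℝ) < 1 / 4 by norm_num),
    t2.eventually_lt_const (show 0 * exp (1 / η) < ρ / 4 by simpa using hρ),
    t3.eventually_lt_const (show (0 : ℝ) < ρ / 4 by linarith)] with n hl h1 h2 h3
  simp only [Function.comp] at h1 h2
  obtain ⟨H, hh, z1, z2, z3, z4, z5, z6, z7, z8⟩ := hl a a0
  set lam := exp (-((α - a) / a * (n / 2 * exp (11 * J * η)))) with hlam
  have l0 : 0 < lam := exp_pos _
  refine ⟨fun ξ => lam * H ξ, fun x => lam * hh x, fun x => lam * exp (-a * ‖x‖ ^ 2), z1.const_mul _,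
    fun ξ hξ => mul_nonneg l0.le (z2 ξ hξ), fun x => ?_, z4.const_mul _, fun x hx => ?_,
    (gauss_integrable a0).const_mul _, fun x => by positivity,
    fun x hx => mul_le_mul_of_nonneg_left (z5 x hx) l0.le, ?_⟩
  · simp only [z3 x, mul_assoc, integral_const_mul]
  · rcases le_total (n / 2 * exp (11 * J * η)) (a * ‖x‖ ^ 2) with g | g
    · exact (mul_nonpos_of_nonneg_of_nonpos l0.le (z6 x g)).trans (exp_pos _).le
    · refine (mul_le_mul_of_nonneg_left (z5 x hx) l0.le).trans ?_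
      rw [hlam, ← exp_add, exp_le_exp]
      have := mul_le_mul_of_nonneg_left g (show 0 ≤ (α - a) / a from div_nonneg (by linarith) a0.le)
      rw [show (α - a) / a * (a * ‖x‖ ^ 2) = (α - a) * ‖x‖ ^ 2 by field_simp] at this
      linarith
  · rw [integral_const_mul, integral_const_mul, gauss_int a0]
    set G := (π / a) ^ ((n : ℝ) / 2) with hG
    have G0 : 0 < G := by positivity
    have e1 : c₁ ^ n = lam * G := by
      rw [hc₁, mul_pow, ← exp_nat_mul, hG, sqrt_eq_rpow, ← rpow_natCast, ← rpow_mul (by positivity), mul_comm, hlam]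
      congr 2 <;> ring
    have e2 : exp (-(n / 2 * (log (Wallis.W J) - 9 * J * η)) + 1 / η) =
        exp (-(δ * (n / 2))) * exp (1 / η) * G := by
      rw [hG, rpow_def_of_pos (by positivity), ← exp_add, ← exp_add, hδ, ← inv_div a π, log_inv]
      congr 1
      ring
    rw [div_pow, div_lt_iff₀ (by positivity), e1] at h3
    rw [e2] at z8
    have b1 : hh 0 ≤ ρ / 4 * G := z8.trans (mul_le_mul_of_nonneg_right h2.le G0.le)
    have b2 : 3 / 4 * G ≤ ∫ x, hh x := le_trans (mul_le_mul_of_nonneg_right (by linarith) G0.le) z7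
    have b3 := mul_le_mul_of_nonneg_left b1 l0.le
    have b4 := mul_le_mul_of_nonneg_left b2 (mul_pos hρ l0).le
    nlinarith

theorem energy_lower {α ρ c : ℝ} (hα : π ^ 2 / 2 ≤ α) (hρ : 0 < ρ)
    (hc : c < √(2 * exp 1 / π) * exp (-α / π ^ 2)) (c0 : 0 < c) :
    ∀ᶠ n : ℕ in atTop, ENNReal.ofReal (c ^ n) ≤ minEnergy n α ρ := by
  filter_upwards [ex_lp hα hρ hc c0, eventually_ge_atTop 1] with n hn n1
  obtain ⟨H, h, g, z1, z2, z3, z4, z5, z6, z7, z8, z9⟩ := hn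
  exact (ENNReal.ofReal_le_ofReal z9).trans (lp2 n1 z1 z2 z3 z4 z5 z6 z7 z8 hρ)

end Pool.Agent.Lib.MP_30f764_gt.Ml
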