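import Pool.Agent.Lib.MP_30f764_gt.NCut

/-! The auxiliary function is nonpositive outside a ball. -/

set_option autoImplicit false

namespace Pool.Agent.Lib.MP_30f764_gt.Ml

open Polynomial Real Filter Topology MeasureTheory Set

variable {D s t : ℝ} {J m : ℕ} {l : ℝ → ℝ}

lemma mm_eq (s : ℝ) : mm D J m (s + 1) = psi (s + 1) - mu D J m s := by
  rw [mm, mu, Finset.sum_sub_distrib]
  have e1 : ∑ p ∈ II J m, 1 / (s + 1 + ((aa m p + m : ℕ) : ℝ)) =
      ∑ p ∈ II J m, 1 / (((aa m p + m : ℕ) : ℝ) + 1 + s) :=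
    Finset.sum_congr rfl fun p _ => by congr 1; ring
  have e2 : ∑ p ∈ II J m, 1 / dr D m (s + 1) p =
      ∑ p ∈ II J m, 1 / (D + ((aa m p + m : ℕ) : ℝ) + 1 - s) :=
    Finset.sum_congr rfl fun p _ => by rw [dr]; congr 1; ring
  rw [e1, e2]
  ring

lemma mu_mono (s0 : 0 ≤ s) (st : s ≤ t) (tm : t ≤ D + m) : mu D J m s ≤ mu D J m t := by
  rw [mu, mu]
  refine Finset.sum_le_sum fun p _ => ?_
  have z1 := z_ge (m := m) p
  have z0 : (0 : ℝ) ≤ m := Nat.cast_nonneg m
  generalize ((aa m p + m : ℕ) : ℝ) = z at *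
  have a1 : 1 / (D + z + 1 - s) ≤ 1 / (D + z + 1 - t) := one_div_le_one_div_of_le (by linarith) (by linarith)
  have a2 : 1 / (z + 1 + t) ≤ 1 / (z + 1 + s) := one_div_le_one_div_of_le (by linarith) (by linarith)
  linarith

lemma mode_ge {ψ : ℝ → ℝ} {M c μ ε δ : ℝ} (h : Uni ψ M) (hi : Integrable ψ) (h0 : ∀ y, 0 ≤ ψ y) (hc : 0 ≤ c)
    (h1 : c * ∫ y, ψ y = 1) (hε : 0 < ε) (ε1 : 2 * ε ≤ 1) (r : c * ∫ y in Ici (μ + ε), ψ y ≤ δ)
    (l : c * ∫ y in Iic (μ - ε), ψ y ≤ δ) (hδ : 3 * δ < 1) : 1 / 3 ≤ c * ψ M := by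
  have sub : ∀ {A B : Set ℝ}, A ⊆ B → ∫ y in A, ψ y ≤ ∫ y in B, ψ y := fun g =>
    setIntegral_mono_set hi.integrableOn (Eventually.of_forall h0) g.eventuallyLE
  have t : ∫ y, ψ y ≤ (∫ y in Iic (μ - ε), ψ y) + ((∫ y in Icc (μ - ε) (μ + ε), ψ y) +
      ∫ y in Ici (μ + ε), ψ y) := by
    rw [← integral_add_compl (s := Iic (μ - ε)) measurableSet_Iic hi, compl_Iic, add_le_add_iff_left,
      ← Ioc_union_Ioi_eq_Ioi (show μ - ε ≤ μ + ε by linarith), setIntegral_union Ioc_disjoint_Ioi_same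
      measurableSet_Ioi hi.integrableOn hi.integrableOn]
    exact add_le_add (sub Ioc_subset_Icc_self) (sub Ioi_subset_Ici_self)
  have t := mul_le_mul_of_nonneg_left t hc
  have a1 := int_le_const hi (a := μ - ε) (b := μ + ε) (c := ψ M) (by linarith) fun y _ => h.le y
  have a2 : (μ + ε - (μ - ε)) * ψ M ≤ ψ M := by nlinarith [h0 M]
  have a3 := mul_le_mul_of_nonneg_left (a1.trans a2) hc
  linarith

lemma log_le_sq {r : ℝ} (hr : 0 < r) : log r ≤ 2 * (√r - 1) := by
  have h := log_le_sub_one_of_pos (sqrt_pos.2 hr)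
  rw [log_sqrt hr.le] at h
  linarith

lemma neg_num {T u η : ℝ} (J2 : (1 : ℝ) ≤ J) (η0 : 0 < η) (D1 : 1 ≤ D) (T1 : D ≤ T) (T2 : T ≤ 4 * D)
    (hbig : 1 ≤ η ^ 2 * √D) (hu : T * exp (10 * J * η) ≤ u) :
    -u ≤ -(T * log u) + ((T - 1) * log T - T - 1) - 17 * J * η ^ 2 * D - 3 := by
  have T0 : 0 < T := by linarith
  obtain ⟨r, rfl⟩ : ∃ r, u = T * r := ⟨u / T, by field_simp⟩
  have r1 : exp (10 * J * η) ≤ r := le_of_mul_le_mul_left hu T0
  have r0 : 0 < r := lt_of_lt_of_le (exp_pos _) r1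
  have w1 : 5 * J * η + 1 ≤ √r := by
    refine (add_one_le_exp _).trans (le_sqrt_of_sq_le ?_)
    rw [← exp_nat_mul]
    refine le_trans (le_of_eq ?_) r1
    congr 1; push_cast; ring
  have w2 := log_le_sq r0
  have w3 := sq_sqrt r0.le
  have w0 : 0 < 5 * J * η := by positivity
  have w4 : (5 * J * η) ^ 2 ≤ r - 1 - log r := by nlinarith
  have w5 : 25 * J * η ^ 2 ≤ (5 * J * η) ^ 2 := by nlinarith [mul_pos (show (0 : ℝ) < J by linarith) (sq_pos_of_pos η0)]
  have w6 : D * (25 * J * η ^ 2) ≤ T * (r - 1 - log r) :=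
    mul_le_mul T1 (w5.trans w4) (by positivity) T0.le
  have s1 : 1 ≤ √D := one_le_sqrt.2 D1
  have s2 := sq_sqrt (show 0 ≤ D by linarith)
  have s3 : √T ≤ 2 * √D := by
    rw [sqrt_le_left (by positivity)]
    nlinarith
  have s4 := log_le_sq T0
  have s5 : √D ≤ η ^ 2 * D := by nlinarith
  have s6 : η ^ 2 * D ≤ J * η ^ 2 * D := by nlinarith [mul_pos (sq_pos_of_pos η0) (show 0 < D by linarith)]
  rw [log_mul T0.ne' r0.ne']
  nlinarith

lemma neg_key (h : Rep (2 * D) (PP D J m) l) (J1 : 1 ≤ J) {η κ b : ℝ} (η0 : 0 < η) (η1 : η ≤ 1 / 10)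
    (k0 : 0 < κ) (k1 : 48 * J * κ ≤ η) (D12 : 12 ≤ D) (m1 : D + 4 * (η * D) ≤ m) (e3 : 1 ≤ η * D)
    (hδ : 3 * exp (-(4 * J * κ ^ 2 * D)) < 1) (u2 : Uni (fun y => exp ((D - η * D) * y) * l y) b)
    (v2 : |b - mu D J m (D - η * D)| ≤ 3 * (8 * J * κ))
    (hS : √(LL J * (D + η * D + 1 + η * D)) / (η * D) ≤ 1) (hbig : 1 ≤ η ^ 2 * √D)
    (u : ℝ) (hu : D * exp (11 * J * η) ≤ u) : ∃ β, 0 ≤ β ∧
      exp (-u) ≤ β * (l b * (η * D + (D - η * D)) / (D + η * D + η * D) / (D + η * D)) ∧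
      ∀ s ≤ b, β * exp ((D + η * D) * (s - b)) ≤ ∫ t in Ioi 0, exp (-((D + η * D) * t)) *
        gg (X * PP D J m) (u * exp (-s) * exp (-1 * t)) := by
  have J2 : (1 : ℝ) ≤ J := by exact_mod_cast J1
  have D0 : 0 < D := by linarith
  have e0 : 0 < η * D := by positivity
  have e1 : 10 * (η * D) ≤ D := by nlinarith
  have Dm : D ≤ m := by linarith
  have m12 : 12 ≤ m := by exact_mod_cast (show (12 : ℝ) ≤ m by linarith)
  have k4 : κ ≤ J * κ := le_mul_of_one_le_left k0.le J2
  have k5 : η ≤ J * η := le_mul_of_one_le_left η0.le J2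
  have e4 : κ * D ≤ η * D := by gcongr; linarith
  set T := D + η * D with hT
  have T0 : 0 < T := by linarith
  have u0 : 0 < u := lt_of_lt_of_le (by positivity) hu
  have hu2 : T * exp (10 * J * η) ≤ u := by
    refine le_trans ?_ hu
    have : T ≤ D * exp (J * η) := by
      have := add_one_le_exp (J * η)
      nlinarith
    calc _ ≤ D * exp (J * η) * exp (10 * J * η) := by gcongr
      _ = _ := by rw [mul_assoc, ← exp_add]; congr 2; ring
  have hH : HH D m (T + 1 + η * D) := ⟨by linarith, by linarith, D0.le, Dm⟩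
  have hH' : HH D m (T + 1) := ⟨by linarith, by linarith, D0.le, Dm⟩
  have p1 := hH'.Pr_pos (J := J)
  rw [abs_le] at v2
  refine ⟨exp (-(T * (log u - b))) * Pr D J m (T + 1) / 2, by positivity, ?_, fun s hs => ?_⟩
  · have hσ : D - η * D ∈ Icc 0 D := ⟨by linarith, by linarith⟩
    have hσ2 : D - η * D ∈ Icc 0 (2 * D) := ⟨by linarith, by linarith⟩
    have a1 := mode_ge u2 (h.int _ hσ2) (fun y => mul_nonneg (exp_pos _).le (h.nn y)) (PP_nn hσ)
      (h.lap _ hσ2) (μ := mu D J m (D - η * D)) (ε := 8 * J * κ) (by positivity) (by linarith)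
      (tail h D0 Dm k0.le (by linarith) ⟨by linarith, hσ.2⟩ (Or.inl rfl) measurableSet_Ici fun y hy => by
        linarith [mem_Ici.1 hy])
      (tail h D0 Dm k0.le (by linarith) ⟨by linarith, hσ.2⟩ (Or.inr rfl) measurableSet_Iic fun y hy => by
        linarith [mem_Iic.1 hy]) hδ
    have a2 := chern (D := D) (J := J) (t := 2 * (η * D)) (show 1 ≤ m by omega) hσ
      (by rw [abs_of_pos (by linarith)]; linarith)
    rw [show D - η * D + 2 * (η * D) = T by rw [hT]; ring] at a2
    have lb := h.nn b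
    have m0 : (0 : ℝ) < m := by linarith
    have a3 : 4 * J * (2 * (η * D)) ^ 2 / m ≤ 16 * J * η ^ 2 * D := by
      rw [div_le_iff₀ m0]
      have : 0 < 16 * J * η ^ 2 * D := by positivity
      nlinarith
    have a4 : 2 * (η * D) * mu D J m (D - η * D) ≤ 2 * (η * D) * b + J * η ^ 2 * D := by
      have b1 : 2 * (η * D) * mu D J m (D - η * D) ≤ 2 * (η * D) * (b + η / 2) :=
        mul_le_mul_of_nonneg_left (by linarith) (by linarith)
      nlinarith [mul_pos (sq_pos_of_pos η0) D0]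
    have pT : 0 ≤ (PP D J m).eval T := by
      have := (PP_nn (J := J) (m := m) hσ).trans a2
      exact nonneg_of_mul_nonneg_left this (exp_pos _)
    have a5 : 1 / 3 ≤ (PP D J m).eval T * exp (T * b) * l b * exp (17 * J * η ^ 2 * D) := by
      refine a1.trans ((mul_le_mul_of_nonneg_right a2 (by positivity)).trans ?_)
      have : exp (2 * (η * D) * mu D J m (D - η * D) + 4 * J * (2 * (η * D)) ^ 2 / m) *
          exp ((D - η * D) * b) ≤ exp (T * b) * exp (17 * J * η ^ 2 * D) := by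
        rw [← exp_add, ← exp_add, exp_le_exp, hT]
        nlinarith
      calc _ = (PP D J m).eval T * l b * (exp (2 * (η * D) * mu D J m (D - η * D) +
            4 * J * (2 * (η * D)) ^ 2 / m) * exp ((D - η * D) * b)) := by ring
        _ ≤ (PP D J m).eval T * l b * (exp (T * b) * exp (17 * J * η ^ 2 * D)) := by gcongr
        _ = _ := by ring
    have a6 := gamma_ge (T := T) (by linarith)
    have a7 := exp_le_exp.2 (neg_num (D := D) J2 η0 (by linarith) (by linarith) (by linarith) hbig hu2)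
    have a8 : Pr D J m (T + 1) = (PP D J m).eval T * (T * Gamma T) := by
      rw [Pr, Gamma_add_one T0.ne', sh, eval_comp]
      simp
    have a9 : exp (-3) ≤ 1 / 12 := by
      rw [exp_neg, one_div]
      refine inv_anti₀ (by norm_num) ?_
      have := exp_one_gt_d9
      rw [show (3 : ℝ) = (3 : ℕ) * 1 by norm_num, exp_nat_mul]
      calc (12 : ℝ) ≤ 2.5 ^ 3 := by norm_num
        _ ≤ _ := by gcongr; linarith
    have a10 : 1 / 2 ≤ (η * D + (D - η * D)) / (T + η * D) := by
      rw [le_div_iff₀ (by linarith)]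
      linarith
    refine a7.trans ?_
    set L := (PP D J m).eval T * exp (T * b) * l b with hL
    have L0 : 0 ≤ L := by positivity
    have a11 : exp (-(17 * J * η ^ 2 * D)) / 3 ≤ L := by
      rw [exp_neg, div_le_iff₀ (by norm_num), inv_le_iff_one_le_mul₀ (exp_pos _)]
      linarith
    have G0 := Gamma_pos_of_pos T0
    calc _ = exp (-(T * log u)) * exp ((T - 1) * log T - T - 1) * (exp (-(17 * J * η ^ 2 * D)) / 3) *
          (3 * exp (-3)) := by
          rw [sub_eq_add_neg, sub_eq_add_neg (_ + _), exp_add, exp_add, exp_add]; ring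
      _ ≤ exp (-(T * log u)) * Gamma T * L * (1 / 2 / 2) := by
          gcongr
          linarith
      _ ≤ exp (-(T * log u)) * Gamma T * L * ((η * D + (D - η * D)) / (T + η * D) / 2) := by gcongr
      _ = _ := by
          rw [a8, hL, mul_sub, neg_sub, sub_eq_add_neg (T * b), exp_add]
          field_simp
  · have c : mm D J m (T + 1 + η * D) ≤ log u - s := by
      rw [show T + 1 + η * D = T + η * D + 1 by ring, mm_eq]
      have b1 := psi_le (x := T + η * D + 1) (by linarith)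
      have b2 := mu_mono (D := D) (J := J) (m := m) (s := D - η * D) (t := T + η * D) (by linarith)
        (by linarith) (by linarith)
      have b3 : log (T + η * D + 1) ≤ log (T * exp (2 * η)) := by
        refine log_le_log (by linarith) ?_
        have := add_one_le_exp (2 * η)
        nlinarith
      have b4 := log_le_log (by positivity) hu2
      rw [log_mul T0.ne' (exp_pos _).ne', log_exp] at b3 b4
      linarith
    have := pos2 hH J1 m12 e0 (by linarith) hS c
    rw [exp_sub, exp_log u0, div_eq_mul_inv u, ← exp_neg] at this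
    refine le_trans (le_of_eq ?_) this
    rw [show -(T * (log u - s)) = -(T * (log u - b)) + T * (s - b) by ring, exp_add]
    ring

end Pool.Agent.Lib.MP_30f764_gt.Ml
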